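import Mathlib
import Pool.Agent.Helper752.SquareLower

/-! Lower bounds for the length of a planar continuum through five points, by dual certificates. -/

set_option autoImplicit false

namespace Pool.Agent.H783Z.Five

open scoped ENNReal NNReal
open MeasureTheory Metric Pool.Agent.Helper752

/-- The pair `{i, j}` is split off by the laminar family `M`. -/
def Sp (M : Set (Finset (Fin 5))) (i j : Fin 5) : Prop :=
  ({i, j} : Finset (Fin 5)) ∈ M ∨ ({i, j} : Finset (Fin 5))ᶜ ∈ M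

theorem Sp.symm {M : Set (Finset (Fin 5))} {i j : Fin 5} (h : Sp M i j) : Sp M j i := by
  unfold Sp at *
  rwa [Finset.pair_comm j i]

theorem not_both {M : Set (Finset (Fin 5))} (hM : Laminar M) (i j k : Fin 5) (hij : i ≠ j)
    (hik : i ≠ k) (hjk : j ≠ k) (h1 : Sp M i j) (h2 : Sp M i k) : False := by
  rcases h1 with h1 | h1 <;> rcases h2 with h2 | h2
  · have h := hM _ h1 _ h2
    clear h1 h2 hM
    revert h hij hik hjk
    revert i j k
    decide
  · have h := hM _ h1 _ h2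
    clear h1 h2 hM
    revert h hij hik hjk
    revert i j k
    decide
  · have h := hM _ h1 _ h2
    clear h1 h2 hM
    revert h hij hik hjk
    revert i j k
    decide
  · have h := hM _ h1 _ h2
    clear h1 h2 hM
    revert h hij hik hjk
    revert i j k
    decide

theorem adm {M : Set (Finset (Fin 5))} (cx cy : Fin 5 → ℝ) (hx : ∑ i, cx i = 0)
    (hy : ∑ i, cy i = 0) (h1 : ∀ i, cx i ^ 2 + cy i ^ 2 ≤ 1)
    (h2 : ∀ i j, i ≠ j → Sp M i j → (cx i + cx j) ^ 2 + (cy i + cy j) ^ 2 ≤ 1) :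
    ∀ A ∈ M, (∑ i ∈ A, cx i) ^ 2 + (∑ i ∈ A, cy i) ^ 2 ≤ 1 := by
  have small : ∀ A : Finset (Fin 5), (A ∈ M ∨ Aᶜ ∈ M) → A.card ≤ 2 →
      (∑ i ∈ A, cx i) ^ 2 + (∑ i ∈ A, cy i) ^ 2 ≤ 1 := by
    intro A hA hc
    have : A.card = 0 ∨ A.card = 1 ∨ A.card = 2 := by omega
    rcases this with h | h | h
    · rw [Finset.card_eq_zero] at h
      subst h
      simp
    · obtain ⟨i, rfl⟩ := Finset.card_eq_one.1 h
      simpa using h1 i
    · obtain ⟨i, j, hij, rfl⟩ := Finset.card_eq_two.1 h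
      rw [Finset.sum_pair hij, Finset.sum_pair hij]
      exact h2 i j hij hA
  intro A hA
  by_cases hc : A.card ≤ 2
  · exact small A (Or.inl hA) hc
  · have hc' : Aᶜ.card ≤ 2 := by
      rw [Finset.card_compl, Fintype.card_fin]
      omega
    have h := small Aᶜ (Or.inr (by rwa [compl_compl])) hc'
    have ex := Finset.sum_add_sum_compl A cx
    have ey := Finset.sum_add_sum_compl A cy
    have e1 : ∑ i ∈ A, cx i = -∑ i ∈ Aᶜ, cx i := by linarith
    have e2 : ∑ i ∈ A, cy i = -∑ i ∈ Aᶜ, cy i := by linarith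
    rw [e1, e2, neg_sq, neg_sq]
    exact h

/-- The conclusion of the laminar lemma, for linear potentials with explicit coefficients. -/
def Dual (M : Set (Finset (Fin 5))) (p : Fin 5 → E2) (B : ℝ) : Prop :=
  ∀ x0 y0 x1 y1 x2 y2 x3 y3 x4 y4 : ℝ, x0 + x1 + x2 + x3 + x4 = 0 → y0 + y1 + y2 + y3 + y4 = 0 →
    x0 ^ 2 + y0 ^ 2 ≤ 1 → x1 ^ 2 + y1 ^ 2 ≤ 1 → x2 ^ 2 + y2 ^ 2 ≤ 1 → x3 ^ 2 + y3 ^ 2 ≤ 1 →
    x4 ^ 2 + y4 ^ 2 ≤ 1 →
    (Sp M 0 1 → (x0 + x1) ^ 2 + (y0 + y1) ^ 2 ≤ 1) →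
    (Sp M 0 2 → (x0 + x2) ^ 2 + (y0 + y2) ^ 2 ≤ 1) →
    (Sp M 0 3 → (x0 + x3) ^ 2 + (y0 + y3) ^ 2 ≤ 1) →
    (Sp M 0 4 → (x0 + x4) ^ 2 + (y0 + y4) ^ 2 ≤ 1) →
    (Sp M 1 2 → (x1 + x2) ^ 2 + (y1 + y2) ^ 2 ≤ 1) →
    (Sp M 1 3 → (x1 + x3) ^ 2 + (y1 + y3) ^ 2 ≤ 1) →
    (Sp M 1 4 → (x1 + x4) ^ 2 + (y1 + y4) ^ 2 ≤ 1) →
    (Sp M 2 3 → (x2 + x3) ^ 2 + (y2 + y3) ^ 2 ≤ 1) →
    (Sp M 2 4 → (x2 + x4) ^ 2 + (y2 + y4) ^ 2 ≤ 1) →
    (Sp M 3 4 → (x3 + x4) ^ 2 + (y3 + y4) ^ 2 ≤ 1) →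
    (x0 * p 0 0 + y0 * p 0 1) + (x1 * p 1 0 + y1 * p 1 1) + (x2 * p 2 0 + y2 * p 2 1)
      + (x3 * p 3 0 + y3 * p 3 1) + (x4 * p 4 0 + y4 * p 4 1) ≤ B

theorem five {K : Set E2} (hK : IsCompact K) (hc : IsConnected K) (p : Fin 5 → E2)
    (hp : ∀ i, p i ∈ K) (L : ℝ) (hL0 : 0 ≤ L) (hL : μH[1] K ≤ ENNReal.ofReal L) (ε : ℝ)
    (hε : 0 < ε) : ∃ M : Set (Finset (Fin 5)), Laminar M ∧ Dual M p (L + ε) := by
  obtain ⟨M, hM, -, h⟩ := exists_laminar hK hc p hp L hL0 hL ε hε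
  refine ⟨M, hM, ?_⟩
  intro x0 y0 x1 y1 x2 y2 x3 y3 x4 y4 hx hy a0 a1 a2 a3 a4 b01 b02 b03 b04 b12 b13 b14 b23 b24 b34
  have hx' : ∑ i, (![x0, x1, x2, x3, x4] : Fin 5 → ℝ) i = 0 := by
    simpa [Fin.sum_univ_five] using hx
  have hy' : ∑ i, (![y0, y1, y2, y3, y4] : Fin 5 → ℝ) i = 0 := by
    simpa [Fin.sum_univ_five] using hy
  have key := h (lin ![x0, x1, x2, x3, x4] ![y0, y1, y2, y3, y4]) ?_ ?_
  · simpa [Fin.sum_univ_five, lin] using key
  · intro A hA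
    apply lin_lipOn
    refine adm (M := M) _ _ hx' hy' ?_ ?_ A hA
    · intro i
      fin_cases i <;> simpa
    · intro i j hij hs
      fin_cases i <;> fin_cases j
      all_goals first
        | exact absurd rfl hij
        | (simp only [Fin.zero_eta, Fin.mk_one, Fin.reduceFinMk, Matrix.cons_val] at hs ⊢
           first
            | exact b01 hs | exact b02 hs | exact b03 hs | exact b04 hs | exact b12 hs
            | exact b13 hs | exact b14 hs | exact b23 hs | exact b24 hs | exact b34 hs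
            | (have := b01 hs.symm; linarith) | (have := b02 hs.symm; linarith)
            | (have := b03 hs.symm; linarith) | (have := b04 hs.symm; linarith)
            | (have := b12 hs.symm; linarith) | (have := b13 hs.symm; linarith)
            | (have := b14 hs.symm; linarith) | (have := b23 hs.symm; linarith)
            | (have := b24 hs.symm; linarith) | (have := b34 hs.symm; linarith))
  · intro x _
    have h4 : ∑ i, lin ![x0, x1, x2, x3, x4] ![y0, y1, y2, y3, y4] i x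
        = (∑ i, (![x0, x1, x2, x3, x4] : Fin 5 → ℝ) i) * x 0
          + (∑ i, (![y0, y1, y2, y3, y4] : Fin 5 → ℝ) i) * x 1 := by
      simp only [lin, Finset.sum_add_distrib, ← Finset.sum_mul]
    rw [h4, hx', hy']
    ring

/-- From a bound valid for every laminar family to a lower bound of the length. -/
theorem lower {K : Set E2} (hK : IsCompact K) (hc : IsConnected K) (p : Fin 5 → E2)
    (hp : ∀ i, p i ∈ K) (L : ℝ)
    (h : ∀ (M : Set (Finset (Fin 5))) (B : ℝ), Laminar M → Dual M p B → L ≤ B) :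
    ENNReal.ofReal L ≤ μH[1] K := by
  by_contra hlt
  push Not at hlt
  have hne : μH[1] K ≠ ∞ := ne_top_of_lt hlt
  have h1 : (μH[1] K).toReal < L := by
    have := (ENNReal.lt_ofReal_iff_toReal_lt hne).1 hlt
    exact this
  obtain ⟨M, hM, hD⟩ := five hK hc p hp (μH[1] K).toReal ENNReal.toReal_nonneg
    (by rw [ENNReal.ofReal_toReal hne]) ((L - (μH[1] K).toReal) / 2) (by linarith)
  have := h M _ hM hD
  linarith

end Pool.Agent.H783Z.Five
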