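import Mathlib
import Pool.Agent.H783Z.Five

/-! The two lower bounds: for the five terminals and for the five discs. -/

set_option autoImplicit false

namespace Pool.Agent.H783Z.Five

open scoped ENNReal NNReal
open MeasureTheory Metric Pool.Agent.Helper752

theorem boundA (s : ℝ) (hs : s ^ 2 = 3) (h1 : 1.732 < s) (h2 : s < 1.7321) (p : Fin 5 → E2)
    (a0 : p 0 0 = 2) (b0 : p 0 1 = 1 + s) (a1 : p 1 0 = 1) (b1 : p 1 1 = 1)
    (a2 : p 2 0 = -1) (b2 : p 2 1 = 1) (a3 : p 3 0 = -1) (b3 : p 3 1 = -1)
    (a4 : p 4 0 = 1) (b4 : p 4 1 = -1)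
    (M : Set (Finset (Fin 5))) (B : ℝ) (hM : Laminar M) (hD : Dual M p B) : 4 + 2 * s ≤ B := by
  have nb := not_both hM
  by_cases h02 : Sp M 0 2
  · by_cases h34 : Sp M 3 4
    · have h := hD (1/2) (17/20) (37/50) (1/10) (-49/50) (-1/100) (-19/20) (-1/4) (69/100) (-69/100)
        (by norm_num) (by norm_num) (by norm_num) (by norm_num) (by norm_num) (by norm_num)
        (by norm_num)
        (fun h => (nb 0 1 2 (by decide) (by decide) (by decide) h h02).elim)
        (fun _ => by norm_num) (fun _ => by norm_num)
        (fun h => (nb 0 4 2 (by decide) (by decide) (by decide) h h02).elim)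
        (fun _ => by norm_num) (fun _ => by norm_num)
        (fun h => (nb 4 1 3 (by decide) (by decide) (by decide) h.symm h34.symm).elim)
        (fun h => (nb 3 2 4 (by decide) (by decide) (by decide) h.symm h34).elim)
        (fun _ => by norm_num) (fun _ => by norm_num)
      rw [a0, b0, a1, b1, a2, b2, a3, b3, a4, b4] at h
      linarith
    · have h := hD (13/20) (73/100) (13/20) (73/100) (-24/25) (1/5) (-13/20) (-73/100) (31/100)
        (-93/100)
        (by norm_num) (by norm_num) (by norm_num) (by norm_num) (by norm_num) (by norm_num)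
        (by norm_num)
        (fun h => (nb 0 1 2 (by decide) (by decide) (by decide) h h02).elim)
        (fun _ => by norm_num) (fun _ => by norm_num) (fun _ => by norm_num)
        (fun _ => by norm_num) (fun _ => by norm_num) (fun _ => by norm_num)
        (fun h => (nb 2 3 0 (by decide) (by decide) (by decide) h h02.symm).elim)
        (fun _ => by norm_num) (fun h => (h34 h).elim)
      rw [a0, b0, a1, b1, a2, b2, a3, b3, a4, b4] at h
      linarith
  · by_cases h34 : Sp M 3 4
    · have h := hD (1/2) (s/2) ((s-1)/2) ((1-s)/2) (-s/2) (1/2) (-s/2) (-1/2) (s/2) (-1/2)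
        (by ring) (by ring) (by nlinarith) (by nlinarith) (by nlinarith) (by nlinarith)
        (by nlinarith)
        (fun _ => by nlinarith) (fun h => (h02 h).elim) (fun _ => by nlinarith)
        (fun h => (nb 4 0 3 (by decide) (by decide) (by decide) h.symm h34.symm).elim)
        (fun _ => by nlinarith) (fun _ => by nlinarith)
        (fun h => (nb 4 1 3 (by decide) (by decide) (by decide) h.symm h34.symm).elim)
        (fun h => (nb 3 2 4 (by decide) (by decide) (by decide) h.symm h34).elim)
        (fun _ => by nlinarith) (fun _ => by nlinarith)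
      rw [a0, b0, a1, b1, a2, b2, a3, b3, a4, b4] at h
      nlinarith
    · have h := hD (1/2) (s/2) 0 0 (-1/2) (s/2) (-1/2) (-s/2) (1/2) (-s/2)
        (by ring) (by ring) (by nlinarith) (by nlinarith) (by nlinarith) (by nlinarith)
        (by nlinarith)
        (fun _ => by nlinarith) (fun h => (h02 h).elim) (fun _ => by nlinarith)
        (fun _ => by nlinarith) (fun _ => by nlinarith) (fun _ => by nlinarith)
        (fun _ => by nlinarith) (fun _ => by nlinarith) (fun _ => by nlinarith)
        (fun h => (h34 h).elim)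
      rw [a0, b0, a1, b1, a2, b2, a3, b3, a4, b4] at h
      nlinarith

theorem coord (x : E2) (a b r : ℝ) (h : dist x !₂[a, b] ≤ r) :
    a - r ≤ x 0 ∧ x 0 ≤ a + r ∧ b - r ≤ x 1 ∧ x 1 ≤ b + r := by
  have h1 := lin_le 1 0 (by norm_num) x !₂[a, b]
  have h2 := lin_le (-1) 0 (by norm_num) x !₂[a, b]
  have h3 := lin_le 0 1 (by norm_num) x !₂[a, b]
  have h4 := lin_le 0 (-1) (by norm_num) x !₂[a, b]
  simp only [Matrix.cons_val_zero, Matrix.cons_val_one, Fin.isValue, PiLp.toLp_apply] at h1 h2 h3 h4
  refine ⟨?_, ?_, ?_, ?_⟩ <;> linarith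

theorem dirb (x : E2) (a b r c d : ℝ) (hcd : c ^ 2 + d ^ 2 ≤ 1) (h : dist x !₂[a, b] ≤ r) :
    c * a + d * b - r ≤ c * x 0 + d * x 1 := by
  have h1 := lin_le (-c) (-d) (by nlinarith) x !₂[a, b]
  simp only [Matrix.cons_val_zero, Matrix.cons_val_one, Fin.isValue, PiLp.toLp_apply] at h1
  linarith

theorem boundM (s : ℝ) (hs : s ^ 2 = 3) (h1 : 1.732 < s) (h2 : s < 1.7321) (p : Fin 5 → E2)
    (d0 : dist (p 0) !₂[2 + 1 / 2000, 1 + s + s / 2000] ≤ 1 / 1000)
    (d1 : dist (p 1) !₂[1 - s / 6, 1 / 2] ≤ 1 / 1000)
    (d2 : dist (p 2) !₂[-1 - 1 / 2000, 1 + s / 2000] ≤ 1 / 1000)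
    (d3 : dist (p 3) !₂[-1 - 1 / 2000, -1 - s / 2000] ≤ 1 / 1000)
    (d4 : dist (p 4) !₂[1 + 1 / 2000, -1 - s / 2000] ≤ 1 / 1000)
    (M : Set (Finset (Fin 5))) (B : ℝ) (hM : Laminar M) (hD : Dual M p B) : 4 + 2 * s ≤ B := by
  have nb := not_both hM
  obtain ⟨c01, c02, c03, c04⟩ := coord _ _ _ _ d0
  obtain ⟨c11, c12, c13, c14⟩ := coord _ _ _ _ d1
  obtain ⟨c21, c22, c23, c24⟩ := coord _ _ _ _ d2
  obtain ⟨c31, c32, c33, c34⟩ := coord _ _ _ _ d3
  obtain ⟨c41, c42, c43, c44⟩ := coord _ _ _ _ d4
  by_cases h02 : Sp M 0 2
  · by_cases h34 : Sp M 3 4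
    · have h := hD (119/200) (799/1000) (607/1000) (57/1000) (-989/1000) (29/250) (-949/1000)
        (-301/1000) (92/125) (-671/1000)
        (by norm_num) (by norm_num) (by norm_num) (by norm_num) (by norm_num) (by norm_num)
        (by norm_num)
        (fun h => (nb 0 1 2 (by decide) (by decide) (by decide) h h02).elim)
        (fun _ => by norm_num) (fun _ => by norm_num)
        (fun h => (nb 0 4 2 (by decide) (by decide) (by decide) h h02).elim)
        (fun _ => by norm_num) (fun _ => by norm_num)
        (fun h => (nb 4 1 3 (by decide) (by decide) (by decide) h.symm h34.symm).elim)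
        (fun h => (nb 3 2 4 (by decide) (by decide) (by decide) h.symm h34).elim)
        (fun _ => by norm_num) (fun _ => by norm_num)
      linarith
    · have h := hD (671/1000) (92/125) (671/1000) (92/125) (-973/1000) (107/500) (-67/100)
        (-737/1000) (301/1000) (-949/1000)
        (by norm_num) (by norm_num) (by norm_num) (by norm_num) (by norm_num) (by norm_num)
        (by norm_num)
        (fun h => (nb 0 1 2 (by decide) (by decide) (by decide) h h02).elim)
        (fun _ => by norm_num) (fun _ => by norm_num) (fun _ => by norm_num)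
        (fun _ => by norm_num) (fun _ => by norm_num) (fun _ => by norm_num)
        (fun h => (nb 2 3 0 (by decide) (by decide) (by decide) h h02.symm).elim)
        (fun _ => by norm_num) (fun h => (h34 h).elim)
      linarith
  · by_cases h34 : Sp M 3 4
    · by_cases h01 : Sp M 0 1
      · have h := hD (249/500) (431/500) (391/1000) (-83/200) (-831/1000) (547/1000) (-89/100)
          (-447/1000) (104/125) (-547/1000)
          (by norm_num) (by norm_num) (by norm_num) (by norm_num) (by norm_num) (by norm_num)
          (by norm_num)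
          (fun _ => by norm_num) (fun h => (h02 h).elim) (fun _ => by norm_num)
          (fun h => (nb 4 0 3 (by decide) (by decide) (by decide) h.symm h34.symm).elim)
          (fun _ => by norm_num) (fun _ => by norm_num)
          (fun h => (nb 4 1 3 (by decide) (by decide) (by decide) h.symm h34.symm).elim)
          (fun h => (nb 3 2 4 (by decide) (by decide) (by decide) h.symm h34).elim)
          (fun _ => by norm_num) (fun _ => by norm_num)
        linarith
      · have h := hD (249/500) (431/500) (671/1000) (-169/1000) (-239/250) (279/1000) (-949/1000)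
          (-301/1000) (92/125) (-671/1000)
          (by norm_num) (by norm_num) (by norm_num) (by norm_num) (by norm_num) (by norm_num)
          (by norm_num)
          (fun h => (h01 h).elim) (fun h => (h02 h).elim) (fun _ => by norm_num)
          (fun h => (nb 4 0 3 (by decide) (by decide) (by decide) h.symm h34.symm).elim)
          (fun _ => by norm_num) (fun _ => by norm_num)
          (fun h => (nb 4 1 3 (by decide) (by decide) (by decide) h.symm h34.symm).elim)
          (fun h => (nb 3 2 4 (by decide) (by decide) (by decide) h.symm h34).elim)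
          (fun _ => by norm_num) (fun _ => by norm_num)
        linarith
    · have h := hD (1/2) (s/2) 0 0 (-1/2) (s/2) (-1/2) (-s/2) (1/2) (-s/2)
        (by ring) (by ring) (by nlinarith) (by nlinarith) (by nlinarith) (by nlinarith)
        (by nlinarith)
        (fun _ => by nlinarith) (fun h => (h02 h).elim) (fun _ => by nlinarith)
        (fun _ => by nlinarith) (fun _ => by nlinarith) (fun _ => by nlinarith)
        (fun _ => by nlinarith) (fun _ => by nlinarith) (fun _ => by nlinarith)
        (fun h => (h34 h).elim)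
      have e0 := dirb _ _ _ _ (1/2) (s/2) (by nlinarith) d0
      have e2 := dirb _ _ _ _ (-1/2) (s/2) (by nlinarith) d2
      have e3 := dirb _ _ _ _ (-1/2) (-s/2) (by nlinarith) d3
      have e4 := dirb _ _ _ _ (1/2) (-s/2) (by nlinarith) d4
      nlinarith

end Pool.Agent.H783Z.Five
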