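import Mathlib

/-! Real contact manifolds, Reeb chords and symmetric periodic Reeb orbits.

`M` is a smooth manifold with model `I`. A one-form assigns to each point a continuous linear form
on the tangent space. -/

open scoped Topology ContDiff Manifold
open Set

noncomputable section

namespace Pool.Agent.H783Z.Contact

variable {E : Type*} [NormedAddCommGroup E] [NormedSpace ℝ E]
  {H : Type*} [TopologicalSpace H] (I : ModelWithCorners ℝ E H)
  {M : Type*} [TopologicalSpace M] [ChartedSpace H M]

/-- The one-form `α` read in the preferred chart at `x`: its pull back under the inverse chart. -/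
def chartForm (α : (x : M) → TangentSpace I x →L[ℝ] ℝ) (x : M) (y : E) : E →L[ℝ] ℝ :=
  (α ((extChartAt I x).symm y)).comp (mfderiv 𝓘(ℝ, E) I (extChartAt I x).symm y)

/-- The exterior derivative `dα (u, v) = (D_u α) v - (D_v α) u` at the point `x`, computed in the
preferred chart at `x` (whose differential at `x` is the identity of the model vector space). -/
def extDer (α : (x : M) → TangentSpace I x →L[ℝ] ℝ) (x : M) (u v : TangentSpace I x) : ℝ :=
  fderiv ℝ (chartForm I α x) (extChartAt I x x) u v -
    fderiv ℝ (chartForm I α x) (extChartAt I x x) v u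

/-- `α` is a contact form: it is smooth (as a function on the tangent bundle), vanishes nowhere, and
`dα` is nondegenerate on the hyperplane `ker α` at every point. -/
structure IsContactForm [IsManifold I ∞ M] (α : (x : M) → TangentSpace I x →L[ℝ] ℝ) : Prop where
  smooth : ContMDiff I.tangent 𝓘(ℝ, ℝ) ∞ (fun v : TangentBundle I M => α v.1 v.2)
  ne_zero : ∀ x, α x ≠ 0
  nondeg : ∀ (x : M) (u : TangentSpace I x), α x u = 0 →
    (∀ v : TangentSpace I x, α x v = 0 → extDer I α x u v = 0) → u = 0

/-- `R` is the Reeb vector field of `α`: `α (R) = 1` and `dα (R, ·) = 0`. -/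
structure IsReebField (α : (x : M) → TangentSpace I x →L[ℝ] ℝ)
    (R : (x : M) → TangentSpace I x) : Prop where
  unit : ∀ x, α x (R x) = 1
  kernel : ∀ (x : M) (v : TangentSpace I x), extDer I α x (R x) v = 0

/-- `ρ` is an anti-contact involution: a smooth map with `ρ ∘ ρ = id` and `ρ^* α = -α`. -/
structure IsAntiContactInvolution (α : (x : M) → TangentSpace I x →L[ℝ] ℝ) (ρ : M → M) : Prop where
  smooth : ContMDiff I I ∞ ρ
  invol : ∀ x, ρ (ρ x) = x
  anti : ∀ (x : M) (v : TangentSpace I x), α (ρ x) (mfderiv I I ρ x v) = -α x v

/-- `c` restricted to `[0, T]` is a Reeb chord: `T > 0`, `c` is an integral curve of `R` on `[0, T]`,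
and both end points are fixed by `ρ`. -/
structure IsReebChord (R : (x : M) → TangentSpace I x) (ρ : M → M) (c : ℝ → M) (T : ℝ) : Prop where
  pos : 0 < T
  integral : IsMIntegralCurveOn c R (Icc 0 T)
  start : ρ (c 0) = c 0
  finish : ρ (c T) = c T

/-- The doubled curve: `c t` for `t ≤ T` and `ρ (c (2T - t))` for `t > T`. -/
def doubled (ρ : M → M) (c : ℝ → M) (T t : ℝ) : M := if t ≤ T then c t else ρ (c (2 * T - t))

/-- The set of images of the symmetric periodic Reeb orbits: the images of `[0, 2T]` under the
doubled curves of all Reeb chords. Its elements are the geometrically distinct symmetric periodic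
Reeb orbits. -/
def symmetricOrbits (R : (x : M) → TangentSpace I x) (ρ : M → M) : Set (Set M) :=
  {Γ | ∃ (c : ℝ → M) (T : ℝ), IsReebChord I R ρ c T ∧ Γ = doubled ρ c T '' Icc 0 (2 * T)}

variable (M) in
/-- The manifold `M` carries the structure of a real contact manifold (a contact form, with its Reeb
field, and an anti-contact involution with nonempty fixed point set) which has exactly `k`
geometrically distinct symmetric periodic Reeb orbits. -/
def RealContactWithOrbitCount [IsManifold I ∞ M] (k : ℕ∞) : Prop :=
  ∃ (α : (x : M) → TangentSpace I x →L[ℝ] ℝ) (R : (x : M) → TangentSpace I x) (ρ : M → M),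
    IsContactForm I α ∧ IsReebField I α R ∧ IsAntiContactInvolution I α ρ ∧ (∃ x, ρ x = x) ∧
      (symmetricOrbits I R ρ).encard = k

end Pool.Agent.H783Z.Contact
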