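import Mathlib
import Pool.Agent.H783Z.ContactDefs

/-! Pull back of a one-form on a vector space under a smooth map from a manifold. -/

open scoped Topology ContDiff Manifold
open Set Bundle

noncomputable section

namespace Pool.Agent.H783Z.Contact

variable {E : Type*} [NormedAddCommGroup E] [NormedSpace ℝ E]
  {H : Type*} [TopologicalSpace H] {I : ModelWithCorners ℝ E H}
  {M : Type*} [TopologicalSpace M] [ChartedSpace H M] [IsManifold I ∞ M] [I.Boundaryless]
  {V : Type*} [NormedAddCommGroup V] [NormedSpace ℝ V]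

variable (I) in
/-- The differential of a vector valued map. -/
def dif (ι : M → V) (x : M) : TangentSpace I x →L[ℝ] V := mfderiv I 𝓘(ℝ, V) ι x

variable (I) in
/-- The pull back of the form `lam` under `ι`. -/
def pull (ι : M → V) (lam : V → V →L[ℝ] ℝ) (x : M) : TangentSpace I x →L[ℝ] ℝ :=
  (lam (ι x)).comp (dif I ι x)

theorem mfderiv_symm_self (x : M) (w : E) :
    mfderiv 𝓘(ℝ, E) I (extChartAt I x).symm (extChartAt I x x) w = w := by
  have h := mfderivWithin_extChartAt_symm_comp_mfderiv_extChartAt' (I := I) (x := x) (y := x)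
    (mem_extChartAt_source x)
  have h1 : mfderiv I 𝓘(ℝ, E) (extChartAt I x) x = ContinuousLinearMap.id ℝ E := by
    ext v
    have h := mfderiv_chartAt_eq_tangentCoordChange (I := I) (mem_chart_source H x)
    have h2 := (hasMFDerivAt_extChartAt (I := I) (mem_chart_source H x)).mfderiv
    have h3 : mfderiv I 𝓘(ℝ, E) (extChartAt I x) x v = tangentCoordChange I x x x v := by
      rw [h2, h]; rfl
    have h4 : tangentCoordChange I x x x (v : E) = v :=
      tangentCoordChange_self (mem_extChartAt_source x)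
    exact h3.trans h4
  rw [I.range_eq_univ, mfderivWithin_univ, h1] at h
  exact DFunLike.congr_fun h w

theorem extDer_pull {ι : M → V} (hι : ContMDiff I 𝓘(ℝ, V) ∞ ι) {lam : V → V →L[ℝ] ℝ} (x : M)
    (hl : DifferentiableAt ℝ lam (ι x)) (u v : TangentSpace I x) :
    extDer I (pull I ι lam) x u v =
      fderiv ℝ lam (ι x) (dif I ι x u) (dif I ι x v) -
        fderiv ℝ lam (ι x) (dif I ι x v) (dif I ι x u) := by
  set φ := extChartAt I x with hφ
  set g : E → V := fun y => ι (φ.symm y) with hg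
  have hsym : ∀ y ∈ φ.target, ContMDiffAt 𝓘(ℝ, E) I ∞ φ.symm y := fun y hy =>
    (contMDiffOn_extChartAt_symm (n := ∞) x).contMDiffAt ((isOpen_extChartAt_target x).mem_nhds hy)
  have hgat : ∀ y ∈ φ.target, ContDiffAt ℝ ∞ g y := by
    intro y hy
    rw [← contMDiffAt_iff_contDiffAt]
    exact (hι _).comp y (hsym y hy)
  have hDg : ∀ y ∈ φ.target, ∀ w : E, fderiv ℝ g y w =
      dif I ι (φ.symm y) (mfderiv 𝓘(ℝ, E) I φ.symm y w) := by
    intro y hy w
    have h1 : mfderiv 𝓘(ℝ, E) 𝓘(ℝ, V) g y = (mfderiv I 𝓘(ℝ, V) ι (φ.symm y)).comp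
        (mfderiv 𝓘(ℝ, E) I φ.symm y) := by
      apply mfderiv_comp
      · exact (hι _).mdifferentiableAt (by simp)
      · exact (hsym y hy).mdifferentiableAt (by simp)
    rw [← mfderiv_eq_fderiv, h1]
    rfl
  have hx : φ x ∈ φ.target := mem_extChartAt_target x
  have hxx : φ.symm (φ x) = x := extChartAt_to_inv x
  have key : chartForm I (pull I ι lam) x =ᶠ[𝓝 (φ x)] fun y => (lam (g y)).comp (fderiv ℝ g y) := by
    filter_upwards [(isOpen_extChartAt_target x).mem_nhds hx] with y hy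
    ext w
    change lam (ι (φ.symm y)) (dif I ι (φ.symm y) (mfderiv 𝓘(ℝ, E) I φ.symm y w)) =
      lam (g y) (fderiv ℝ g y w)
    rw [hDg y hy w]
  have hgx : g (φ x) = ι x := by simp only [hg, hxx]
  have hD0 : ∀ w : E, fderiv ℝ g (φ x) w = dif I ι x w := by
    intro w
    rw [hDg _ hx w, mfderiv_symm_self x w]
    have : ∀ z : M, z = x → dif I ι z w = dif I ι x w := by
      rintro z rfl
      rfl
    exact this _ hxx
  have h1 : HasFDerivAt g (fderiv ℝ g (φ x)) (φ x) :=
    ((hgat _ hx).differentiableAt (by simp)).hasFDerivAt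
  have h2 : HasFDerivAt (fun y => lam (g y)) ((fderiv ℝ lam (ι x)).comp (fderiv ℝ g (φ x))) (φ x) := by
    have hl' : HasFDerivAt lam (fderiv ℝ lam (ι x)) (g (φ x)) := by
      rw [hgx]
      exact hl.hasFDerivAt
    exact hl'.comp (φ x) h1
  have h3 : HasFDerivAt (fderiv ℝ g) (fderiv ℝ (fderiv ℝ g) (φ x)) (φ x) :=
    (((hgat _ hx).fderiv_right (m := ∞) (by simp)).differentiableAt (by simp)).hasFDerivAt
  have h4 := h2.clm_comp h3
  have hder : ∀ a b : E, fderiv ℝ (chartForm I (pull I ι lam) x) (φ x) a b =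
      fderiv ℝ lam (ι x) (dif I ι x a) (dif I ι x b) +
        lam (ι x) (fderiv ℝ (fderiv ℝ g) (φ x) a b) := by
    intro a b
    rw [key.fderiv_eq, h4.fderiv]
    simp only [add_apply, ContinuousLinearMap.comp_apply, ContinuousLinearMap.flip_apply,
      ContinuousLinearMap.compL_apply]
    rw [hgx, hD0 a, hD0 b, add_comm]
  have hsymm : fderiv ℝ (fderiv ℝ g) (φ x) u v = fderiv ℝ (fderiv ℝ g) (φ x) v u := by
    have := (hgat _ hx).isSymmSndFDerivAt (by
      simp only [minSmoothness_of_isRCLikeNormedField]; exact ENat.LEInfty.out)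
    exact this u v
  unfold extDer
  rw [← hφ]
  have e1 := hder u v
  have e2 := hder v u
  rw [hsymm] at e1
  linarith

theorem smooth_pull {ι : M → V} (hι : ContMDiff I 𝓘(ℝ, V) ∞ ι) {lam : V → V →L[ℝ] ℝ}
    (hl : ∀ x, ContDiffAt ℝ ∞ lam (ι x)) :
    ContMDiff I.tangent 𝓘(ℝ, ℝ) ∞ (fun v : TangentBundle I M => pull I ι lam v.1 v.2) := by
  have h1 : ContMDiff I.tangent 𝓘(ℝ, V).tangent ∞ (tangentMap I 𝓘(ℝ, V) ι) :=
    hι.contMDiff_tangentMap (by simp)
  have h2 : ContMDiff 𝓘(ℝ, V).tangent 𝓘(ℝ, V) ∞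
      (fun p : TangentBundle 𝓘(ℝ, V) V => (p.2 : V)) := contMDiff_snd_tangentBundle_modelSpace V 𝓘(ℝ, V)
  have h3 : ContMDiff I.tangent 𝓘(ℝ, V) ∞ (fun v : TangentBundle I M => dif I ι v.1 v.2) :=
    h2.comp h1
  have h4 : ContMDiff I.tangent I ∞ (fun v : TangentBundle I M => v.1) :=
    Bundle.contMDiff_proj (TangentSpace I)
  intro v
  have h5 : ContMDiffAt I.tangent 𝓘(ℝ, V →L[ℝ] ℝ) ∞ (fun v : TangentBundle I M => lam (ι v.1)) v :=
    (hl v.1).contMDiffAt.comp v ((hι.comp h4) v)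
  exact h5.clm_apply (h3 v)

theorem hasDerivWithinAt_comp {ι : M → V} (hι : ContMDiff I 𝓘(ℝ, V) ∞ ι)
    {R : (x : M) → TangentSpace I x} {c : ℝ → M} {s : Set ℝ} (hc : IsMIntegralCurveOn c R s)
    {t : ℝ} (ht : t ∈ s) : HasDerivWithinAt (fun t => ι (c t)) (dif I ι (c t) (R (c t))) s t := by
  have h1 := ((hι (c t)).mdifferentiableAt (by simp)).hasMFDerivAt.comp_hasMFDerivWithinAt t (hc t ht)
  rw [hasMFDerivWithinAt_iff_hasFDerivWithinAt] at h1
  have h2 : HasFDerivWithinAt (fun t => ι (c t))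
      ((dif I ι (c t)).comp ((1 : ℝ →L[ℝ] ℝ).smulRight (R (c t)))) s t := h1
  have h3 := h2.hasDerivWithinAt
  simpa using h3

end Pool.Agent.H783Z.Contact
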