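import Mathlib
import Pool.Agent.H783Z.Bounds

/-! The example: the four corners of a square and a fifth terminal on the prolongation of an edge of
the horizontal Steiner tree beyond the corner `(1, 1)`. -/

set_option autoImplicit false

namespace Pool.Agent.H783Z.Five

open scoped ENNReal NNReal
open MeasureTheory Metric Pool.Agent.Helper752

theorem s_sq : √3 ^ 2 = 3 := Real.sq_sqrt (by norm_num)

theorem s_gt : 1.732 < √3 := by
  rw [Real.lt_sqrt (by norm_num)]; norm_num

theorem s_lt : √3 < 1.7321 := by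
  rw [Real.sqrt_lt' (by norm_num)]; norm_num

/-- A tree with six edges. -/
def tree (a b e f c d g : E2) : Set E2 :=
  segment ℝ a e ∪ segment ℝ b e ∪ segment ℝ e f ∪ segment ℝ f c ∪ segment ℝ f d ∪ segment ℝ d g

theorem compact_segment (a b : E2) : IsCompact (segment ℝ a b) := by
  rw [segment_eq_image_lineMap]
  exact isCompact_Icc.image AffineMap.lineMap_continuous

theorem conn_segment (a b : E2) : IsConnected (segment ℝ a b) :=
  (convex_segment a b).isConnected ⟨a, left_mem_segment ℝ a b⟩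

theorem tree_compact (a b e f c d g : E2) : IsCompact (tree a b e f c d g) :=
  (((((compact_segment _ _).union (compact_segment _ _)).union (compact_segment _ _)).union
    (compact_segment _ _)).union (compact_segment _ _)).union (compact_segment _ _)

theorem tree_conn (a b e f c d g : E2) : IsConnected (tree a b e f c d g) := by
  refine IsConnected.union ⟨d, Or.inr (right_mem_segment ℝ f d), left_mem_segment ℝ d g⟩ ?_
    (conn_segment _ _)
  refine IsConnected.union ⟨f, ?_, left_mem_segment ℝ f d⟩ (IsConnected.union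
    ⟨f, ?_, left_mem_segment ℝ f c⟩ (IsConnected.union ⟨e, ?_, left_mem_segment ℝ e f⟩
    (IsConnected.union ⟨e, right_mem_segment ℝ a e, right_mem_segment ℝ b e⟩
      (conn_segment _ _) (conn_segment _ _)) (conn_segment _ _)) (conn_segment _ _))
      (conn_segment _ _)
  · exact Or.inl (Or.inr (right_mem_segment ℝ e f))
  · exact Or.inr (right_mem_segment ℝ e f)
  · exact Or.inr (right_mem_segment ℝ b e)

theorem tree_len (a b e f c d g : E2) (l m t : ℝ) (hl : 0 ≤ l) (hm : 0 ≤ m) (ht : 0 ≤ t)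
    (h1 : dist a e ≤ l) (h2 : dist b e ≤ l) (h3 : dist e f ≤ m) (h4 : dist f c ≤ l)
    (h5 : dist f d ≤ l) (h6 : dist d g ≤ t) :
    μH[1] (tree a b e f c d g) ≤ ENNReal.ofReal (4 * l + m + t) := by
  have e1 : 4 * l + m + t = (((((l + l) + m) + l) + l) + t) := by ring
  rw [e1, ENNReal.ofReal_add (by positivity) ht, ENNReal.ofReal_add (by positivity) hl,
    ENNReal.ofReal_add (by positivity) hl,
    ENNReal.ofReal_add (by positivity) hm, ENNReal.ofReal_add hl hl]
  have hs : ∀ (a b : E2) (l : ℝ), dist a b ≤ l → μH[1] (segment ℝ a b) ≤ ENNReal.ofReal l := by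
    intro a b l h
    rw [hausdorffMeasure_segment, edist_dist]
    exact ENNReal.ofReal_le_ofReal h
  refine (measure_union_le _ _).trans (add_le_add ?_ (hs _ _ _ h6))
  refine (measure_union_le _ _).trans (add_le_add ?_ (hs _ _ _ h5))
  refine (measure_union_le _ _).trans (add_le_add ?_ (hs _ _ _ h4))
  refine (measure_union_le _ _).trans (add_le_add ?_ (hs _ _ _ h3))
  exact (measure_union_le _ _).trans (add_le_add (hs _ _ _ h1) (hs _ _ _ h2))

theorem dist_le_of (a b c d l : ℝ) (hl : 0 ≤ l) (h : (a - c) ^ 2 + (b - d) ^ 2 ≤ l ^ 2) :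
    dist (!₂[a, b] : E2) !₂[c, d] ≤ l := by
  rw [EuclideanSpace.dist_eq]
  apply Real.sqrt_le_iff.2 ⟨hl, _⟩
  simpa [Fin.sum_univ_two, Real.dist_eq, sq_abs] using h

theorem mem_a (a b e f c d g : E2) : a ∈ tree a b e f c d g :=
  Or.inl (Or.inl (Or.inl (Or.inl (Or.inl (left_mem_segment ℝ _ _)))))
theorem mem_b (a b e f c d g : E2) : b ∈ tree a b e f c d g :=
  Or.inl (Or.inl (Or.inl (Or.inl (Or.inr (left_mem_segment ℝ _ _)))))
theorem mem_c (a b e f c d g : E2) : c ∈ tree a b e f c d g :=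
  Or.inl (Or.inl (Or.inr (right_mem_segment ℝ _ _)))
theorem mem_d (a b e f c d g : E2) : d ∈ tree a b e f c d g :=
  Or.inl (Or.inr (right_mem_segment ℝ _ _))
theorem mem_g (a b e f c d g : E2) : g ∈ tree a b e f c d g :=
  Or.inr (right_mem_segment ℝ _ _)

/-- `z` is strictly below `a` for the functional `(c, d)`, or equals `a`. -/
def Below (c d : ℝ) (a : E2) : Set E2 := {z | c * z 0 + d * z 1 < c * a 0 + d * a 1 ∨ z = a}

theorem below_convex (c d : ℝ) (a : E2) : Convex ℝ (Below c d a) := by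
  intro x hx y hy s t hs ht hst
  simp only [Below, Set.mem_ofPred_eq, PiLp.add_apply, PiLp.smul_apply, smul_eq_mul] at hx hy ⊢
  rcases hx with hx | rfl
  · rcases hy with hy | rfl
    · left
      rcases eq_or_lt_of_le hs with rfl | hs'
      · have : t = 1 := by linarith
        subst this
        linarith
      · have e : t = 1 - s := by linarith
        subst e
        nlinarith
    · rcases eq_or_lt_of_le hs with rfl | hs'
      · have : t = 1 := by linarith
        subst this
        right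
        simp
      · left
        have e : t = 1 - s := by linarith
        subst e
        nlinarith
  · rcases hy with hy | rfl
    · rcases eq_or_lt_of_le ht with rfl | ht'
      · have : s = 1 := by linarith
        subst this
        right
        simp
      · left
        have e : s = 1 - t := by linarith
        subst e
        nlinarith
    · right
      rw [← add_smul, hst, one_smul]

theorem tree_sub {a b e f c d g : E2} {C : Set E2} (hC : Convex ℝ C) (ha : a ∈ C) (hb : b ∈ C)
    (he : e ∈ C) (hf : f ∈ C) (hc : c ∈ C) (hd : d ∈ C) (hg : g ∈ C) : tree a b e f c d g ⊆ C := by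
  unfold tree
  refine Set.union_subset (Set.union_subset (Set.union_subset (Set.union_subset
    (Set.union_subset ?_ ?_) ?_) ?_) ?_) ?_
  · exact hC.segment_subset ha he
  · exact hC.segment_subset hb he
  · exact hC.segment_subset he hf
  · exact hC.segment_subset hf hc
  · exact hC.segment_subset hf hd
  · exact hC.segment_subset hd hg

theorem not_open_of_below {c d : ℝ} {a x y : E2} (hxy : x ≠ y) (hx : x ∈ Below c d a)
    (hy : y ∈ Below c d a) (ha : a ∈ openSegment ℝ x y) : False := by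
  obtain ⟨s, t, hs, ht, hst, h⟩ := ha
  have h0 : s * x 0 + t * y 0 = a 0 := by
    have := congrArg (fun z : E2 => z 0) h
    simpa using this
  have h1 : s * x 1 + t * y 1 = a 1 := by
    have := congrArg (fun z : E2 => z 1) h
    simpa using this
  have e : t = 1 - s := by linarith
  subst e
  rcases hx with hx | rfl
  · rcases hy with hy | rfl
    · rw [← h0, ← h1] at hx hy
      nlinarith
    · have k0 : x 0 = y 0 := by
        have : s * (x 0 - y 0) = 0 := by linarith
        rcases mul_eq_zero.1 this with h | h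
        · linarith
        · linarith
      have k1 : x 1 = y 1 := by
        have : s * (x 1 - y 1) = 0 := by linarith
        rcases mul_eq_zero.1 this with h | h
        · linarith
        · linarith
      rw [k0, k1] at hx
      exact lt_irrefl _ hx
  · rcases hy with hy | rfl
    · have k0 : y 0 = x 0 := by
        have : (1 - s) * (y 0 - x 0) = 0 := by linarith
        rcases mul_eq_zero.1 this with h | h
        · linarith
        · linarith
      have k1 : y 1 = x 1 := by
        have : (1 - s) * (y 1 - x 1) = 0 := by linarith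
        rcases mul_eq_zero.1 this with h | h
        · linarith
        · linarith
      rw [k0, k1] at hy
      exact lt_irrefl _ hy
    · exact hxy rfl

theorem below_mk (c d a0 a1 z0 z1 : ℝ) (h : c * z0 + d * z1 < c * a0 + d * a1) :
    (!₂[z0, z1] : E2) ∈ Below c d !₂[a0, a1] := by
  left
  simpa using h

theorem below_self (c d : ℝ) (a : E2) : a ∈ Below c d a := Or.inr rfl

/-- The horizontal tree, prolonged beyond the corner `(1, 1)`. -/
noncomputable def SS : Set E2 :=
  tree !₂[-1, 1] !₂[-1, -1] !₂[-(1 - √3 / 3), 0] !₂[1 - √3 / 3, 0] !₂[1, -1] !₂[1, 1] !₂[2, 1 + √3]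

/-- The vertical tree with the same extra edge. -/
noncomputable def TT : Set E2 :=
  tree !₂[1, -1] !₂[-1, -1] !₂[0, -(1 - √3 / 3)] !₂[0, 1 - √3 / 3] !₂[-1, 1] !₂[1, 1] !₂[2, 1 + √3]

/-- The terminals. -/
noncomputable def pA : Fin 5 → E2 := ![!₂[2, 1 + √3], !₂[1, 1], !₂[-1, 1], !₂[-1, -1], !₂[1, -1]]

/-- The centres of the discs. -/
noncomputable def pM : Fin 5 → E2 :=
  ![!₂[2 + 1 / 2000, 1 + √3 + √3 / 2000], !₂[1 - √3 / 6, 1 / 2], !₂[-1 - 1 / 2000, 1 + √3 / 2000],
    !₂[-1 - 1 / 2000, -1 - √3 / 2000], !₂[1 + 1 / 2000, -1 - √3 / 2000]]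

theorem SS_len : μH[1] SS ≤ ENNReal.ofReal (4 + 2 * √3) := by
  have h1 := s_gt
  have h2 := s_lt
  have h3 := s_sq
  have h := tree_len !₂[-1, 1] !₂[-1, -1] !₂[-(1 - √3 / 3), 0] !₂[1 - √3 / 3, 0] !₂[1, -1] !₂[1, 1]
    !₂[2, 1 + √3] (2 * √3 / 3) (2 - 2 * √3 / 3) 2 (by positivity) (by linarith) (by norm_num)
    (dist_le_of _ _ _ _ _ (by positivity) (by nlinarith))
    (dist_le_of _ _ _ _ _ (by positivity) (by nlinarith))
    (dist_le_of _ _ _ _ _ (by linarith) (by nlinarith))
    (dist_le_of _ _ _ _ _ (by positivity) (by nlinarith))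
    (dist_le_of _ _ _ _ _ (by positivity) (by nlinarith))
    (dist_le_of _ _ _ _ _ (by positivity) (by nlinarith))
  have e : 4 * (2 * √3 / 3) + (2 - 2 * √3 / 3) + 2 = 4 + 2 * √3 := by ring
  rw [e] at h
  exact h

theorem TT_len : μH[1] TT ≤ ENNReal.ofReal (4 + 2 * √3) := by
  have h1 := s_gt
  have h2 := s_lt
  have h3 := s_sq
  have h := tree_len !₂[1, -1] !₂[-1, -1] !₂[0, -(1 - √3 / 3)] !₂[0, 1 - √3 / 3] !₂[-1, 1] !₂[1, 1]
    !₂[2, 1 + √3] (2 * √3 / 3) (2 - 2 * √3 / 3) 2 (by positivity) (by linarith) (by norm_num)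
    (dist_le_of _ _ _ _ _ (by positivity) (by nlinarith))
    (dist_le_of _ _ _ _ _ (by positivity) (by nlinarith))
    (dist_le_of _ _ _ _ _ (by linarith) (by nlinarith))
    (dist_le_of _ _ _ _ _ (by positivity) (by nlinarith))
    (dist_le_of _ _ _ _ _ (by positivity) (by nlinarith))
    (dist_le_of _ _ _ _ _ (by positivity) (by nlinarith))
  have e : 4 * (2 * √3 / 3) + (2 - 2 * √3 / 3) + 2 = 4 + 2 * √3 := by ring
  rw [e] at h
  exact h

theorem lowerA {K : Set E2} (hK : IsCompact K) (hc : IsConnected K) (hA : Set.range pA ⊆ K) :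
    ENNReal.ofReal (4 + 2 * √3) ≤ μH[1] K := by
  refine lower hK hc pA (fun i => hA ⟨i, rfl⟩) _ ?_
  intro M B hM hD
  exact boundA √3 s_sq s_gt s_lt pA (by simp [pA]) (by simp [pA]) (by simp [pA]) (by simp [pA])
    (by simp [pA]) (by simp [pA]) (by simp [pA]) (by simp [pA]) (by simp [pA]) (by simp [pA])
    M B hM hD

theorem lowerM {K : Set E2} (hK : IsCompact K) (hc : IsConnected K)
    (hM : ∀ y ∈ Set.range pM, infDist y K ≤ 1 / 1000) :
    ENNReal.ofReal (4 + 2 * √3) ≤ μH[1] K := by
  have hex : ∀ i, ∃ x ∈ K, dist x (pM i) ≤ 1 / 1000 := by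
    intro i
    obtain ⟨x, hx, hd⟩ := hK.exists_infDist_eq_dist hc.nonempty (pM i)
    refine ⟨x, hx, ?_⟩
    rw [dist_comm, ← hd]
    exact hM _ ⟨i, rfl⟩
  choose p hp hd using hex
  refine lower hK hc p hp _ ?_
  intro M B hM hD
  exact boundM √3 s_sq s_gt s_lt p (hd 0) (hd 1) (hd 2) (hd 3) (hd 4) M B hM hD

theorem A_sub_S : Set.range pA ⊆ SS := by
  rintro _ ⟨i, rfl⟩
  fin_cases i
  · exact mem_g _ _ _ _ _ _ _
  · exact mem_d _ _ _ _ _ _ _
  · exact mem_a _ _ _ _ _ _ _
  · exact mem_b _ _ _ _ _ _ _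
  · exact mem_c _ _ _ _ _ _ _

theorem A_sub_T : Set.range pA ⊆ TT := by
  rintro _ ⟨i, rfl⟩
  fin_cases i
  · exact mem_g _ _ _ _ _ _ _
  · exact mem_d _ _ _ _ _ _ _
  · exact mem_c _ _ _ _ _ _ _
  · exact mem_b _ _ _ _ _ _ _
  · exact mem_a _ _ _ _ _ _ _

theorem mid_mem : (!₂[1 - √3 / 6, 1 / 2] : E2) ∈ SS := by
  refine Or.inl (Or.inr ⟨1 / 2, 1 / 2, by norm_num, by norm_num, by norm_num, ?_⟩)
  ext i
  fin_cases i
  · simp
    ring
  · simp

theorem TT_upper : ∀ z ∈ TT, z 1 ≤ 0 ∨ z ∈ Below 1 (-1) !₂[1, 1] := by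
  have h1 := s_gt
  have h2 := s_lt
  have cv : Convex ℝ {z : E2 | z 1 ≤ 0} := by
    intro x hx y hy s t hs ht hst
    simp only [Set.mem_ofPred_eq, PiLp.add_apply, PiLp.smul_apply, smul_eq_mul] at hx hy ⊢
    nlinarith
  have cv0 : Convex ℝ {z : E2 | z 0 = 0} := by
    intro x hx y hy s t hs ht hst
    simp only [Set.mem_ofPred_eq, PiLp.add_apply, PiLp.smul_apply, smul_eq_mul] at hx hy ⊢
    rw [hx, hy]
    ring
  have hq : (!₂[0, -(1 - √3 / 3)] : E2) ∈ {z : E2 | z 1 ≤ 0} := by
    simp only [Set.mem_ofPred_eq, Matrix.cons_val_one, Matrix.cons_val_zero]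
    linarith
  have hp : (!₂[0, 1 - √3 / 3] : E2) ∈ Below 1 (-1) !₂[1, 1] := below_mk _ _ _ _ _ _ (by linarith)
  intro z hz
  rcases hz with ((((hz | hz) | hz) | hz) | hz) | hz
  · exact Or.inl (cv.segment_subset (by simp) hq hz)
  · exact Or.inl (cv.segment_subset (by simp) hq hz)
  · have h0 : z 0 = 0 := cv0.segment_subset (by simp) (by simp) hz
    by_cases h : z 1 ≤ 0
    · exact Or.inl h
    · right
      left
      simp only [Matrix.cons_val_one, Matrix.cons_val_zero]
      linarith
  · exact Or.inr ((below_convex _ _ _).segment_subset hp (below_mk _ _ _ _ _ _ (by norm_num)) hz)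
  · exact Or.inr ((below_convex _ _ _).segment_subset hp (below_self _ _ _) hz)
  · exact Or.inr ((below_convex _ _ _).segment_subset (below_self _ _ _)
      (below_mk _ _ _ _ _ _ (by linarith)) hz)

theorem TT_low : ∀ z ∈ TT, -1 ≤ z 1 := by
  have h1 := s_gt
  have h2 := s_lt
  have cv : Convex ℝ {z : E2 | -1 ≤ z 1} := by
    intro x hx y hy s t hs ht hst
    simp only [Set.mem_ofPred_eq, PiLp.add_apply, PiLp.smul_apply, smul_eq_mul] at hx hy ⊢
    nlinarith
  have mk : ∀ a b : ℝ, -1 ≤ b → (!₂[a, b] : E2) ∈ {z : E2 | -1 ≤ z 1} := by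
    intro a b h
    simpa using h
  have hsub : TT ⊆ {z : E2 | -1 ≤ z 1} :=
    tree_sub cv (mk _ _ (by linarith)) (mk _ _ (by linarith)) (mk _ _ (by linarith))
      (mk _ _ (by linarith)) (mk _ _ (by linarith)) (mk _ _ (by linarith)) (mk _ _ (by linarith))
  exact fun z hz => hsub hz

theorem S_ne_T : SS ≠ TT := by
  intro h
  have h1 := s_gt
  have h2 := s_lt
  have hm := mid_mem
  rw [h] at hm
  rcases TT_upper _ hm with h3 | h3 | h3
  · simp only [Matrix.cons_val_one, Matrix.cons_val_zero] at h3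
    linarith
  · simp only [Matrix.cons_val_one, Matrix.cons_val_zero] at h3
    linarith
  · have := congrArg (fun z : E2 => z 1) h3
    simp only [Matrix.cons_val_one, Matrix.cons_val_zero] at this
    linarith

theorem corner_T {x y : E2} (hxy : x ≠ y) (hs : segment ℝ x y ⊆ TT)
    (ha : (!₂[1, 1] : E2) ∈ openSegment ℝ x y) : False := by
  set a : E2 := !₂[1, 1] with ha'
  have hseg : a ∈ segment ℝ x y := openSegment_subset_segment ℝ x y ha
  have hx : (3 / 4 : ℝ) • a + (1 / 4 : ℝ) • x ∈ segment ℝ x y :=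
    (convex_segment x y) hseg (left_mem_segment ℝ x y) (by norm_num) (by norm_num) (by norm_num)
  have hy : (3 / 4 : ℝ) • a + (1 / 4 : ℝ) • y ∈ segment ℝ x y :=
    (convex_segment x y) hseg (right_mem_segment ℝ x y) (by norm_num) (by norm_num) (by norm_num)
  have lx := TT_low x (hs (left_mem_segment ℝ x y))
  have ly := TT_low y (hs (right_mem_segment ℝ x y))
  have a1 : a 1 = 1 := by simp [ha']
  have bx : (3 / 4 : ℝ) • a + (1 / 4 : ℝ) • x ∈ Below 1 (-1) a := by
    rcases TT_upper _ (hs hx) with h | h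
    · simp only [PiLp.add_apply, PiLp.smul_apply, smul_eq_mul] at h
      linarith
    · exact h
  have by' : (3 / 4 : ℝ) • a + (1 / 4 : ℝ) • y ∈ Below 1 (-1) a := by
    rcases TT_upper _ (hs hy) with h | h
    · simp only [PiLp.add_apply, PiLp.smul_apply, smul_eq_mul] at h
      linarith
    · exact h
  refine not_open_of_below ?_ bx by' ?_
  · intro h
    apply hxy
    have h' := add_left_cancel h
    exact smul_right_injective E2 (by norm_num : (1 / 4 : ℝ) ≠ 0) h'
  · obtain ⟨s, t, hs, ht, hst, h⟩ := ha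
    refine ⟨s, t, hs, ht, hst, ?_⟩
    have e : s • ((3 / 4 : ℝ) • a + (1 / 4 : ℝ) • x) + t • ((3 / 4 : ℝ) • a + (1 / 4 : ℝ) • y)
        = (3 / 4 : ℝ) • ((s + t) • a) + (1 / 4 : ℝ) • (s • x + t • y) := by
      module
    rw [e, hst, h]
    module

theorem leaf_S {c d : ℝ} {a x y : E2} (hxy : x ≠ y) (hs : segment ℝ x y ⊆ SS)
    (ha : a ∈ openSegment ℝ x y) (hb : SS ⊆ Below c d a) : False :=
  not_open_of_below hxy (hb (hs (left_mem_segment ℝ x y))) (hb (hs (right_mem_segment ℝ x y))) ha

theorem cond_ii : ¬ ∃ a ∈ Set.range pA,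
    (∃ x y : E2, x ≠ y ∧ segment ℝ x y ⊆ SS ∧ a ∈ openSegment ℝ x y) ∧
    (∃ x y : E2, x ≠ y ∧ segment ℝ x y ⊆ TT ∧ a ∈ openSegment ℝ x y) := by
  have h1 := s_gt
  have h2 := s_lt
  rintro ⟨_, ⟨i, rfl⟩, ⟨x, y, hxy, hs, ha⟩, ⟨x', y', hxy', hs', ha'⟩⟩
  fin_cases i
  · refine leaf_S (c := 1) (d := 1) hxy hs ha (tree_sub (below_convex _ _ _) ?_ ?_ ?_ ?_ ?_ ?_ ?_)
    all_goals first
      | exact below_self _ _ _
      | exact below_mk _ _ _ _ _ _ (by linarith)
  · exact corner_T hxy' hs' ha'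
  · refine leaf_S (c := -2) (d := 1) hxy hs ha (tree_sub (below_convex _ _ _) ?_ ?_ ?_ ?_ ?_ ?_ ?_)
    all_goals first
      | exact below_self _ _ _
      | exact below_mk _ _ _ _ _ _ (by linarith)
  · refine leaf_S (c := -1) (d := -1) hxy hs ha (tree_sub (below_convex _ _ _) ?_ ?_ ?_ ?_ ?_ ?_ ?_)
    all_goals first
      | exact below_self _ _ _
      | exact below_mk _ _ _ _ _ _ (by linarith)
  · refine leaf_S (c := 1) (d := -1) hxy hs ha (tree_sub (below_convex _ _ _) ?_ ?_ ?_ ?_ ?_ ?_ ?_)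
    all_goals first
      | exact below_self _ _ _
      | exact below_mk _ _ _ _ _ _ (by linarith)

theorem M_near : ∀ y ∈ Set.range pM, infDist y SS ≤ 1 / 1000 := by
  have h1 := s_gt
  have h2 := s_lt
  have h3 := s_sq
  rintro _ ⟨i, rfl⟩
  fin_cases i
  · refine (infDist_le_dist_of_mem (mem_g _ _ _ _ _ _ _)).trans ?_
    exact dist_le_of _ _ _ _ _ (by norm_num) (by nlinarith)
  · refine (infDist_le_dist_of_mem mid_mem).trans ?_
    exact dist_le_of _ _ _ _ _ (by norm_num) (by nlinarith)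
  · refine (infDist_le_dist_of_mem (mem_a _ _ _ _ _ _ _)).trans ?_
    exact dist_le_of _ _ _ _ _ (by norm_num) (by nlinarith)
  · refine (infDist_le_dist_of_mem (mem_b _ _ _ _ _ _ _)).trans ?_
    exact dist_le_of _ _ _ _ _ (by norm_num) (by nlinarith)
  · refine (infDist_le_dist_of_mem (mem_c _ _ _ _ _ _ _)).trans ?_
    exact dist_le_of _ _ _ _ _ (by norm_num) (by nlinarith)

theorem inj_of (p : Fin 5 → E2) (h : ∀ i j, i ≠ j → 2 * p i 0 + p i 1 ≠ 2 * p j 0 + p j 1) :
    Function.Injective p := by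
  intro i j hij
  by_contra hne
  exact h i j hne (by rw [hij])

theorem pA_inj : Function.Injective pA := by
  have h1 := s_gt
  have h2 := s_lt
  apply inj_of
  intro i j hij
  fin_cases i <;> fin_cases j <;> first
    | exact absurd rfl hij
    | (simp only [pA, Fin.zero_eta, Fin.mk_one, Fin.reduceFinMk, Matrix.cons_val]
       intro h
       linarith)

theorem pM_inj : Function.Injective pM := by
  have h1 := s_gt
  have h2 := s_lt
  apply inj_of
  intro i j hij
  fin_cases i <;> fin_cases j <;> first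
    | exact absurd rfl hij
    | (simp only [pM, Fin.zero_eta, Fin.mk_one, Fin.reduceFinMk, Matrix.cons_val]
       intro h
       linarith)

end Pool.Agent.H783Z.Five
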