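import Pool.Agent.H123Z.GSC.Defs2
import Pool.Agent.H161Z.Coords
import Pool.Agent.H216Z.Jacobi
import Pool.Agent.H337Z.GscTriv

set_option autoImplicit false
set_option linter.all false

namespace Pool.Agent.H123Z.GSC

open Finset Matrix

namespace H783

section emb
variable {α ι R : Type} [Fintype α] [DecidableEq α] [Fintype ι] [DecidableEq ι] [Ring R]

def JJ (R : Type) [Ring R] (φ : α → ι) : Matrix ι α R := fun i a => if φ a = i then 1 else 0

def emb (φ : α → ι) (X : Matrix α α R) : Matrix ι ι R := JJ R φ * X * (JJ R φ)ᵀ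

variable {φ : α → ι}

lemma JJ_mul (hφ : Function.Injective φ) : (JJ R φ)ᵀ * JJ R φ = 1 := by
  ext a b
  rw [Matrix.mul_apply, Matrix.one_apply]
  simp only [JJ, transpose_apply, ite_mul, one_mul, zero_mul, sum_ite_eq, mem_univ, if_true,
    hφ.eq_iff]
  simp only [eq_comm]

lemma emb_apply (hφ : Function.Injective φ) (X : Matrix α α R) (a b : α) :
    emb φ X (φ a) (φ b) = X a b := by
  simp [emb, Matrix.mul_apply, JJ, hφ.eq_iff]

lemma emb_left (X : Matrix α α R) {i : ι} (hi : i ∉ Set.range φ) (j : ι) : emb φ X i j = 0 := by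
  have : ∀ a, φ a ≠ i := fun a e => hi ⟨a, e⟩
  simp [emb, Matrix.mul_apply, JJ, this]

lemma emb_right (X : Matrix α α R) (i : ι) {j : ι} (hj : j ∉ Set.range φ) : emb φ X i j = 0 := by
  have : ∀ a, φ a ≠ j := fun a e => hj ⟨a, e⟩
  simp [emb, Matrix.mul_apply, JJ, this]

lemma eq_emb (hφ : Function.Injective φ) {X : Matrix α α R} {Y : Matrix ι ι R}
    (h1 : ∀ a b, Y (φ a) (φ b) = X a b) (h2 : ∀ i ∉ Set.range φ, ∀ j, Y i j = 0)
    (h3 : ∀ i, ∀ j ∉ Set.range φ, Y i j = 0) : Y = emb φ X := by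
  ext1 i j
  by_cases hi : i ∈ Set.range φ
  · by_cases hj : j ∈ Set.range φ
    · obtain ⟨a, rfl⟩ := hi
      obtain ⟨b, rfl⟩ := hj
      rw [h1, emb_apply hφ]
    · rw [h3 i j hj, emb_right _ _ hj]
  · rw [h2 i hi, emb_left _ hi]

lemma emb_mul (hφ : Function.Injective φ) (X Y : Matrix α α R) :
    emb φ X * emb φ Y = emb φ (X * Y) := by
  unfold emb
  simp only [Matrix.mul_assoc]
  rw [← Matrix.mul_assoc (JJ R φ)ᵀ, JJ_mul hφ, Matrix.one_mul]

lemma emb_pow (hφ : Function.Injective φ) (X : Matrix α α R) (k : ℕ) :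
    emb φ X ^ (k + 1) = emb φ (X ^ (k + 1)) := by
  induction k with
  | zero => simp
  | succ k ih => rw [pow_succ, ih, emb_mul hφ, ← pow_succ]

lemma emb_sub (X Y : Matrix α α R) : emb φ X - emb φ Y = emb φ (X - Y) := by
  unfold emb
  rw [Matrix.mul_sub, Matrix.sub_mul]

lemma emb_trace (hφ : Function.Injective φ) (X : Matrix α α R) :
    Matrix.trace (emb φ X) = Matrix.trace X :=
  (Fintype.sum_of_injective φ hφ _ _ (fun i hi => emb_left X hi i)
    fun a => (emb_apply hφ X a a).symm).symm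

lemma cut_emb (hφ : Function.Injective φ) (o : α) (X : Matrix α α R) :
    cut (φ o) (emb φ X) = emb φ (cut o X) := by
  refine eq_emb hφ (fun a b => ?_) (fun i hi j => ?_) fun i j hj => ?_
  · simp only [cut, hφ.eq_iff, emb_apply hφ]
  · simp only [cut, emb_left _ hi, ite_self]
  · simp only [cut, emb_right _ _ hj, ite_self]

lemma J_apply (hφ : Function.Injective φ) (v : α → R) (a : α) : (JJ R φ).mulVec v (φ a) = v a := by
  simp [JJ, Matrix.mulVec, dotProduct, hφ.eq_iff]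

lemma J_off (v : α → R) {i : ι} (hi : i ∉ Set.range φ) : (JJ R φ).mulVec v i = 0 := by
  have : ∀ a, φ a ≠ i := fun a e => hi ⟨a, e⟩
  simp [JJ, Matrix.mulVec, dotProduct, this]

lemma emb_mulVec (hφ : Function.Injective φ) (X : Matrix α α R) (v : α → R) :
    (emb φ X).mulVec ((JJ R φ).mulVec v) = (JJ R φ).mulVec (X.mulVec v) := by
  unfold emb
  rw [Matrix.mulVec_mulVec, Matrix.mulVec_mulVec, Matrix.mul_assoc, JJ_mul hφ, Matrix.mul_one]

end emb

section grp
variable {α ι G : Type} [Fintype α] [DecidableEq α] [Fintype ι] [DecidableEq ι] [Group G]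
  [Fintype G] {φ : α → ι}

lemma emb_norm (hφ : Function.Injective φ) (X : MA α G) : ‖(emb φ X : MA ι G)‖ = ‖X‖ := by
  rw [norm_def, norm_def]
  symm
  refine Fintype.sum_of_injective φ hφ _ _ (fun i hi => ?_) fun a => ?_
  · exact sum_eq_zero fun j _ => by rw [emb_left _ hi, nug_zero]
  · exact Fintype.sum_of_injective φ hφ _ _ (fun j hj => by rw [emb_right _ _ hj, nug_zero])
      fun b => by rw [emb_apply hφ]

lemma toR_apply (X : MZ ι G) (i j : ι) :
    toR X i j = MonoidAlgebra.mapRingHom G (Int.castRingHom ℝ) (X i j) := rfl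

lemma toR_emb (hφ : Function.Injective φ) (X : MZ α G) :
    toR (emb φ X : MZ ι G) = emb φ (toR X) := by
  refine eq_emb hφ (fun a b => ?_) (fun i hi j => ?_) fun i j hj => ?_
  · rw [toR_apply, toR_apply, emb_apply hφ]
  · rw [toR_apply, emb_left _ hi, map_zero]
  · rw [toR_apply, emb_right _ _ hj, map_zero]

lemma aug_emb (hφ : Function.Injective φ) (X : MZ α G) :
    aug (emb φ X : MZ ι G) = emb φ (aug X) := by
  refine eq_emb hφ (fun a b => ?_) (fun i hi j => ?_) fun i j hj => ?_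
  · simp only [aug, emb_apply hφ]
  · simp [aug, emb_left _ hi]
  · simp [aug, emb_right _ _ hj]

lemma colV_emb (hφ : Function.Injective φ) (o : α) (lam : ℝ) (v : α → ℝ) :
    colV G (φ o) lam ((JJ ℝ φ).mulVec v) = emb φ (colV G o lam v) := by
  refine eq_emb hφ (fun a b => ?_) (fun i hi j => ?_) fun i j hj => ?_
  · simp only [colV, hφ.eq_iff, J_apply hφ]
  · simp [colV, J_off _ hi]
  · have : j ≠ φ o := fun e => hj ⟨o, e.symm⟩
    simp [colV, this]

lemma summ_emb (hφ : Function.Injective φ) (X : MA α G) (ρ : ℝ)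
    (h : Summable fun k : ℕ => ‖X ^ k‖ * ρ ^ k) :
    Summable fun k : ℕ => ‖(emb φ X : MA ι G) ^ k‖ * ρ ^ k := by
  rw [← summable_nat_add_iff 1] at h ⊢
  refine h.congr fun k => ?_
  rw [emb_pow hφ, emb_norm hφ]

lemma eig_emb (hφ : Function.Injective φ) (X : MZ α G) (lam : ℝ) (v : α → ℝ)
    (h : (aug X).mulVec v = lam • v) :
    (aug (emb φ X : MZ ι G)).mulVec ((JJ ℝ φ).mulVec v) = lam • (JJ ℝ φ).mulVec v := by
  rw [aug_emb hφ, emb_mulVec hφ, h, Matrix.mulVec_smul]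

lemma rlz_emb (hφ : Function.Injective φ) (B : MZ α G) (h : Rlz (emb φ B : MZ ι G)) : Rlz B := by
  obtain ⟨n, C, hn, h1, h2, l, R, S, hl, e1, e2, e3, e4⟩ := h
  set J := JJ (MonoidAlgebra ℤ G) φ
  have hJ : Jᵀ * J = 1 := JJ_mul hφ
  have a1 : B * Jᵀ = Jᵀ * emb φ B := by
    unfold emb
    rw [← Matrix.mul_assoc, ← Matrix.mul_assoc, hJ, Matrix.one_mul]
  have a2 : J * B = emb φ B * J := by
    unfold emb
    rw [Matrix.mul_assoc, hJ, Matrix.mul_one]
  obtain ⟨l, rfl⟩ : ∃ l', l = l' + 1 := ⟨l - 1, by omega⟩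
  refine ⟨n, C, hn, h1, h2, l + 1 + 1, B * Jᵀ * R, S * J, by omega, ?_, ?_, ?_, ?_⟩
  · rw [Matrix.mul_assoc _ R C, ← e1, ← Matrix.mul_assoc (B * Jᵀ), Matrix.mul_assoc B Jᵀ (emb φ B),
      ← a1, ← Matrix.mul_assoc, ← Matrix.mul_assoc]
  · rw [Matrix.mul_assoc, a2, ← Matrix.mul_assoc, e2, Matrix.mul_assoc]
  · rw [Matrix.mul_assoc, ← Matrix.mul_assoc R, e3, emb_pow hφ, pow_succ' B (l + 1)]
    unfold emb
    simp only [Matrix.mul_assoc]
    rw [hJ, Matrix.mul_one, ← Matrix.mul_assoc Jᵀ, hJ, Matrix.one_mul]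
  · have : S * J * (B * Jᵀ * R) = S * emb φ B * R := by
      unfold emb
      simp only [Matrix.mul_assoc]
      rfl
    rw [this, e2, Matrix.mul_assoc, e4, ← pow_succ']

lemma mem_cl (x : MonoidAlgebra ℤ G) : x ∈ AddSubmonoid.closure
    (Set.range (fun g : G => MonoidAlgebra.of ℤ G g)) ↔ ∀ g, 0 ≤ x.coeff g := by
  classical
  constructor
  · intro h
    induction h using AddSubmonoid.closure_induction with
    | mem y hy =>
      obtain ⟨g', rfl⟩ := hy
      intro g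
      simp only [MonoidAlgebra.of_apply, MonoidAlgebra.coeff_single, Finsupp.single_apply]
      split_ifs <;> norm_num
    | zero => simp
    | add y z _ _ h1 h2 => intro g; simpa using add_nonneg (h1 g) (h2 g)
  · intro h
    have : x = ∑ g, (x.coeff g).toNat • MonoidAlgebra.of ℤ G g := by
      ext g
      rw [MonoidAlgebra.coeff_sum, Finsupp.finset_sum_apply]
      simp [Finsupp.single_apply, h g]
    rw [this]
    exact AddSubmonoid.sum_mem _ fun g _ => AddSubmonoid.nsmul_mem _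
      (AddSubmonoid.subset_closure (Set.mem_range_self g)) _

lemma mem_cl' (x : MonoidAlgebra ℤ G) : x - ∑ g : G, MonoidAlgebra.of ℤ G g ∈ AddSubmonoid.closure
    (Set.range (fun g : G => MonoidAlgebra.of ℤ G g)) ↔ ∀ g, 0 < x.coeff g := by
  classical
  rw [mem_cl]
  refine forall_congr' fun g => ?_
  have : (∑ g : G, MonoidAlgebra.of ℤ G g).coeff g = 1 := by
    rw [MonoidAlgebra.coeff_sum, Finsupp.finset_sum_apply]
    simp [Finsupp.single_apply]
  rw [MonoidAlgebra.coeff_sub, Finsupp.sub_apply, this]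
  omega

lemma of_cl {x : MonoidAlgebra ℤ G} (h : x ∈ AddSubgroup.closure
    {x : MonoidAlgebra ℤ G | ∃ g h : G,
      x = MonoidAlgebra.of ℤ G g - MonoidAlgebra.of ℤ G (h * g * h⁻¹)}) :
    x.coeff 1 = 0 ∧ ∑ g, x.coeff g = 0 := by
  classical
  induction h using AddSubgroup.closure_induction with
  | mem y hy =>
    obtain ⟨g, h, rfl⟩ := hy
    constructor
    · simp [Finsupp.single_apply]
    · simp [Finsupp.single_apply, sum_sub_distrib]
  | zero => simp
  | add y z _ _ h1 h2 => simp [h1.1, h2.1, sum_add_distrib, h1.2, h2.2]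
  | neg y _ h1 => simp [h1.1, h1.2]

end grp

end H783

open H783 in
theorem assemble (hA : ASide) (hB : BSide) (hC : Core) :
    ∀ (G : Type) [Group G] [Fintype G] (n m : ℕ)
      (A : Matrix (Fin n) (Fin n) (MonoidAlgebra ℤ G))
      (B : Matrix (Fin m) (Fin m) (MonoidAlgebra ℤ G)),
      0 < n →
      (∀ i j, A i j ∈ AddSubmonoid.closure
          (Set.range (fun g : G => MonoidAlgebra.of ℤ G g))) →
      (∃ p : ℕ, 0 < p ∧ ∀ i j,
          (A ^ p) i j - ∑ g : G, MonoidAlgebra.of ℤ G g ∈ AddSubmonoid.closure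
            (Set.range (fun g : G => MonoidAlgebra.of ℤ G g))) →
      (∀ r : ℕ, 0 < r →
          Matrix.trace (A ^ r) - Matrix.trace (B ^ r) ∈ AddSubgroup.closure
            {x : MonoidAlgebra ℤ G | ∃ g h : G,
              x = MonoidAlgebra.of ℤ G g - MonoidAlgebra.of ℤ G (h * g * h⁻¹)}) →
      ∃ (k : ℕ) (C : Matrix (Fin k) (Fin k) (MonoidAlgebra ℤ G)),
        0 < k ∧
        (∀ i j, C i j ∈ AddSubmonoid.closure
            (Set.range (fun g : G => MonoidAlgebra.of ℤ G g))) ∧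
        (∃ p : ℕ, 0 < p ∧ ∀ i j,
            (C ^ p) i j - ∑ g : G, MonoidAlgebra.of ℤ G g ∈ AddSubmonoid.closure
              (Set.range (fun g : G => MonoidAlgebra.of ℤ G g))) ∧
        ∃ (l : ℕ) (R : Matrix (Fin m) (Fin k) (MonoidAlgebra ℤ G))
          (S : Matrix (Fin k) (Fin m) (MonoidAlgebra ℤ G)),
          0 < l ∧ B * R = R * C ∧ S * B = C * S ∧ R * S = B ^ l ∧ S * R = C ^ l := by
  classical
  rintro G _ _ n m A B hn h1 ⟨p, hp, h2⟩ h3
  simp only [mem_cl] at h1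
  simp only [mem_cl'] at h2
  suffices h : Rlz B by
    obtain ⟨k, C, a1, a2, ⟨q, a3, a4⟩, a5⟩ := h
    exact ⟨k, C, a1, fun i j => (mem_cl _).2 (a2 i j), ⟨q, a3, fun i j => (mem_cl' _).2 (a4 i j)⟩, a5⟩
  have t1 : ∀ k, 0 < k → (Matrix.trace (A ^ k)).coeff 1 = (Matrix.trace (B ^ k)).coeff 1 :=
    fun k hk => by
      have := (of_cl (h3 k hk)).1
      rw [MonoidAlgebra.coeff_sub, Finsupp.sub_apply] at this
      exact sub_eq_zero.1 this
  have t2 : ∀ k, 0 < k → ∑ g, (Matrix.trace (A ^ k)).coeff g =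
      ∑ g, (Matrix.trace (B ^ k)).coeff g := fun k hk => by
    have := (of_cl (h3 k hk)).2
    simp only [MonoidAlgebra.coeff_sub, Finsupp.sub_apply, sum_sub_distrib] at this
    exact sub_eq_zero.1 this
  let o₀ : Fin n := ⟨0, hn⟩
  rcases hA (Fin n) G A o₀ h1 p hp h2 with ⟨hs, ht⟩ | ⟨lam, ρ, v, r1, r2, r3, v1, v2, s1, s2, hk⟩
  · obtain ⟨l, R, S, a0, a1, a2, a3, a4⟩ := trivial_case jacobi.1 B
      fun k hk => by rw [← t1 k hk, ht k hk]
    have one : ∀ i j : Fin 1, ∀ g : G,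
        0 < ((1 : Matrix (Fin 1) (Fin 1) (MonoidAlgebra ℤ G)) i j).coeff g := by
      intro i j g
      rw [Subsingleton.elim i j, Subsingleton.elim g 1, Matrix.one_apply_eq, MonoidAlgebra.one_def,
        MonoidAlgebra.coeff_single, Finsupp.single_eq_same]
      exact one_pos
    exact ⟨1, 1, one_pos, fun i j g => (one i j g).le, ⟨1, one_pos, by simpa using one⟩, l, R, S,
      a0, by rw [a1, Matrix.mul_one], by rw [a2, Matrix.one_mul], a3, by rw [a4, one_pow]⟩
  have l0 : lam ≠ 0 := by rintro rfl; linarith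
  obtain ⟨j₀, w, w1, w2, s3⟩ := hB (Fin n) (Fin m) G A B t1 t2 o₀ lam l0 v v1 v2 ρ r1 s1
  let φ : Fin n → Fin n ⊕ Fin m := Sum.inl
  let ψ : Fin m → Fin n ⊕ Fin m := fun j => if j = j₀ then Sum.inl o₀ else Sum.inr j
  have hφ : Function.Injective φ := Sum.inl_injective
  have hψ : Function.Injective ψ := by
    intro a b e
    simp only [ψ] at e
    split_ifs at e with c1 c2 c2
    · rw [c1, c2]
    · exact Sum.inr_injective e
  have e0 : ψ j₀ = φ o₀ := if_pos rfl
  have off : Sum.inr j₀ ∉ Set.range φ := by rintro ⟨a, e⟩; exact Sum.inl_ne_inr e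
  refine rlz_emb hψ B (hC (Fin n ⊕ Fin m) G (φ o₀) (Sum.inr j₀) (emb φ A) (emb ψ B) lam ρ p
    ((JJ ℝ φ).mulVec v) ((JJ ℝ ψ).mulVec w) Sum.inl_ne_inr r1 r2 r3 ?_
    (fun i => ⟨emb_right _ _ off, emb_left _ off _⟩) ?_ (by rw [J_apply hφ, v1])
    (by rw [← e0, J_apply hψ, w1]) (eig_emb hφ A lam v v2) (eig_emb hψ B lam w w2) ?_ ?_ ?_ ?_)
  · intro i j g
    by_cases hi : i ∈ Set.range φ
    · by_cases hj : j ∈ Set.range φ
      · obtain ⟨a, rfl⟩ := hi
        obtain ⟨b, rfl⟩ := hj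
        rw [emb_apply hφ]; exact h1 a b g
      · rw [emb_right _ _ hj]; simp
    · rw [emb_left _ hi]; simp
  · intro k hk' g
    obtain ⟨k, rfl⟩ : ∃ l', k = l' + 1 := ⟨k - 1, by omega⟩
    rw [emb_pow hφ, emb_apply hφ]
    exact hk _ hk' _ _ g
  · rw [toR_emb hφ, colV_emb hφ, emb_sub]
    exact summ_emb hφ _ ρ s1
  · rw [toR_emb hψ, ← e0, colV_emb hψ, emb_sub]
    exact summ_emb hψ _ ρ s3
  · rw [cut_emb hφ, toR_emb hφ]
    exact summ_emb hφ _ ρ s2
  · intro k hk'
    obtain ⟨k, rfl⟩ : ∃ l', k = l' + 1 := ⟨k - 1, by omega⟩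
    rw [← map_pow, ← map_pow]
    refine (coords (φ o₀) (Sum.inr j₀) Sum.inl_ne_inr).2.2.2.2.2.1 _ _ ?_
    rw [emb_pow hφ, emb_pow hψ, emb_trace hφ, emb_trace hψ]
    exact h3 _ hk'

end Pool.Agent.H123Z.GSC
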