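import Mathlib

/-! The ambient algebra of the Katok example: pairs `(q, u)` of a quaternion `q` and an imaginary
quaternion `u`, the product `p = q u`, the form `⟨p, dq⟩ / h` with `h = 1 + ε ⟨p, J q⟩`. -/

open scoped Topology ContDiff

noncomputable section

namespace Pool.Agent.H783Z.Katok

abbrev E4 := EuclideanSpace ℝ (Fin 4)
abbrev E3 := EuclideanSpace ℝ (Fin 3)
abbrev V := E4 × E3

/-- The rotation speed. -/
def eps : ℝ := √2 / 2

theorem eps_pos : 0 < eps := by unfold eps; positivity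

theorem eps_lt : eps < 1 := by
  unfold eps
  have : √2 < 2 := by
    rw [Real.sqrt_lt' (by norm_num)]; norm_num
  linarith

theorem eps_irr : Irrational eps := by
  unfold eps
  simpa using irrational_sqrt_two.div_natCast (m := 2) (by norm_num)

def B0 (q : E4) (u : E3) : ℝ := -(q 1 * u 0) - q 2 * u 1 - q 3 * u 2
def B1 (q : E4) (u : E3) : ℝ := q 0 * u 0 + q 2 * u 2 - q 3 * u 1
def B2 (q : E4) (u : E3) : ℝ := q 0 * u 1 + q 3 * u 0 - q 1 * u 2
def B3 (q : E4) (u : E3) : ℝ := q 0 * u 2 + q 1 * u 1 - q 2 * u 0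

/-- The contact Hamiltonian. -/
def hh (z : V) : ℝ := 1 + eps * (B1 z.1 z.2 * z.1 0 - B0 z.1 z.2 * z.1 1)

def cq (i : Fin 4) : V →L[ℝ] ℝ := (EuclideanSpace.proj i).comp (ContinuousLinearMap.fst ℝ E4 E3)
def cu (i : Fin 3) : V →L[ℝ] ℝ := (EuclideanSpace.proj i).comp (ContinuousLinearMap.snd ℝ E4 E3)

@[simp] theorem cq_apply (i : Fin 4) (z : V) : cq i z = z.1 i := rfl
@[simp] theorem cu_apply (i : Fin 3) (z : V) : cu i z = z.2 i := rfl

/-- The ambient one-form. -/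
def lam (z : V) : V →L[ℝ] ℝ :=
  (hh z)⁻¹ • (B0 z.1 z.2 • cq 0 + B1 z.1 z.2 • cq 1 + B2 z.1 z.2 • cq 2 + B3 z.1 z.2 • cq 3)

def NN (z b : V) : ℝ :=
  B0 z.1 z.2 * b.1 0 + B1 z.1 z.2 * b.1 1 + B2 z.1 z.2 * b.1 2 + B3 z.1 z.2 * b.1 3

theorem lam_apply (z b : V) : lam z b = (hh z)⁻¹ * NN z b := by
  simp only [lam, NN, smul_apply, add_apply, cq_apply, smul_eq_mul]

def d0 (z a : V) : ℝ := B0 a.1 z.2 + B0 z.1 a.2
def d1 (z a : V) : ℝ := B1 a.1 z.2 + B1 z.1 a.2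
def d2 (z a : V) : ℝ := B2 a.1 z.2 + B2 z.1 a.2
def d3 (z a : V) : ℝ := B3 a.1 z.2 + B3 z.1 a.2

def dN (z a b : V) : ℝ := d0 z a * b.1 0 + d1 z a * b.1 1 + d2 z a * b.1 2 + d3 z a * b.1 3

def dh (z a : V) : ℝ :=
  eps * (d1 z a * z.1 0 + B1 z.1 z.2 * a.1 0 - d0 z a * z.1 1 - B0 z.1 z.2 * a.1 1)

theorem smooth_q (i : Fin 4) : ContDiff ℝ ∞ (fun z : V => z.1 i) := (cq i).contDiff
theorem smooth_u (i : Fin 3) : ContDiff ℝ ∞ (fun z : V => z.2 i) := (cu i).contDiff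

theorem smooth_B0 : ContDiff ℝ ∞ (fun z : V => B0 z.1 z.2) :=
  ((((smooth_q 1).mul (smooth_u 0)).neg).sub ((smooth_q 2).mul (smooth_u 1))).sub
    ((smooth_q 3).mul (smooth_u 2))
theorem smooth_B1 : ContDiff ℝ ∞ (fun z : V => B1 z.1 z.2) :=
  ((((smooth_q 0).mul (smooth_u 0))).add ((smooth_q 2).mul (smooth_u 2))).sub
    ((smooth_q 3).mul (smooth_u 1))
theorem smooth_B2 : ContDiff ℝ ∞ (fun z : V => B2 z.1 z.2) :=
  ((((smooth_q 0).mul (smooth_u 1))).add ((smooth_q 3).mul (smooth_u 0))).sub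
    ((smooth_q 1).mul (smooth_u 2))
theorem smooth_B3 : ContDiff ℝ ∞ (fun z : V => B3 z.1 z.2) :=
  ((((smooth_q 0).mul (smooth_u 2))).add ((smooth_q 1).mul (smooth_u 1))).sub
    ((smooth_q 2).mul (smooth_u 0))

theorem smooth_hh : ContDiff ℝ ∞ hh :=
  contDiff_const.add (contDiff_const.mul
    ((smooth_B1.mul (smooth_q 0)).sub (smooth_B0.mul (smooth_q 1))))

theorem smooth_lam {z : V} (hz : hh z ≠ 0) : ContDiffAt ℝ ∞ lam z := by
  unfold lam
  refine ContDiffAt.smul (smooth_hh.contDiffAt.inv hz) ?_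
  exact (((smooth_B0.smul contDiff_const).add (smooth_B1.smul contDiff_const)).add
    (smooth_B2.smul contDiff_const)).add (smooth_B3.smul contDiff_const) |>.contDiffAt

theorem line_q (z a : V) (i : Fin 4) : HasDerivAt (fun t : ℝ => (z + t • a).1 i) (a.1 i) 0 := by
  have h := ((hasDerivAt_id (0 : ℝ)).mul_const (a.1 i)).const_add (z.1 i)
  simpa using h

theorem line_u (z a : V) (i : Fin 3) : HasDerivAt (fun t : ℝ => (z + t • a).2 i) (a.2 i) 0 := by
  have h := ((hasDerivAt_id (0 : ℝ)).mul_const (a.2 i)).const_add (z.2 i)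
  simpa using h

theorem line_B0 (z a : V) :
    HasDerivAt (fun t : ℝ => B0 (z + t • a).1 (z + t • a).2) (d0 z a) 0 := by
  have h := ((((line_q z a 1).mul (line_u z a 0)).neg).sub
    ((line_q z a 2).mul (line_u z a 1))).sub ((line_q z a 3).mul (line_u z a 2))
  refine HasDerivAt.congr_deriv h ?_
  simp only [d0, B0, zero_smul, add_zero]
  ring

theorem line_B1 (z a : V) :
    HasDerivAt (fun t : ℝ => B1 (z + t • a).1 (z + t • a).2) (d1 z a) 0 := by
  have h := ((((line_q z a 0).mul (line_u z a 0))).add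
    ((line_q z a 2).mul (line_u z a 2))).sub ((line_q z a 3).mul (line_u z a 1))
  refine HasDerivAt.congr_deriv h ?_
  simp only [d1, B1, zero_smul, add_zero]
  ring

theorem line_B2 (z a : V) :
    HasDerivAt (fun t : ℝ => B2 (z + t • a).1 (z + t • a).2) (d2 z a) 0 := by
  have h := ((((line_q z a 0).mul (line_u z a 1))).add
    ((line_q z a 3).mul (line_u z a 0))).sub ((line_q z a 1).mul (line_u z a 2))
  refine HasDerivAt.congr_deriv h ?_
  simp only [d2, B2, zero_smul, add_zero]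
  ring

theorem line_B3 (z a : V) :
    HasDerivAt (fun t : ℝ => B3 (z + t • a).1 (z + t • a).2) (d3 z a) 0 := by
  have h := ((((line_q z a 0).mul (line_u z a 2))).add
    ((line_q z a 1).mul (line_u z a 1))).sub ((line_q z a 2).mul (line_u z a 0))
  refine HasDerivAt.congr_deriv h ?_
  simp only [d3, B3, zero_smul, add_zero]
  ring

theorem line_hh (z a : V) : HasDerivAt (fun t : ℝ => hh (z + t • a)) (dh z a) 0 := by
  have h := ((((line_B1 z a).mul (line_q z a 0)).sub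
    ((line_B0 z a).mul (line_q z a 1))).const_mul eps).const_add 1
  refine HasDerivAt.congr_deriv h ?_
  simp only [dh, zero_smul, add_zero]
  ring

theorem line_NN (z a b : V) : HasDerivAt (fun t : ℝ => NN (z + t • a) b) (dN z a b) 0 :=
  ((((line_B0 z a).mul_const (b.1 0)).add ((line_B1 z a).mul_const (b.1 1))).add
    ((line_B2 z a).mul_const (b.1 2))).add ((line_B3 z a).mul_const (b.1 3))

theorem fderiv_lam {z : V} (hz : hh z ≠ 0) (a b : V) :
    fderiv ℝ lam z a b = (hh z)⁻¹ * dN z a b - (hh z)⁻¹ ^ 2 * dh z a * NN z b := by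
  have h1 : HasFDerivAt lam (fderiv ℝ lam z) (z + (0 : ℝ) • a) := by
    rw [zero_smul, add_zero]
    exact ((smooth_lam hz).differentiableAt (by simp)).hasFDerivAt
  have h2 : HasDerivAt (fun t : ℝ => z + t • a) a 0 := by
    simpa using ((hasDerivAt_id (0 : ℝ)).smul_const a).const_add z
  have h3 := h1.comp_hasDerivAt (0 : ℝ) h2
  have h4 : HasDerivAt (fun t : ℝ => lam (z + t • a) b) (fderiv ℝ lam z a b) 0 := by
    have h5 := (ContinuousLinearMap.apply ℝ ℝ b).hasFDerivAt.comp_hasDerivAt (0 : ℝ) h3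
    exact h5
  have hz' : hh (z + (0 : ℝ) • a) ≠ 0 := by simpa using hz
  have h6 := ((line_hh z a).inv hz').mul (line_NN z a b)
  have h7 : HasDerivAt (fun t : ℝ => lam (z + t • a) b)
      ((hh z)⁻¹ * dN z a b - (hh z)⁻¹ ^ 2 * dh z a * NN z b) 0 := by
    have e : (fun t : ℝ => lam (z + t • a) b) = fun t : ℝ => (hh (z + t • a))⁻¹ * NN (z + t • a) b := by
      funext t
      rw [lam_apply]
    rw [e]
    refine HasDerivAt.congr_deriv h6 ?_
    simp only [zero_smul, add_zero, Pi.inv_apply]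
    field_simp
    ring
  exact h4.unique h7

/-- The point `z` lies on the product of the unit spheres. -/
structure On (z : V) : Prop where
  hq : z.1 0 ^ 2 + z.1 1 ^ 2 + z.1 2 ^ 2 + z.1 3 ^ 2 = 1
  hu : z.2 0 ^ 2 + z.2 1 ^ 2 + z.2 2 ^ 2 = 1

/-- The vector `a` is tangent to the product of the spheres at `z`. -/
structure Tan (z a : V) : Prop where
  hq : z.1 0 * a.1 0 + z.1 1 * a.1 1 + z.1 2 * a.1 2 + z.1 3 * a.1 3 = 0
  hu : z.2 0 * a.2 0 + z.2 1 * a.2 1 + z.2 2 * a.2 2 = 0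

theorem B_sq {z : V} (hz : On z) :
    B0 z.1 z.2 ^ 2 + B1 z.1 z.2 ^ 2 + B2 z.1 z.2 ^ 2 + B3 z.1 z.2 ^ 2 = 1 := by
  have h1 := hz.hq
  have h2 := hz.hu
  have : B0 z.1 z.2 ^ 2 + B1 z.1 z.2 ^ 2 + B2 z.1 z.2 ^ 2 + B3 z.1 z.2 ^ 2 =
      (z.1 0 ^ 2 + z.1 1 ^ 2 + z.1 2 ^ 2 + z.1 3 ^ 2) * (z.2 0 ^ 2 + z.2 1 ^ 2 + z.2 2 ^ 2) := by
    simp only [B0, B1, B2, B3]
    ring
  rw [this, h1, h2, one_mul]

theorem hh_pos {z : V} (hz : On z) : 0 < hh z := by
  have h1 := hz.hq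
  have h2 := B_sq hz
  have h3 : -1 ≤ B1 z.1 z.2 * z.1 0 - B0 z.1 z.2 * z.1 1 := by
    nlinarith [sq_nonneg (B1 z.1 z.2 + z.1 0), sq_nonneg (B0 z.1 z.2 - z.1 1), sq_nonneg (z.1 2),
      sq_nonneg (z.1 3), sq_nonneg (B2 z.1 z.2), sq_nonneg (B3 z.1 z.2)]
  have h4 := eps_pos
  have h5 := eps_lt
  unfold hh
  nlinarith

/-- The ambient vector field. -/
def XX (z : V) : V :=
  (!₂[B0 z.1 z.2 - eps * z.1 1, B1 z.1 z.2 + eps * z.1 0, B2 z.1 z.2, B3 z.1 z.2],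
    !₂[0, eps * z.2 2, -(eps * z.2 1)])

theorem XX_tan (z : V) : Tan z (XX z) := by
  constructor
  · simp only [XX, B0, B1, B2, B3, Matrix.cons_val]
    ring
  · simp only [XX, Matrix.cons_val]
    ring

theorem NN_XX {z : V} (hz : On z) : NN z (XX z) = hh z := by
  have h := B_sq hz
  simp only [NN, XX, hh, Matrix.cons_val]
  linear_combination h

theorem lam_XX {z : V} (hz : On z) : lam z (XX z) = 1 := by
  rw [lam_apply, NN_XX hz, inv_mul_cancel₀ (hh_pos hz).ne']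

theorem dh_XX {z : V} (hz : On z) : dh z (XX z) = 0 := by
  have h2 := hz.hu
  simp only [dh, d0, d1, XX, B0, B1, B2, B3, Matrix.cons_val]
  linear_combination (0 : ℝ) * h2

theorem dN_XX {z b : V} (hz : On z) (hb : Tan z b) :
    dN z (XX z) b - dN z b (XX z) = -dh z b := by
  have h1 := hz.hq
  have h2 := hz.hu
  have h3 := hb.hq
  have h4 := hb.hu
  simp only [dN, dh, d0, d1, d2, d3, XX, B0, B1, B2, B3, Matrix.cons_val]
  linear_combination (-2 * (z.2 0 ^ 2 + z.2 1 ^ 2 + z.2 2 ^ 2)) * h3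
    - (z.1 0 ^ 2 + z.1 1 ^ 2 + z.1 2 ^ 2 + z.1 3 ^ 2) * h4

theorem dlam_XX {z b : V} (hz : On z) (hb : Tan z b) :
    fderiv ℝ lam z (XX z) b - fderiv ℝ lam z b (XX z) = 0 := by
  have h0 := (hh_pos hz).ne'
  rw [fderiv_lam h0, fderiv_lam h0, dh_XX hz, NN_XX hz]
  have h := dN_XX hz hb
  have e : dN z (XX z) b = dN z b (XX z) - dh z b := by linarith
  rw [e]
  field_simp
  ring

theorem sq4 {a b c d : ℝ} (h : a ^ 2 + b ^ 2 + c ^ 2 + d ^ 2 = 0) : a = 0 ∧ b = 0 ∧ c = 0 ∧ d = 0 := by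
  have h1 := sq_nonneg a
  have h2 := sq_nonneg b
  have h3 := sq_nonneg c
  have h4 := sq_nonneg d
  refine ⟨?_, ?_, ?_, ?_⟩ <;> apply pow_eq_zero_iff (two_ne_zero) |>.1 <;> linarith

theorem nondeg {z a : V} (hz : On z) (ha : Tan z a) (ha0 : lam z a = 0)
    (h : ∀ b, Tan z b → lam z b = 0 → fderiv ℝ lam z a b - fderiv ℝ lam z b a = 0) : a = 0 := by
  have h0 := (hh_pos hz).ne'
  have hN : ∀ b, lam z b = 0 ↔ NN z b = 0 := by
    intro b
    rw [lam_apply, mul_eq_zero]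
    simp [h0]
  have hNa := (hN a).1 ha0
  have h' : ∀ b, Tan z b → NN z b = 0 → dN z a b - dN z b a = 0 := by
    intro b hb hb0
    have h1 := h b hb ((hN b).2 hb0)
    rw [fderiv_lam h0, fderiv_lam h0, hb0, hNa] at h1
    have h2 : (hh z)⁻¹ * (dN z a b - dN z b a) = 0 := by linarith
    rcases mul_eq_zero.1 h2 with h3 | h3
    · exact absurd h3 (inv_ne_zero h0)
    · exact h3
  have h1 := hz.hq
  have h2 := hz.hu
  have h3 := ha.hq
  have h4 := ha.hu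
  -- first test vector: the imaginary part of `conj q * a.1`
  set w0 := z.1 0 * a.1 1 - z.1 1 * a.1 0 - z.1 2 * a.1 3 + z.1 3 * a.1 2 with hw0
  set w1 := z.1 0 * a.1 2 - z.1 2 * a.1 0 - z.1 3 * a.1 1 + z.1 1 * a.1 3 with hw1
  set w2 := z.1 0 * a.1 3 - z.1 3 * a.1 0 - z.1 1 * a.1 2 + z.1 2 * a.1 1 with hw2
  have t1 : Tan z ((0 : E4), (!₂[w0, w1, w2] : E3)) := by
    constructor
    · simp
    · simp only [Matrix.cons_val, hw0, hw1, hw2]
      simp only [NN, B0, B1, B2, B3] at hNa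
      linear_combination hNa
  have k1 := h' _ t1 (by simp [NN])
  have k2 : w0 ^ 2 + w1 ^ 2 + w2 ^ 2 = 0 := by
    simp only [dN, d0, d1, d2, d3, B0, B1, B2, B3, Matrix.cons_val, PiLp.zero_apply] at k1
    simp only [hw0, hw1, hw2] at k1 ⊢
    linear_combination -k1
  have k3 : a.1 0 ^ 2 + a.1 1 ^ 2 + a.1 2 ^ 2 + a.1 3 ^ 2 = 0 := by
    simp only [hw0, hw1, hw2] at k2
    linear_combination k2 + (z.1 0 * a.1 0 + z.1 1 * a.1 1 + z.1 2 * a.1 2 + z.1 3 * a.1 3) * h3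
      - (a.1 0 ^ 2 + a.1 1 ^ 2 + a.1 2 ^ 2 + a.1 3 ^ 2) * h1
  obtain ⟨a0, a1, a2, a3⟩ := sq4 k3
  -- second test vector: `q * a.2`
  have t2 : Tan z ((!₂[B0 z.1 a.2, B1 z.1 a.2, B2 z.1 a.2, B3 z.1 a.2] : E4), (0 : E3)) := by
    constructor
    · simp only [Matrix.cons_val, B0, B1, B2, B3]
      ring
    · simp
  have k4 := h' _ t2 (by
    simp only [NN, Matrix.cons_val, B0, B1, B2, B3]
    linear_combination (z.1 0 ^ 2 + z.1 1 ^ 2 + z.1 2 ^ 2 + z.1 3 ^ 2) * h4)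
  have k5 : a.2 0 ^ 2 + a.2 1 ^ 2 + a.2 2 ^ 2 = 0 := by
    simp only [dN, d0, d1, d2, d3, B0, B1, B2, B3, Matrix.cons_val, PiLp.zero_apply, a0, a1, a2,
      a3] at k4
    linear_combination k4 - (a.2 0 ^ 2 + a.2 1 ^ 2 + a.2 2 ^ 2) * h1
  obtain ⟨b0, b1, b2, -⟩ := sq4 (d := 0) (by rw [k5]; norm_num)
  refine Prod.ext ?_ ?_
  · ext i
    fin_cases i
    · exact a0
    · exact a1
    · exact a2
    · exact a3
  · ext i
    fin_cases i
    · exact b0
    · exact b1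
    · exact b2

/-- The ambient involution `(q, u) ↦ (conj q, q u conj q)`. -/
def rr (z : V) : V :=
  (!₂[z.1 0, -z.1 1, -z.1 2, -z.1 3],
    !₂[-(B0 z.1 z.2 * z.1 1) + B1 z.1 z.2 * z.1 0 - B2 z.1 z.2 * z.1 3 + B3 z.1 z.2 * z.1 2,
      -(B0 z.1 z.2 * z.1 2) + B2 z.1 z.2 * z.1 0 - B3 z.1 z.2 * z.1 1 + B1 z.1 z.2 * z.1 3,
      -(B0 z.1 z.2 * z.1 3) + B3 z.1 z.2 * z.1 0 - B1 z.1 z.2 * z.1 2 + B2 z.1 z.2 * z.1 1])

theorem rr_B0 {z : V} (hz : On z) : B0 (rr z).1 (rr z).2 = -B0 z.1 z.2 := by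
  have h1 := hz.hq
  simp only [rr, B0, B1, B2, B3, Matrix.cons_val]
  linear_combination (z.1 1 * z.2 0 + z.1 2 * z.2 1 + z.1 3 * z.2 2) * h1

theorem rr_B1 {z : V} (hz : On z) : B1 (rr z).1 (rr z).2 = B1 z.1 z.2 := by
  have h1 := hz.hq
  simp only [rr, B0, B1, B2, B3, Matrix.cons_val]
  linear_combination (z.1 0 * z.2 0 + z.1 2 * z.2 2 - z.1 3 * z.2 1) * h1

theorem rr_B2 {z : V} (hz : On z) : B2 (rr z).1 (rr z).2 = B2 z.1 z.2 := by
  have h1 := hz.hq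
  simp only [rr, B0, B1, B2, B3, Matrix.cons_val]
  linear_combination (z.1 0 * z.2 1 + z.1 3 * z.2 0 - z.1 1 * z.2 2) * h1

theorem rr_B3 {z : V} (hz : On z) : B3 (rr z).1 (rr z).2 = B3 z.1 z.2 := by
  have h1 := hz.hq
  simp only [rr, B0, B1, B2, B3, Matrix.cons_val]
  linear_combination (z.1 0 * z.2 2 + z.1 1 * z.2 1 - z.1 2 * z.2 0) * h1

theorem rr_on {z : V} (hz : On z) : On (rr z) := by
  have h1 := hz.hq
  have h2 := hz.hu
  constructor
  · simp only [rr, Matrix.cons_val]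
    linear_combination h1
  · simp only [rr, B0, B1, B2, B3, Matrix.cons_val]
    linear_combination (z.1 0 ^ 2 + z.1 1 ^ 2 + z.1 2 ^ 2 + z.1 3 ^ 2 + 1)
      * (z.2 0 ^ 2 + z.2 1 ^ 2 + z.2 2 ^ 2) * h1 + h2

theorem rr_rr {z : V} (hz : On z) : rr (rr z) = z := by
  have h1 := hz.hq
  have e0 := rr_B0 hz
  have e1 := rr_B1 hz
  have e2 := rr_B2 hz
  have e3 := rr_B3 hz
  have f0 : (rr z).1 0 = z.1 0 := rfl
  have f1 : (rr z).1 1 = -z.1 1 := rfl
  have f2 : (rr z).1 2 = -z.1 2 := rfl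
  have f3 : (rr z).1 3 = -z.1 3 := rfl
  generalize rr z = w at *
  refine Prod.ext ?_ ?_
  · ext i
    fin_cases i <;> simp [rr, f0, f1, f2, f3]
  · ext i
    fin_cases i
    · simp only [rr, e0, e1, e2, e3, f0, f1, f2, f3, Fin.zero_eta, Matrix.cons_val]
      simp only [B0, B1, B2, B3]
      linear_combination (z.2 0) * h1
    · simp only [rr, e0, e1, e2, e3, f0, f1, f2, f3, Fin.mk_one, Matrix.cons_val]
      simp only [B0, B1, B2, B3]
      linear_combination (z.2 1) * h1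
    · simp only [rr, e0, e1, e2, e3, f0, f1, f2, f3, Fin.reduceFinMk, Matrix.cons_val]
      simp only [B0, B1, B2, B3]
      linear_combination (z.2 2) * h1

theorem rr_hh {z : V} (hz : On z) : hh (rr z) = hh z := by
  have f0 : (rr z).1 0 = z.1 0 := rfl
  have f1 : (rr z).1 1 = -z.1 1 := rfl
  simp only [hh, rr_B0 hz, rr_B1 hz, f0, f1]
  ring

theorem rr_lam {z : V} (hz : On z) (a b : V) (h0 : b.1 0 = a.1 0) (h1 : b.1 1 = -a.1 1)
    (h2 : b.1 2 = -a.1 2) (h3 : b.1 3 = -a.1 3) : lam (rr z) b = -lam z a := by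
  rw [lam_apply, lam_apply, rr_hh hz]
  simp only [NN, rr_B0 hz, rr_B1 hz, rr_B2 hz, rr_B3 hz, h0, h1, h2, h3]
  ring

theorem smooth_rr1 : ContDiff ℝ ∞ (fun z : V => (rr z).1) := by
  rw [contDiff_euclidean]
  intro i
  fin_cases i
  · exact smooth_q 0
  · exact (smooth_q 1).neg
  · exact (smooth_q 2).neg
  · exact (smooth_q 3).neg

theorem smooth_rr2 : ContDiff ℝ ∞ (fun z : V => (rr z).2) := by
  rw [contDiff_euclidean]
  intro i
  fin_cases i
  · exact (((smooth_B0.mul (smooth_q 1)).neg.add (smooth_B1.mul (smooth_q 0))).sub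
      (smooth_B2.mul (smooth_q 3))).add (smooth_B3.mul (smooth_q 2))
  · exact (((smooth_B0.mul (smooth_q 2)).neg.add (smooth_B2.mul (smooth_q 0))).sub
      (smooth_B3.mul (smooth_q 1))).add (smooth_B1.mul (smooth_q 3))
  · exact (((smooth_B0.mul (smooth_q 3)).neg.add (smooth_B3.mul (smooth_q 0))).sub
      (smooth_B1.mul (smooth_q 2))).add (smooth_B2.mul (smooth_q 1))

end Pool.Agent.H783Z.Katok
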