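import Mathlib
import Pool.Agent.H783Z.KatokAlg

/-! Integration of the Katok flow between fixed points of the involution. -/

open scoped Topology ContDiff
open Set Real

noncomputable section

namespace Pool.Agent.H783Z.Katok

theorem const_of {f : ℝ → ℝ} {T : ℝ} (h : ∀ t ∈ Icc 0 T, HasDerivWithinAt f 0 (Icc 0 T) t) :
    ∀ t ∈ Icc 0 T, f t = f 0 := by
  apply constant_of_has_deriv_right_zero
  · exact fun t ht => (h t ht).continuousWithinAt
  · intro t ht
    exact (h t (Ico_subset_Icc_self ht)).mono_of_mem_nhdsWithin (Icc_mem_nhdsGE_of_mem ht)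

theorem rot {x y : ℝ → ℝ} {T : ℝ} (w : ℝ)
    (hx : ∀ t ∈ Icc 0 T, HasDerivWithinAt x (-(w * y t)) (Icc 0 T) t)
    (hy : ∀ t ∈ Icc 0 T, HasDerivWithinAt y (w * x t) (Icc 0 T) t) :
    ∀ t ∈ Icc 0 T, x t = cos (w * t) * x 0 - sin (w * t) * y 0 ∧
      y t = sin (w * t) * x 0 + cos (w * t) * y 0 := by
  have hc : ∀ t : ℝ, HasDerivWithinAt (fun t => cos (w * t)) (-sin (w * t) * w) (Icc 0 T) t := by
    intro t
    have := (((hasDerivAt_id t).const_mul w).cos).hasDerivWithinAt (s := Icc 0 T)
    simpa using this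
  have hs : ∀ t : ℝ, HasDerivWithinAt (fun t => sin (w * t)) (cos (w * t) * w) (Icc 0 T) t := by
    intro t
    have := (((hasDerivAt_id t).const_mul w).sin).hasDerivWithinAt (s := Icc 0 T)
    simpa using this
  have g1 := const_of (f := fun t => cos (w * t) * x t + sin (w * t) * y t) (T := T) (by
    intro t ht
    refine HasDerivWithinAt.congr_deriv (((hc t).mul (hx t ht)).add ((hs t).mul (hy t ht))) ?_
    ring)
  have g2 := const_of (f := fun t => cos (w * t) * y t - sin (w * t) * x t) (T := T) (by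
    intro t ht
    refine HasDerivWithinAt.congr_deriv (((hc t).mul (hy t ht)).sub ((hs t).mul (hx t ht))) ?_
    ring)
  intro t ht
  have e1 := g1 t ht
  have e2 := g2 t ht
  simp only [mul_zero, cos_zero, sin_zero, one_mul, zero_mul, add_zero, sub_zero] at e1 e2
  have e3 := sin_sq_add_cos_sq (w * t)
  rw [← e1, ← e2]
  constructor
  · linear_combination (-x t) * e3
  · linear_combination (-y t) * e3

/-- The explicit solutions on the two symmetric orbits. -/
def sol (σ τ t : ℝ) : V :=
  (!₂[σ * cos ((eps + τ) * t), σ * sin ((eps + τ) * t), 0, 0], !₂[τ, 0, 0])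

theorem chord {z : ℝ → V} {T : ℝ} (hT : 0 < T)
    (hz : ∀ t ∈ Icc 0 T, HasDerivWithinAt z (XX (z t)) (Icc 0 T) t) (hon : ∀ t, On (z t))
    (h0 : rr (z 0) = z 0) (h1 : rr (z T) = z T) :
    ∃ σ τ : ℝ, (σ = 1 ∨ σ = -1) ∧ (τ = 1 ∨ τ = -1) ∧ sin ((eps + τ) * T) = 0 ∧
      ∀ t ∈ Icc 0 T, z t = sol σ τ t := by
  have fix : ∀ w : V, rr w = w → w.1 1 = 0 ∧ w.1 2 = 0 ∧ w.1 3 = 0 := by
    intro w hw
    have e1 : -w.1 1 = w.1 1 := congrArg (fun v : V => v.1 1) hw
    have e2 : -w.1 2 = w.1 2 := congrArg (fun v : V => v.1 2) hw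
    have e3 : -w.1 3 = w.1 3 := congrArg (fun v : V => v.1 3) hw
    exact ⟨by linarith, by linarith, by linarith⟩
  obtain ⟨a1, a2, a3⟩ := fix _ h0
  obtain ⟨b1, b2, b3⟩ := fix _ h1
  have dq : ∀ (i : Fin 4), ∀ t ∈ Icc 0 T,
      HasDerivWithinAt (fun t => (z t).1 i) ((XX (z t)).1 i) (Icc 0 T) t := fun i t ht =>
    (cq i).hasFDerivAt.comp_hasDerivWithinAt t (hz t ht)
  have du : ∀ (i : Fin 3), ∀ t ∈ Icc 0 T,
      HasDerivWithinAt (fun t => (z t).2 i) ((XX (z t)).2 i) (Icc 0 T) t := fun i t ht =>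
    (cu i).hasFDerivAt.comp_hasDerivWithinAt t (hz t ht)
  have p0 : ∀ t ∈ Icc 0 T, HasDerivWithinAt (fun t => B0 (z t).1 (z t).2)
      (-(z t).1 0 - eps * B1 (z t).1 (z t).2) (Icc 0 T) t := by
    intro t ht
    refine HasDerivWithinAt.congr_deriv (((((dq 1 t ht).mul (du 0 t ht)).neg).sub
      ((dq 2 t ht).mul (du 1 t ht))).sub ((dq 3 t ht).mul (du 2 t ht))) ?_
    have h := (hon t).hu
    simp only [XX, B0, B1, B2, B3, Matrix.cons_val]
    linear_combination (-(z t).1 0) * h
  have p1 : ∀ t ∈ Icc 0 T, HasDerivWithinAt (fun t => B1 (z t).1 (z t).2)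
      (-(z t).1 1 + eps * B0 (z t).1 (z t).2) (Icc 0 T) t := by
    intro t ht
    refine HasDerivWithinAt.congr_deriv (((((dq 0 t ht).mul (du 0 t ht))).add
      ((dq 2 t ht).mul (du 2 t ht))).sub ((dq 3 t ht).mul (du 1 t ht))) ?_
    have h := (hon t).hu
    simp only [XX, B0, B1, B2, B3, Matrix.cons_val]
    linear_combination (-(z t).1 1) * h
  have p2 : ∀ t ∈ Icc 0 T, HasDerivWithinAt (fun t => B2 (z t).1 (z t).2)
      (-(z t).1 2) (Icc 0 T) t := by
    intro t ht
    refine HasDerivWithinAt.congr_deriv (((((dq 0 t ht).mul (du 1 t ht))).add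
      ((dq 3 t ht).mul (du 0 t ht))).sub ((dq 1 t ht).mul (du 2 t ht))) ?_
    have h := (hon t).hu
    simp only [XX, B0, B1, B2, B3, Matrix.cons_val]
    linear_combination (-(z t).1 2) * h
  have p3 : ∀ t ∈ Icc 0 T, HasDerivWithinAt (fun t => B3 (z t).1 (z t).2)
      (-(z t).1 3) (Icc 0 T) t := by
    intro t ht
    refine HasDerivWithinAt.congr_deriv (((((dq 0 t ht).mul (du 2 t ht))).add
      ((dq 1 t ht).mul (du 1 t ht))).sub ((dq 2 t ht).mul (du 0 t ht))) ?_
    have h := (hon t).hu
    simp only [XX, B0, B1, B2, B3, Matrix.cons_val]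
    linear_combination (-(z t).1 3) * h
  have RA := rot (x := fun t => (z t).1 0 + B1 (z t).1 (z t).2)
    (y := fun t => (z t).1 1 - B0 (z t).1 (z t).2) (T := T) (eps + 1)
    (fun t ht => by
      refine HasDerivWithinAt.congr_deriv ((dq 0 t ht).add (p1 t ht)) ?_
      simp only [XX, Matrix.cons_val]
      ring)
    (fun t ht => by
      refine HasDerivWithinAt.congr_deriv ((dq 1 t ht).sub (p0 t ht)) ?_
      simp only [XX, Matrix.cons_val]
      ring)
  have RB := rot (x := fun t => (z t).1 0 - B1 (z t).1 (z t).2)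
    (y := fun t => (z t).1 1 + B0 (z t).1 (z t).2) (T := T) (eps + -1)
    (fun t ht => by
      refine HasDerivWithinAt.congr_deriv ((dq 0 t ht).sub (p1 t ht)) ?_
      simp only [XX, Matrix.cons_val]
      ring)
    (fun t ht => by
      refine HasDerivWithinAt.congr_deriv ((dq 1 t ht).add (p0 t ht)) ?_
      simp only [XX, Matrix.cons_val]
      ring)
  have RC := rot (x := fun t => (z t).1 2) (y := fun t => -B2 (z t).1 (z t).2) (T := T) 1
    (fun t ht => by
      refine HasDerivWithinAt.congr_deriv (dq 2 t ht) ?_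
      simp only [XX, Matrix.cons_val]
      ring)
    (fun t ht => by
      refine HasDerivWithinAt.congr_deriv (p2 t ht).neg ?_
      ring)
  have RD := rot (x := fun t => (z t).1 3) (y := fun t => -B3 (z t).1 (z t).2) (T := T) 1
    (fun t ht => by
      refine HasDerivWithinAt.congr_deriv (dq 3 t ht) ?_
      simp only [XX, Matrix.cons_val]
      ring)
    (fun t ht => by
      refine HasDerivWithinAt.congr_deriv (p3 t ht).neg ?_
      ring)
  have RE := rot (x := fun t => (z t).2 1) (y := fun t => (z t).2 2) (T := T) (-eps)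
    (fun t ht => by
      refine HasDerivWithinAt.congr_deriv (du 1 t ht) ?_
      simp only [XX, Matrix.cons_val]
      ring)
    (fun t ht => by
      refine HasDerivWithinAt.congr_deriv (du 2 t ht) ?_
      simp only [XX, Matrix.cons_val]
      ring)
  have RF := const_of (f := fun t => (z t).2 0) (T := T) (fun t ht => by
    refine HasDerivWithinAt.congr_deriv (du 0 t ht) ?_
    simp only [XX, Matrix.cons_val])
  have hTm : T ∈ Icc 0 T := ⟨hT.le, le_rfl⟩
  set σ := (z 0).1 0 with hσ
  set τ := (z 0).2 0 with hτ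
  have hσ2 : σ ^ 2 = 1 := by
    have := (hon 0).hq
    rw [a1, a2, a3] at this
    linarith
  have hσ0 : σ ≠ 0 := by
    intro h
    rw [h] at hσ2
    norm_num at hσ2
  have c0 : B0 (z 0).1 (z 0).2 = 0 := by simp only [B0, a1, a2, a3]; ring
  have c1 : B1 (z 0).1 (z 0).2 = σ * τ := by simp only [B1, a2, a3]; ring
  have c2 : B2 (z 0).1 (z 0).2 = σ * (z 0).2 1 := by simp only [B2, a1, a3]; ring
  have c3 : B3 (z 0).1 (z 0).2 = σ * (z 0).2 2 := by simp only [B3, a1, a2]; ring
  have cT : B0 (z T).1 (z T).2 = 0 := by simp only [B0, b1, b2, b3]; ring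
  simp only [c0, c1, c2, c3, a1, a2, a3, one_mul] at RA RB RC RD
  have hsin : sin T ≠ 0 := by
    intro hs
    have e1 := (RA T hTm).2
    have e2 := (RB T hTm).2
    rw [b1, cT] at e1 e2
    have f1 : sin ((eps + 1) * T) = sin (eps * T) * cos T := by
      rw [add_mul, one_mul, sin_add, hs]; ring
    have f2 : sin ((eps + -1) * T) = sin (eps * T) * cos T := by
      rw [add_mul, neg_one_mul, sin_add, sin_neg, cos_neg, hs]; ring
    rw [f1] at e1
    rw [f2] at e2
    have hcos : cos T ≠ 0 := by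
      intro hc
      have := sin_sq_add_cos_sq T
      rw [hs, hc] at this
      norm_num at this
    have e3 : sin (eps * T) * (cos T * σ) = 0 := by linarith
    have e4 : sin (eps * T) = 0 := by
      rcases mul_eq_zero.1 e3 with h | h
      · exact h
      · exact absurd h (mul_ne_zero hcos hσ0)
    obtain ⟨m, hm⟩ := sin_eq_zero_iff.1 hs
    obtain ⟨k, hk⟩ := sin_eq_zero_iff.1 e4
    have hm0 : (m : ℝ) ≠ 0 := by
      intro h
      rw [h, zero_mul] at hm
      linarith
    apply eps_irr
    refine ⟨(k : ℚ) / (m : ℚ), ?_⟩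
    push_cast
    rw [div_eq_iff hm0]
    have hpi := pi_pos.ne'
    have : (k : ℝ) * π = eps * m * π := by rw [hk, ← hm]; ring
    exact mul_right_cancel₀ hpi this
  have u1 : (z 0).2 1 = 0 := by
    have e := (RC T hTm).1
    rw [b2] at e
    have : sin T * (σ * (z 0).2 1) = 0 := by linarith
    simpa [hsin, hσ0] using this
  have u2 : (z 0).2 2 = 0 := by
    have e := (RD T hTm).1
    rw [b3] at e
    have : sin T * (σ * (z 0).2 2) = 0 := by linarith
    simpa [hsin, hσ0] using this
  have hτ2 : τ ^ 2 = 1 := by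
    have := (hon 0).hu
    rw [u1, u2] at this
    linarith
  have hσ' : σ = 1 ∨ σ = -1 := sq_eq_one_iff.1 hσ2
  have hτ' : τ = 1 ∨ τ = -1 := sq_eq_one_iff.1 hτ2
  have main : ∀ t ∈ Icc 0 T, z t = sol σ τ t := by
    intro t ht
    obtain ⟨A1, A2⟩ := RA t ht
    obtain ⟨B1', B2'⟩ := RB t ht
    have C1 := (RC t ht).1
    have D1 := (RD t ht).1
    obtain ⟨E1, E2⟩ := RE t ht
    have F1 := RF t ht
    rw [u1] at C1
    rw [u2] at D1
    rw [u1, u2] at E1 E2
    refine Prod.ext ?_ ?_
    · ext i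
      fin_cases i
      · simp only [sol, Fin.zero_eta, Matrix.cons_val]
        rcases hτ' with h | h
        · rw [h] at A1 B1' ⊢
          linarith
        · rw [h] at A1 B1' ⊢
          linarith
      · simp only [sol, Fin.mk_one, Matrix.cons_val]
        rcases hτ' with h | h
        · rw [h] at A2 B2' ⊢
          linarith
        · rw [h] at A2 B2' ⊢
          linarith
      · simp only [sol, Fin.reduceFinMk, Matrix.cons_val]
        linarith
      · simp only [sol, Fin.reduceFinMk, Matrix.cons_val]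
        linarith
    · ext i
      fin_cases i
      · simp only [sol, Fin.zero_eta, Matrix.cons_val]
        exact F1
      · simp only [sol, Fin.mk_one, Matrix.cons_val]
        linarith
      · simp only [sol, Fin.reduceFinMk, Matrix.cons_val]
        linarith
  refine ⟨σ, τ, hσ', hτ', ?_, main⟩
  have e : (z T).1 1 = σ * sin ((eps + τ) * T) := by rw [main T hTm]; rfl
  rw [b1] at e
  rcases mul_eq_zero.1 e.symm with h | h
  · exact absurd h hσ0
  · exact h

end Pool.Agent.H783Z.Katok
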