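import Mathlib
import Pool.Agent.H783Z.ContactPull
import Pool.Agent.H783Z.KatokODE

/-! The Katok example on the product of the unit spheres of dimensions three and two. -/

open scoped Topology ContDiff Manifold
open Set Real Metric

noncomputable section

namespace Pool.Agent.H783Z.Katok

open Pool.Agent.H783Z.Contact

abbrev MM := sphere (0 : E4) 1 × sphere (0 : E3) 1
abbrev II := (𝓡 3).prod (𝓡 2)

theorem fact4 : Fact (Module.finrank ℝ E4 = 3 + 1) := ⟨finrank_euclideanSpace_fin⟩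
theorem fact3 : Fact (Module.finrank ℝ E3 = 2 + 1) := ⟨finrank_euclideanSpace_fin⟩

attribute [local instance] fact4 fact3

/-- The inclusion into the ambient vector space. -/
def io (x : MM) : V := (x.1, x.2)

theorem io_inj : Function.Injective io := by
  intro x y h
  exact Prod.ext (Subtype.ext (congrArg Prod.fst h)) (Subtype.ext (congrArg Prod.snd h))

theorem smooth1 : ContMDiff II 𝓘(ℝ, E4) ∞ (fun x : MM => (x.1 : E4)) :=
  (contMDiff_coe_sphere (n := 3)).comp contMDiff_fst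

theorem smooth2 : ContMDiff II 𝓘(ℝ, E3) ∞ (fun x : MM => (x.2 : E3)) :=
  (contMDiff_coe_sphere (n := 2)).comp contMDiff_snd

theorem io_smooth : ContMDiff II 𝓘(ℝ, V) ∞ io := smooth1.prodMk_space smooth2

theorem mem4 (q : E4) : q ∈ sphere (0 : E4) 1 ↔ q 0 ^ 2 + q 1 ^ 2 + q 2 ^ 2 + q 3 ^ 2 = 1 := by
  rw [mem_sphere_zero_iff_norm, EuclideanSpace.norm_eq, Real.sqrt_eq_one]
  simp [Fin.sum_univ_four]

theorem mem3 (u : E3) : u ∈ sphere (0 : E3) 1 ↔ u 0 ^ 2 + u 1 ^ 2 + u 2 ^ 2 = 1 := by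
  rw [mem_sphere_zero_iff_norm, EuclideanSpace.norm_eq, Real.sqrt_eq_one]
  simp [Fin.sum_univ_three]

theorem io_on (x : MM) : On (io x) := ⟨(mem4 _).1 x.1.2, (mem3 _).1 x.2.2⟩

/-- The point of the manifold with given ambient coordinates. -/
def mk (z : V) (hz : On z) : MM := (⟨z.1, (mem4 _).2 hz.hq⟩, ⟨z.2, (mem3 _).2 hz.hu⟩)

@[simp] theorem io_mk (z : V) (hz : On z) : io (mk z hz) = z := rfl

def D1 (q : sphere (0 : E4) 1) : EuclideanSpace ℝ (Fin 3) →L[ℝ] E4 :=
  mfderiv (𝓡 3) 𝓘(ℝ, E4) ((↑) : sphere (0 : E4) 1 → E4) q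

def D2 (u : sphere (0 : E3) 1) : EuclideanSpace ℝ (Fin 2) →L[ℝ] E3 :=
  mfderiv (𝓡 2) 𝓘(ℝ, E3) ((↑) : sphere (0 : E3) 1 → E3) u

theorem dif_io (x : MM) (v : TangentSpace II x) :
    dif II io x v = (D1 x.1 v.1, D2 x.2 v.2) := by
  have h1 : HasMFDerivAt II 𝓘(ℝ, E4) (fun x : MM => (x.1 : E4)) x
      ((D1 x.1).comp (ContinuousLinearMap.fst ℝ _ _)) :=
    ((contMDiff_coe_sphere (n := 3) (m := ∞) x.1).mdifferentiableAt (by simp)).hasMFDerivAt.comp x
      (hasMFDerivAt_fst x)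
  have h2 : HasMFDerivAt II 𝓘(ℝ, E3) (fun x : MM => (x.2 : E3)) x
      ((D2 x.2).comp (ContinuousLinearMap.snd ℝ _ _)) :=
    ((contMDiff_coe_sphere (n := 2) (m := ∞) x.2).mdifferentiableAt (by simp)).hasMFDerivAt.comp x
      (hasMFDerivAt_snd x)
  have h0 := (io_smooth x).mdifferentiableAt (by simp)
  have k1 : HasMFDerivAt II 𝓘(ℝ, E4) (fun x : MM => (x.1 : E4)) x
      ((ContinuousLinearMap.fst ℝ E4 E3).comp (dif II io x)) :=
    ((ContinuousLinearMap.fst ℝ E4 E3).hasMFDerivAt (x := io x)).comp x h0.hasMFDerivAt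
  have k2 : HasMFDerivAt II 𝓘(ℝ, E3) (fun x : MM => (x.2 : E3)) x
      ((ContinuousLinearMap.snd ℝ E4 E3).comp (dif II io x)) :=
    ((ContinuousLinearMap.snd ℝ E4 E3).hasMFDerivAt (x := io x)).comp x h0.hasMFDerivAt
  have e1 := DFunLike.congr_fun (k1.mfderiv.symm.trans h1.mfderiv) v
  have e2 := DFunLike.congr_fun (k2.mfderiv.symm.trans h2.mfderiv) v
  exact Prod.ext e1 e2

theorem dif_inj (x : MM) : Function.Injective (dif II io x) := by
  intro v w h
  rw [dif_io, dif_io] at h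
  have h1 : D1 x.1 v.1 = D1 x.1 w.1 := congrArg Prod.fst h
  have h2 : D2 x.2 v.2 = D2 x.2 w.2 := congrArg Prod.snd h
  exact Prod.ext (mfderiv_coe_sphere_injective (n := 3) x.1 h1)
    (mfderiv_coe_sphere_injective (n := 2) x.2 h2)

theorem range1 (q : sphere (0 : E4) 1) (a : E4) : (∃ v, D1 q v = a) ↔
    (q : E4) 0 * a 0 + (q : E4) 1 * a 1 + (q : E4) 2 * a 2 + (q : E4) 3 * a 3 = 0 := by
  have h := range_mfderiv_coe_sphere (n := 3) q
  have h2 : (∃ v, D1 q v = a) ↔ a ∈ (ℝ ∙ (q : E4))ᗮ := by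
    rw [← h]
    rfl
  rw [h2, Submodule.mem_orthogonal_singleton_iff_inner_right]
  simp only [PiLp.inner_apply, Fin.sum_univ_four, RCLike.inner_apply, conj_trivial]
  constructor <;> intro h <;> linarith

theorem range2 (u : sphere (0 : E3) 1) (a : E3) : (∃ v, D2 u v = a) ↔
    (u : E3) 0 * a 0 + (u : E3) 1 * a 1 + (u : E3) 2 * a 2 = 0 := by
  have h := range_mfderiv_coe_sphere (n := 2) u
  have h2 : (∃ v, D2 u v = a) ↔ a ∈ (ℝ ∙ (u : E3))ᗮ := by
    rw [← h]
    rfl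
  rw [h2, Submodule.mem_orthogonal_singleton_iff_inner_right]
  simp only [PiLp.inner_apply, Fin.sum_univ_three, RCLike.inner_apply, conj_trivial]
  constructor <;> intro h <;> linarith

theorem dif_tan (x : MM) (v : TangentSpace II x) : Tan (io x) (dif II io x v) := by
  rw [dif_io]
  exact ⟨(range1 x.1 _).1 ⟨_, rfl⟩, (range2 x.2 _).1 ⟨_, rfl⟩⟩

theorem exists_of_tan (x : MM) {a : V} (ha : Tan (io x) a) :
    ∃ v : TangentSpace II x, dif II io x v = a := by
  obtain ⟨v1, h1⟩ := (range1 x.1 a.1).2 ha.hq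
  obtain ⟨v2, h2⟩ := (range2 x.2 a.2).2 ha.hu
  refine ⟨(v1, v2), ?_⟩
  rw [dif_io]
  exact Prod.ext h1 h2

/-- The contact form. -/
def al : (x : MM) → TangentSpace II x →L[ℝ] ℝ := pull II io lam

/-- The Reeb field. -/
def RR (x : MM) : TangentSpace II x := (exists_of_tan x (XX_tan (io x))).choose

theorem dif_RR (x : MM) : dif II io x (RR x) = XX (io x) :=
  (exists_of_tan x (XX_tan (io x))).choose_spec

/-- The involution. -/
def rho (x : MM) : MM := mk (rr (io x)) (rr_on (io_on x))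

theorem io_rho (x : MM) : io (rho x) = rr (io x) := rfl

theorem al_apply (x : MM) (v : TangentSpace II x) : al x v = lam (io x) (dif II io x v) := rfl

theorem lam_smooth (x : MM) : ContDiffAt ℝ ∞ lam (io x) := smooth_lam (hh_pos (io_on x)).ne'

theorem extDer_al (x : MM) (u v : TangentSpace II x) : extDer II al x u v =
    fderiv ℝ lam (io x) (dif II io x u) (dif II io x v) -
      fderiv ℝ lam (io x) (dif II io x v) (dif II io x u) :=
  extDer_pull io_smooth x ((lam_smooth x).differentiableAt (by simp)) u v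

theorem reeb : IsReebField II al RR where
  unit x := by rw [al_apply, dif_RR, lam_XX (io_on x)]
  kernel x v := by
    rw [extDer_al, dif_RR]
    exact dlam_XX (io_on x) (dif_tan x v)

theorem contact : IsContactForm II al where
  smooth := smooth_pull io_smooth lam_smooth
  ne_zero x h := by
    have h1 := reeb.unit x
    rw [h] at h1
    simp at h1
  nondeg x u hu h := by
    apply dif_inj x
    rw [map_zero]
    refine nondeg (io_on x) (dif_tan x u) hu ?_
    intro b hb hb0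
    obtain ⟨v, rfl⟩ := exists_of_tan x hb
    rw [← extDer_al]
    exact h v hb0

theorem rho_smooth : ContMDiff II II ∞ rho := by
  have h1 : ContMDiff II 𝓘(ℝ, E4) ∞ (fun x : MM => (rr (io x)).1) :=
    smooth_rr1.contMDiff.comp io_smooth
  have h2 : ContMDiff II 𝓘(ℝ, E3) ∞ (fun x : MM => (rr (io x)).2) :=
    smooth_rr2.contMDiff.comp io_smooth
  exact (h1.codRestrict_sphere (n := 3) (fun x => (mem4 _).2 (rr_on (io_on x)).hq)).prodMk
    (h2.codRestrict_sphere (n := 2) (fun x => (mem3 _).2 (rr_on (io_on x)).hu))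

theorem dif_rho (x : MM) (v : TangentSpace II x) (i : Fin 4) (s : ℝ)
    (h : ∀ z : V, (rr z).1 i = s * z.1 i) :
    (dif II io (rho x) (mfderiv II II rho x v)).1 i = s * (dif II io x v).1 i := by
  have h0 := (io_smooth x).mdifferentiableAt (by simp)
  have h1 := (io_smooth (rho x)).mdifferentiableAt (by simp)
  have h2 := (rho_smooth x).mdifferentiableAt (by simp)
  have k1 : HasMFDerivAt II 𝓘(ℝ, ℝ) (fun x : MM => cq i (io (rho x))) x
      ((cq i).comp ((dif II io (rho x)).comp (mfderiv II II rho x))) :=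
    ((cq i).hasMFDerivAt (x := io (rho x))).comp x (h1.hasMFDerivAt.comp x h2.hasMFDerivAt)
  have k2 : HasMFDerivAt II 𝓘(ℝ, ℝ) (fun x : MM => (s • cq i) (io x)) x
      ((s • cq i).comp (dif II io x)) :=
    ((s • cq i).hasMFDerivAt (x := io x)).comp x h0.hasMFDerivAt
  have e : (fun x : MM => cq i (io (rho x))) = fun x : MM => (s • cq i) (io x) := by
    funext y
    exact h (io y)
  have k3 : HasMFDerivAt II 𝓘(ℝ, ℝ) (fun x : MM => cq i (io (rho x))) x
      ((s • cq i).comp (dif II io x)) := k2.congr_of_eventuallyEq (Filter.EventuallyEq.of_eq e)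
  exact DFunLike.congr_fun (k1.mfderiv.symm.trans k3.mfderiv) v

theorem anti : IsAntiContactInvolution II al rho where
  smooth := rho_smooth
  invol x := io_inj (by rw [io_rho, io_rho, rr_rr (io_on x)])
  anti x v := by
    rw [al_apply, al_apply, io_rho]
    apply rr_lam (io_on x)
    · simpa using dif_rho x v 0 1 (fun z => by simp [rr])
    · simpa using dif_rho x v 1 (-1) (fun z => by simp [rr])
    · simpa using dif_rho x v 2 (-1) (fun z => by simp [rr])
    · simpa using dif_rho x v 3 (-1) (fun z => by simp [rr])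

/-- The two symmetric orbits. -/
def Gam (τ : ℝ) : Set MM :=
  {x | (io x).1 2 = 0 ∧ (io x).1 3 = 0 ∧ (io x).2 0 = τ ∧ (io x).2 1 = 0 ∧ (io x).2 2 = 0}

theorem doubled_image {c : ℝ → MM} {T : ℝ} (hT : 0 < T) (h : rho (c T) = c T) :
    doubled rho c T '' Icc 0 (2 * T) = c '' Icc 0 T ∪ rho '' (c '' Icc 0 T) := by
  ext x
  constructor
  · rintro ⟨t, ⟨h0, h1⟩, rfl⟩
    unfold doubled
    split_ifs with ht
    · exact Or.inl ⟨t, ⟨h0, ht⟩, rfl⟩
    · exact Or.inr ⟨c (2 * T - t), ⟨2 * T - t, ⟨by linarith, by linarith⟩, rfl⟩, rfl⟩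
  · rintro (⟨t, ⟨h0, h1⟩, rfl⟩ | ⟨_, ⟨t, ⟨h0, h1⟩, rfl⟩, rfl⟩)
    · exact ⟨t, ⟨h0, by linarith⟩, by simp [doubled, h1]⟩
    · rcases eq_or_lt_of_le h1 with rfl | h2
      · exact ⟨t, ⟨h0, by linarith⟩, by simp [doubled, h]⟩
      · refine ⟨2 * T - t, ⟨by linarith, by linarith⟩, ?_⟩
        have : ¬ (2 * T - t ≤ T) := by linarith
        simp [doubled, this]

theorem rho_Gam {τ : ℝ} {x : MM} (hx : x ∈ Gam τ) : rho x ∈ Gam τ ∧
    (io (rho x)).1 0 = (io x).1 0 ∧ (io (rho x)).1 1 = -(io x).1 1 := by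
  obtain ⟨h1, h2, h3, h4, h5⟩ := hx
  have hq := (io_on x).hq
  rw [h1, h2] at hq
  refine ⟨⟨?_, ?_, ?_, ?_, ?_⟩, rfl, rfl⟩ <;> rw [io_rho] <;>
    simp only [rr, B0, B1, B2, B3, Matrix.cons_val, h1, h2, h3, h4, h5]
  · ring
  · ring
  · linear_combination τ * hq
  · ring
  · ring

theorem Gam_ext {τ : ℝ} {x y : MM} (hx : x ∈ Gam τ) (hy : y ∈ Gam τ)
    (h0 : (io x).1 0 = (io y).1 0) (h1 : (io x).1 1 = (io y).1 1) : x = y := by
  obtain ⟨a1, a2, a3, a4, a5⟩ := hx
  obtain ⟨b1, b2, b3, b4, b5⟩ := hy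
  apply io_inj
  refine Prod.ext ?_ ?_
  · ext i
    fin_cases i
    · exact h0
    · exact h1
    · exact a1.trans b1.symm
    · exact a2.trans b2.symm
  · ext i
    fin_cases i
    · exact a3.trans b3.symm
    · exact a4.trans b4.symm
    · exact a5.trans b5.symm

theorem theta_ne {τ : ℝ} (hτ : τ = 1 ∨ τ = -1) : eps + τ ≠ 0 := by
  have h1 := eps_pos
  have h2 := eps_lt
  rcases hτ with rfl | rfl
  · linarith
  · linarith

theorem image_eq {c : ℝ → MM} {T σ τ : ℝ} (hT : 0 < T) (hσ : σ = 1 ∨ σ = -1) (hτ : τ = 1 ∨ τ = -1)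
    (hs : sin ((eps + τ) * T) = 0) (hc : ∀ t ∈ Icc 0 T, io (c t) = sol σ τ t) :
    c '' Icc 0 T ∪ rho '' (c '' Icc 0 T) = Gam τ := by
  have hmem : ∀ t ∈ Icc 0 T, c t ∈ Gam τ := by
    intro t ht
    refine ⟨?_, ?_, ?_, ?_, ?_⟩ <;> rw [hc t ht] <;> rfl
  have hθ := theta_ne hτ
  set θ := eps + τ with hθd
  have hσ2 : σ ^ 2 = 1 := by rcases hσ with rfl | rfl <;> norm_num
  apply Subset.antisymm
  · rintro x (⟨t, ht, rfl⟩ | ⟨_, ⟨t, ht, rfl⟩, rfl⟩)
    · exact hmem t ht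
    · exact (rho_Gam (hmem t ht)).1
  · intro x hx
    have hq := (io_on x).hq
    rw [hx.1, hx.2.1] at hq
    set a := (io x).1 0 with ha
    set b := (io x).1 1 with hb
    have hab : a ^ 2 + b ^ 2 = 1 := by linarith
    have hσa : (σ * a) ^ 2 ≤ 1 := by nlinarith [sq_nonneg b]
    have hle := abs_le.1 ((sq_le_one_iff_abs_le_one _).1 hσa)
    have habs : 0 < |θ| := abs_pos.2 hθ
    have hπ : π ≤ |θ| * T := by
      obtain ⟨m, hm⟩ := sin_eq_zero_iff.1 hs
      have hm0 : m ≠ 0 := by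
        rintro rfl
        have : θ * T = 0 := by rw [← hm]; simp
        exact (mul_ne_zero hθ hT.ne') this
      have h1 : (1 : ℝ) ≤ |(m : ℝ)| := by
        have := Int.one_le_abs hm0
        exact_mod_cast this
      have h2 : |θ| * T = |(m : ℝ)| * π := by
        rw [← abs_of_pos hT, ← abs_mul, ← hm, abs_mul, abs_of_pos pi_pos]
      rw [h2]
      nlinarith [pi_pos]
    set t := arccos (σ * a) / |θ| with ht
    have htm : t ∈ Icc 0 T := by
      constructor
      · exact div_nonneg (arccos_nonneg _) habs.le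
      · rw [ht, div_le_iff₀ habs]
        have := arccos_le_pi (σ * a)
        linarith
    have hcos : cos (θ * t) = σ * a := by
      have e : |θ * t| = arccos (σ * a) := by
        rw [abs_mul, abs_of_nonneg htm.1, ht]
        field_simp
      rw [← cos_abs, e, cos_arccos hle.1 hle.2]
    have c0 : (io (c t)).1 0 = a := by
      rw [hc t htm]
      change σ * cos (θ * t) = a
      rw [hcos]
      linear_combination a * hσ2
    have c1 : (io (c t)).1 1 = b ∨ (io (c t)).1 1 = -b := by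
      have hq' := (io_on (c t)).hq
      rw [(hmem t htm).1, (hmem t htm).2.1, c0] at hq'
      apply sq_eq_sq_iff_eq_or_eq_neg.1
      linarith
    rcases c1 with c1 | c1
    · exact Or.inl ⟨t, htm, Gam_ext (hmem t htm) hx c0 c1⟩
    · obtain ⟨r1, r2, r3⟩ := rho_Gam (hmem t htm)
      refine Or.inr ⟨c t, ⟨t, htm, rfl⟩, Gam_ext r1 hx (r2.trans c0) ?_⟩
      rw [r3, c1, neg_neg]

theorem orbit_cases {Γ : Set MM} (h : Γ ∈ symmetricOrbits II RR rho) : Γ = Gam 1 ∨ Γ = Gam (-1) := by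
  obtain ⟨c, T, hc, rfl⟩ := h
  have hz : ∀ t ∈ Icc 0 T, HasDerivWithinAt (fun t => io (c t)) (XX (io (c t))) (Icc 0 T) t := by
    intro t ht
    rw [← dif_RR]
    exact hasDerivWithinAt_comp io_smooth hc.integral ht
  obtain ⟨σ, τ, hσ, hτ, hs, hsol⟩ := chord hc.pos hz (fun t => io_on (c t))
    (by rw [← io_rho, hc.start]) (by rw [← io_rho, hc.finish])
  rw [doubled_image hc.pos hc.finish, image_eq hc.pos hσ hτ hs hsol]
  rcases hτ with rfl | rfl
  · exact Or.inl rfl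
  · exact Or.inr rfl

theorem sol_on {τ : ℝ} (hτ : τ = 1 ∨ τ = -1) (t : ℝ) : On (sol 1 τ t) := by
  constructor
  · simp only [sol, Matrix.cons_val]
    linear_combination sin_sq_add_cos_sq ((eps + τ) * t)
  · simp only [sol, Matrix.cons_val]
    rcases hτ with rfl | rfl <;> norm_num

theorem sol_smooth1 (τ : ℝ) : ContDiff ℝ ∞ (fun t => (sol 1 τ t).1) := by
  rw [contDiff_euclidean]
  intro i
  fin_cases i
  · exact contDiff_const.mul (contDiff_const.mul contDiff_id).cos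
  · exact contDiff_const.mul (contDiff_const.mul contDiff_id).sin
  · exact contDiff_const
  · exact contDiff_const

theorem sol_deriv (τ t : ℝ) : HasDerivAt (sol 1 τ) (XX (sol 1 τ t)) t := by
  have hc : HasDerivAt (fun t => cos ((eps + τ) * t)) (-sin ((eps + τ) * t) * (eps + τ)) t := by
    simpa using ((hasDerivAt_id t).const_mul (eps + τ)).cos
  have hs : HasDerivAt (fun t => sin ((eps + τ) * t)) (cos ((eps + τ) * t) * (eps + τ)) t := by
    simpa using ((hasDerivAt_id t).const_mul (eps + τ)).sin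
  have e : sol 1 τ = fun t => cos ((eps + τ) * t) • ((!₂[1, 0, 0, 0], 0) : V) +
      sin ((eps + τ) * t) • ((!₂[0, 1, 0, 0], 0) : V) + ((0, !₂[τ, 0, 0]) : V) := by
    funext s
    refine Prod.ext ?_ ?_
    · ext i
      fin_cases i <;> simp [sol]
    · ext i
      fin_cases i <;> simp [sol]
  have h := ((hc.smul_const ((!₂[1, 0, 0, 0], 0) : V)).add
    (hs.smul_const ((!₂[0, 1, 0, 0], 0) : V))).add_const ((0, !₂[τ, 0, 0]) : V)
  have h' : HasDerivAt (sol 1 τ) ((-sin ((eps + τ) * t) * (eps + τ)) • ((!₂[1, 0, 0, 0], 0) : V) +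
      (cos ((eps + τ) * t) * (eps + τ)) • ((!₂[0, 1, 0, 0], 0) : V)) t := by
    rw [e]
    exact h
  refine h'.congr_deriv ?_
  refine Prod.ext ?_ ?_
  · ext i
    fin_cases i <;> simp [sol, XX, B0, B1, B2, B3] <;> ring
  · ext i
    fin_cases i <;> simp [sol, XX]

theorem Gam_mem {τ : ℝ} (hτ : τ = 1 ∨ τ = -1) : Gam τ ∈ symmetricOrbits II RR rho := by
  have hθ := theta_ne hτ
  have habs : 0 < |eps + τ| := abs_pos.2 hθ
  let c : ℝ → MM := fun t => mk (sol 1 τ t) (sol_on hτ t)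
  have hio : ∀ t, io (c t) = sol 1 τ t := fun t => rfl
  have hcs : ContMDiff 𝓘(ℝ, ℝ) II ∞ c := by
    have h1 : ContMDiff 𝓘(ℝ, ℝ) 𝓘(ℝ, E4) ∞ (fun t => (sol 1 τ t).1) := (sol_smooth1 τ).contMDiff
    have h2 : ContMDiff 𝓘(ℝ, ℝ) 𝓘(ℝ, E3) ∞ (fun t => (sol 1 τ t).2) := contMDiff_const
    exact (h1.codRestrict_sphere (n := 3) (fun t => (mem4 _).2 (sol_on hτ t).hq)).prodMk
      (h2.codRestrict_sphere (n := 2) (fun t => (mem3 _).2 (sol_on hτ t).hu))
  have hT : 0 < π / |eps + τ| := div_pos pi_pos habs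
  have hs : sin ((eps + τ) * (π / |eps + τ|)) = 0 := by
    rcases abs_cases (eps + τ) with ⟨h, -⟩ | ⟨h, -⟩
    · rw [h, mul_div_cancel₀ _ hθ, sin_pi]
    · rw [h, div_neg, mul_neg, mul_div_cancel₀ _ hθ, sin_neg, sin_pi, neg_zero]
  have hmem : ∀ t, c t ∈ Gam τ := fun t => ⟨rfl, rfl, rfl, rfl, rfl⟩
  have hfix : ∀ t, sin ((eps + τ) * t) = 0 → rho (c t) = c t := by
    intro t ht
    obtain ⟨r1, r2, r3⟩ := rho_Gam (hmem t)
    refine Gam_ext r1 (hmem t) r2 ?_
    rw [r3]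
    change -(1 * sin ((eps + τ) * t)) = 1 * sin ((eps + τ) * t)
    rw [ht]
    ring
  have hint : ∀ t, HasMFDerivAt 𝓘(ℝ, ℝ) II c t ((1 : ℝ →L[ℝ] ℝ).smulRight (RR (c t))) := by
    intro t
    have h0 := ((hcs t).mdifferentiableAt (by simp)).hasMFDerivAt
    have h1 := ((io_smooth (c t)).mdifferentiableAt (by simp)).hasMFDerivAt.comp t h0
    rw [hasMFDerivAt_iff_hasFDerivAt] at h1
    have h2 : HasFDerivAt (sol 1 τ)
        ((dif II io (c t)).comp (show ℝ →L[ℝ] TangentSpace II (c t) from mfderiv 𝓘(ℝ, ℝ) II c t)) t :=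
      h1
    have h3 := h2.hasDerivAt.unique (sol_deriv τ t)
    have h4 : (show ℝ →L[ℝ] TangentSpace II (c t) from mfderiv 𝓘(ℝ, ℝ) II c t) 1 = RR (c t) := by
      apply dif_inj (c t)
      rw [dif_RR]
      exact h3
    have h5 : (show ℝ →L[ℝ] TangentSpace II (c t) from mfderiv 𝓘(ℝ, ℝ) II c t) =
        (1 : ℝ →L[ℝ] ℝ).smulRight (RR (c t)) := by
      ext
      rw [h4]
      simp
    exact h0.congr_mfderiv h5
  refine ⟨c, π / |eps + τ|, ⟨hT, fun t _ => (hint t).hasMFDerivWithinAt, hfix 0 (by simp),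
    hfix _ hs⟩, ?_⟩
  rw [doubled_image hT (hfix _ hs), image_eq hT (Or.inl rfl) hτ hs (fun t _ => hio t)]

theorem Gam_ne : Gam 1 ≠ Gam (-1) := by
  intro h
  have h1 : mk (sol 1 1 0) (sol_on (Or.inl rfl) 0) ∈ Gam 1 := ⟨rfl, rfl, rfl, rfl, rfl⟩
  rw [h] at h1
  have h2 : (1 : ℝ) = -1 := h1.2.2.1
  norm_num at h2

theorem orbits_eq : symmetricOrbits II RR rho = {Gam 1, Gam (-1)} := by
  apply Subset.antisymm
  · intro Γ h
    exact orbit_cases h
  · rintro Γ (rfl | rfl)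
    · exact Gam_mem (Or.inl rfl)
    · exact Gam_mem (Or.inr rfl)

theorem fix_nonempty : ∃ x, rho x = x := by
  obtain ⟨c, T, hc, -⟩ := Gam_mem (Or.inl rfl)
  exact ⟨c 0, hc.start⟩

theorem main : IsContactForm II al ∧ IsReebField II al RR ∧ IsAntiContactInvolution II al rho ∧
    (∃ x, rho x = x) ∧ (symmetricOrbits II RR rho).encard = 2 :=
  ⟨contact, reeb, anti, fix_nonempty, by rw [orbits_eq, encard_pair Gam_ne]⟩

end Pool.Agent.H783Z.Katok
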