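import Mathlib

set_option autoImplicit false
set_option linter.unusedSectionVars false
open InnerProductGeometry Finset
open scoped RealInnerProductSpace NNReal

namespace Pool.Agent.H783Z.MU

variable {F F' : Type*} [NormedAddCommGroup F] [InnerProductSpace ℝ F]
  [NormedAddCommGroup F'] [InnerProductSpace ℝ F']

def Cone (y x z : F) : Prop := ∃ p q : ℝ, 0 ≤ p ∧ 0 ≤ q ∧ y = p • x + q • z

lemma Cone.angle {x y z : F} (h : Cone y x z) (hy : y ≠ 0) :
    angle x z = angle x y + angle y z := by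
  obtain ⟨p, q, hp, hq, e⟩ := h
  apply angle_eq_angle_add_add_angle_add_of_mem_span hy
  rw [Submodule.mem_span_pair]
  exact ⟨⟨p, hp⟩, ⟨q, hq⟩, e.symm⟩

lemma interp {u v : F} (hu : u ≠ 0) (hv : v ≠ 0) (hpi : angle u v ≠ Real.pi) {s : ℝ}
    (h0 : 0 ≤ s) (h1 : s ≤ angle u v) :
    ∃ w : F, w ≠ 0 ∧ angle u w = s ∧ angle u v = angle u w + angle w v := by
  have hne : ∀ r ∈ Set.Icc (0 : ℝ) 1, (1 - r) • u + r • v ≠ 0 := by
    intro r hr e
    have r0 : r ≠ 0 := by rintro rfl; simp at e; exact hu e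
    have r1 : r ≠ 1 := by rintro rfl; simp at e; exact hv e
    apply hpi
    rw [angle_eq_pi_iff]
    have rp : 0 < r := lt_of_le_of_ne hr.1 r0.symm
    have rq : 0 < 1 - r := sub_pos.2 (lt_of_le_of_ne hr.2 r1)
    refine ⟨hu, -((1 - r) / r), neg_neg_of_pos (div_pos rq rp), ?_⟩
    have : r • v = -((1 - r) • u) := eq_neg_of_add_eq_zero_right e
    calc v = r⁻¹ • r • v := by rw [smul_smul, inv_mul_cancel₀ r0, one_smul]
      _ = _ := by rw [this, smul_neg, smul_smul, neg_smul, div_eq_inv_mul]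
  have hc : ContinuousOn (fun r : ℝ => angle u ((1 - r) • u + r • v)) (Set.Icc 0 1) := by
    intro r hr
    apply ContinuousAt.continuousWithinAt
    have h2 : ContinuousAt (fun r : ℝ => (u, (1 - r) • u + r • v)) r := by fun_prop
    exact ContinuousAt.comp (f := fun r : ℝ => (u, (1 - r) • u + r • v))
      (g := fun y : F × F => angle y.1 y.2) (continuousAt_angle hu (hne r hr)) h2
  have := intermediate_value_Icc zero_le_one hc
  obtain ⟨r, hr, e⟩ := this (a := s) (by
    simp only [sub_zero, one_smul, zero_smul, add_zero, sub_self, zero_add, angle_self hu]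
    exact ⟨h0, h1⟩)
  refine ⟨_, hne r hr, e, Cone.angle ⟨1 - r, r, sub_nonneg.2 hr.2, hr.1, rfl⟩ (hne r hr)⟩

lemma angle_le_of {x y : F} {x' y' : F'} (hx : ‖x'‖ = ‖x‖) (hy : ‖y'‖ = ‖y‖)
    (h : ⟪x, y⟫ ≤ ⟪x', y'⟫) : angle x' y' ≤ angle x y := by
  unfold angle
  rw [hx, hy]
  exact Real.arccos_le_arccos (div_le_div_of_nonneg_right h (by positivity))

lemma angle_lt_of {x y : F} {x' y' : F'} (hx : ‖x'‖ = ‖x‖) (hy : ‖y'‖ = ‖y‖)
    (h : ⟪x, y⟫ < ⟪x', y'⟫) : angle x' y' < angle x y := by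
  refine lt_of_le_of_ne (angle_le_of hx hy h.le) fun e => ?_
  rw [← cos_angle_mul_norm_mul_norm, ← cos_angle_mul_norm_mul_norm, e, hx, hy] at h
  exact lt_irrefl _ h

/-- Schur's comparison theorem for polygonal arcs -/
theorem arm (t : ℕ → F) (t' : ℕ → F') (k j : ℕ) (hjk : j < k) (c : F)
    (hc : c = ∑ i ∈ range (k + 1), t i) (hc0 : c ≠ 0) (h0 : ∀ i ≤ k, t i ≠ 0)
    (hn : ∀ i ≤ k, ‖t' i‖ = ‖t i‖) (hi : ∀ i < k, ⟪t i, t (i + 1)⟫ ≤ ⟪t' i, t' (i + 1)⟫)
    (c1 : ∀ i < j, Cone (t (i + 1)) (t i) c) (c2 : Cone c (t j) (t (j + 1)))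
    (hpi : angle (t j) (t (j + 1)) ≠ Real.pi)
    (c3 : ∀ i, j < i → i < k → Cone (t i) c (t (i + 1))) :
    ‖c‖ ≤ ‖∑ i ∈ range (k + 1), t' i‖ ∧
      ((∃ i < k, ⟪t i, t (i + 1)⟫ < ⟪t' i, t' (i + 1)⟫) → ‖c‖ < ‖∑ i ∈ range (k + 1), t' i‖) := by
  have h0' : ∀ i ≤ k, t' i ≠ 0 := fun i hi e => h0 i hi (by
    rw [← norm_eq_zero, ← hn i hi, e, norm_zero])
  have th : ∀ i < k, angle (t' i) (t' (i + 1)) ≤ angle (t i) (t (i + 1)) := fun i h =>
    angle_le_of (hn i h.le) (hn _ h) (hi i h)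
  have e2 := c2.angle hc0
  have hpi' : angle (t' j) (t' (j + 1)) ≠ Real.pi := fun e =>
    hpi (le_antisymm (angle_le_pi _ _) (e ▸ th j hjk))
  obtain ⟨w, hw, w1, w2⟩ := interp (h0' j hjk.le) (h0' _ hjk) hpi'
    (s := min (angle (t j) c) (angle (t' j) (t' (j + 1))))
    (le_min (angle_nonneg _ _) (angle_nonneg _ _)) (min_le_right _ _)
  have e1 : ∀ i < j, angle (t i) c = angle (t i) (t (i + 1)) + angle (t (i + 1)) c := fun i h =>
    (c1 i h).angle (h0 _ (by omega))
  have e3 : ∀ i, j < i → i < k → angle (t (i + 1)) c = angle (t i) (t (i + 1)) + angle (t i) c := by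
    intro i h1 h2
    rw [angle_comm, (c3 i h1 h2).angle (h0 _ h2.le), angle_comm c, add_comm]
  have t1 : ∀ i, angle (t' i) w ≤ angle (t' i) (t' (i + 1)) + angle (t' (i + 1)) w := fun i =>
    angle_le_angle_add_angle _ _ _
  have t3 : ∀ i, angle (t' (i + 1)) w ≤ angle (t' i) (t' (i + 1)) + angle (t' i) w := fun i => by
    rw [angle_comm (t' i) (t' (i + 1))]; exact angle_le_angle_add_angle _ _ _
  rw [angle_comm w] at w2
  rw [angle_comm c] at e2
  have b1 : angle (t' j) w ≤ angle (t j) c := w1 ▸ min_le_left _ _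
  have b2 : angle (t' (j + 1)) w ≤ angle (t (j + 1)) c := by
    have := th j hjk
    have := angle_nonneg (t (j + 1)) c
    rcases le_total (angle (t j) c) (angle (t' j) (t' (j + 1))) with h | h
    · rw [min_eq_left h] at w1; linarith
    · rw [min_eq_right h] at w1; linarith
  have lo : ∀ n i, i + n = j → angle (t' i) w ≤ angle (t i) c := by
    intro n
    induction n with
    | zero => intro i h; rw [add_zero] at h; rw [h]; exact b1
    | succ n ih =>
      intro i h
      have := ih (i + 1) (by omega)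
      have := e1 i (by omega)
      have := t1 i
      have := th i (by omega)
      linarith
  have up : ∀ n, j + 1 + n ≤ k → angle (t' (j + 1 + n)) w ≤ angle (t (j + 1 + n)) c := by
    intro n
    induction n with
    | zero => intro _; exact b2
    | succ n ih =>
      intro h
      have := ih (by omega)
      have := e3 (j + 1 + n) (by omega) (by omega)
      have := t3 (j + 1 + n)
      have := th (j + 1 + n) (by omega)
      rw [← add_assoc]
      linarith
  have al : ∀ i ≤ k, angle (t' i) w ≤ angle (t i) c := by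
    intro i hi
    by_cases h : i ≤ j
    · exact lo (j - i) i (by omega)
    · have := up (i - (j + 1)) (by omega)
      rwa [show j + 1 + (i - (j + 1)) = i by omega] at this
  have s1 : ‖c‖ = ∑ i ∈ range (k + 1), ‖t i‖ * Real.cos (angle (t i) c) := by
    have hp : 0 < ‖c‖ := norm_pos_iff.2 hc0
    apply mul_right_cancel₀ hp.ne'
    rw [← real_inner_self_eq_norm_mul_norm, sum_mul]
    nth_rw 1 [hc]
    rw [sum_inner]
    refine sum_congr rfl fun i _ => ?_
    rw [← cos_angle_mul_norm_mul_norm]; ring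
  have s2 : ∑ i ∈ range (k + 1), ‖t i‖ * Real.cos (angle (t' i) w) ≤
      ‖∑ i ∈ range (k + 1), t' i‖ := by
    have hp : 0 < ‖w‖ := norm_pos_iff.2 hw
    refine le_of_mul_le_mul_right ?_ hp
    refine le_trans (le_of_eq ?_) (real_inner_le_norm _ _)
    rw [sum_inner, sum_mul]
    refine sum_congr rfl fun i hi => ?_
    rw [← cos_angle_mul_norm_mul_norm, hn i (by simpa [Nat.lt_succ_iff] using hi)]; ring
  have le1 : ∀ i ∈ range (k + 1), ‖t i‖ * Real.cos (angle (t i) c) ≤
      ‖t i‖ * Real.cos (angle (t' i) w) := fun i hi =>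
    mul_le_mul_of_nonneg_left (Real.cos_le_cos_of_nonneg_of_le_pi (angle_nonneg _ _)
      (angle_le_pi _ _) (al i (by simpa [Nat.lt_succ_iff] using hi))) (norm_nonneg _)
  refine ⟨s1 ▸ (sum_le_sum le1).trans s2, ?_⟩
  rintro ⟨l, hl, hlt⟩
  have st := angle_lt_of (hn l hl.le) (hn _ hl) hlt
  have : ∃ i ≤ k, angle (t' i) w < angle (t i) c := by
    rcases lt_trichotomy l j with h | h | h
    · refine ⟨l, hl.le, ?_⟩
      have := e1 l h; have := t1 l; have := al (l + 1) hl
      linarith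
    · subst h
      by_contra hc
      push Not at hc
      have := hc l hl.le; have := hc (l + 1) hl
      linarith
    · refine ⟨l + 1, hl, ?_⟩
      have := e3 l h hl; have := t3 l; have := al l hl.le
      linarith
  obtain ⟨i, hi, hlt⟩ := this
  rw [s1]
  refine lt_of_lt_of_le (sum_lt_sum le1 ⟨i, by simpa [Nat.lt_succ_iff] using hi, ?_⟩) s2
  exact mul_lt_mul_of_pos_left (Real.cos_lt_cos_of_nonneg_of_le_pi (angle_nonneg _ _)
    (angle_le_pi _ _) hlt) (norm_pos_iff.2 (h0 i hi))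

end Pool.Agent.H783Z.MU
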