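import Pool.Agent.H783Z.MUStep

set_option autoImplicit false
set_option linter.unusedSectionVars false
open Module Finset Matrix
open scoped RealInnerProductSpace

namespace Pool.Agent.H783Z.MU

variable {n : ℕ} {ι : Type*} [Fintype ι] [DecidableEq ι]

abbrev EU (n : ℕ) := EuclideanSpace ℝ (Fin n)

noncomputable def tl : (Fin n → ℝ) ≃ₗ[ℝ] EU n := (WithLp.linearEquiv 2 ℝ (Fin n → ℝ)).symm

noncomputable def hm (x : Fin n → ℝ) : ℝ × EU n := (1, tl x)

lemma LB_hm (x y : Fin n → ℝ) : LB (hm x) (hm y) = ∑ i, x i * y i - 1 := by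
  rw [LB_apply]
  simp only [hm, tl, PiLp.inner_apply, mul_one]
  simp [mul_comm]
  ring

lemma mem_conv {E : Type*} [AddCommGroup E] [Module ℝ E] (p : ι → E) (S : Finset ι) (x : E) :
    x ∈ convexHull ℝ (p '' (S : Set ι)) ↔ ∃ w : ι → ℝ, (∀ i, 0 ≤ w i) ∧ (∀ i ∉ S, w i = 0) ∧
      ∑ i, w i = 1 ∧ ∑ i, w i • p i = x := by
  constructor
  · intro hx
    refine convexHull_min (t := {x | ∃ w : ι → ℝ, (∀ i, 0 ≤ w i) ∧ (∀ i ∉ S, w i = 0) ∧
      ∑ i, w i = 1 ∧ ∑ i, w i • p i = x}) ?_ ?_ hx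
    · rintro _ ⟨i, hi, rfl⟩
      refine ⟨Pi.single i 1, fun j => ?_, fun j hj => Pi.single_eq_of_ne ?_ _, by simp, ?_⟩
      · by_cases e : j = i <;> simp [Pi.single_apply, e]
      · rintro rfl; exact hj hi
      · simp [Pi.single_apply]
    · rintro _ ⟨w, w1, w2, w3, rfl⟩ _ ⟨u, u1, u2, u3, rfl⟩ s t hs ht hst
      refine ⟨fun i => s * w i + t * u i, fun i => add_nonneg (mul_nonneg hs (w1 i))
        (mul_nonneg ht (u1 i)), fun i hi => by simp [w2 i hi, u2 i hi], ?_, ?_⟩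
      · rw [sum_add_distrib, ← mul_sum, ← mul_sum, w3, u3]; linarith
      · simp only [add_smul, mul_smul, sum_add_distrib, smul_sum]
  · rintro ⟨w, w1, w2, w3, rfl⟩
    rw [← sum_subset (subset_univ S) (fun i _ hi => by rw [w2 i hi, zero_smul])]
    rw [← sum_subset (subset_univ S) (fun i _ hi => w2 i hi)] at w3
    exact (convex_convexHull ℝ _).sum_mem (fun i _ => w1 i) w3
      fun i hi => subset_convexHull ℝ _ ⟨i, hi, rfl⟩

lemma hm_sum (p : ι → Fin n → ℝ) {w : ι → ℝ} (hw : ∑ i, w i = 1) :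
    hm (∑ i, w i • p i) = ∑ i, w i • hm (p i) := by
  refine Prod.ext ?_ ?_
  · rw [Prod.fst_sum]; simp [hm, hw]
  · rw [Prod.snd_sum]; simp [hm]

/-- a polytope with its vertex list -/
structure Pt (P : Set (Fin n → ℝ)) (p : ι → Fin n → ℝ) : Prop where
  conv : P = convexHull ℝ (p '' ((univ : Finset ι) : Set ι))
  ext : ∀ i, p i ∈ P.extremePoints ℝ
  inj : Function.Injective p
  full : (interior P).Nonempty
  tang : ∀ u v, u ≠ v → IsExposed ℝ P (segment ℝ (p u) (p v)) →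
    ∃ q ∈ segment ℝ (p u) (p v), ∑ i, q i ^ 2 = 1 ∧
      ∀ t : ℝ, 1 ≤ ∑ i, (p u i + t * (p v i - p u i)) ^ 2

lemma tang_alg {x y : Fin n → ℝ} (h : ∃ q ∈ segment ℝ x y, ∑ i, q i ^ 2 = 1 ∧
    ∀ t : ℝ, 1 ≤ ∑ i, (x i + t * (y i - x i)) ^ 2) : 0 ≤ LB (hm x) (hm x) ∧
      LB (hm x) (hm y) = -(√(LB (hm x) (hm x)) * √(LB (hm y) (hm y))) := by
  obtain ⟨_, ⟨r, s, hr, hs, hrs, rfl⟩, h1, h2⟩ := h
  simp only [LB_hm]
  set α := ∑ i, x i * x i
  set β := ∑ i, x i * y i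
  set γ := ∑ i, y i * y i
  have e : ∀ t : ℝ, ∑ i, (x i + t * (y i - x i)) ^ 2 =
      α + 2 * t * (β - α) + t ^ 2 * (α - 2 * β + γ) := fun t => by
    simp only [α, β, γ, mul_sub, mul_add, mul_sum, ← sum_add_distrib, ← sum_sub_distrib]
    exact sum_congr rfl fun i _ => by ring
  have C0 : 0 ≤ α - 2 * β + γ := by
    have : α - 2 * β + γ = ∑ i, (x i - y i) ^ 2 := by
      simp only [α, β, γ, mul_sum, ← sum_add_distrib, ← sum_sub_distrib]
      exact sum_congr rfl fun i _ => by ring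
    rw [this]; positivity
  have h3 : α + 2 * s * (β - α) + s ^ 2 * (α - 2 * β + γ) = 1 := by
    rw [← e, ← h1]
    refine sum_congr rfl fun i _ => ?_
    rw [show r = 1 - s by linarith]
    simp only [Pi.add_apply, Pi.smul_apply, smul_eq_mul]; ring
  simp only [e] at h2
  set C := α - 2 * β + γ with hC
  have h4 := discrim_le_zero (a := C) (b := 2 * (β - α + s * C)) (c := 0) fun ε => by
    have := h2 (s + ε)
    nlinarith
  have h5 : β - α + s * C = 0 := by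
    rw [discrim] at h4
    nlinarith [sq_nonneg (β - α + s * C)]
  have a1 : α - 1 = s ^ 2 * C := by linear_combination h3 - 2 * s * h5
  have a2 : β - 1 = -(s * r * C) := by
    rw [show r = 1 - s by linarith]; linear_combination h5 + a1
  have a3 : γ - 1 = r ^ 2 * C := by
    rw [show r = 1 - s by linarith] at a2 ⊢
    linear_combination 2 * a2 - a1 - hC
  rw [a1, a2, a3]
  refine ⟨by positivity, ?_⟩
  rw [← Real.sqrt_mul (by positivity), show s ^ 2 * C * (r ^ 2 * C) = (s * r * C) ^ 2 by ring,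
    Real.sqrt_sq (by positivity)]

lemma face_smul {E : Type*} [AddCommGroup E] [Module ℝ E] {a : ι → E} {c : ι → ℝ}
    (hc : ∀ i, 0 < c i) (S : Finset ι) : Face (fun i => c i • a i) S ↔ Face a S := by
  refine exists_congr fun φ => and_congr (forall_congr' fun v => ?_) (forall_congr' fun v => ?_)
  · rw [map_smul, smul_eq_mul, mul_nonneg_iff_of_pos_left (hc v)]
  · rw [map_smul, smul_eq_mul, mul_eq_zero_iff_left (hc v).ne']

namespace Pt
variable {P : Set (Fin n → ℝ)} {p : ι → Fin n → ℝ}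

lemma mem (h : Pt P p) (x : Fin n → ℝ) :
    x ∈ P ↔ ∃ w : ι → ℝ, (∀ i, 0 ≤ w i) ∧ ∑ i, w i = 1 ∧ ∑ i, w i • p i = x := by
  rw [h.conv, mem_conv]; simp

lemma mem_of (h : Pt P p) {S : Finset ι} {i : ι} (hi : p i ∈ convexHull ℝ (p '' (S : Set ι))) :
    i ∈ S := by
  have h1 : convexHull ℝ (p '' (S : Set ι)) ⊆ P := by
    rw [h.conv]; exact convexHull_mono (Set.image_mono (by simp))
  obtain ⟨j, hj, e⟩ := extremePoints_convexHull_subset
    (inter_extremePoints_subset_extremePoints_of_subset h1 ⟨hi, h.ext i⟩)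
  exact h.inj e ▸ hj

lemma face_iff (h : Pt P p) (S : Finset ι) :
    Face (fun i => hm (p i)) S ↔ IsExposed ℝ P (convexHull ℝ (p '' (S : Set ι))) := by
  constructor
  · rintro ⟨φ, hφ⟩ hne
    let l : (Fin n → ℝ) →ₗ[ℝ] ℝ := -(φ ∘ₗ LinearMap.inr ℝ ℝ (EU n) ∘ₗ tl.toLinearMap)
    have hl : ∀ x, l x = φ (1, 0) - φ (hm x) := fun x => by
      have : hm x = (1, 0) + (0, tl x) := by simp [hm]
      rw [this, map_add]; simp [l]
    have val : ∀ w : ι → ℝ, ∑ i, w i = 1 → φ (hm (∑ i, w i • p i)) = ∑ i, w i * φ (hm (p i)) :=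
      fun w hw => by rw [hm_sum p hw, map_sum]; simp
    have nn : ∀ y ∈ P, 0 ≤ φ (hm y) := fun y hy => by
      obtain ⟨w, w1, w2, rfl⟩ := (h.mem y).1 hy
      rw [val w w2]; exact sum_nonneg fun i _ => mul_nonneg (w1 i) (hφ.1 i)
    have zz : ∀ y ∈ convexHull ℝ (p '' (S : Set ι)), y ∈ P ∧ φ (hm y) = 0 := fun y hy => by
      obtain ⟨w, w1, w2, w3, rfl⟩ := (mem_conv p S y).1 hy
      refine ⟨(h.mem _).2 ⟨w, w1, w3, rfl⟩, ?_⟩
      rw [val w w3]
      refine sum_eq_zero fun i _ => ?_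
      by_cases c : i ∈ S
      · rw [hφ.zero c, mul_zero]
      · rw [w2 i c, zero_mul]
    refine ⟨LinearMap.toContinuousLinearMap l, Set.ext fun x => ⟨fun hx => ⟨(zz x hx).1,
      fun y hy => ?_⟩, fun ⟨hx, hx'⟩ => ?_⟩⟩
    · show l y ≤ l x
      rw [hl, hl, (zz x hx).2]; linarith [nn y hy]
    · obtain ⟨y, hy⟩ := hne
      have a : l y ≤ l x := hx' y (zz y hy).1
      rw [hl, hl, (zz y hy).2] at a
      have a2 : φ (hm x) = 0 := le_antisymm (by linarith) (nn x hx)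
      obtain ⟨w, w1, w2, rfl⟩ := (h.mem x).1 hx
      rw [val w w2, sum_eq_zero_iff_of_nonneg fun i _ => mul_nonneg (w1 i) (hφ.1 i)] at a2
      exact (mem_conv p S _).2 ⟨w, w1, fun i hi =>
        (mul_eq_zero.1 (a2 i (mem_univ i))).resolve_right (hφ.pos hi).ne', w2, rfl⟩
  · intro hE
    rcases S.eq_empty_or_nonempty with rfl | ⟨s, hs⟩
    · exact ⟨LinearMap.fst ℝ ℝ (EU n), fun v => by simp [hm], fun v => by simp [hm]⟩
    have ms : ∀ i ∈ S, p i ∈ convexHull ℝ (p '' (S : Set ι)) := fun i hi =>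
      subset_convexHull ℝ _ ⟨i, hi, rfl⟩
    obtain ⟨l, hl⟩ := hE ⟨_, ms s hs⟩
    have mx : ∀ i ∈ S, ∀ y ∈ P, l y ≤ l (p i) := fun i hi => by
      have := ms i hi
      rw [hl] at this
      exact this.2
    let φ : (ℝ × EU n) →ₗ[ℝ] ℝ := l (p s) • LinearMap.fst ℝ ℝ (EU n) -
      l.toLinearMap ∘ₗ tl.symm.toLinearMap ∘ₗ LinearMap.snd ℝ ℝ (EU n)
    have hφ : ∀ x, φ (hm x) = l (p s) - l x := fun x => by simp [φ, hm]
    refine ⟨φ, fun v => ?_, fun v => ⟨fun c => h.mem_of ?_, fun c => ?_⟩⟩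
    · rw [hφ]; exact sub_nonneg.2 (mx s hs _ (h.ext v).1)
    · rw [hφ] at c
      rw [hl]
      exact ⟨(h.ext v).1, fun y hy => by linarith [mx s hs y hy]⟩
    · rw [hφ]; linarith [mx s hs _ (h.ext v).1, mx v c _ (h.ext s).1]

lemma vert (h : Pt P p) (v : ι) : Face (fun i => hm (p i)) {v} := by
  obtain ⟨l, u, h1, h2⟩ := geometric_hahn_banach_point_closed (x := p v)
    (convex_convexHull ℝ (p '' ((univ.erase v : Finset ι) : Set ι)))
    (((univ.erase v).finite_toSet.image p).isClosed_convexHull ℝ)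
    (fun c => by simpa using h.mem_of c)
  let φ : (ℝ × EU n) →ₗ[ℝ] ℝ := l.toLinearMap ∘ₗ tl.symm.toLinearMap ∘ₗ LinearMap.snd ℝ ℝ (EU n) -
    l (p v) • LinearMap.fst ℝ ℝ (EU n)
  have hφ : ∀ x, φ (hm x) = l x - l (p v) := fun x => by simp [φ, hm]
  have pos : ∀ i, i ≠ v → 0 < φ (hm (p i)) := fun i hi => by
    have := h2 (p i) (subset_convexHull ℝ _ ⟨i, by simpa using hi, rfl⟩)
    rw [hφ]; linarith
  refine ⟨φ, fun i => ?_, fun i => ⟨fun c => ?_, fun c => ?_⟩⟩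
  · by_cases e : i = v
    · rw [e, hφ, sub_self]
    · exact (pos i e).le
  · by_contra e
    exact (pos i (by simpa using e)).ne' c
  · rw [mem_singleton.1 c, hφ, sub_self]

lemma top (h : Pt P p) : sp (fun i => hm (p i)) univ = ⊤ := by
  set W := sp (fun i => hm (p i)) univ
  let A : AffineSubspace ℝ (Fin n → ℝ) := ⟨{x | hm x ∈ W}, fun c x y z hx hy hz => by
    have : hm (c • (x -ᵥ y) +ᵥ z) = c • (hm x - hm y) + hm z := by simp [hm]
    show hm _ ∈ W
    rw [this]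
    exact add_mem (W.smul_mem _ (sub_mem hx hy)) hz⟩
  have h1 := affineSpan_eq_top_of_nonempty_interior (h.conv ▸ h.full)
  have h2 : ∀ x, hm x ∈ W := fun x => by
    have : affineSpan ℝ (p '' ((univ : Finset ι) : Set ι)) ≤ A := affineSpan_le.2 (by
      rintro _ ⟨i, hi, rfl⟩; exact mem_sp (a := fun i => hm (p i)) hi)
    rw [h1] at this
    exact this (AffineSubspace.mem_top ℝ _ x)
  rw [eq_top_iff]
  rintro ⟨t, y⟩ -
  have : (t, y) = (t - 1) • hm 0 + hm (tl.symm y) := by simp [hm]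
  rw [this]
  exact add_mem (W.smul_mem _ (h2 _)) (h2 _)

lemma f0 (p : ι → Fin n → ℝ) : Face (fun i => hm (p i)) ∅ :=
  ⟨LinearMap.fst ℝ ℝ (EU n), fun v => by simp [hm], fun v => by simp [hm]⟩

lemma rk_top (h : Pt P p) : rk (fun i => hm (p i)) univ = n + 1 := by
  unfold rk
  rw [h.top, finrank_top, finrank_prod]
  simp [add_comm]

lemma edge (h : Pt P p) {u v : ι} (huv : u ≠ v) (hf : Face (fun i => hm (p i)) {u, v}) :
    0 ≤ LB (hm (p u)) (hm (p u)) ∧ LB (hm (p u)) (hm (p v)) =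
      -(√(LB (hm (p u)) (hm (p u))) * √(LB (hm (p v)) (hm (p v)))) := by
  refine tang_alg (h.tang u v huv ?_)
  have := (h.face_iff _).1 hf
  rwa [coe_pair, Set.image_pair, convexHull_pair] at this

lemma out (h : Pt P p) (hn : 1 ≤ n) (v : ι) : 0 < LB (hm (p v)) (hm (p v)) := by
  have r1 := rk_single (f0 p) v
  have ed : ∀ U, Face (fun i => hm (p i)) U → {v} ⊆ U →
      rk (fun i => hm (p i)) U = rk (fun i => hm (p i)) {v} + 1 → ∃ w, w ≠ v ∧ U = {v, w} :=
    fun U h1 h2 h3 => edge_eq (f0 p) h.vert h1 (by rw [h3, r1]) (singleton_subset_iff.1 h2)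
  obtain ⟨U, u1, u2, -, u4⟩ := (h.vert v).exists_rk (face_univ _) (subset_univ _) 1
    (by rw [r1, h.rk_top]; omega)
  obtain ⟨w, hw, rfl⟩ := ed U u1 u2 u4
  refine lt_of_le_of_ne (h.edge hw.symm u1).1 fun e => ?_
  have key : ∀ χ : (ℝ × EU n) →ₗ[ℝ] ℝ, (∀ y, LB (hm (p v)) y = 0 → χ y = 0) →
      ∀ z, 0 ≤ χ (hm (p z)) := by
    intro χ hχ z
    by_contra c
    obtain ⟨U, u1, u2, -, u4, u5⟩ := simplex (h.vert v) (face_univ _) (subset_univ _) χ
      (fun x hx => by rw [mem_singleton.1 hx]; exact hχ _ e.symm) (mem_univ z) (not_le.1 c)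
    obtain ⟨w, hw, rfl⟩ := ed U u1 u2 u4
    have a := u5 w (by simp) (by simpa using hw)
    have a2 := (h.edge hw.symm u1).2
    rw [← e, Real.sqrt_zero, zero_mul, neg_zero] at a2
    exact a.ne (hχ _ a2)
  have z : ∀ z ∈ (univ : Finset ι), LB (hm (p v)) (hm (p z)) = 0 := fun z _ =>
    le_antisymm (by simpa using key (-LB (hm (p v))) (fun y hy => by simpa using hy) z)
      (key _ (fun y hy => hy) z)
  have := van (a := fun i => hm (p i)) z (y := hm 0) (h.top ▸ Submodule.mem_top)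
  rw [LB_hm] at this
  simp at this

end Pt

noncomputable def nc (p : ι → Fin n → ℝ) (i : ι) : ℝ := (√(LB (hm (p i)) (hm (p i))))⁻¹

noncomputable def bv (p : ι → Fin n → ℝ) (i : ι) : ℝ × EU n := nc p i • hm (p i)

namespace Pt
variable {P P' : Set (Fin n → ℝ)} {p p' : ι → Fin n → ℝ}

lemma nc_pos (h : Pt P p) (hn : 1 ≤ n) (i : ι) : 0 < nc p i :=
  inv_pos.2 (Real.sqrt_pos.2 (h.out hn i))

lemma face_bv (h : Pt P p) (hn : 1 ≤ n) (S : Finset ι) :
    Face (bv p) S ↔ Face (fun i => hm (p i)) S := face_smul (h.nc_pos hn) S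

lemma es (h : Pt P p) (hn : 1 ≤ n) : ES (bv p) := by
  refine ⟨fun v => by simpa [bv, hm] using h.nc_pos hn v, fun v => ?_,
    fun v => (h.face_bv hn _).2 (h.vert v), fun u v huv hf => ?_⟩
  · have a := h.out hn v
    have b := Real.mul_self_sqrt a.le
    have c := Real.sqrt_pos.2 a
    simp only [bv, nc, map_smul, LinearMap.smul_apply, smul_eq_mul]
    field_simp
    linarith
  · have a := (h.edge huv ((h.face_bv hn _).1 hf)).2
    have c := Real.sqrt_pos.2 (h.out hn u)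
    have c' := Real.sqrt_pos.2 (h.out hn v)
    simp only [bv, nc, map_smul, LinearMap.smul_apply, smul_eq_mul]
    rw [a]
    field_simp

lemma top_bv (h : Pt P p) (hn : 1 ≤ n) : sp (bv p) univ = ⊤ := by
  rw [eq_top_iff, ← h.top]
  refine sp_le fun v hv => ?_
  exact (Submodule.smul_mem_iff _ (h.nc_pos hn v).ne').1 (mem_sp (a := bv p) hv)

theorem iso (h : Pt P p) (h' : Pt P' p') (hn : 3 ≤ n)
    (hF : ∀ S : Finset ι, IsExposed ℝ P (convexHull ℝ (p '' (S : Set ι))) ↔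
      IsExposed ℝ P' (convexHull ℝ (p' '' (S : Set ι)))) :
    ∃ A : (ℝ × EU n) →ₗ[ℝ] (ℝ × EU n), (∀ y z, LB (A y) (A z) = LB y z) ∧
      ∃ μ : ι → ℝ, ∀ v, 0 < μ v ∧ A (hm (p v)) = μ v • hm (p' v) := by
  have n1 : 1 ≤ n := by omega
  have e := h.es n1
  have e' := h'.es n1
  have hF' : ∀ S, Face (bv p) S ↔ Face (bv p') S := fun S => by
    rw [h.face_bv n1, h'.face_bv n1, h.face_iff, h'.face_iff, hF]
  have r : rk (bv p) univ = n + 1 := by
    unfold rk
    rw [h.top_bv n1, finrank_top, finrank_prod]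
    simp [add_comm]
  have I := rigid e e' hF' (n - 3) univ (face_univ _) (by omega)
  have tr := fun q hq => rel_transfer (p := q) e' (face_univ _)
    (by rw [← rk_eq hF' e.f0 _ (face_univ _)]; omega) I hq
  let Γ := sp (bb (bv p) (bv p')) univ
  let π : Γ →ₗ[ℝ] ℝ × EU n := LinearMap.fst ℝ _ _ ∘ₗ Γ.subtype
  have bij : Function.Bijective π := by
    refine ⟨(injective_iff_map_eq_zero _).2 fun q hq => Subtype.ext (Prod.ext hq (tr _ q.2 hq)),
      fun y => ?_⟩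
    obtain ⟨q, hq, hq'⟩ := lift1 (bv p') (S := univ) (y := y) (h.top_bv n1 ▸ Submodule.mem_top)
    exact ⟨⟨q, hq⟩, hq'⟩
  let ε := LinearEquiv.ofBijective π bij
  have hε : ∀ y, (ε.symm y).1.1 = y := fun y => ε.apply_symm_apply y
  let A : (ℝ × EU n) →ₗ[ℝ] (ℝ × EU n) := LinearMap.snd ℝ _ _ ∘ₗ Γ.subtype ∘ₗ ε.symm.toLinearMap
  have hA : ∀ y, A y = (ε.symm y).1.2 := fun y => rfl
  refine ⟨A, fun y z => ?_, fun v => nc p' v / nc p v, fun v =>
    ⟨div_pos (h'.nc_pos n1 v) (h.nc_pos n1 v), ?_⟩⟩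
  · have := Dl_van I (ε.symm y).2 (ε.symm z).2
    rw [Dl_apply, hε, hε] at this
    rw [hA, hA]; linarith
  · have a := tr _ (sub_mem (ε.symm (bv p v)).2 (mem_sp (mem_univ v)))
      (by rw [Prod.fst_sub, hε]; simp [bb])
    rw [Prod.snd_sub, ← hA, sub_eq_zero] at a
    simp only [bb, bv, map_smul] at a
    beta_reduce
    rw [div_eq_inv_mul, mul_smul, ← a, smul_smul, inv_mul_cancel₀ (h.nc_pos n1 v).ne', one_smul]

end Pt

noncomputable def em : (Option (Fin n) → ℝ) →ₗ[ℝ] ℝ × EU n :=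
  (LinearMap.proj none).prod (tl.toLinearMap ∘ₗ LinearMap.funLeft ℝ ℝ some)

noncomputable def un : (ℝ × EU n) →ₗ[ℝ] (Option (Fin n) → ℝ) where
  toFun y := fun o => o.elim y.1 (tl.symm y.2)
  map_add' x y := by funext o; cases o <;> simp
  map_smul' c x := by funext o; cases o <;> simp

lemma un_em (x : Option (Fin n) → ℝ) : un (em x) = x := by
  funext o; cases o <;> simp [un, em]

lemma LB_un (y z : ℝ × EU n) :
    ∑ k, un y k * Option.elim k (-1 : ℝ) (fun _ => (1 : ℝ)) * un z k = LB y z := by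
  rw [LB_apply, Fintype.sum_option]
  simp [un, tl, PiLp.inner_apply, mul_comm]

theorem final {P P' : Set (Fin n → ℝ)} {p p' : ι → Fin n → ℝ} (h : Pt P p) (h' : Pt P' p')
    (hn : 3 ≤ n) (hF : ∀ S : Finset ι, IsExposed ℝ P (convexHull ℝ (p '' (S : Set ι))) ↔
      IsExposed ℝ P' (convexHull ℝ (p' '' (S : Set ι)))) :
    ∃ M : Matrix (Option (Fin n)) (Option (Fin n)) ℝ,
      M.transpose * Matrix.diagonal (fun i => Option.elim i (-1 : ℝ) (fun _ => (1 : ℝ))) * M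
          = Matrix.diagonal (fun i => Option.elim i (-1 : ℝ) (fun _ => (1 : ℝ))) ∧
      (∀ x ∈ P, (M *ᵥ (fun i => Option.elim i (1 : ℝ) x)) none ≠ 0) ∧
      (fun x : Fin n → ℝ => fun j : Fin n =>
          (M *ᵥ (fun i => Option.elim i (1 : ℝ) x)) (some j) /
            (M *ᵥ (fun i => Option.elim i (1 : ℝ) x)) none) '' P = P' := by
  obtain ⟨A, hA, μ, hμ⟩ := h.iso h' hn hF
  let M : Matrix (Option (Fin n)) (Option (Fin n)) ℝ := LinearMap.toMatrix' (un ∘ₗ A ∘ₗ em)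
  have hM : ∀ w : ι → ℝ, ∑ i, w i = 1 → M *ᵥ (fun i => Option.elim i (1 : ℝ) (∑ i, w i • p i)) =
      fun o => o.elim (∑ i, w i * μ i) (∑ i, (w i * μ i) • p' i) := by
    intro w hw
    rw [LinearMap.toMatrix'_mulVec]
    have e : em (fun i => Option.elim i (1 : ℝ) (∑ i, w i • p i)) = hm (∑ i, w i • p i) := rfl
    rw [LinearMap.comp_apply, LinearMap.comp_apply, e, hm_sum p hw, map_sum]
    simp only [map_smul, (hμ _).2, smul_smul]
    funext o
    cases o
    · show (∑ i, (w i * μ i) • hm (p' i)).1 = _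
      rw [Prod.fst_sum]; simp [hm]
    · show tl.symm (∑ i, (w i * μ i) • hm (p' i)).2 _ = _
      rw [Prod.snd_sum]; simp [hm]
  have pos : ∀ (w c : ι → ℝ), (∀ i, 0 ≤ w i) → ∑ i, w i = 1 → (∀ i, 0 < c i) →
      0 < ∑ i, w i * c i := by
    intro w c w1 w2 hc
    obtain ⟨i, -, hi⟩ := exists_ne_zero_of_sum_ne_zero (w2 ▸ one_ne_zero : ∑ i, w i ≠ 0)
    exact sum_pos' (fun i _ => mul_nonneg (w1 i) (hc i).le)
      ⟨i, mem_univ i, mul_pos (lt_of_le_of_ne (w1 i) hi.symm) (hc i)⟩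
  have img : ∀ w : ι → ℝ, ∑ i, w i = 1 → (fun j : Fin n =>
      (M *ᵥ (fun i => Option.elim i (1 : ℝ) (∑ i, w i • p i))) (some j) /
        (M *ᵥ (fun i => Option.elim i (1 : ℝ) (∑ i, w i • p i))) none) =
      ∑ i, (w i * μ i / ∑ i, w i * μ i) • p' i := by
    intro w hw
    funext j
    rw [hM w hw]
    simp only [Option.elim, Finset.sum_apply, Pi.smul_apply, smul_eq_mul, sum_div]
    exact sum_congr rfl fun i _ => by ring
  refine ⟨M, ?_, fun x hx => ?_, Set.ext fun y => ⟨?_, fun hy => ?_⟩⟩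
  · ext i j
    have e1 : (M.transpose * Matrix.diagonal (fun i => Option.elim i (-1 : ℝ) (fun _ => (1 : ℝ))) *
        M : Matrix (Option (Fin n)) (Option (Fin n)) ℝ) i j = LB (A (em (Pi.single i 1))) (A (em (Pi.single j 1))) := by
      rw [← LB_un, Matrix.mul_apply]
      refine sum_congr rfl fun k _ => ?_
      rw [Matrix.mul_diagonal, Matrix.transpose_apply]
      rfl
    rw [e1, hA, ← LB_un, un_em, un_em, Matrix.diagonal_apply]
    simp only [Pi.single_apply, ite_mul, one_mul, zero_mul, mul_ite, mul_one, mul_zero,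
      sum_ite_eq', mem_univ, if_true]
    by_cases e : i = j
    · simp [e]
    · simp [e, Ne.symm e]
  · obtain ⟨w, w1, w2, rfl⟩ := (h.mem x).1 hx
    rw [hM w w2]
    exact (pos w μ w1 w2 fun i => (hμ i).1).ne'
  · rintro ⟨x, hx, rfl⟩
    obtain ⟨w, w1, w2, rfl⟩ := (h.mem x).1 hx
    have t := pos w μ w1 w2 fun i => (hμ i).1
    refine (h'.mem _).2 ⟨_, fun i => div_nonneg (mul_nonneg (w1 i) (hμ i).1.le) t.le, ?_,
      (img w w2).symm⟩
    rw [← sum_div, div_self t.ne']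
  · obtain ⟨u, u1, u2, rfl⟩ := (h'.mem y).1 hy
    have t := pos u (fun i => (μ i)⁻¹) u1 u2 fun i => inv_pos.2 (hμ i).1
    set τ := ∑ i, u i * (μ i)⁻¹ with hτ
    have w2 : ∑ i, u i * (μ i)⁻¹ / τ = 1 := by rw [← sum_div, div_self t.ne']
    refine ⟨_, (h.mem _).2 ⟨fun i => u i * (μ i)⁻¹ / τ, fun i =>
      div_nonneg (mul_nonneg (u1 i) (inv_pos.2 (hμ i).1).le) t.le, w2, rfl⟩, ?_⟩
    refine (img _ w2).trans (sum_congr rfl fun i _ => ?_)
    have e : ∀ i, u i * (μ i)⁻¹ / τ * μ i = u i / τ := fun i => by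
      have := (hμ i).1.ne'
      field_simp
    simp only [e]
    rw [← sum_div, u2]
    congr 1
    field_simp

lemma km (V : Finset (Fin n → ℝ)) : convexHull ℝ (V : Set (Fin n → ℝ)) =
    convexHull ℝ ((convexHull ℝ (V : Set (Fin n → ℝ))).extremePoints ℝ) := by
  have h1 := closure_convexHull_extremePoints (V.finite_toSet.isCompact_convexHull ℝ)
    (convex_convexHull ℝ _)
  rw [((V.finite_toSet.subset extremePoints_convexHull_subset).isClosed_convexHull ℝ).closure_eq]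
    at h1
  exact h1.symm

end Pool.Agent.H783Z.MU
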