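import Pool.Agent.H783Z.MUHom

set_option autoImplicit false
set_option linter.unusedSectionVars false
open Module Finset

namespace Pool.Agent.H783Z.MU

variable {E : Type*} [AddCommGroup E] [Module ℝ E] [FiniteDimensional ℝ E]
  {V : Type*} [Fintype V] [DecidableEq V] {a : V → E}

lemma transition (f : ℕ → ℝ) (i j : ℕ) (hij : i < j) (hi : 0 < f i) (hj : f j < 0) :
    ∃ p q, i ≤ p ∧ p ≤ q ∧ q < j ∧ 0 < f p ∧ f (q + 1) < 0 ∧ ∀ l, p < l → l ≤ q → f l = 0 := by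
  have key : ∀ n, (∃ p q, i ≤ p ∧ p ≤ q ∧ q < i + n ∧ 0 < f p ∧ f (q + 1) < 0 ∧
      ∀ l, p < l → l ≤ q → f l = 0) ∨
      ∃ p, i ≤ p ∧ p ≤ i + n ∧ 0 < f p ∧ ∀ l, p < l → l ≤ i + n → f l = 0 := by
    intro n
    induction n with
    | zero => exact Or.inr ⟨i, le_rfl, le_rfl, hi, fun l h1 h2 => by omega⟩
    | succ n ih =>
      rcases ih with ⟨p, q, h1, h2, h3, h4⟩ | ⟨p, h1, h2, h3, h4⟩
      · exact Or.inl ⟨p, q, h1, h2, by omega, h4⟩
      · rcases lt_trichotomy (f (i + n + 1)) 0 with h | h | h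
        · exact Or.inl ⟨p, i + n, h1, h2, by omega, h3, h, h4⟩
        · refine Or.inr ⟨p, h1, by omega, h3, fun l l1 l2 => ?_⟩
          by_cases e : l = i + n + 1
          · rw [e, h]
          · exact h4 l l1 (by omega)
        · exact Or.inr ⟨i + n + 1, by omega, by omega, h, fun l l1 l2 => by omega⟩
  rcases key (j - i) with ⟨p, q, h1, h2, h3, h4⟩ | ⟨p, h1, h2, h3, h4⟩
  · exact ⟨p, q, h1, h2, by omega, h4⟩
  · exfalso
    by_cases e : p = j
    · rw [e] at h3; linarith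
    · have := h4 j (by omega) (by omega); linarith

def FL (a : V → E) (G T : Finset V) (σ : Finset V → ℝ) (p : Finset V × Finset V) : Prop :=
  Lv a G T (rk a G + 2) p.1 ∧ σ p.1 ≠ 0 ∧ Lv a p.1 T (rk a G + 3) p.2

def Alt (σ : Finset V → ℝ) (m : ℕ) (X : ℕ → Finset V) : Prop :=
  ∃ i j k l, i < j ∧ j < k ∧ k < l ∧ l < i + m ∧ 0 < σ (X i) ∧ σ (X j) < 0 ∧ 0 < σ (X k) ∧
    σ (X l) < 0

section
variable {G T H : Finset V} {σ : Finset V → ℝ} {Q : Type*} {ρ : Finset V → Q} {m : ℕ}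
  {X Y : ℕ → Finset V}

lemma Poly.eX (w : Poly a H T m X Y) (hH : Lv a G T (rk a G + 1) H) (i : ℕ) :
    Lv a G T (rk a G + 2) (X i) := by
  have := (w.hX i).up (hH.2.1.trans (w.hX i).2.1)
  rwa [hH.2.2.2] at this

lemma Poly.eY1 (w : Poly a H T m X Y) (hH : Lv a G T (rk a G + 1) H) (i : ℕ) :
    Lv a (X i) T (rk a G + 3) (Y i) := by
  have := (w.hY i).up (w.s1 i)
  rwa [hH.2.2.2] at this

lemma Poly.eY2 (w : Poly a H T m X Y) (hH : Lv a G T (rk a G + 1) H) (i : ℕ) :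
    Lv a (X (i + 1)) T (rk a G + 3) (Y i) := by
  have := (w.hY i).up (w.s2 i)
  rwa [hH.2.2.2] at this

lemma rot (hρ : ∀ R F F', Lv a G T (rk a G + 2) R → σ R = 0 → Lv a R T (rk a G + 3) F →
    Lv a R T (rk a G + 3) F' → ρ F = ρ F') (w : Poly a H T m X Y) (hH : Lv a G T (rk a G + 1) H)
    (p q : ℕ) (hpq : p ≤ q) (h : ∀ l, p < l → l ≤ q → σ (X l) = 0) : ρ (Y p) = ρ (Y q) := by
  induction q, hpq using Nat.le_induction with
  | base => rfl
  | succ q hq ih =>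
    rw [ih fun l h1 h2 => h l h1 (by omega)]
    exact hρ _ _ _ (w.eX hH (q + 1)) (h _ (by omega) le_rfl) (w.eY2 hH q) (w.eY1 hH (q + 1))

lemma corner (hρ : ∀ R F F', Lv a G T (rk a G + 2) R → σ R = 0 → Lv a R T (rk a G + 3) F →
    Lv a R T (rk a G + 3) F' → ρ F = ρ F') (w : Poly a H T m X Y) (hH : Lv a G T (rk a G + 1) H)
    (i j : ℕ) (hij : i < j) (h : (0 < σ (X i) ∧ σ (X j) < 0) ∨ (σ (X i) < 0 ∧ 0 < σ (X j))) :
    ∃ (P N : Finset V × Finset V) (u v : ℕ), (FL a G T σ P ∧ FL a G T σ N ∧ H ⊆ P.1 ∧ H ⊆ N.1 ∧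
      0 < σ P.1 ∧ σ N.1 < 0 ∧ ρ P.2 = ρ N.2) ∧ P.2 = Y u ∧ N.2 = Y v ∧ i ≤ u ∧ u < j ∧ i ≤ v ∧
      v < j := by
  rcases h with ⟨h1, h2⟩ | ⟨h1, h2⟩
  · obtain ⟨p, q, a1, a2, a3, a4, a5, a6⟩ := transition (fun l => σ (X l)) i j hij h1 h2
    exact ⟨(X p, Y p), (X (q + 1), Y q), p, q, ⟨⟨w.eX hH p, a4.ne', w.eY1 hH p⟩,
      ⟨w.eX hH _, a5.ne, w.eY2 hH q⟩, (w.hX _).2.1, (w.hX _).2.1, a4, a5, rot hρ w hH p q a2 a6⟩,
      rfl, rfl, a1, by omega, by omega, a3⟩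
  · obtain ⟨p, q, a1, a2, a3, a4, a5, a6⟩ := transition (fun l => -σ (X l)) i j hij
      (neg_pos.2 h1) (neg_neg_of_pos h2)
    simp only [neg_pos, neg_eq_zero, neg_lt_zero] at a4 a5 a6
    exact ⟨(X (q + 1), Y q), (X p, Y p), q, p, ⟨⟨w.eX hH _, a5.ne', w.eY2 hH q⟩,
      ⟨w.eX hH p, a4.ne, w.eY1 hH p⟩, (w.hX _).2.1, (w.hX _).2.1, a5, a4,
      (rot hρ w hH p q a2 a6).symm⟩, rfl, rfl, by omega, a3, a1, by omega⟩

lemma corners (hρ : ∀ R F F', Lv a G T (rk a G + 2) R → σ R = 0 → Lv a R T (rk a G + 3) F →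
    Lv a R T (rk a G + 3) F' → ρ F = ρ F') (w : Poly a H T m X Y) (hH : Lv a G T (rk a G + 1) H)
    (h : Alt σ m X) : ∃ P N : Fin 4 → Finset V × Finset V, (∀ c, FL a G T σ (P c) ∧
      FL a G T σ (N c) ∧ H ⊆ (P c).1 ∧ H ⊆ (N c).1 ∧ 0 < σ (P c).1 ∧ σ (N c).1 < 0 ∧
      ρ (P c).2 = ρ (N c).2) ∧ Function.Injective P ∧ Function.Injective N := by
  obtain ⟨i, j, k, l, h1, h2, h3, h4, s1, s2, s3, s4⟩ := h
  let b : ℕ → ℕ := fun n => if n = 0 then i else if n = 1 then j else if n = 2 then k else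
    if n = 3 then l else i + m
  have hb : ∀ c : Fin 4, b c < b (c + 1) ∧ ((0 < σ (X (b c)) ∧ σ (X (b (c + 1))) < 0) ∨
      (σ (X (b c)) < 0 ∧ 0 < σ (X (b (c + 1))))) := by
    intro c
    fin_cases c <;> simp [b, w.pX, *]
  choose P N u v k1 k2 k3 k4 k5 k6 k7 using fun c : Fin 4 =>
    corner hρ w hH (b c) (b (c + 1)) (hb c).1 (hb c).2
  have inj : ∀ u : Fin 4 → ℕ, (∀ c : Fin 4, b c ≤ u c) → (∀ c : Fin 4, u c < b (c + 1)) →
      ∀ c d, Y (u c) = Y (u d) → c = d := by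
    intro u u1 u2
    have : ∀ c d, c < d → Y (u d) ≠ Y (u c) := by
      intro c d hcd
      have a1 := u1 c; have a2 := u1 d; have a3 := u2 c; have a4 := u2 d
      apply w.injY
      · fin_cases c <;> fin_cases d <;> simp [b] at * <;> omega
      · fin_cases c <;> fin_cases d <;> simp [b] at * <;> omega
    intro c d e
    by_contra hne
    rcases lt_or_gt_of_ne hne with h | h
    · exact this c d h e.symm
    · exact this d c h e
  exact ⟨P, N, k1, fun c d e => inj u k4 k5 c d (by rw [← k2, ← k2, e]),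
    fun c d e => inj v k6 k7 c d (by rw [← k3, ← k3, e])⟩

lemma next_flag (hρ : ∀ R F F', Lv a G T (rk a G + 2) R → σ R = 0 → Lv a R T (rk a G + 3) F →
    Lv a R T (rk a G + 3) F' → ρ F = ρ F') (hT : Face a T) (hr : rk a T = rk a G + 4)
    (halt : ∀ H m X Y, Lv a G T (rk a G + 1) H → Poly a H T m X Y → (∃ i, σ (X i) ≠ 0) →
      Alt σ m X) (hH : Lv a G T (rk a G + 1) H) {p : Finset V × Finset V} (hp : FL a G T σ p)
    (hs : H ⊆ p.1) : ∃ p', FL a G T σ p' ∧ ρ p'.2 = ρ p.2 ∧ H ⊆ p'.1 ∧ p'.1 ≠ p.1 := by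
  classical
  have e := hH.2.2.2
  obtain ⟨m, X, Y, w, wX, wY⟩ := exists_poly hH.1 hT (by omega) (e ▸ hp.1.up hs)
    (e ▸ hp.2.2.up (hs.trans hp.2.2.2.1)) hp.2.2.2.1
  have m3 := w.m3
  obtain ⟨i, j, -, -, -, -, -, -, s1, s2, -, -⟩ := halt H m X Y hH w ⟨0, wX ▸ hp.2.1⟩
  have : ∃ n, σ (X n) ≠ 0 ∧ σ (X n) ≠ σ (X 0) := by
    by_cases h : σ (X i) = σ (X 0)
    · exact ⟨j, s2.ne, by linarith⟩
    · exact ⟨i, s1.ne', h⟩
  obtain ⟨n, n1, n2⟩ := this
  rw [← per_mod w.pX n] at n1 n2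
  have n3 := Nat.mod_lt n (by omega : 0 < m)
  have n4 : n % m ≠ 0 := fun h => n2 (by rw [h])
  have ex : ∃ q, σ (X (q + 1)) ≠ 0 := ⟨n % m - 1, by rwa [show n % m - 1 + 1 = n % m by omega]⟩
  have q1 := Nat.find_spec ex
  have q2 : Nat.find ex ≤ n % m - 1 :=
    Nat.find_min' ex (by rwa [show n % m - 1 + 1 = n % m by omega])
  refine ⟨(X (Nat.find ex + 1), Y (Nat.find ex)), ⟨w.eX hH _, q1, w.eY2 hH _⟩, ?_, (w.hX _).2.1, ?_⟩
  · rw [← wY]
    refine (rot hρ w hH 0 _ (Nat.zero_le _) fun l l1 l2 => ?_).symm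
    have := Nat.find_min ex (m := l - 1) (by omega)
    rw [show l - 1 + 1 = l by omega] at this
    exact not_not.1 this
  · rw [← wX]
    exact w.inj 0 _ (by omega) (by omega)

end

lemma edge_unique {G T H H' R R' : Finset V} {k : ℕ} (hH : Lv a G T k H) (hH' : Lv a G T k H')
    (hne : H ≠ H') (hR : Lv a G T (k + 1) R) (hR' : Lv a G T (k + 1) R') (h1 : H ⊆ R)
    (h2 : H' ⊆ R) (h3 : H ⊆ R') (h4 : H' ⊆ R') : R = R' := by
  have f := hR.1.inter hR'.1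
  have h5 : H ⊂ R ∩ R' := by
    refine lt_of_le_of_ne (subset_inter h1 h3) fun e => hne ?_
    have h6 : H' ⊆ H := e ▸ subset_inter h2 h4
    exact (hH'.1.eq_of_rk h6 (by rw [hH.2.2.2, hH'.2.2.2])).symm
  have h6 := hH.1.rk_lt h5
  rw [hH.2.2.2] at h6
  have e1 := f.eq_of_rk inter_subset_left (by rw [hR.2.2.2]; omega)
  have e2 := f.eq_of_rk inter_subset_right (by rw [hR'.2.2.2]; omega)
  exact e1.symm.trans e2

/-- Cauchy's combinatorial lemma -/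
theorem cauchy {G T : Finset V} (hG : Face a G) (hT : Face a T) (hr : rk a T = rk a G + 4)
    (σ : Finset V → ℝ)
    (halt : ∀ H m X Y, Lv a G T (rk a G + 1) H → Poly a H T m X Y → (∃ i, σ (X i) ≠ 0) →
      Alt σ m X) : ∀ R, Lv a G T (rk a G + 2) R → σ R = 0 := by
  classical
  intro R₀ hR₀
  by_contra h₀
  set g := rk a G with hg
  let rel : Finset V → Finset V → Prop := fun F F' => ∃ R, Lv a G T (g + 2) R ∧ σ R = 0 ∧
    Lv a R T (g + 3) F ∧ Lv a R T (g + 3) F'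
  let ρ : Finset V → Quot rel := Quot.mk rel
  have hρ : ∀ R F F', Lv a G T (g + 2) R → σ R = 0 → Lv a R T (g + 3) F →
    Lv a R T (g + 3) F' → ρ F = ρ F' := fun R F F' h1 h2 h3 h4 => Quot.sound ⟨R, h1, h2, h3, h4⟩
  let E' := (LS a G T (g + 2)).filter fun R => σ R ≠ 0
  have mE : ∀ R, R ∈ E' ↔ Lv a G T (g + 2) R ∧ σ R ≠ 0 := fun R => by simp [E']
  let V' := (LS a G T (g + 1)).filter fun H => ∃ R ∈ E', H ⊆ R
  have mV : ∀ H, H ∈ V' ↔ Lv a G T (g + 1) H ∧ ∃ R ∈ E', H ⊆ R := fun H => by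
    simp only [V', mem_filter, mem_LS]
  let Fl := univ.filter (FL a G T σ)
  have mF : ∀ p, p ∈ Fl ↔ FL a G T σ p := fun p => by simp [Fl]
  let Reg := Fl.image fun p => ρ p.2
  have cV : ∀ R, Lv a G T (g + 2) R → (LS a G R (g + 1)).card = 2 := fun R hR =>
    LS_card hG hR.1 hR.2.1 rfl hR.2.2.2
  have cF : ∀ R, Lv a G T (g + 2) R → (LS a R T (g + 3)).card = 2 := fun R hR =>
    LS_card hR.1 hT hR.2.2.1 (by rw [hR.2.2.2]) hr
  have wide : ∀ H R, Lv a G T (g + 2) R → Lv a G R (g + 1) H → Lv a G T (g + 1) H :=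
    fun H R hR hH => ⟨hH.1, hH.2.1, hH.2.2.1.trans hR.2.2.1, hH.2.2.2⟩
  -- linear algebra
  have L : E'.card + 2 ≤ V'.card + Reg.card := by
    refine lin V' E' Reg (fun H R => if H ⊆ R then 1 else 0)
      (fun R q => ∑ F ∈ LS a R T (g + 3), if ρ F = q then 1 else 0) ?_ ?_ ?_ ?_ ?_
    · obtain ⟨H, hH⟩ := card_pos.1 (by rw [cV R₀ hR₀]; omega : 0 < (LS a G R₀ (g + 1)).card)
      rw [mem_LS] at hH
      exact ⟨H, (mV H).2 ⟨wide H R₀ hR₀ hH, R₀, (mE _).2 ⟨hR₀, h₀⟩, hH.2.2.1⟩⟩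
    · obtain ⟨F, hF⟩ := card_pos.1 (by rw [cF R₀ hR₀]; omega : 0 < (LS a R₀ T (g + 3)).card)
      exact ⟨ρ F, mem_image.2 ⟨(R₀, F), (mF _).2 ⟨hR₀, h₀, mem_LS.1 hF⟩, rfl⟩⟩
    · intro R hR
      rw [← sum_filter, sum_const]
      have : V'.filter (fun H => H ⊆ R) = LS a G R (g + 1) := by
        ext H
        rw [mem_filter, mV, mem_LS]
        exact ⟨fun h => h.1.1.low h.2, fun h => ⟨⟨wide H R ((mE R).1 hR).1 h, R, hR, h.2.2.1⟩,
          h.2.2.1⟩⟩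
      rw [this, cV R ((mE R).1 hR).1]; decide
    · intro R hR
      rw [sum_comm]
      have : ∀ F ∈ LS a R T (g + 3), (∑ q ∈ Reg, if ρ F = q then (1 : ZMod 2) else 0) = 1 := by
        intro F hF
        rw [sum_ite_eq, if_pos]
        exact mem_image.2 ⟨(R, F), (mF _).2 ⟨((mE R).1 hR).1, ((mE R).1 hR).2, mem_LS.1 hF⟩, rfl⟩
      rw [sum_congr rfl this, sum_const, cF R ((mE R).1 hR).1]; decide
    · intro C hC0 hC
      obtain ⟨D, hD⟩ := h1 hG hT hr C (by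
        intro H hH
        by_cases h : H ∈ V'
        · rw [← hC H h]
          simp only [ite_mul, one_mul, zero_mul]
          rw [← sum_filter]
          symm
          refine sum_subset (fun R hR => ?_) fun R hR hR' => hC0 R fun h => hR' ?_
          · rw [mem_filter] at hR
            exact mem_LS.2 (((mE R).1 hR.1).1.up hR.2)
          · exact mem_filter.2 ⟨h, (mem_LS.1 hR).2.1⟩
        · exact sum_eq_zero fun R hR => hC0 R fun h' =>
            h ((mV H).2 ⟨hH, R, h', (mem_LS.1 hR).2.1⟩))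
      refine ⟨Quot.lift D ?_, fun R hR => ?_⟩
      · rintro F F' ⟨R, h1, h2, h3, h4⟩
        by_cases e : F = F'
        · rw [e]
        · have := hD R h1
          rw [LS_pair h1.1 hT (by rw [h1.2.2.2]) hr h3 h4 e, sum_pair e,
            hC0 R fun h => ((mE R).1 h).2 h2] at this
          revert this
          generalize D F = x
          generalize D F' = y
          revert x y; decide
      · rw [hD R ((mE R).1 hR).1]
        simp only [sum_mul, ite_mul, one_mul, zero_mul]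
        rw [sum_comm]
        refine sum_congr rfl fun F hF => ?_
        rw [sum_ite_eq, if_pos]
        exact mem_image.2 ⟨(R, F), (mF _).2 ⟨((mE R).1 hR).1, ((mE R).1 hR).2, mem_LS.1 hF⟩, rfl⟩
  -- flags
  have cFl : Fl.card ≤ 2 * E'.card := by
    refine card_le_mul_card_image_of_maps_to (f := Prod.fst)
      (fun p hp => (mE _).2 ⟨((mF p).1 hp).1, ((mF p).1 hp).2.1⟩) 2 fun R hR => ?_
    rw [← cF R ((mE R).1 hR).1]
    refine card_le_card_of_injOn Prod.snd (fun p hp => ?_) fun p hp q hq e => ?_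
    · rw [mem_coe, mem_filter, mF] at hp
      exact mem_coe.2 (mem_LS.2 (hp.2 ▸ hp.1.2.2))
    · rw [mem_coe, mem_filter] at hp hq
      exact Prod.ext (hp.2.trans hq.2.symm) e
  have three : ∀ q ∈ Reg, 2 < (Fl.filter fun p => ρ p.2 = q).card := by
    intro q hq
    obtain ⟨p, hp, rfl⟩ := mem_image.1 hq
    have hp' := (mF p).1 hp
    obtain ⟨H₁, H₂, hne, g1, g2, -⟩ := diamond hG hp'.1.1 hp'.1.2.1 hp'.1.2.2.2
    obtain ⟨p₁, a1, a2, a3, a4⟩ := next_flag hρ hT hr halt (wide _ _ hp'.1 g1) hp' g1.2.2.1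
    obtain ⟨p₂, b1, b2, b3, b4⟩ := next_flag hρ hT hr halt (wide _ _ hp'.1 g2) hp' g2.2.2.1
    refine two_lt_card_iff.2 ⟨p, p₁, p₂, mem_filter.2 ⟨hp, rfl⟩, mem_filter.2 ⟨(mF _).2 a1, a2⟩,
      mem_filter.2 ⟨(mF _).2 b1, b2⟩, fun e => a4 (by rw [e]), fun e => b4 (by rw [e]), fun e => ?_⟩
    exact a4 (edge_unique (wide _ _ hp'.1 g1) (wide _ _ hp'.1 g2) hne a1.1 hp'.1 a3 (e ▸ b3)
      g1.2.2.1 g2.2.2.1)
  have cor : ∀ H : Finset V, ∃ P N : Fin 4 → Finset V × Finset V, H ∈ V' →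
      (∀ c, FL a G T σ (P c) ∧
      FL a G T σ (N c) ∧ H ⊆ (P c).1 ∧ H ⊆ (N c).1 ∧ 0 < σ (P c).1 ∧ σ (N c).1 < 0 ∧
      ρ (P c).2 = ρ (N c).2) ∧ Function.Injective P ∧ Function.Injective N := by
    intro H
    by_cases h : H ∈ V'
    · obtain ⟨hH, R, hR, hs⟩ := (mV H).1 h
      have e := hH.2.2.2
      obtain ⟨m, X, Y, w⟩ := exists_poly' hH.1 hT hH.2.2.1 (by omega)
      obtain ⟨i, rfl⟩ := w.all R (e ▸ ((mE R).1 hR).1.up hs)
      obtain ⟨P, N, hPN⟩ := corners hρ w hH (halt H m X Y hH w ⟨i, ((mE _).1 hR).2⟩)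
      exact ⟨P, N, fun _ => hPN⟩
    · exact ⟨fun _ => (∅, ∅), fun _ => (∅, ∅), fun h' => absurd h' h⟩
  choose P N hPN using cor
  let K := V' ×ˢ (univ : Finset (Fin 4))
  have cK : K.card = V'.card * 4 := by simp [K]
  have fib : ∀ (q : Quot rel) (B : Finset V → Fin 4 → Finset V × Finset V)
      (t : Finset (Finset V × Finset V)), (∀ p ∈ t, FL a G T σ p) →
      (∀ H ∈ V', Function.Injective (B H) ∧ ∀ c, H ⊆ (B H c).1) →
      (∀ x ∈ K.filter (fun x => ρ (P x.1 x.2).2 = q), B x.1 x.2 ∈ t) →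
      (K.filter fun x => ρ (P x.1 x.2).2 = q).card ≤ 2 * t.card := by
    intro q B t ht hB hm
    refine card_le_mul_card_image_of_maps_to (f := fun x => B x.1 x.2) hm 2 fun p hp => ?_
    rw [← cV p.1 (ht p hp).1]
    refine card_le_card_of_injOn Prod.fst (fun x hx => ?_) fun x hx y hy e => ?_
    · rw [mem_coe, mem_filter, mem_filter, mem_product] at hx
      have := (hB x.1 hx.1.1.1).2 x.2
      rw [hx.2] at this
      exact mem_coe.2 (mem_LS.2 (((mV _).1 hx.1.1.1).1.low this))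
    · rw [mem_coe, mem_filter, mem_filter, mem_product] at hx hy
      refine Prod.ext e ((hB x.1 hx.1.1.1).1 ?_)
      rw [hx.2, ← hy.2, e]
  have bound : ∀ q ∈ Reg, (K.filter fun x => ρ (P x.1 x.2).2 = q).card + 4 ≤
      2 * (Fl.filter fun p => ρ p.2 = q).card := by
    intro q hq
    have t3 := three q hq
    have t4 := card_filter_add_card_filter_not (s := Fl.filter fun p => ρ p.2 = q)
      (fun p => 0 < σ p.1)
    have t1 := fib q P ((Fl.filter fun p => ρ p.2 = q).filter fun p => 0 < σ p.1)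
      (fun p hp => (mF p).1 (mem_filter.1 (mem_filter.1 hp).1).1)
      (fun H hH => ⟨(hPN H hH).2.1, fun c => ((hPN H hH).1 c).2.2.1⟩) (fun x hx => by
        rw [mem_filter, mem_product] at hx
        have := (hPN x.1 hx.1.1).1 x.2
        exact mem_filter.2 ⟨mem_filter.2 ⟨(mF _).2 this.1, hx.2⟩, this.2.2.2.2.1⟩)
    have t2 := fib q N ((Fl.filter fun p => ρ p.2 = q).filter fun p => ¬ 0 < σ p.1)
      (fun p hp => (mF p).1 (mem_filter.1 (mem_filter.1 hp).1).1)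
      (fun H hH => ⟨(hPN H hH).2.2, fun c => ((hPN H hH).1 c).2.2.2.1⟩) (fun x hx => by
        rw [mem_filter, mem_product] at hx
        have := (hPN x.1 hx.1.1).1 x.2
        exact mem_filter.2 ⟨mem_filter.2 ⟨(mF _).2 this.2.1, this.2.2.2.2.2.2.symm.trans hx.2⟩,
          not_lt.2 this.2.2.2.2.2.1.le⟩)
    omega
  have s1 : K.card = ∑ q ∈ Reg, (K.filter fun x => ρ (P x.1 x.2).2 = q).card := by
    refine card_eq_sum_card_fiberwise fun x hx => ?_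
    rw [mem_coe, mem_product] at hx
    exact mem_coe.2 (mem_image.2 ⟨_, (mF _).2 ((hPN x.1 hx.1).1 x.2).1, rfl⟩)
  have s2 : Fl.card = ∑ q ∈ Reg, (Fl.filter fun p => ρ p.2 = q).card :=
    card_eq_sum_card_image _ _
  have s3 := sum_le_sum bound
  rw [sum_add_distrib, ← mul_sum, ← s1, ← s2, sum_const, smul_eq_mul] at s3
  omega

end Pool.Agent.H783Z.MU
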