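import Mathlib

set_option autoImplicit false
set_option linter.unusedSectionVars false
open Module

namespace Pool.Agent.H783Z.MU

variable {E : Type*} [AddCommGroup E] [Module ℝ E] [FiniteDimensional ℝ E]
  {V : Type*} [Fintype V] [DecidableEq V]

/-- `φ` is a functional defining the face `S` -/
def FF (a : V → E) (S : Finset V) (φ : E →ₗ[ℝ] ℝ) : Prop :=
  (∀ v, 0 ≤ φ (a v)) ∧ ∀ v, φ (a v) = 0 ↔ v ∈ S

def Face (a : V → E) (S : Finset V) : Prop := ∃ φ : E →ₗ[ℝ] ℝ, FF a S φ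

def sp (a : V → E) (S : Finset V) : Submodule ℝ E := Submodule.span ℝ (a '' (S : Set V))

noncomputable def rk (a : V → E) (S : Finset V) : ℕ := finrank ℝ (sp a S)

variable {a : V → E}

lemma FF.zero {S : Finset V} {φ : E →ₗ[ℝ] ℝ} (h : FF a S φ) {v : V} (hv : v ∈ S) :
    φ (a v) = 0 := (h.2 v).2 hv

lemma FF.pos {S : Finset V} {φ : E →ₗ[ℝ] ℝ} (h : FF a S φ) {v : V} (hv : v ∉ S) :
    0 < φ (a v) := lt_of_le_of_ne (h.1 v) fun e => hv ((h.2 v).1 e.symm)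

lemma mem_sp {S : Finset V} {v : V} (hv : v ∈ S) : a v ∈ sp a S :=
  Submodule.subset_span ⟨v, hv, rfl⟩

lemma sp_mono {S T : Finset V} (h : S ⊆ T) : sp a S ≤ sp a T :=
  Submodule.span_mono (Set.image_mono h)

lemma sp_le {S : Finset V} {p : Submodule ℝ E} (h : ∀ v ∈ S, a v ∈ p) : sp a S ≤ p :=
  Submodule.span_le.2 (by rintro _ ⟨v, hv, rfl⟩; exact h v hv)

lemma van {S : Finset V} {ψ : E →ₗ[ℝ] ℝ} (h : ∀ v ∈ S, ψ (a v) = 0) {y : E} (hy : y ∈ sp a S) :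
    ψ y = 0 := (sp_le (p := LinearMap.ker ψ) h) hy

lemma FF.van {S : Finset V} {φ : E →ₗ[ℝ] ℝ} (h : FF a S φ) {y : E} (hy : y ∈ sp a S) :
    φ y = 0 := MU.van (fun _ hv => h.zero hv) hy

lemma Face.mem_of_sp {S : Finset V} (h : Face a S) {v : V} (hv : a v ∈ sp a S) : v ∈ S := by
  obtain ⟨φ, hφ⟩ := h
  exact (hφ.2 v).1 (hφ.van hv)

lemma rk_mono {S T : Finset V} (h : S ⊆ T) : rk a S ≤ rk a T :=
  Submodule.finrank_mono (sp_mono h)

lemma sp_empty : sp a ∅ = ⊥ := by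
  unfold sp; rw [Finset.coe_empty, Set.image_empty, Submodule.span_empty]

lemma rk_empty : rk a ∅ = 0 := by unfold rk; rw [sp_empty, finrank_bot]

lemma Face.rk_lt {S T : Finset V} (h : Face a S) (hST : S ⊂ T) : rk a S < rk a T := by
  obtain ⟨v, hv, hv'⟩ := Finset.exists_of_ssubset hST
  apply Submodule.finrank_lt_finrank_of_lt
  refine lt_of_le_of_ne (sp_mono hST.1) fun e => hv' (h.mem_of_sp ?_)
  rw [e]; exact mem_sp hv

lemma Face.eq_of_rk {S T : Finset V} (h : Face a S) (hST : S ⊆ T) (hr : rk a T ≤ rk a S) :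
    S = T := by
  by_contra hne
  have := h.rk_lt (lt_of_le_of_ne hST hne)
  omega

lemma Face.inter {S T : Finset V} (hS : Face a S) (hT : Face a T) : Face a (S ∩ T) := by
  obtain ⟨φ, hφ⟩ := hS
  obtain ⟨ψ, hψ⟩ := hT
  refine ⟨φ + ψ, fun v => add_nonneg (hφ.1 v) (hψ.1 v), fun v => ?_⟩
  rw [LinearMap.add_apply, Finset.mem_inter, ← hφ.2, ← hψ.2]
  exact add_eq_zero_iff_of_nonneg (hφ.1 v) (hψ.1 v)

lemma Face.sub {T : Finset V} (hT : Face a T) (ψ : E →ₗ[ℝ] ℝ) (hψ : ∀ v ∈ T, 0 ≤ ψ (a v)) :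
    Face a (T.filter fun v => ψ (a v) = 0) := by
  obtain ⟨φ, hφ⟩ := hT
  let N : ℝ := 1 + ∑ v, |ψ (a v)| / φ (a v)
  have key : ∀ v ∉ T, 0 < ψ (a v) + N * φ (a v) := by
    intro v hv
    have hp := hφ.pos hv
    have h1 : |ψ (a v)| / φ (a v) ≤ ∑ v, |ψ (a v)| / φ (a v) :=
      Finset.single_le_sum (f := fun v => |ψ (a v)| / φ (a v))
        (fun i _ => div_nonneg (abs_nonneg _) (hφ.1 i)) (Finset.mem_univ v)
    rw [div_le_iff₀ hp] at h1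
    have := neg_abs_le (ψ (a v))
    simp only [N]
    nlinarith
  refine ⟨ψ + N • φ, fun v => ?_, fun v => ?_⟩
  · by_cases hv : v ∈ T
    · simp [hφ.zero hv, hψ v hv]
    · simpa using (key v hv).le
  · by_cases hv : v ∈ T
    · simp [hφ.zero hv, hv]
    · simpa [hv] using (key v hv).ne'

lemma argmin {S T : Finset V} {φ : E →ₗ[ℝ] ℝ} (hφ : FF a S φ) (hT : Face a T) (hST : S ⊂ T)
    (ψ : E →ₗ[ℝ] ℝ) (hψ : ∀ v ∈ S, ψ (a v) = 0) :
    ∃ (t : ℝ) (U : Finset V), Face a U ∧ S ⊂ U ∧ U ⊆ T ∧ (∀ v ∈ T, t * φ (a v) ≤ ψ (a v)) ∧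
      ∀ v ∈ T, v ∈ U ↔ ψ (a v) = t * φ (a v) := by
  have hne : (T \ S).Nonempty := Finset.sdiff_nonempty.2 hST.2
  obtain ⟨v₀, hv₀, hmin⟩ := (T \ S).exists_min_image (fun v => ψ (a v) / φ (a v)) hne
  rw [Finset.mem_sdiff] at hv₀
  set t := ψ (a v₀) / φ (a v₀) with ht
  have h1 : ∀ v ∈ T, t * φ (a v) ≤ ψ (a v) := by
    intro v hv
    by_cases hvS : v ∈ S
    · rw [hφ.zero hvS, hψ v hvS, mul_zero]
    · have := hmin v (Finset.mem_sdiff.2 ⟨hv, hvS⟩)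
      rwa [le_div_iff₀ (hφ.pos hvS)] at this
  refine ⟨t, _, hT.sub (ψ - t • φ) (fun v hv => by simpa using h1 v hv), ?_,
    Finset.filter_subset _ _, h1, fun v hv => ?_⟩
  · rw [Finset.ssubset_iff_of_subset]
    · refine ⟨v₀, ?_, hv₀.2⟩
      have := (hφ.pos hv₀.2).ne'
      simp only [Finset.mem_filter, hv₀.1, true_and, LinearMap.sub_apply, LinearMap.smul_apply,
        smul_eq_mul, ht]
      field_simp
      ring
    · intro v hv
      simp [hST.1 hv, hφ.zero hv, hψ v hv]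
  · simp [hv, sub_eq_zero]

lemma two_sides {S T : Finset V} (hS : Face a S) (hT : Face a T) (hST : S ⊆ T)
    (hr : rk a S + 2 ≤ rk a T) :
    ∃ U₁ U₂, Face a U₁ ∧ Face a U₂ ∧ S ⊂ U₁ ∧ S ⊂ U₂ ∧ U₁ ⊂ T ∧ U₂ ⊂ T ∧ U₁ ∩ U₂ = S := by
  obtain ⟨φ, hφ⟩ := hS
  have hST' : S ⊂ T := lt_of_le_of_ne hST (by rintro rfl; omega)
  obtain ⟨v₀, hv₀, hv₀'⟩ := Finset.exists_of_ssubset hST'
  have h1 : ∃ v₁ ∈ T, a v₁ ∉ sp a S ⊔ ℝ ∙ a v₀ := by
    by_contra hc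
    push Not at hc
    have h2 := Submodule.finrank_mono (sp_le hc)
    have h3 := Submodule.finrank_sup_span_singleton (p := sp a S) (v := a v₀)
      (fun h => hv₀' (Face.mem_of_sp ⟨φ, hφ⟩ h))
    unfold rk at hr
    omega
  obtain ⟨v₁, hv₁, hv₁'⟩ := h1
  obtain ⟨ψ, hψ1, hψ2⟩ := Submodule.exists_le_ker_of_notMem hv₁'
  have hψS : ∀ v ∈ S, ψ (a v) = 0 := fun v hv => hψ2 (Submodule.mem_sup_left (mem_sp hv))
  have hψ0 : ψ (a v₀) = 0 := hψ2 (Submodule.mem_sup_right (Submodule.mem_span_singleton_self _))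
  obtain ⟨t₁, U₁, f1, s1, u1, l1, m1⟩ := argmin hφ hT hST' ψ hψS
  obtain ⟨t₂, U₂, f2, s2, u2, l2, m2⟩ := argmin hφ hT hST' (-ψ) (by simpa using hψS)
  simp only [LinearMap.neg_apply] at l2 m2
  have hp0 := hφ.pos hv₀'
  have ht : t₁ + t₂ < 0 := by
    have a1 := l1 v₀ hv₀
    have a2 := l2 v₀ hv₀
    have a3 := l1 v₁ hv₁
    have a4 := l2 v₁ hv₁
    rw [hψ0] at a1 a2
    have b1 : t₁ ≤ 0 := by by_contra hc; push Not at hc; nlinarith
    have b2 : t₂ ≤ 0 := by by_contra hc; push Not at hc; nlinarith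
    by_contra hc
    have c1 : t₁ = 0 := by linarith
    have c2 : t₂ = 0 := by linarith
    rw [c1] at a3; rw [c2] at a4
    apply hψ1; linarith
  have hint : U₁ ∩ U₂ = S := by
    apply Finset.Subset.antisymm _ (Finset.subset_inter s1.1 s2.1)
    intro v hv
    rw [Finset.mem_inter] at hv
    have e1 := (m1 v (u1 hv.1)).1 hv.1
    have e2 := (m2 v (u1 hv.1)).1 hv.2
    by_contra hc
    have := hφ.pos hc
    nlinarith
  refine ⟨U₁, U₂, f1, f2, s1, s2, lt_of_le_of_ne u1 ?_, lt_of_le_of_ne u2 ?_, hint⟩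
  · rintro rfl
    rw [Finset.inter_eq_right.2 u2] at hint
    exact s2.ne hint.symm
  · rintro rfl
    rw [Finset.inter_eq_left.2 u1] at hint
    exact s1.ne hint.symm

lemma exists_up {S : Finset V} (hS : Face a S) : ∀ (n : ℕ) {T : Finset V}, rk a T = n →
    Face a T → S ⊂ T → ∃ U, Face a U ∧ S ⊆ U ∧ U ⊆ T ∧ rk a U = rk a S + 1 := by
  intro n
  induction n using Nat.strong_induction_on with
  | _ n ih =>
    intro T hn hT hST
    have := hS.rk_lt hST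
    by_cases h : rk a T = rk a S + 1
    · exact ⟨T, hT, hST.1, le_rfl, h⟩
    · obtain ⟨U₁, -, f1, -, s1, -, u1, -, -⟩ := two_sides hS hT hST.1 (by omega)
      obtain ⟨U, g1, g2, g3, g4⟩ := ih _ (hn ▸ f1.rk_lt u1) rfl f1 s1
      exact ⟨U, g1, g2, g3.trans u1.1, g4⟩

lemma Face.up {S T : Finset V} (hS : Face a S) (hT : Face a T) (hST : S ⊂ T) :
    ∃ U, Face a U ∧ S ⊆ U ∧ U ⊆ T ∧ rk a U = rk a S + 1 := exists_up hS _ rfl hT hST

lemma exists_down {T : Finset V} (hT : Face a T) : ∀ (n : ℕ) {S : Finset V},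
    rk a T - rk a S = n → Face a S → S ⊂ T →
      ∃ U, Face a U ∧ S ⊆ U ∧ U ⊆ T ∧ rk a U + 1 = rk a T := by
  intro n
  induction n using Nat.strong_induction_on with
  | _ n ih =>
    intro S hn hS hST
    have := hS.rk_lt hST
    by_cases h : rk a T = rk a S + 1
    · exact ⟨S, hS, le_rfl, hST.1, h.symm⟩
    · obtain ⟨U₁, -, f1, -, s1, -, u1, -, -⟩ := two_sides hS hT hST.1 (by omega)
      have := hS.rk_lt s1
      obtain ⟨U, g1, g2, g3, g4⟩ := ih (rk a T - rk a U₁) (by omega) rfl f1 u1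
      exact ⟨U, g1, s1.1.trans g2, g3, g4⟩

lemma Face.down {S T : Finset V} (hS : Face a S) (hT : Face a T) (hST : S ⊂ T) :
    ∃ U, Face a U ∧ S ⊆ U ∧ U ⊆ T ∧ rk a U + 1 = rk a T := exists_down hT _ rfl hS hST

lemma ssub_of_rk {S T : Finset V} (h : S ⊆ T) (hr : rk a S < rk a T) : S ⊂ T :=
  lt_of_le_of_ne h (by rintro rfl; omega)

/-- every intermediate rank occurs -/
lemma Face.exists_rk {S T : Finset V} (hS : Face a S) (hT : Face a T) (hST : S ⊆ T) :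
    ∀ k, rk a S + k ≤ rk a T → ∃ U, Face a U ∧ S ⊆ U ∧ U ⊆ T ∧ rk a U = rk a S + k := by
  intro k
  induction k with
  | zero => intro _; exact ⟨S, hS, le_rfl, hST, rfl⟩
  | succ k ih =>
    intro hk
    obtain ⟨U, h1, h2, h3, h4⟩ := ih (by omega)
    obtain ⟨W, g1, g2, g3, g4⟩ := h1.up hT (ssub_of_rk (a := a) h3 (by omega))
    exact ⟨W, g1, h2.trans g2, g3, by omega⟩

lemma rk_eq {E' : Type*} [AddCommGroup E'] [Module ℝ E'] [FiniteDimensional ℝ E'] {a' : V → E'}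
    (h : ∀ S, Face a S ↔ Face a' S) (h0 : Face a ∅) (S : Finset V) :
    Face a S → rk a S = rk a' S := by
  induction S using Finset.strongInduction with
  | H S ih =>
    intro hS
    by_cases hS0 : S = ∅
    · rw [hS0, rk_empty, rk_empty]
    · obtain ⟨U, h1, -, h3, h4⟩ := h0.down hS (Finset.empty_ssubset.2 (Finset.nonempty_iff_ne_empty.2 hS0))
      have hU : U ⊂ S := ssub_of_rk (a := a) h3 (by omega)
      have e := ih U hU h1
      have l := ((h U).1 h1).rk_lt hU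
      by_contra hc
      obtain ⟨X, -, f1, -, s1, -, u1, -, -⟩ := two_sides ((h U).1 h1) ((h S).1 hS) h3 (by omega)
      have := h1.rk_lt s1
      have := ((h X).2 f1).rk_lt u1
      omega

/-- rank one relation -/
lemma rel1 {S U : Finset V} (hS : Face a S) (hSU : S ⊆ U) (hr : rk a U = rk a S + 1) {u₀ : V}
    (hu₀ : u₀ ∈ U) (hu₀' : u₀ ∉ S) {y : E} (hy : y ∈ sp a U) :
    ∃ l : ℝ, y - l • a u₀ ∈ sp a S := by
  have h3 := Submodule.finrank_sup_span_singleton (p := sp a S) (v := a u₀)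
    (fun h => hu₀' (hS.mem_of_sp h))
  have e : sp a S ⊔ ℝ ∙ a u₀ = sp a U := by
    apply Submodule.eq_of_le_of_finrank_le
    · exact sup_le (sp_mono hSU) ((Submodule.span_singleton_le_iff_mem _ _).2 (mem_sp hu₀))
    · unfold rk at hr; omega
  rw [← e, Submodule.mem_sup] at hy
  obtain ⟨s, hs, z, hz, rfl⟩ := hy
  obtain ⟨l, rfl⟩ := Submodule.mem_span_singleton.1 hz
  exact ⟨l, by simpa using hs⟩

lemma rel1' {S U : Finset V} (hS : Face a S) (hSU : S ⊆ U) (hr : rk a U = rk a S + 1) {u₀ u : V}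
    (hu₀ : u₀ ∈ U) (hu₀' : u₀ ∉ S) (hu : u ∈ U) (hu' : u ∉ S) :
    ∃ l : ℝ, 0 < l ∧ a u - l • a u₀ ∈ sp a S := by
  obtain ⟨l, hl⟩ := rel1 hS hSU hr hu₀ hu₀' (mem_sp hu)
  obtain ⟨φ, hφ⟩ := hS
  have h1 := hφ.van hl
  simp only [map_sub, map_smul, smul_eq_mul] at h1
  have h2 := hφ.pos hu₀'
  have h3 := hφ.pos hu'
  refine ⟨l, ?_, hl⟩
  by_contra hc
  push Not at hc
  nlinarith

/-- an atom meeting a face outside `S` is contained in it -/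
lemma atom_sub {S X Y : Finset V} (hS : Face a S) (hX : Face a X) (hY : Face a Y) (hSX : S ⊆ X)
    (hSY : S ⊆ Y) (hr : rk a X = rk a S + 1) {x : V} (hx : x ∈ X) (hx' : x ∉ S) (hxY : x ∈ Y) :
    X ⊆ Y := by
  have h1 : S ⊂ X ∩ Y := by
    rw [Finset.ssubset_iff_of_subset (Finset.subset_inter hSX hSY)]
    exact ⟨x, Finset.mem_inter.2 ⟨hx, hxY⟩, hx'⟩
  have h2 := hS.rk_lt h1
  have := (hX.inter hY).eq_of_rk Finset.inter_subset_left (by omega)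
  exact Finset.inter_eq_left.1 this

lemma simplex {S T : Finset V} (hS : Face a S) (hT : Face a T) (hST : S ⊆ T)
    (ψ : E →ₗ[ℝ] ℝ) (hψ : ∀ v ∈ S, ψ (a v) = 0) {v : V} (hv : v ∈ T) (hneg : ψ (a v) < 0) :
    ∃ U, Face a U ∧ S ⊆ U ∧ U ⊆ T ∧ rk a U = rk a S + 1 ∧ ∀ u ∈ U, u ∉ S → ψ (a u) < 0 := by
  obtain ⟨φ, hφ⟩ := hS
  have hvS : v ∉ S := fun h => by rw [hψ v h] at hneg; exact lt_irrefl _ hneg
  have hST' : S ⊂ T := (Finset.ssubset_iff_of_subset hST).2 ⟨v, hv, hvS⟩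
  obtain ⟨t, U, f1, s1, u1, l1, m1⟩ := argmin hφ hT hST' ψ hψ
  have ht : t < 0 := by
    have := l1 v hv
    have := hφ.pos hvS
    by_contra hc
    push Not at hc
    nlinarith
  obtain ⟨W, g1, g2, g3, g4⟩ := Face.up ⟨φ, hφ⟩ f1 s1
  refine ⟨W, g1, g2, g3.trans u1, g4, fun u hu hu' => ?_⟩
  rw [(m1 u (u1 (g3 hu))).1 (g3 hu)]
  exact mul_neg_of_neg_of_pos ht (hφ.pos hu')

/-- faces of given rank in an interval -/
def Lv (a : V → E) (S T : Finset V) (k : ℕ) (X : Finset V) : Prop :=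
  Face a X ∧ S ⊆ X ∧ X ⊆ T ∧ rk a X = k

lemma exists_notMem {S X : Finset V} (h : rk a S < rk a X) : ∃ x ∈ X, x ∉ S := by
  by_contra hc
  push Not at hc
  have := rk_mono (a := a) (S := X) (T := S) hc
  omega

lemma diamond {S T : Finset V} (hS : Face a S) (hT : Face a T) (hST : S ⊆ T)
    (hr : rk a T = rk a S + 2) : ∃ U₁ U₂, U₁ ≠ U₂ ∧ Lv a S T (rk a S + 1) U₁ ∧
      Lv a S T (rk a S + 1) U₂ ∧ ∀ X, Lv a S T (rk a S + 1) X → X = U₁ ∨ X = U₂ := by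
  obtain ⟨U₁, U₂, f1, f2, s1, s2, u1, u2, hint⟩ := two_sides hS hT hST (by omega)
  have r1 : rk a U₁ = rk a S + 1 := by
    have := hS.rk_lt s1; have := f1.rk_lt u1; omega
  have r2 : rk a U₂ = rk a S + 1 := by
    have := hS.rk_lt s2; have := f2.rk_lt u2; omega
  refine ⟨U₁, U₂, ?_, ⟨f1, s1.1, u1.1, r1⟩, ⟨f2, s2.1, u2.1, r2⟩, ?_⟩
  · rintro rfl
    rw [Finset.inter_self] at hint
    exact s1.ne hint.symm
  · rintro X ⟨fX, sX, uX, rX⟩
    obtain ⟨x, hx, hx'⟩ := exists_notMem (a := a) (S := S) (X := X) (by omega)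
    obtain ⟨x₁, hx₁, hx₁'⟩ := Finset.exists_of_ssubset s1
    obtain ⟨x₂, hx₂, hx₂'⟩ := Finset.exists_of_ssubset s2
    have n2 : x₂ ∉ U₁ := fun h => hx₂' (hint ▸ Finset.mem_inter.2 ⟨h, hx₂⟩)
    have n1 : x₁ ∉ U₂ := fun h => hx₁' (hint ▸ Finset.mem_inter.2 ⟨hx₁, h⟩)
    obtain ⟨β, hβ⟩ := rel1 f1 u1.1 (by omega) (u2.1 hx₂) n2 (mem_sp (uX hx))
    obtain ⟨α, hα⟩ := rel1 hS s1.1 r1 hx₁ hx₁' hβ
    obtain ⟨φ₁, hφ₁⟩ := f1
    obtain ⟨φ₂, hφ₂⟩ := f2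
    obtain ⟨χ, hχ⟩ := fX
    obtain ⟨φ, hφ⟩ := hS
    have e1 := hφ₁.van (sp_mono s1.1 hα)
    have e2 := hφ₂.van (sp_mono s2.1 hα)
    have e3 := hχ.van (sp_mono sX hα)
    have e4 := hφ.van hα
    simp only [map_sub, map_smul, smul_eq_mul, hφ₁.zero hx₁, hφ₂.zero hx₂, hχ.zero hx] at e1 e2 e3 e4
    have p1 := hφ₁.pos n2
    have p2 := hφ₂.pos n1
    have q1 := hφ₁.1 x
    have q2 := hφ₂.1 x
    have b0 : 0 ≤ β := by by_contra hc; push Not at hc; nlinarith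
    have a0 : 0 ≤ α := by by_contra hc; push Not at hc; nlinarith
    have c1 := hχ.1 x₁
    have c2 := hχ.1 x₂
    by_cases hα0 : α = 0
    · have hβ0 : β ≠ 0 := by
        rintro rfl
        rw [hα0] at e4
        have := hφ.pos hx'
        linarith
      right
      have : χ (a x₂) = 0 := by
        rw [hα0] at e3
        have : β * χ (a x₂) = 0 := by linarith
        exact (mul_eq_zero.1 this).resolve_left hβ0
      have h5 := atom_sub ⟨φ, hφ⟩ ⟨φ₂, hφ₂⟩ ⟨χ, hχ⟩ s2.1 sX r2 hx₂ hx₂' ((hχ.2 _).1 this)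
      exact (Face.eq_of_rk ⟨φ₂, hφ₂⟩ h5 (by omega)).symm
    · left
      have : χ (a x₁) = 0 := by
        have : α * χ (a x₁) = 0 := by nlinarith [mul_nonneg a0 c1, mul_nonneg b0 c2]
        exact (mul_eq_zero.1 this).resolve_left hα0
      have h5 := atom_sub ⟨φ, hφ⟩ ⟨φ₁, hφ₁⟩ ⟨χ, hχ⟩ s1.1 sX r1 hx₁ hx₁' ((hχ.2 _).1 this)
      exact (Face.eq_of_rk ⟨φ₁, hφ₁⟩ h5 (by omega)).symm

/-- the other middle element of a rank two interval -/
lemma other {S T X : Finset V} (hS : Face a S) (hT : Face a T)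
    (hr : rk a T = rk a S + 2) (hX : Lv a S T (rk a S + 1) X) :
    ∃ X', X' ≠ X ∧ Lv a S T (rk a S + 1) X' := by
  obtain ⟨U₁, U₂, hne, h1, h2, -⟩ := diamond hS hT (hX.2.1.trans hX.2.2.1) hr
  by_cases h : U₁ = X
  · exact ⟨U₂, by rw [← h]; exact hne.symm, h2⟩
  · exact ⟨U₁, h, h1⟩

lemma two_only {S T X Y Z : Finset V} (hS : Face a S) (hT : Face a T)
    (hr : rk a T = rk a S + 2) (hX : Lv a S T (rk a S + 1) X) (hY : Lv a S T (rk a S + 1) Y)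
    (hZ : Lv a S T (rk a S + 1) Z) (hne : X ≠ Y) : Z = X ∨ Z = Y := by
  obtain ⟨U₁, U₂, -, -, -, h⟩ := diamond hS hT (hX.2.1.trans hX.2.2.1) hr
  rcases h X hX with rfl | rfl <;> rcases h Y hY with rfl | rfl <;> rcases h Z hZ with rfl | rfl <;>
    simp_all

/-- ascending step -/
lemma ascend {S T X : Finset V} {φ : E →ₗ[ℝ] ℝ} (hφ : FF a S φ) (hT : Face a T)
    (ψ : E →ₗ[ℝ] ℝ) (hψ : ∀ v ∈ S, ψ (a v) = 0) (hX : Lv a S T (rk a S + 1) X) {x v : V}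
    (hx : x ∈ X) (hx' : x ∉ S) (hv : v ∈ T) (hv' : v ∉ S)
    (hlt : ψ (a x) / φ (a x) < ψ (a v) / φ (a v)) :
    ∃ X' Y, Lv a S T (rk a S + 1) X' ∧ Lv a S T (rk a S + 2) Y ∧ X ⊆ Y ∧ X' ⊆ Y ∧ X' ≠ X ∧
      ∀ x' ∈ X', x' ∉ S → ψ (a x) / φ (a x) < ψ (a x') / φ (a x') := by
  have hS : Face a S := ⟨φ, hφ⟩
  set t := ψ (a x) / φ (a x) with ht
  let χ : E →ₗ[ℝ] ℝ := t • φ - ψ
  have hχ : ∀ y, χ y = t * φ y - ψ y := fun y => by simp [χ]
  have px := hφ.pos hx'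
  have h0 : χ (a x) = 0 := by rw [hχ, ht]; field_simp; ring
  have hχS : ∀ u ∈ S, χ (a u) = 0 := fun u hu => by rw [hχ, hφ.zero hu, hψ u hu]; ring
  have hχX : ∀ u ∈ X, χ (a u) = 0 := by
    intro u hu
    obtain ⟨l, hl⟩ := rel1 hS hX.2.1 hX.2.2.2 hx hx' (mem_sp hu)
    have := van hχS hl
    simpa [h0] using this
  have hneg : χ (a v) < 0 := by
    rw [hχ]; rw [lt_div_iff₀ (hφ.pos hv')] at hlt; linarith
  obtain ⟨Y, g1, g2, g3, g4, g5⟩ := simplex hX.1 hT hX.2.2.1 χ hχX hv hneg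
  obtain ⟨y, hy, hy'⟩ := exists_notMem (a := a) (S := X) (X := Y) (by omega)
  obtain ⟨X', k1, k2, k3, k4, k5⟩ := simplex hS g1 (hX.2.1.trans g2) χ hχS hy (g5 y hy hy')
  refine ⟨X', Y, ⟨k1, k2, k3.trans g3, k4⟩, ⟨g1, hX.2.1.trans g2, g3, by rw [g4, hX.2.2.2]⟩, g2, k3,
    ?_, fun x' h1 h2 => ?_⟩
  · rintro rfl
    have := k5 x hx hx'
    linarith
  · have := k5 x' h1 h2
    rw [hχ] at this
    rw [lt_div_iff₀ (hφ.pos h2)]; linarith

/-- induction along ascending edges -/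
lemma ascend_ind {S T : Finset V} {φ : E →ₗ[ℝ] ℝ} (hφ : FF a S φ) (hT : Face a T)
    (ψ : E →ₗ[ℝ] ℝ) (hψ : ∀ v ∈ S, ψ (a v) = 0) (P : Finset V → Prop)
    (htop : ∀ X x, Lv a S T (rk a S + 1) X → x ∈ X → x ∉ S →
      (∀ v ∈ T, v ∉ S → ψ (a v) / φ (a v) ≤ ψ (a x) / φ (a x)) → P X)
    (hstep : ∀ X X' Y x, Lv a S T (rk a S + 1) X → Lv a S T (rk a S + 1) X' →
      Lv a S T (rk a S + 2) Y → X ⊆ Y → X' ⊆ Y → X' ≠ X → x ∈ X → x ∉ S →
      (∀ x' ∈ X', x' ∉ S → ψ (a x) / φ (a x) < ψ (a x') / φ (a x')) → P X' → P X) :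
    ∀ X, Lv a S T (rk a S + 1) X → P X := by
  have key : ∀ n : ℕ, ∀ X x, Lv a S T (rk a S + 1) X → x ∈ X → x ∉ S →
      (Finset.univ.filter fun v => ψ (a x) / φ (a x) < ψ (a v) / φ (a v)).card = n → P X := by
    intro n
    induction n using Nat.strong_induction_on with
    | _ n ih =>
      intro X x hX hx hx' hn
      by_cases h : ∀ v ∈ T, v ∉ S → ψ (a v) / φ (a v) ≤ ψ (a x) / φ (a x)
      · exact htop X x hX hx hx' h
      · push Not at h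
        obtain ⟨v, hv, hv', hlt⟩ := h
        obtain ⟨X', Y, h1, h2, h3, h4, h5, h6⟩ := ascend hφ hT ψ hψ hX hx hx' hv hv' hlt
        obtain ⟨x', hy, hy'⟩ := exists_notMem (a := a) (S := S) (X := X') (by rw [h1.2.2.2]; omega)
        refine hstep X X' Y x hX h1 h2 h3 h4 h5 hx hx' h6 (ih _ ?_ X' x' h1 hy hy' rfl)
        rw [← hn]
        apply Finset.card_lt_card
        have h7 := h6 x' hy hy'
        rw [Finset.ssubset_iff_of_subset]
        · exact ⟨x', by simpa using h7, by simp⟩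
        · intro u hu
          simp only [Finset.mem_filter, Finset.mem_univ, true_and] at hu ⊢
          linarith
  intro X hX
  obtain ⟨x, hx, hx'⟩ := exists_notMem (a := a) (S := S) (X := X) (by rw [hX.2.2.2]; omega)
  exact key _ X x hX hx hx' rfl

/-- connectivity of the graph of atoms -/
lemma conn {S T X₀ : Finset V} (hS : Face a S) (hT : Face a T) (P : Finset V → Prop)
    (h0 : Lv a S T (rk a S + 1) X₀) (hP : P X₀)
    (hstep : ∀ X X' Y, Lv a S T (rk a S + 1) X → Lv a S T (rk a S + 1) X' →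
      Lv a S T (rk a S + 2) Y → X ⊆ Y → X' ⊆ Y → X' ≠ X → P X' → P X) :
    ∀ X, Lv a S T (rk a S + 1) X → P X := by
  obtain ⟨φ, hφ⟩ := hS
  obtain ⟨χ, hχ⟩ := h0.1
  refine ascend_ind hφ hT (-χ) (fun v hv => by simp [hχ.zero (h0.2.1 hv)]) P ?_
    (fun X X' Y x h1 h2 h3 h4 h5 h6 _ _ _ h7 => hstep X X' Y h1 h2 h3 h4 h5 h6 h7)
  intro X x hX hx hx' hmax
  obtain ⟨y, hy, hy'⟩ := exists_notMem (a := a) (S := S) (X := X₀) (by rw [h0.2.2.2]; omega)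
  have h1 := hmax y (h0.2.2.1 hy) hy'
  simp only [LinearMap.neg_apply, hχ.zero hy, neg_zero, zero_div] at h1
  have h2 := hφ.pos hx'
  rw [le_div_iff₀ h2] at h1
  have h3 : χ (a x) = 0 := le_antisymm (by linarith) (hχ.1 x)
  have h4 := atom_sub ⟨φ, hφ⟩ hX.1 ⟨χ, hχ⟩ hX.2.1 h0.2.1 hX.2.2.2 hx hx' ((hχ.2 x).1 h3)
  rw [hX.1.eq_of_rk h4 (by rw [h0.2.2.2, hX.2.2.2])]
  exact hP

end Pool.Agent.H783Z.MU
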