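import Pool.Agent.H783Z.MUPoly

set_option autoImplicit false
set_option linter.unusedSectionVars false
open Module Finset

namespace Pool.Agent.H783Z.MU

variable {E : Type*} [AddCommGroup E] [Module ℝ E] [FiniteDimensional ℝ E]
  {V : Type*} [Fintype V] [DecidableEq V] {a : V → E}

open Classical in
noncomputable def LS (a : V → E) (S T : Finset V) (k : ℕ) : Finset (Finset V) :=
  univ.filter (Lv a S T k)

@[simp] lemma mem_LS {S T X : Finset V} {k : ℕ} : X ∈ LS a S T k ↔ Lv a S T k X := by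
  simp [LS]

lemma LS_pair {S T X Y : Finset V} {k : ℕ} (hS : Face a S) (hT : Face a T) (hk : k = rk a S + 1)
    (hr : rk a T = k + 1) (hX : Lv a S T k X) (hY : Lv a S T k Y) (hne : X ≠ Y) :
    LS a S T k = {X, Y} := by
  subst hk
  ext Z
  simp only [mem_LS, mem_insert, mem_singleton]
  refine ⟨fun h => two_only hS hT hr hX hY h hne, ?_⟩
  rintro (rfl | rfl) <;> assumption

lemma LS_card {S T : Finset V} {k : ℕ} (hS : Face a S) (hT : Face a T) (hST : S ⊆ T)
    (hk : k = rk a S + 1) (hr : rk a T = k + 1) : (LS a S T k).card = 2 := by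
  obtain ⟨U₁, U₂, hne, h1, h2, -⟩ := diamond hS hT hST (by omega)
  rw [LS_pair hS hT hk hr (hk ▸ h1) (hk ▸ h2) hne, card_pair hne]

lemma dd {H T : Finset V} {k : ℕ} (hH : Face a H) (hk : rk a H = k) (D : Finset V → ZMod 2) :
    ∑ R ∈ LS a H T (k + 1), ∑ F ∈ LS a R T (k + 2), D F = 0 := by
  rw [sum_comm' (t' := LS a H T (k + 2)) (s' := fun F => LS a H F (k + 1))]
  · refine sum_eq_zero fun F hF => ?_
    rw [mem_LS] at hF
    rw [sum_const, LS_card hH hF.1 hF.2.1 (by rw [hk]) hF.2.2.2]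
    generalize D F = x
    revert x; decide
  · intro R F
    simp only [mem_LS]
    exact ⟨fun ⟨h1, h2⟩ => ⟨h1.low h2.2.1, h2.up (h1.2.1.trans h2.2.1)⟩,
      fun ⟨h1, h2⟩ => ⟨⟨h1.1, h1.2.1, h1.2.2.1.trans h2.2.2.1, h1.2.2.2⟩, h2.up h1.2.2.1⟩⟩

lemma generic {G T : Finset V} {φ : E →ₗ[ℝ] ℝ} (hφ : FF a G φ) :
    ∃ ψ : E →ₗ[ℝ] ℝ, (∀ v ∈ G, ψ (a v) = 0) ∧ ∀ H H' x x', Lv a G T (rk a G + 1) H →
      Lv a G T (rk a G + 1) H' → H ≠ H' → x ∈ H → x ∉ G → x' ∈ H' → x' ∉ G →
      ψ (a x) / φ (a x) ≠ ψ (a x') / φ (a x') := by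
  let w : V × V → E := fun p => φ (a p.2) • a p.1 - φ (a p.1) • a p.2
  obtain ⟨f, hf⟩ := Module.exists_dual_forall_apply_ne_zero (K := ℝ)
    (fun p : {p : V × V // w p ∉ sp a G} => (sp a G).mkQ (w p.1))
    (fun p => by simpa [Submodule.Quotient.mk_eq_zero] using p.2)
  refine ⟨f ∘ₗ (sp a G).mkQ, fun v hv => ?_, fun H H' x x' hH hH' hne hx hxG hx' hxG' e => ?_⟩
  · have : (sp a G).mkQ (a v) = 0 := by
      simpa [Submodule.Quotient.mk_eq_zero] using mem_sp hv
    rw [LinearMap.comp_apply, this, map_zero]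
  · have p := hφ.pos hxG
    have p' := hφ.pos hxG'
    have hw : w (x, x') ∉ sp a G := by
      intro h
      apply notMem_of_ne ⟨φ, hφ⟩ hH' hH hne hx hxG
      apply hH'.1.mem_of_sp
      have h1 : φ (a x') • a x ∈ sp a H' := by
        have := add_mem (sp_mono hH'.2.1 h) (Submodule.smul_mem _ (φ (a x)) (mem_sp hx'))
        simpa [w] using this
      exact (Submodule.smul_mem_iff _ p'.ne').1 h1
    apply hf ⟨(x, x'), hw⟩
    rw [div_eq_div_iff p.ne' p'.ne'] at e
    simp only [LinearMap.comp_apply] at e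
    simp only [w, map_sub, map_smul, smul_eq_mul]
    linarith

lemma Poly.sum_X {S T : Finset V} {X Y : ℕ → Finset V} {m : ℕ} (w : Poly a S T m X Y)
    (C : Finset V → ZMod 2) : ∑ R ∈ LS a S T (rk a S + 1), C R = ∑ j ∈ range m, C (X j) := by
  symm
  have := w.m3
  refine sum_bij (fun j _ => X j) (fun j _ => mem_LS.2 (w.hX j)) (fun i hi j hj e => ?_)
    (fun R hR => ?_) fun _ _ => rfl
  · rw [mem_range] at hi hj
    by_contra hne
    rcases lt_or_gt_of_ne hne with h | h
    · exact w.inj i j h (by omega) e.symm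
    · exact w.inj j i h (by omega) e
  · obtain ⟨i, rfl⟩ := w.all R (mem_LS.1 hR)
    exact ⟨i % m, mem_range.2 (Nat.mod_lt _ (by omega)), per_mod w.pX i⟩

lemma Walk.LS_at {S T : Finset V} {X Y : ℕ → Finset V} (w : Walk a S T X Y) (n : ℕ) :
    LS a (X (n + 1)) T (rk a S + 2) = {Y n, Y (n + 1)} :=
  LS_pair (w.hX _).1 w.fT (by rw [(w.hX _).2.2.2]) w.r3 ((w.hY n).up (w.s2 n))
    ((w.hY (n + 1)).up (w.s1 _)) (w.nY n).symm

theorem h1 {G T : Finset V} (hG : Face a G) (hT : Face a T) (hr : rk a T = rk a G + 4)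
    (C : Finset V → ZMod 2)
    (hC : ∀ H, Lv a G T (rk a G + 1) H → ∑ R ∈ LS a H T (rk a G + 2), C R = 0) :
    ∃ D : Finset V → ZMod 2, ∀ R, Lv a G T (rk a G + 2) R →
      C R = ∑ F ∈ LS a R T (rk a G + 3), D F := by
  classical
  obtain ⟨φ, hφ⟩ := hG
  have hG : Face a G := ⟨φ, hφ⟩
  obtain ⟨ψ, hψ, gen⟩ := generic (T := T) hφ
  set g := rk a G with hg
  let ht : V → ℝ := fun x => ψ (a x) / φ (a x)
  have key : ∀ n : ℕ, ∀ t : ℝ, (univ.filter fun x => ht x < t).card = n →
      ∀ C : Finset V → ZMod 2,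
      (∀ H, Lv a G T (g + 1) H → ∑ R ∈ LS a H T (g + 2), C R = 0) →
      (∀ R H x, Lv a G T (g + 2) R → C R ≠ 0 → Lv a G T (g + 1) H → H ⊆ R → x ∈ H → x ∉ G →
        ht x < t) →
      ∃ D : Finset V → ZMod 2, ∀ R, Lv a G T (g + 2) R → C R = ∑ F ∈ LS a R T (g + 3), D F := by
    intro n
    induction n using Nat.strong_induction_on with
    | _ n ih =>
    intro t hn C hC hb
    let A := univ.filter fun x => ∃ R H, Lv a G T (g + 2) R ∧ C R ≠ 0 ∧ Lv a G T (g + 1) H ∧
      H ⊆ R ∧ x ∈ H ∧ x ∉ G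
    by_cases hA : A.Nonempty
    swap
    · refine ⟨0, fun R hR => ?_⟩
      simp only [Pi.zero_apply, sum_const_zero]
      by_contra hc
      obtain ⟨H, h1, h2, h3, h4⟩ := hG.exists_rk hR.1 hR.2.1 1 (by rw [hR.2.2.2]; omega)
      obtain ⟨x, hx, hx'⟩ := exists_notMem (a := a) (S := G) (X := H) (by omega)
      exact hA ⟨x, mem_filter.2 ⟨mem_univ _, R, H, hR, hc, ⟨h1, h2, h3.trans hR.2.2.1, h4⟩, h3, hx,
        hx'⟩⟩
    obtain ⟨x₀, hx₀, hmax⟩ := A.exists_max_image ht hA
    obtain ⟨R₀, H₀, hR₀, hC₀, hH₀, hs₀, hx₀, hx₀'⟩ := (mem_filter.1 hx₀).2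
    have e₀ : rk a H₀ = g + 1 := hH₀.2.2.2
    let χ : E →ₗ[ℝ] ℝ := ψ - ht x₀ • φ
    have hχ : ∀ y, χ y = ψ y - ht x₀ * φ y := fun y => by simp [χ]
    have hχG : ∀ v ∈ G, χ (a v) = 0 := fun v hv => by rw [hχ, hψ v hv, hφ.zero hv]; ring
    have hχ0 : χ (a x₀) = 0 := by
      have := (hφ.pos hx₀').ne'
      rw [hχ]; simp only [ht]; field_simp; ring
    have hχH : ∀ v ∈ H₀, χ (a v) = 0 := by
      intro u hu
      obtain ⟨l, hl⟩ := rel1 hG hH₀.2.1 e₀ hx₀ hx₀' (mem_sp hu)
      have := van hχG hl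
      simpa [hχ0] using this
    have le_of : ∀ x, x ∉ G → χ (a x) ≤ 0 → ht x ≤ ht x₀ := by
      intro x hx h
      rw [hχ] at h
      show ψ (a x) / φ (a x) ≤ _
      rw [div_le_iff₀ (hφ.pos hx)]; linarith
    have start : ∃ X₀, Lv a H₀ T (rk a H₀ + 1) X₀ ∧ ∀ X r, Lv a H₀ T (rk a H₀ + 1) X → r ∈ X →
        0 < χ (a r) → ∀ r₀ ∈ X₀, r₀ ∉ H₀ → 0 < χ (a r₀) := by
      by_cases h : ∃ X r, Lv a H₀ T (rk a H₀ + 1) X ∧ r ∈ X ∧ 0 < χ (a r)
      · obtain ⟨X, r, h1, h2, h3⟩ := h
        refine ⟨X, h1, fun _ _ _ _ _ r₀ k1 k2 => ?_⟩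
        have h4 : r ∉ H₀ := fun h => by rw [hχH r h] at h3; exact lt_irrefl _ h3
        obtain ⟨l, hl, hl'⟩ := rel1' hH₀.1 h1.2.1 h1.2.2.2 h2 h4 k1 k2
        have := van hχH hl'
        simp only [map_sub, map_smul, smul_eq_mul] at this
        nlinarith [mul_pos hl h3]
      · exact ⟨R₀, e₀ ▸ hR₀.up hs₀, fun X r h1 h2 h3 => absurd ⟨X, r, h1, h2, h3⟩ h⟩
    obtain ⟨X₀, hX₀, hstart⟩ := start
    obtain ⟨Y₀, y1, y2, y3, y4⟩ := hX₀.1.exists_rk hT hX₀.2.2.1 1 (by rw [hX₀.2.2.2]; omega)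
    obtain ⟨m, X, Y, w, wX, -⟩ := exists_poly hH₀.1 hT (by omega) hX₀
      ⟨y1, hX₀.2.1.trans y2, y3, by rw [y4, hX₀.2.2.2]⟩ y2
    have m3 := w.m3
    have hX : ∀ i, Lv a G T (g + 2) (X i) := fun i => by
      have := (w.hX i).up (hH₀.2.1.trans (w.hX i).2.1)
      rwa [e₀] at this
    have reps : ∀ i, ∃ r, (r ∈ X i ∧ r ∉ H₀) ∧ χ (a r) ≠ 0 ∧ (C (X i) ≠ 0 → χ (a r) < 0) := by
      intro i
      obtain ⟨H', n1, n2⟩ := other hG (hX i).1 (hX i).2.2.2 (hH₀.low (w.hX i).2.1)
      have n3 : Lv a G T (g + 1) H' := ⟨n2.1, n2.2.1, n2.2.2.1.trans (hX i).2.2.1, n2.2.2.2⟩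
      obtain ⟨r, r1, r2⟩ := exists_notMem (a := a) (S := G) (X := H') (by rw [n2.2.2.2]; omega)
      have ne : ht r ≠ ht x₀ := gen H' H₀ r x₀ n3 hH₀ n1 r1 r2 hx₀ hx₀'
      have p := hφ.pos r2
      have e : χ (a r) = (ht r - ht x₀) * φ (a r) := by
        rw [hχ]; simp only [ht]; field_simp
      refine ⟨r, ⟨n2.2.2.1 r1, notMem_of_ne hG hH₀ n3 n1 r1 r2⟩, ?_, fun hc => ?_⟩
      · rw [e]; exact mul_ne_zero (sub_ne_zero.2 ne) p.ne'
      · rw [e]
        have := hmax r (mem_filter.2 ⟨mem_univ _, X i, H', hX i, hc, n3, n2.2.2.1, r1, r2⟩)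
        exact mul_neg_of_neg_of_pos (sub_neg.2 (lt_of_le_of_ne this ne)) p
    choose r hr1 hr2 hr3 using reps
    let s : ℕ → ZMod 2 := fun i => ∑ j ∈ range (i + 1), C (X j)
    have sm : s (m - 1) = 0 := by
      have := hC H₀ hH₀
      rw [show g + 2 = rk a H₀ + 1 by omega, w.sum_X] at this
      simp only [s]
      rwa [show m - 1 + 1 = m by omega]
    let D₀ : Finset V → ZMod 2 := fun F => ∑ i ∈ range m, if F = Y i then s i else 0
    have hD₀ : ∀ i < m, D₀ (Y i) = s i := by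
      intro i hi
      simp only [D₀]
      rw [sum_eq_single i]
      · simp
      · intro j hj hne
        rw [mem_range] at hj
        rw [if_neg]
        rcases lt_or_gt_of_ne hne with h | h
        · exact w.injY h (by omega)
        · exact (w.injY h (by omega)).symm
      · intro h; exact absurd (mem_range.2 hi) h
    have low : ∀ i < m, s i ≠ 0 → ∀ v ∈ Y i, χ (a v) ≤ 0 := by
      intro i hi hs v hv
      obtain ⟨j, hj, hj'⟩ := exists_ne_zero_of_sum_ne_zero hs
      rw [mem_range] at hj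
      have : ∃ k, i < k ∧ k < m ∧ C (X k) ≠ 0 := by
        by_contra hc
        push Not at hc
        apply hs
        rw [← sm]
        simp only [s]
        refine sum_subset (range_subset_range.2 (by omega)) fun k h1 h2 => ?_
        rw [mem_range] at h1 h2
        exact hc k (by omega) (by omega)
      obtain ⟨k, k1, k2, k3⟩ := this
      have neg : ∀ l, j ≤ l → l ≤ k → χ (a (r l)) < 0 := by
        intro l l1 l2
        by_contra hc
        have hp : 0 < χ (a (r l)) := lt_of_le_of_ne (not_lt.1 hc) (hr2 l).symm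
        have hj2 := hr3 j hj'
        have hk2 := hr3 k k3
        have h0 : 0 < χ (a (r 0)) := hstart _ _ (w.hX l) (hr1 l).1 hp _ (wX ▸ (hr1 0).1) (hr1 0).2
        have a1 : j ≠ l := by rintro rfl; linarith
        have a2 : l ≠ k := by rintro rfl; linarith
        have a3 : j ≠ 0 := by rintro rfl; linarith
        exact w.no_alt hr1 χ hχH (i := 0) (j := j) (k := l) (l := k) (by omega) (by omega)
          (by omega) (by omega) h0 hj2 hp hk2
      by_contra hc
      push Not at hc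
      obtain ⟨U, u1, u2, u3, u4, u5⟩ := simplex hH₀.1 (w.hY i).1 (w.hY i).2.1 (-χ)
        (fun v hv => by simp [hχH v hv]) hv (by simpa using hc)
      rcases w.atoms_in i ⟨u1, u2, u3.trans (w.hY i).2.2.1, u4⟩ u3 with e | e
      · have := u5 (r i) (e ▸ (hr1 i).1) (hr1 i).2
        have := neg i (by omega) (by omega)
        simp only [LinearMap.neg_apply] at *
        linarith
      · have := u5 (r (i + 1)) (e ▸ (hr1 _).1) (hr1 _).2
        have := neg (i + 1) (by omega) (by omega)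
        simp only [LinearMap.neg_apply] at *
        linarith
    have hlt : (univ.filter fun x => ht x < ht x₀).card < n := by
      rw [← hn]
      have h1 := hb R₀ H₀ x₀ hR₀ hC₀ hH₀ hs₀ hx₀ hx₀'
      apply card_lt_card
      rw [ssubset_iff_of_subset]
      · exact ⟨x₀, by simpa using h1, by simp⟩
      · intro u hu
        simp only [mem_filter, mem_univ, true_and] at hu ⊢
        linarith
    obtain ⟨D₁, hD₁⟩ := ih _ hlt (ht x₀) rfl (fun R => C R + ∑ F ∈ LS a R T (g + 3), D₀ F)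
      (fun H hH => by rw [sum_add_distrib, hC H hH, zero_add]; exact dd hH.1 hH.2.2.2 D₀) (by
        intro R H x hR hne hH hs hx hx'
        have hH0 : H ≠ H₀ := by
          rintro rfl
          apply hne
          obtain ⟨i, rfl⟩ := w.all R (e₀ ▸ hR.up hs)
          rw [← per_mod w.pX i]
          have hi := Nat.mod_lt i (by omega : 0 < m)
          have LSa := fun n => w.LS_at n
          rw [e₀] at LSa
          generalize i % m = l at hi
          rcases l with _ | l
          · have := LSa (m - 1)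
            rw [show m - 1 + 1 = 0 + m by omega, w.pX, w.pY] at this
            show C (X 0) + ∑ F ∈ LS a (X 0) T (g + 1 + 2), D₀ F = 0
            rw [this, sum_pair (w.injY (by omega) (by omega)), hD₀ _ (by omega), hD₀ _ (by omega),
              sm]
            simp only [s, zero_add, range_one, sum_singleton]
            generalize C (X 0) = x
            revert x; decide
          · show C (X (l + 1)) + ∑ F ∈ LS a (X (l + 1)) T (g + 1 + 2), D₀ F = 0
            rw [LSa l, sum_pair (w.nY l).symm, hD₀ _ (by omega), hD₀ _ (by omega)]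
            simp only [s]
            rw [sum_range_succ _ (l + 1)]
            generalize C (X (l + 1)) = x
            generalize ∑ j ∈ range (l + 1), C (X j) = y
            revert x y; decide
        refine lt_of_le_of_ne ?_ (gen H H₀ x x₀ hH hH₀ hH0 hx hx' hx₀ hx₀')
        by_cases hc : C R = 0
        · simp only [hc, zero_add] at hne
          obtain ⟨F, hF, hF'⟩ := exists_ne_zero_of_sum_ne_zero hne
          obtain ⟨i, hi, hi'⟩ := exists_ne_zero_of_sum_ne_zero hF'
          rw [mem_range] at hi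
          by_cases e : F = Y i
          · rw [if_pos e] at hi'
            exact le_of x hx' (low i hi hi' x (e ▸ (mem_LS.1 hF).2.1 (hs hx)))
          · rw [if_neg e] at hi'; exact absurd rfl hi'
        · exact hmax x (mem_filter.2 ⟨mem_univ _, R, H, hR, hc, hH, hs, hx, hx'⟩))
    refine ⟨D₁ - D₀, fun R hR => ?_⟩
    simp only [Pi.sub_apply, sum_sub_distrib]
    rw [← hD₁ R hR]; ring
  refine key _ (1 + ∑ x, |ht x|) rfl C hC fun _ _ x _ _ _ _ _ _ => ?_
  have := single_le_sum (f := fun x => |ht x|) (fun i _ => abs_nonneg _) (mem_univ x)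
  have := le_abs_self (ht x)
  linarith

lemma lin {α β γ : Type*} (s : Finset α) (t : Finset β) (u : Finset γ) (A : α → β → ZMod 2)
    (M : β → γ → ZMod 2) (hs : s.Nonempty) (hu : u.Nonempty) (hA : ∀ b ∈ t, ∑ x ∈ s, A x b = 0)
    (hM : ∀ b ∈ t, ∑ c ∈ u, M b c = 0)
    (h : ∀ C : β → ZMod 2, (∀ b ∉ t, C b = 0) → (∀ x ∈ s, ∑ b ∈ t, A x b * C b = 0) →
      ∃ D : γ → ZMod 2, ∀ b ∈ t, ∑ c ∈ u, M b c * D c = C b) : t.card + 2 ≤ s.card + u.card := by
  classical
  haveI : Fact (Nat.Prime 2) := ⟨Nat.prime_two⟩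
  let A' : Matrix s t (ZMod 2) := fun x b => A x b
  let M' : Matrix t u (ZMod 2) := fun b c => M b c
  have h1 := LinearMap.finrank_range_add_finrank_ker A'.mulVecLin
  have h2 := LinearMap.finrank_range_add_finrank_ker M'.mulVecLin
  have h3 : LinearMap.ker A'.mulVecLin ≤ LinearMap.range M'.mulVecLin := by
    intro C hC
    obtain ⟨D, hD⟩ := h (fun b => if hb : b ∈ t then C ⟨b, hb⟩ else 0) (fun b hb => dif_neg hb)
      (fun x hx => by
        have := congrFun (LinearMap.mem_ker.1 hC) ⟨x, hx⟩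
        rw [← sum_coe_sort]
        simpa [Matrix.mulVec, dotProduct, A'] using this)
    refine ⟨fun c => D c, funext fun b => ?_⟩
    have := hD b b.2
    rw [← sum_coe_sort] at this
    simpa [Matrix.mulVec, dotProduct, M'] using this
  have h4 := Submodule.finrank_mono h3
  have h5 : 0 < finrank (ZMod 2) (LinearMap.ker M'.mulVecLin) := by
    rw [finrank_pos_iff_exists_ne_zero]
    refine ⟨⟨fun _ => 1, ?_⟩, fun e => ?_⟩
    · rw [LinearMap.mem_ker]
      funext b
      have := hM b b.2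
      rw [← sum_coe_sort] at this
      simpa [Matrix.mulVec, dotProduct, M'] using this
    · obtain ⟨c, hc⟩ := hu
      have := congrFun (congrArg Subtype.val e) ⟨c, hc⟩
      simp at this
  have h6 : finrank (ZMod 2) (LinearMap.range A'.mulVecLin) < finrank (ZMod 2) (s → ZMod 2) := by
    apply Submodule.finrank_lt
    intro e
    obtain ⟨x, hx⟩ := hs
    obtain ⟨C, hC⟩ : Pi.single ⟨x, hx⟩ 1 ∈ LinearMap.range A'.mulVecLin := e ▸ Submodule.mem_top
    have h7 : ∑ y, A'.mulVecLin C y = 0 := by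
      simp only [Matrix.mulVecLin_apply, Matrix.mulVec, dotProduct]
      rw [sum_comm]
      refine sum_eq_zero fun b _ => ?_
      rw [← sum_mul]
      have := hA b b.2
      rw [← sum_coe_sort] at this
      simp only [A']
      rw [this, zero_mul]
    rw [hC] at h7
    simp at h7
  simp only [finrank_pi, Fintype.card_coe] at h1 h2 h6
  omega

end Pool.Agent.H783Z.MU
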