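import Pool.Agent.H783Z.MURing
import Pool.Agent.H783Z.MUHom

set_option autoImplicit false
set_option linter.unusedSectionVars false
open Module Finset
open scoped RealInnerProductSpace

namespace Pool.Agent.H783Z.MU

variable {F : Type*} [NormedAddCommGroup F] [InnerProductSpace ℝ F] [FiniteDimensional ℝ F]
  {V : Type*} [Fintype V] [DecidableEq V] {b b' : V → ℝ × F}

def Nrm (b : V → ℝ × F) (T f : Finset V) (ν : ℝ × F) : Prop :=
  ν ∈ sp b T ∧ LB ν ν = 1 ∧ (∀ v ∈ f, LB ν (b v) = 0) ∧ ∀ v ∈ T, v ∉ f → 0 < LB ν (b v)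

lemma Nrm.nn_zero {T f X : Finset V} {ν : ℝ × F} (h : Nrm b T f ν) (hX : X ⊆ f) :
    LB ν (nn b X) = 0 := by
  unfold nn
  rw [map_sum]
  exact sum_eq_zero fun v hv => h.2.2.1 v (hX hv)

lemma Nrm.nn_pos {T f X : Finset V} {ν : ℝ × F} (h : Nrm b T f ν) (hT : X ⊆ T) (hX : ¬X ⊆ f) :
    0 < LB ν (nn b X) := by
  unfold nn
  rw [map_sum]
  obtain ⟨x, hx, hx'⟩ := not_subset.1 hX
  refine sum_pos' (fun v hv => ?_) ⟨x, hx, h.2.2.2 x (hT hx) hx'⟩
  by_cases e : v ∈ f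
  · exact (h.2.2.1 v e).ge
  · exact (h.2.2.2 v (hT hv) e).le

lemma ES.exists_nrm (h : ES b) {T : Finset V} (hT : Face b T) (hr : rk b T = 4) :
    ∃ ν : Finset V → ℝ × F, ∀ f, Lv b ∅ T 3 f → Nrm b T f (ν f) := by
  have : ∀ f, ∃ ν, Lv b ∅ T 3 f → Nrm b T f ν := by
    intro f
    by_cases hf : Lv b ∅ T 3 f
    · obtain ⟨ν, hν⟩ := h.normal hT hf.1 hf.2.2.1 hf.2.2.2.ge (by rw [hf.2.2.2]; omega)
      exact ⟨ν, fun _ => hν⟩
    · exact ⟨0, fun h => absurd h hf⟩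
  choose ν hν using this
  exact ⟨ν, hν⟩

lemma ES.ring_vertex (h : ES b) {T : Finset V} (hr : rk b T = 4) {u : V} {m : ℕ}
    {X Y : ℕ → Finset V} (w : Poly b {u} T m X Y) {ν : Finset V → ℝ × F}
    (hν : ∀ f, Lv b ∅ T 3 f → Nrm b T f (ν f)) :
    Ring (sp b T) (-b u) m (fun i => nn b (X i)) (fun i => ν (Y i)) := by
  have e := rk_single h.f0 u
  have rX : ∀ i, rk b (X i) = 2 := fun i => by rw [(w.hX i).2.2.2, e]
  have uX : ∀ i, u ∈ X i := fun i => singleton_subset_iff.1 (w.hX i).2.1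
  have nY : ∀ i, Nrm b T (Y i) (ν (Y i)) := fun i => hν _ (by
    have := (w.hY i).up (empty_subset _)
    rwa [e] at this)
  refine ⟨hr, w.m3, neg_mem (mem_sp ((w.hX 0).2.2.1 (uX 0))), by simp [h.unit],
    fun i => nn_mem b (w.hX i).2.2.1, fun i => (nY i).1, fun i => ?_, fun i => ?_,
    fun i => h.nn_nn (w.hX i).1 (rX i), fun i => (nY i).2.1, fun i => (nY i).nn_zero (w.s1 i),
    fun i => (nY i).nn_zero (w.s2 i), fun i k h1 h2 => (nY i).nn_pos (w.hX k).2.2.1 fun hs => ?_,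
    fun k h1 h2 => h.nn_nn_neg (w.hX 0).1 (rX 0) (w.hX k).1 (rX k) (w.inj 0 k h1 (by omega)),
    fun i => by simp only [w.pX]⟩
  · rw [LB_comm, map_neg, h.nn_zero (w.hX i).1 (rX i) (uX i), neg_zero]
  · rw [LB_comm, map_neg, (nY i).2.2.1 u (w.s1 i (uX i)), neg_zero]
  · obtain ⟨r, hr⟩ := w.exists_rep
    exact w.notMem' h1 h2 (hr k).1 (hr k).2 (hs (hr k).1)

lemma ES.ring_face (h : ES b) {T f : Finset V} (hr : rk b T = 4) (hf : f ⊆ T) {m : ℕ}
    {X Y : ℕ → Finset V} (w : Poly b ∅ f m X Y) {v : ℕ → V} (hv : ∀ i, v i ∈ X i) {o : ℝ × F}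
    (ho : Nrm b T f o) : Ring (sp b T) o m (fun i => nn b (Y i)) (fun i => -b (v (i + 1))) := by
  have rY : ∀ i, rk b (Y i) = 2 := fun i => by rw [(w.hY i).2.2.2, rk_empty]
  have vf : ∀ i, v i ∈ f := fun i => (w.hX i).2.2.1 (hv i)
  refine ⟨hr, w.m3, ho.1, ho.2.1, fun i => nn_mem b ((w.hY i).2.2.1.trans hf),
    fun i => neg_mem (mem_sp (hf (vf _))), fun i => ho.nn_zero (w.hY i).2.2.1,
    fun i => by rw [map_neg, ho.2.2.1 _ (vf _), neg_zero],
    fun i => h.nn_nn (w.hY i).1 (rY i), fun i => by simp [h.unit], fun i => ?_, fun i => ?_,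
    fun i k h1 h2 => ?_,
    fun k h1 h2 => h.nn_nn_neg (w.hY 0).1 (rY 0) (w.hY k).1 (rY k) (w.injY h1 (by omega)),
    fun i => by simp only [w.pY]⟩
  · rw [LB_comm, map_neg, h.nn_zero (w.hY i).1 (rY i) (w.s2 i (hv _)), neg_zero]
  · rw [LB_comm, map_neg, h.nn_zero (w.hY _).1 (rY _) (w.s1 _ (hv _)), neg_zero]
  · rw [LB_comm, map_neg, neg_pos]
    refine h.nn_neg (rY k) (w.notMem' (k := i + 1 + m) (by omega) (by omega) ?_ (notMem_empty _))
    rw [w.pX]; exact hv _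

lemma kat_edge (h : ES b) (h' : ES b') (hF : ∀ S, Face b S ↔ Face b' S) {T : Finset V}
    (hT : Face b T) (hr : rk b T = 4) {e : Finset V} (he : Lv b ∅ T 2 e) :
    ∀ u ∈ T, LB (nn b' e) (b' u) = LB (nn b e) (b u) := by
  classical
  have tr := fun {S T X : Finset V} {k : ℕ} (hX : Lv b S T k X) => hX.transfer hF h.f0
  have hr' : rk b' T = 4 := by rw [← rk_eq hF h.f0 T hT, hr]
  have he' := tr he
  obtain ⟨ν, hν⟩ := h.exists_nrm hT hr
  obtain ⟨ν', hν'⟩ := h'.exists_nrm ((hF T).1 hT) hr'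
  set N := nn b e
  set N' := nn b' e
  have NN : LB N N = 0 := h.nn_nn he.1 he.2.2.2
  have NN' : LB N' N' = 0 := h'.nn_nn he'.1 he'.2.2.2
  have hN : N ∈ sp b T := nn_mem b he.2.2.1
  have hN' : N' ∈ sp b' T := nn_mem b' he.2.2.1
  let κ : V → ℝ := fun u => LB (-b u) N
  let κ' : V → ℝ := fun u => LB (-b' u) N'
  let μ : Finset V → ℝ := fun f => LB (ν f) N
  let μ' : Finset V → ℝ := fun f => LB (ν' f) N'
  have k0 : ∀ u ∈ e, κ u = 0 ∧ κ' u = 0 := fun u hu => by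
    simp only [κ, κ']
    rw [LB_comm, map_neg, LB_comm (-b' u), map_neg, h.nn_zero he.1 he.2.2.2 hu,
      h'.nn_zero he'.1 he'.2.2.2 hu, neg_zero]
    exact ⟨rfl, rfl⟩
  have kp : ∀ u ∉ e, 0 < κ u ∧ 0 < κ' u := fun u hu => by
    simp only [κ, κ']
    rw [LB_comm, map_neg, LB_comm (-b' u), map_neg, neg_pos, neg_pos]
    exact ⟨h.nn_neg he.2.2.2 hu, h'.nn_neg he'.2.2.2 hu⟩
  have m0 : ∀ f, Lv b ∅ T 3 f → e ⊆ f → μ f = 0 ∧ μ' f = 0 := fun f hf hs =>
    ⟨(hν f hf).nn_zero hs, (hν' f (tr hf)).nn_zero hs⟩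
  have mp : ∀ f, Lv b ∅ T 3 f → ¬e ⊆ f → 0 < μ f ∧ 0 < μ' f := fun f hf hs =>
    ⟨(hν f hf).nn_pos he.2.2.1 hs, (hν' f (tr hf)).nn_pos he.2.2.1 hs⟩
  -- the maximal ratio
  obtain ⟨l, l1, l2, l3⟩ : ∃ l : ℝ, (∀ u ∈ T, κ' u ≤ l * κ u) ∧
      (∀ f, Lv b ∅ T 3 f → μ' f ≤ l * μ f) ∧ ((∃ u ∈ T, u ∉ e ∧ κ' u = l * κ u) ∨
        ∃ f, Lv b ∅ T 3 f ∧ ¬e ⊆ f ∧ μ' f = l * μ f) := by
    obtain ⟨x, hx, hx'⟩ := exists_notMem (a := b) (S := e) (X := T) (by rw [he.2.2.2]; omega)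
    let A := (T.filter fun u => u ∉ e).image (fun u => κ' u / κ u) ∪
      ((LS b ∅ T 3).filter fun f => ¬e ⊆ f).image (fun f => μ' f / μ f)
    have hA : A.Nonempty := ⟨_, mem_union_left _ (mem_image_of_mem _ (mem_filter.2 ⟨hx, hx'⟩))⟩
    refine ⟨A.max' hA, fun u hu => ?_, fun f hf => ?_, ?_⟩
    · by_cases c : u ∈ e
      · rw [(k0 u c).1, (k0 u c).2, mul_zero]
      · rw [← div_le_iff₀ (kp u c).1]
        exact le_max' A _ (mem_union_left _ (mem_image.2 ⟨u, mem_filter.2 ⟨hu, c⟩, rfl⟩))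
    · by_cases c : e ⊆ f
      · rw [(m0 f hf c).1, (m0 f hf c).2, mul_zero]
      · rw [← div_le_iff₀ (mp f hf c).1]
        exact le_max' A _ (mem_union_right _ (mem_image.2
          ⟨f, mem_filter.2 ⟨mem_LS.2 hf, c⟩, rfl⟩))
    · rcases mem_union.1 (max'_mem A hA) with c | c
      · obtain ⟨u, hu, c⟩ := mem_image.1 c
        rw [mem_filter] at hu
        exact Or.inl ⟨u, hu.1, hu.2, by rw [← c, div_mul_cancel₀ _ (kp u hu.2).1.ne']⟩
      · obtain ⟨f, hf, c⟩ := mem_image.1 c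
        rw [mem_filter, mem_LS] at hf
        exact Or.inr ⟨f, hf.1, hf.2, by rw [← c, div_mul_cancel₀ _ (mp f hf.1 hf.2).1.ne']⟩
  have PV : ∀ u ∈ T, u ∉ e → κ' u = l * κ u → ∀ f, Lv b ∅ T 3 f → u ∈ f → μ' f = l * μ f := by
    intro u hu hue hl f hf huf
    have e1 := rk_single h.f0 u
    obtain ⟨m, X, Y, w⟩ := exists_poly' (h.vert u) hT (singleton_subset_iff.2 hu) (by omega)
    have w' := w.transfer hF h.f0
    have rX : ∀ i, Lv b {u} T 2 (X i) := fun i => by have := w.hX i; rwa [e1] at this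
    have nX : e ≠ X 0 := fun c => hue (c ▸ singleton_subset_iff.1 (rX 0).2.1)
    have := (h.ring_vertex hr w hν).compare (h'.ring_vertex hr' w' hν') hN NN (kp u hue).1
      (h.nn_nn_neg (rX 0).1 (rX 0).2.2.2 he.1 he.2.2.2 nX) hN' NN' (kp u hue).2
      (h'.nn_nn_neg (tr (rX 0)).1 (tr (rX 0)).2.2.2 he'.1 he'.2.2.2 nX) hl (fun i => l2 _ (by
        have := (w.hY i).up (empty_subset _)
        rwa [e1] at this))
    obtain ⟨i, rfl⟩ := w.allY (Z := f) (by rw [e1]; exact hf.up (singleton_subset_iff.2 huf))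
    rw [← per_mod w.pY i]
    exact this _ (Nat.mod_lt _ (by have := w.m3; omega))
  have PF : ∀ f, Lv b ∅ T 3 f → ¬e ⊆ f → μ' f = l * μ f → ∀ u ∈ f, κ' u = l * κ u := by
    intro f hf hef hl u huf
    obtain ⟨m, X, Y, w⟩ := exists_poly' h.f0 hf.1 (empty_subset _) (by rw [rk_empty, hf.2.2.2])
    have m3 := w.m3
    have w' := w.transfer hF h.f0
    obtain ⟨v, hv⟩ := w.exists_rep
    have rY : ∀ i, Lv b ∅ f 2 (Y i) := fun i => by have := w.hY i; rwa [rk_empty] at this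
    have nY : e ≠ Y 0 := fun c => hef (c ▸ (rY 0).2.2.1)
    have := (h.ring_face hr hf.2.2.1 w (fun i => (hv i).1) (hν f hf)).compare
      (h'.ring_face hr' hf.2.2.1 w' (fun i => (hv i).1) (hν' f (tr hf))) hN NN (mp f hf hef).1
      (h.nn_nn_neg (rY 0).1 (rY 0).2.2.2 he.1 he.2.2.2 nY) hN' NN' (mp f hf hef).2
      (h'.nn_nn_neg (tr (rY 0)).1 (tr (rY 0)).2.2.2 he'.1 he'.2.2.2 nY) hl
      (fun i => l1 _ (hf.2.2.1 ((w.hX _).2.2.1 (hv _).1)))
    obtain ⟨i, hi⟩ := w.all {u} ⟨h.vert u, empty_subset _, singleton_subset_iff.2 huf,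
      by rw [rk_empty, rk_single h.f0]⟩
    have e2 : X ((i + m - 1) % m + 1) = {u} := by
      have a := per_mod (X := fun j => X (j + 1)) (m := m)
        (fun j => by rw [show j + m + 1 = j + 1 + m by omega, w.pX]) (i + m - 1)
      rw [a, show i + m - 1 + 1 = i + m by omega, w.pX, hi]
    have e3 : v ((i + m - 1) % m + 1) = u := mem_singleton.1 (e2 ▸ (hv _).1)
    have := this ((i + m - 1) % m) (Nat.mod_lt _ (by omega))
    rwa [e3] at this
  obtain ⟨u₀, hu₀, hu₀', hl₀⟩ : ∃ u ∈ T, u ∉ e ∧ κ' u = l * κ u := by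
    rcases l3 with c | ⟨f, hf, hef, hl⟩
    · exact c
    · obtain ⟨x, hx, hx'⟩ := exists_notMem (a := b) (S := e) (X := f)
        (by rw [he.2.2.2, hf.2.2.2]; omega)
      exact ⟨x, hf.2.2.1 hx, hx', PF f hf hef hl x hx⟩
  have all : ∀ u ∈ T, κ' u = l * κ u := by
    obtain ⟨φ, hφ⟩ := h.vert u₀
    obtain ⟨ψ, hψ⟩ := he.1
    have hφψ : FF b ∅ (φ + ψ) := by
      refine ⟨fun v => add_nonneg (hφ.1 v) (hψ.1 v), fun v => ?_⟩
      simp only [LinearMap.add_apply, notMem_empty, iff_false]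
      intro c
      rw [add_eq_zero_iff_of_nonneg (hφ.1 v) (hψ.1 v), hφ.2, hψ.2, mem_singleton] at c
      exact hu₀' (c.1 ▸ c.2)
    have key := ascend_ind hφψ hT ψ (fun v hv => absurd hv (notMem_empty v))
      (fun X => ∀ x ∈ X, κ' x = l * κ x) (by
        intro X x hX hx _ hmax y hy
        rw [rk_empty] at hX
        rw [atom_eq h.f0 h.vert hX.2.2.2 hx, mem_singleton] at hy
        have a := hmax u₀ hu₀ (notMem_empty _)
        have p := hψ.pos hu₀'
        have q := hφψ.pos (notMem_empty x)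
        simp only [LinearMap.add_apply] at a q
        rw [hφ.zero (mem_singleton_self _), zero_add, div_self p.ne', le_div_iff₀ q] at a
        have : φ (b x) = 0 := le_antisymm (by linarith) (hφ.1 x)
        rw [hy, mem_singleton.1 ((hφ.2 x).1 this)]
        exact hl₀) (by
        intro X X' Y x hX hX' hY s1 s2 _ hx _ hlt ih y hy
        rw [rk_empty] at hX hX' hY
        rw [atom_eq h.f0 h.vert hX.2.2.2 hx, mem_singleton] at hy
        subst hy
        obtain ⟨x', hx', -⟩ := exists_notMem (a := b) (S := ∅) (X := X')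
          (by rw [rk_empty, hX'.2.2.2]; omega)
        have a := hlt x' hx' (notMem_empty _)
        have x'e : x' ∉ e := by
          intro c
          rw [hψ.zero c, zero_div] at a
          exact absurd (div_nonneg (hψ.1 y) (hφψ.1 y)) (not_le.2 a)
        obtain ⟨U₁, U₂, hne, g1, g2, -⟩ := diamond hY.1 hT hY.2.2.1 (by rw [hY.2.2.2]; omega)
        rw [hY.2.2.2] at g1 g2
        have : ∃ f, Lv b Y T 3 f ∧ ¬e ⊆ f := by
          by_contra c
          push Not at c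
          have f := g1.1.inter g2.1
          have r1 := f.rk_lt (lt_of_le_of_ne inter_subset_left fun c' => hne
            (g1.1.eq_of_rk (inter_eq_left.1 c') (by rw [g1.2.2.2, g2.2.2.2])))
          have r2 := he.1.eq_of_rk (subset_inter (c _ g1) (c _ g2))
            (by rw [g1.2.2.2] at r1; rw [he.2.2.2]; omega)
          exact x'e (r2 ▸ mem_inter.2 ⟨g1.2.1 (s2 hx'), g2.2.1 (s2 hx')⟩)
        obtain ⟨f, hf, hef⟩ := this
        have hf' := hf.up (empty_subset _)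
        exact PF f hf' hef (PV x' (hX'.2.2.1 hx') x'e (ih x' hx') f hf' (hf.2.1 (s2 hx'))) y
          (hf.2.1 (s1 hx)))
    intro u hu
    exact key {u} ⟨h.vert u, empty_subset _, singleton_subset_iff.2 hu,
      by rw [rk_empty, rk_single h.f0]⟩ u (mem_singleton_self u)
  have l1 : l = 1 := by
    obtain ⟨f, f1, f2, f3, f4⟩ := he.1.exists_rk hT he.2.2.1 1 (by rw [he.2.2.2]; omega)
    rw [he.2.2.2] at f4
    have hf : Lv b ∅ T 3 f := ⟨f1, empty_subset _, f3, f4⟩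
    obtain ⟨X₀, x1, x2, x3, x4⟩ := h.f0.exists_rk he.1 (empty_subset _) 1
      (by rw [he.2.2.2, rk_empty]; omega)
    obtain ⟨m, X, Y, w, -, wY⟩ := exists_poly h.f0 f1 (by rw [rk_empty, f4])
      ⟨x1, x2, x3.trans f2, x4⟩ (by rw [rk_empty]; exact he.low f2) x3
    have m3 := w.m3
    have w' := w.transfer hF h.f0
    obtain ⟨v, hv⟩ := w.exists_rep
    have xs : ∀ i, X i = {v i} := fun i =>
      atom_eq h.f0 h.vert (by rw [(w.hX i).2.2.2, rk_empty]) (hv i).1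
    have vm : v (m - 1 + 1) = v 0 := by
      apply singleton_injective
      show ({v (m - 1 + 1)} : Finset V) = {v 0}
      rw [← xs, ← xs, show m - 1 + 1 = 0 + m by omega, w.pX]
    have v01 : v 1 ≠ v 0 := fun c => w.nX 0 (by rw [xs, xs, zero_add, c])
    have y0 : Y 0 = {v 1, v 0} := by
      obtain ⟨z, hz, e1⟩ := edge_eq h.f0 h.vert he.1 he.2.2.2 (wY ▸ w.s2 0 (hv 1).1)
      have : v 0 ∈ e := wY ▸ w.s1 0 (hv 0).1
      rw [e1, mem_insert, mem_singleton] at this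
      rw [wY, e1, this.resolve_left v01.symm]
    have c1 := (h.ring_face hr f3 w (fun i => (hv i).1) (hν f hf)).chain (by
      simp only [vm, y0, nn, sum_pair v01]; simp)
    have c2 := (h'.ring_face hr' f3 w' (fun i => (hv i).1) (hν' f (tr hf))).chain (by
      simp only [vm, y0, nn, sum_pair v01]; simp)
    simp only [wY] at c1 c2
    have c3 : ∀ k ∈ range (m - 2), 2 / LB (-b' (v (k + 1 + 1))) N' =
        l⁻¹ * (2 / LB (-b (v (k + 1 + 1))) N) := by
      intro k _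
      have := all (v (k + 1 + 1)) (f3 ((w.hX _).2.2.1 (hv _).1))
      simp only [κ, κ'] at this
      rw [this]; ring
    rw [sum_congr rfl c3, ← mul_sum, c1, mul_one] at c2
    exact inv_eq_one.1 c2
  intro u hu
  have := all u hu
  simp only [κ, κ', l1, one_mul, map_neg, LinearMap.neg_apply, neg_inj] at this
  rw [LB_comm, this, LB_comm]

theorem kat (h : ES b) (h' : ES b') (hF : ∀ S, Face b S ↔ Face b' S) {T : Finset V}
    (hT : Face b T) (hr : rk b T = 4) :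
    ∀ u ∈ T, ∀ v ∈ T, LB (b' u) (b' v) = LB (b u) (b v) := by
  intro u hu v hv
  have lv : ∀ v ∈ T, Lv b ∅ T (rk b ∅ + 1) {v} := fun v hv =>
    ⟨h.vert v, empty_subset _, singleton_subset_iff.2 hv, by rw [rk_empty, rk_single h.f0]⟩
  rw [LB_comm, LB_comm (b u)]
  refine conn h.f0 hT (fun X => ∀ x ∈ X, LB (b' x) (b' u) = LB (b x) (b u)) (lv u hu)
    (fun x hx => by rw [mem_singleton.1 hx, h.unit, h'.unit]) ?_ {v} (lv v hv) v
    (mem_singleton_self v)
  intro X X' Y hX hX' hY s1 s2 hne ih x hx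
  rw [rk_empty] at hX hX' hY
  obtain ⟨x', hx', -⟩ := exists_notMem (a := b) (S := ∅) (X := X')
    (by rw [rk_empty, hX'.2.2.2]; omega)
  obtain ⟨z, hz, e1⟩ := edge_eq h.f0 h.vert hY.1 hY.2.2.2 (s1 hx)
  have a : x' ∈ Y := s2 hx'
  rw [e1, mem_insert, mem_singleton] at a
  have a' : x' = z := a.resolve_left fun c => hne (by
    rw [atom_eq h.f0 h.vert hX.2.2.2 hx, atom_eq h.f0 h.vert hX'.2.2.2 hx', c])
  have := kat_edge h h' hF hT hr hY u hu
  rw [e1] at this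
  simp only [nn, sum_pair hz.symm, map_add, LinearMap.add_apply] at this
  have := ih x' hx'
  rw [a'] at this
  linarith

end Pool.Agent.H783Z.MU
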