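import Pool.Agent.H783Z.MUPoly

set_option autoImplicit false
set_option linter.unusedSectionVars false
open Module Finset
open scoped RealInnerProductSpace

namespace Pool.Agent.H783Z.MU

variable {F : Type*} [NormedAddCommGroup F] [InnerProductSpace ℝ F] [FiniteDimensional ℝ F]
  {V : Type*} [Fintype V] [DecidableEq V]

/-- the Lorentz form -/
noncomputable def LB : (ℝ × F) →ₗ[ℝ] (ℝ × F) →ₗ[ℝ] ℝ :=
  LinearMap.mk₂ ℝ (fun x y => -(x.1 * y.1) + ⟪x.2, y.2⟫)
    (fun x y z => by simp [inner_add_left]; ring)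
    (fun c x y => by simp [real_inner_smul_left]; ring)
    (fun x y z => by simp [inner_add_right]; ring)
    (fun c x y => by simp [real_inner_smul_right]; ring)

lemma LB_apply (x y : ℝ × F) : LB x y = -(x.1 * y.1) + ⟪x.2, y.2⟫ := rfl

lemma LB_comm (x y : ℝ × F) : LB x y = LB y x := by
  rw [LB_apply, LB_apply, real_inner_comm, mul_comm]

lemma LB_pos {x y : ℝ × F} (hx : LB x x < 0) (hxy : LB x y = 0) (hy : y ≠ 0) : 0 < LB y y := by
  rw [LB_apply] at *
  rw [real_inner_self_eq_norm_sq] at hx ⊢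
  have h1 := abs_real_inner_le_norm x.2 y.2
  have h2 : ⟪x.2, y.2⟫ ^ 2 ≤ (‖x.2‖ * ‖y.2‖) ^ 2 := by
    rw [← sq_abs]; exact pow_le_pow_left₀ (abs_nonneg _) h1 2
  have h3 : ⟪x.2, y.2⟫ = x.1 * y.1 := by linarith
  rw [h3] at h2
  have h4 : 0 < x.1 * x.1 := by nlinarith [sq_nonneg ‖x.2‖]
  by_cases h : y.2 = 0
  · exfalso
    apply hy
    rw [h, inner_zero_right] at h3
    have : x.1 ≠ 0 := fun e => by rw [e] at h4; simp at h4
    exact Prod.ext ((mul_eq_zero.1 h3.symm).resolve_left this) h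
  · have h5 : 0 < ‖y.2‖ ^ 2 := by positivity
    by_contra hc
    push Not at hc
    nlinarith [mul_pos h5 (sub_pos.2 (by linarith : ‖x.2‖ ^ 2 < x.1 * x.1))]

/-- edge-scribed configuration -/
structure ES (b : V → ℝ × F) : Prop where
  tpos : ∀ v, 0 < (b v).1
  unit : ∀ v, LB (b v) (b v) = 1
  vert : ∀ v, Face b {v}
  edge : ∀ u v, u ≠ v → Face b {u, v} → LB (b u) (b v) = -1

lemma face_univ {E : Type*} [AddCommGroup E] [Module ℝ E] (a : V → E) : Face a univ :=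
  ⟨0, fun _ => le_rfl, fun v => by simp⟩

lemma rk_single {E : Type*} [AddCommGroup E] [Module ℝ E] [FiniteDimensional ℝ E] {a : V → E}
    (h0 : Face a ∅) (v : V) : rk a {v} = 1 := by
  unfold rk sp
  rw [coe_singleton, Set.image_singleton]
  apply finrank_span_singleton
  obtain ⟨φ, hφ⟩ := h0
  intro e
  have := hφ.pos (notMem_empty v)
  rw [e, map_zero] at this
  exact lt_irrefl _ this

lemma atom_eq {E : Type*} [AddCommGroup E] [Module ℝ E] [FiniteDimensional ℝ E] {a : V → E}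
    (h0 : Face a ∅) (hv : ∀ v, Face a {v}) {X : Finset V} (hr : rk a X = 1) {v : V}
    (hv' : v ∈ X) : X = {v} :=
  ((hv v).eq_of_rk (singleton_subset_iff.2 hv') (by rw [hr, rk_single h0])).symm

lemma edge_eq {E : Type*} [AddCommGroup E] [Module ℝ E] [FiniteDimensional ℝ E] {a : V → E}
    (h0 : Face a ∅) (hv : ∀ v, Face a {v}) {R : Finset V} (hR : Face a R) (hr : rk a R = 2)
    {u : V} (hu : u ∈ R) : ∃ w, w ≠ u ∧ R = {u, w} := by
  have lv : ∀ v ∈ R, Lv a ∅ R (rk a ∅ + 1) {v} := fun v h =>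
    ⟨hv v, empty_subset _, singleton_subset_iff.2 h, by rw [rk_empty, rk_single h0]⟩
  obtain ⟨w, hw, hw'⟩ := exists_notMem (a := a) (S := {u}) (X := R) (by rw [rk_single h0]; omega)
  rw [mem_singleton] at hw'
  refine ⟨w, hw', ?_⟩
  ext z
  simp only [mem_insert, mem_singleton]
  refine ⟨fun hz => ?_, by rintro (rfl | rfl) <;> assumption⟩
  have := two_only h0 hR (by rw [rk_empty, hr]) (lv u hu) (lv w hw) (lv z hz)
    (fun e => hw' (singleton_injective e).symm)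
  simpa using this

/-- sum of the vectors of a set (the null vector of an edge) -/
noncomputable def nn (b : V → ℝ × F) (R : Finset V) : ℝ × F := ∑ v ∈ R, b v

lemma nn_mem (b : V → ℝ × F) {R T : Finset V} (h : R ⊆ T) : nn b R ∈ sp b T :=
  Submodule.sum_mem _ fun _ hv => mem_sp (h hv)

namespace ES
variable {b : V → ℝ × F}

lemma f0 (h : ES b) : Face b ∅ :=
  ⟨LinearMap.fst ℝ ℝ F, fun v => (h.tpos v).le, fun v => by simpa using (h.tpos v).ne'⟩

lemma neg (h : ES b) {u v : V} (huv : u ≠ v) : LB (b u) (b v) < 0 := by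
  obtain ⟨φ, hφ⟩ := h.vert v
  obtain ⟨ψ, hψ⟩ := h.vert u
  have p1 := hφ.pos (v := u) (by simpa using huv)
  have p2 := hψ.pos (v := v) (by simpa using huv.symm)
  let N : ℝ := 1 + ∑ w, ψ (b w)
  have hN : ∀ w, ψ (b w) < N := fun w => by
    have := single_le_sum (f := fun w => ψ (b w)) (fun i _ => hψ.1 i) (mem_univ w)
    simp only [N]; linarith
  have hN0 : 0 < N := lt_of_le_of_lt (hψ.1 u) (hN u)
  let χ : (ℝ × F) →ₗ[ℝ] ℝ := (φ (b u))⁻¹ • φ - LB (b u) - N⁻¹ • ψ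
  have hχ : ∀ y, χ y = (φ (b u))⁻¹ * φ y - LB (b u) y - N⁻¹ * ψ y := fun y => by simp [χ]
  by_contra hc
  push Not at hc
  obtain ⟨U, u1, u2, -, u4, u5⟩ := simplex (h.vert u) (face_univ b) (subset_univ _) χ
    (fun w hw => by
      rw [mem_singleton.1 hw, hχ, h.unit, hψ.zero (mem_singleton_self u), inv_mul_cancel₀ p1.ne']
      ring) (mem_univ v) (by
      rw [hχ, hφ.zero (mem_singleton_self v)]
      have := mul_pos (inv_pos.2 hN0) p2
      linarith)
  rw [rk_single h.f0] at u4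
  obtain ⟨w, hw, rfl⟩ := edge_eq h.f0 h.vert u1 u4 (singleton_subset_iff.1 u2)
  have := u5 w (by simp) (by simpa using hw)
  rw [hχ, h.edge u w hw.symm u1] at this
  have a1 := mul_nonneg (inv_pos.2 p1).le (hφ.1 w)
  have a2 : N⁻¹ * ψ (b w) < 1 := by
    rw [inv_mul_lt_iff₀ hN0, mul_one]; exact hN w
  linarith

lemma nn_zero (h : ES b) {R : Finset V} (hR : Face b R) (hr : rk b R = 2) {x : V} (hx : x ∈ R) :
    LB (nn b R) (b x) = 0 := by
  obtain ⟨w, hw, rfl⟩ := edge_eq h.f0 h.vert hR hr hx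
  unfold nn
  rw [sum_pair hw.symm, map_add, LinearMap.add_apply, h.unit, LB_comm, h.edge x w hw.symm hR]
  ring

lemma nn_neg (h : ES b) {R : Finset V} (hr : rk b R = 2) {x : V} (hx : x ∉ R) :
    LB (nn b R) (b x) < 0 := by
  unfold nn
  rw [map_sum, LinearMap.sum_apply]
  obtain ⟨w, hw, -⟩ := exists_notMem (a := b) (S := ∅) (X := R) (by rw [rk_empty]; omega)
  exact sum_neg (fun v hv => h.neg fun e => hx (e ▸ hv)) ⟨w, hw⟩

lemma nn_nonpos (h : ES b) {R : Finset V} (hR : Face b R) (hr : rk b R = 2) (x : V) :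
    LB (nn b R) (b x) ≤ 0 := by
  by_cases hx : x ∈ R
  · exact (h.nn_zero hR hr hx).le
  · exact (h.nn_neg hr hx).le

lemma nn_nn (h : ES b) {R : Finset V} (hR : Face b R) (hr : rk b R = 2) :
    LB (nn b R) (nn b R) = 0 := by
  nth_rw 2 [nn]
  rw [map_sum]
  exact sum_eq_zero fun x hx => h.nn_zero hR hr hx

lemma nn_nn_neg (h : ES b) {R R' : Finset V} (hR : Face b R) (hr : rk b R = 2) (hR' : Face b R')
    (hr' : rk b R' = 2) (hne : R' ≠ R) : LB (nn b R) (nn b R') < 0 := by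
  nth_rw 2 [nn]
  rw [map_sum]
  have : ∃ x ∈ R', x ∉ R := by
    by_contra hc
    push Not at hc
    exact hne (hR'.eq_of_rk hc (by omega))
  obtain ⟨x, hx, hx'⟩ := this
  exact sum_neg' (fun v _ => h.nn_nonpos hR hr v) ⟨x, hx, h.nn_neg hr hx'⟩

lemma nn_fst (h : ES b) {R : Finset V} (hr : rk b R = 2) : 0 < (nn b R).1 := by
  unfold nn
  rw [Prod.fst_sum]
  obtain ⟨w, hw, -⟩ := exists_notMem (a := b) (S := ∅) (X := R) (by rw [rk_empty]; omega)
  exact sum_pos (fun v _ => h.tpos v) ⟨w, hw⟩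

lemma timelike (h : ES b) {S : Finset V} (hS : Face b S) (hr : 3 ≤ rk b S) :
    ∃ x ∈ sp b S, LB x x < 0 := by
  obtain ⟨R, h1, -, h3, h4⟩ := h.f0.exists_rk hS (empty_subset _) 2 (by rw [rk_empty]; omega)
  rw [rk_empty] at h4
  obtain ⟨z, hz, hz'⟩ := exists_notMem (a := b) (S := R) (X := S) (by omega)
  have := h.nn_neg h4 hz'
  refine ⟨nn b R - LB (nn b R) (b z) • b z,
    sub_mem (nn_mem b h3) (Submodule.smul_mem _ _ (mem_sp hz)), ?_⟩
  simp only [map_sub, map_smul, LinearMap.sub_apply, LinearMap.smul_apply, smul_eq_mul,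
    h.nn_nn h1 h4, h.unit, LB_comm (b z) (nn b R)]
  nlinarith

lemma pos_of_perp (h : ES b) {S : Finset V} (hS : Face b S) (hr : 3 ≤ rk b S) {y : ℝ × F}
    (hy : ∀ v ∈ S, LB y (b v) = 0) (hy0 : y ≠ 0) : 0 < LB y y := by
  obtain ⟨x, hx, hx'⟩ := h.timelike hS hr
  exact LB_pos hx' (by rw [LB_comm]; exact van hy hx) hy0

lemma nondeg (h : ES b) {S : Finset V} (hS : Face b S) (hr : 3 ≤ rk b S) {y : ℝ × F}
    (hy : y ∈ sp b S) (hy' : ∀ v ∈ S, LB y (b v) = 0) : y = 0 := by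
  by_contra hc
  have := h.pos_of_perp hS hr hy' hc
  rw [van hy' hy] at this
  exact lt_irrefl _ this

lemma rep (h : ES b) {S : Finset V} (hS : Face b S) (hr : 3 ≤ rk b S) (φ : (ℝ × F) →ₗ[ℝ] ℝ) :
    ∃ ν ∈ sp b S, ∀ y ∈ sp b S, LB ν y = φ y := by
  let L : sp b S →ₗ[ℝ] Dual ℝ (sp b S) := LB.domRestrict₁₂ (sp b S) (sp b S)
  have hi : Function.Injective L := by
    rw [injective_iff_map_eq_zero]
    intro y hy
    exact Subtype.ext (h.nondeg hS hr y.2 fun v hv =>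
      LinearMap.congr_fun hy ⟨b v, mem_sp hv⟩)
  obtain ⟨ν, hν⟩ := (LinearMap.injective_iff_surjective_of_finrank_eq_finrank
    Subspace.dual_finrank_eq.symm).1 hi (φ.domRestrict _)
  exact ⟨ν, ν.2, fun y hy => LinearMap.congr_fun hν ⟨y, hy⟩⟩

lemma normal (h : ES b) {T f : Finset V} (hT : Face b T) (hf : Face b f) (hs : f ⊆ T)
    (hr : 3 ≤ rk b f) (hr' : rk b f < rk b T) : ∃ ν ∈ sp b T, LB ν ν = 1 ∧
      (∀ v ∈ f, LB ν (b v) = 0) ∧ ∀ v ∈ T, v ∉ f → 0 < LB ν (b v) := by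
  obtain ⟨φ, hφ⟩ := hf
  obtain ⟨ν, h1, h2⟩ := h.rep hT (by omega) φ
  have z : ∀ v ∈ f, LB ν (b v) = 0 := fun v hv => by rw [h2 _ (mem_sp (hs hv)), hφ.zero hv]
  have p : ∀ v ∈ T, v ∉ f → 0 < LB ν (b v) := fun v hv hv' => by
    rw [h2 _ (mem_sp hv)]; exact hφ.pos hv'
  obtain ⟨x, hx, hx'⟩ := exists_notMem hr'
  have n0 : ν ≠ 0 := by
    rintro rfl
    have := p x hx hx'
    simp at this
  have q := h.pos_of_perp ⟨φ, hφ⟩ hr z n0
  have q' := Real.sqrt_pos.2 q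
  refine ⟨(√(LB ν ν))⁻¹ • ν, Submodule.smul_mem _ _ h1, ?_, fun v hv => ?_, fun v hv hv' => ?_⟩
  · simp only [map_smul, LinearMap.smul_apply, smul_eq_mul]
    have := Real.mul_self_sqrt q.le
    field_simp
    linarith
  · simp [z v hv]
  · simp only [map_smul, LinearMap.smul_apply, smul_eq_mul]
    exact mul_pos (inv_pos.2 q') (p v hv hv')

end ES

lemma parseval {W : Submodule ℝ (ℝ × F)} (hW : finrank ℝ W = 4) {x n e o : ℝ × F} (hx : x ∈ W)
    (hn : n ∈ W) (he : e ∈ W) (ho : o ∈ W) (xx : LB x x = -1) (xn : LB x n = -1) (xe : LB x e = 0)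
    (xo : LB x o = 0) (nn : LB n n = 0) (ne : LB n e = 0) (no : LB n o = 0) (ee : LB e e = 1)
    (eo : LB e o = 0) (oo : LB o o = 1) {y : ℝ × F} (hy : y ∈ W) (yo : LB o y = 0) (z : ℝ × F) :
    LB y z = -(LB n y * LB x z) - (LB x y - LB n y) * LB n z + LB e y * LB e z := by
  let L : W →ₗ[ℝ] ℝ × ℝ × ℝ × ℝ :=
    ((LB x).prod ((LB n).prod ((LB e).prod (LB o)))) ∘ₗ W.subtype
  have hL : ∀ y : W, L y = (LB x y, LB n y, LB e y, LB o y) := fun y => rfl
  have hs : Function.Surjective L := by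
    rintro ⟨p, q, r, t⟩
    refine ⟨⟨(-q) • x + (q - p) • n + r • e + t • o, add_mem (add_mem (add_mem
      (W.smul_mem _ hx) (W.smul_mem _ hn)) (W.smul_mem _ he)) (W.smul_mem _ ho)⟩, ?_⟩
    rw [hL]
    simp only [map_add, map_smul, smul_eq_mul, xx, xn, xe, xo, nn, ne, no, ee, eo, oo,
      LB_comm n x, LB_comm e x, LB_comm o x, LB_comm e n, LB_comm o n, LB_comm o e]
    simp
  have hi := (LinearMap.injective_iff_surjective_of_finrank_eq_finrank
    (by rw [hW]; simp)).2 hs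
  have : y = (-LB n y) • x + (LB n y - LB x y) • n + LB e y • e := by
    have h1 : (⟨y, hy⟩ : W) = ⟨(-LB n y) • x + (LB n y - LB x y) • n + LB e y • e,
        add_mem (add_mem (W.smul_mem _ hx) (W.smul_mem _ hn)) (W.smul_mem _ he)⟩ := by
      apply hi
      rw [hL, hL]
      simp only [map_add, map_smul, smul_eq_mul, xx, xn, xe, xo, nn, ne, no, ee, eo, oo,
        LB_comm n x, LB_comm e x, LB_comm o x, LB_comm e n, LB_comm o n, LB_comm o e, yo]
      simp
    exact congrArg Subtype.val h1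
  nth_rw 1 [this]
  simp only [map_add, map_smul, LinearMap.add_apply, LinearMap.smul_apply, smul_eq_mul]
  ring

end Pool.Agent.H783Z.MU
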