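import Pool.Agent.H783Z.MUFace

set_option autoImplicit false
set_option linter.unusedSectionVars false
open Module

namespace Pool.Agent.H783Z.MU

variable {E : Type*} [AddCommGroup E] [Module ℝ E] [FiniteDimensional ℝ E]
  {V : Type*} [Fintype V] [DecidableEq V] {a : V → E}

def D3 (f : Fin 3 → E →ₗ[ℝ] ℝ) (x y z : E) : ℝ :=
  f 0 x * (f 1 y * f 2 z - f 2 y * f 1 z) - f 1 x * (f 0 y * f 2 z - f 2 y * f 0 z) +
    f 2 x * (f 0 y * f 1 z - f 1 y * f 0 z)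

lemma D3_cyc (f : Fin 3 → E →ₗ[ℝ] ℝ) (x y z : E) : D3 f x y z = D3 f y z x := by
  unfold D3; ring

lemma D3_swap (f : Fin 3 → E →ₗ[ℝ] ℝ) (x y z : E) : D3 f x y z = -D3 f x z y := by
  unfold D3; ring

lemma D3_gp (f : Fin 3 → E →ₗ[ℝ] ℝ) (x y j k n : E) :
    D3 f x y j * D3 f x k n - D3 f x y k * D3 f x j n + D3 f x y n * D3 f x j k = 0 := by
  unfold D3; ring

structure Crd (a : V → E) (S T : Finset V) (f : Fin 3 → E →ₗ[ℝ] ℝ) : Prop where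
  van : ∀ i, ∀ y ∈ sp a S, f i y = 0
  inj : ∀ y ∈ sp a T, (∀ i, f i y = 0) → y ∈ sp a S
  nz : ∃ x ∈ sp a T, ∃ y ∈ sp a T, ∃ z ∈ sp a T, D3 f x y z ≠ 0

lemma Crd.cramer {S T : Finset V} {f : Fin 3 → E →ₗ[ℝ] ℝ} (h : Crd a S T f) {w x y z : E}
    (hw : w ∈ sp a T) (hx : x ∈ sp a T) (hy : y ∈ sp a T) (hz : z ∈ sp a T) :
    D3 f x y z • w - D3 f w y z • x - D3 f x w z • y - D3 f x y w • z ∈ sp a S := by
  apply h.inj
  · exact sub_mem (sub_mem (sub_mem (Submodule.smul_mem _ _ hw) (Submodule.smul_mem _ _ hx))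
      (Submodule.smul_mem _ _ hy)) (Submodule.smul_mem _ _ hz)
  · intro i
    simp only [map_sub, map_smul, smul_eq_mul]
    fin_cases i <;> simp [D3] <;> ring

lemma notMem_of_ne {S T X X' : Finset V} (hS : Face a S) (hX : Lv a S T (rk a S + 1) X)
    (hX' : Lv a S T (rk a S + 1) X') (hne : X' ≠ X) {x' : V} (hx : x' ∈ X') (hx' : x' ∉ S) :
    x' ∉ X := fun h => hne (hX'.1.eq_of_rk
      (atom_sub hS hX'.1 hX.1 hX'.2.1 hX.2.1 hX'.2.2.2 hx hx' h) (by rw [hX.2.2.2, hX'.2.2.2]))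

lemma decomp2 {S T X X' Y : Finset V} (hS : Face a S) (hX : Lv a S T (rk a S + 1) X)
    (hX' : Lv a S T (rk a S + 1) X') (hY : Lv a S T (rk a S + 2) Y) (h1 : X ⊆ Y) (h2 : X' ⊆ Y)
    (hne : X' ≠ X) {x x' : V} (hx : x ∈ X) (hxS : x ∉ S) (hx' : x' ∈ X') (hxS' : x' ∉ S)
    {w : E} (hw : w ∈ sp a Y) : ∃ α β : ℝ, w - β • a x' - α • a x ∈ sp a S := by
  obtain ⟨β, hβ⟩ := rel1 hX.1 h1 (by rw [hY.2.2.2, hX.2.2.2]) (h2 hx')
    (notMem_of_ne hS hX hX' hne hx' hxS') hw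
  obtain ⟨α, hα⟩ := rel1 hS hX.2.1 hX.2.2.2 hx hxS hβ
  exact ⟨α, β, hα⟩

section edge
variable {S T X X' Y : Finset V} {f : Fin 3 → E →ₗ[ℝ] ℝ} {x x' : V}

lemma edge_zero (hf : Crd a S T f) (hS : Face a S) (hX : Lv a S T (rk a S + 1) X)
    (hX' : Lv a S T (rk a S + 1) X') (hY : Lv a S T (rk a S + 2) Y) (h1 : X ⊆ Y) (h2 : X' ⊆ Y)
    (hne : X' ≠ X) (hx : x ∈ X) (hxS : x ∉ S) (hx' : x' ∈ X') (hxS' : x' ∉ S)
    {w : E} (hw : w ∈ sp a Y) : D3 f (a x) (a x') w = 0 := by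
  obtain ⟨α, β, h⟩ := decomp2 hS hX hX' hY h1 h2 hne hx hxS hx' hxS' hw
  have e : ∀ i, f i w = α * f i (a x) + β * f i (a x') := fun i => by
    have := hf.van i _ h
    simp only [map_sub, map_smul, smul_eq_mul] at this
    linarith
  unfold D3
  rw [e, e, e]; ring

lemma edge_ne (hf : Crd a S T f) (hS : Face a S) (hr : rk a T = rk a S + 3)
    (hX : Lv a S T (rk a S + 1) X)
    (hX' : Lv a S T (rk a S + 1) X') (hY : Lv a S T (rk a S + 2) Y) (h1 : X ⊆ Y) (h2 : X' ⊆ Y)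
    (hne : X' ≠ X) (hx : x ∈ X) (hxS : x ∉ S) (hx' : x' ∈ X') (hxS' : x' ∉ S)
    {z : V} (hz : z ∈ T) (hz' : z ∉ Y) : D3 f (a x) (a x') (a z) ≠ 0 := by
  have key : ∀ u ∈ sp a T, ∃ α β γ : ℝ, ∀ i,
      f i u = α * f i (a x) + β * f i (a x') + γ * f i (a z) := by
    intro u hu
    obtain ⟨γ, hγ⟩ := rel1 hY.1 hY.2.2.1 (by rw [hr, hY.2.2.2]) hz hz' hu
    obtain ⟨α, β, h⟩ := decomp2 hS hX hX' hY h1 h2 hne hx hxS hx' hxS' hγ
    refine ⟨α, β, γ, fun i => ?_⟩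
    have := hf.van i _ h
    simp only [map_sub, map_smul, smul_eq_mul] at this
    linarith
  obtain ⟨u0, h0, u1, h1', u2, h2', hne⟩ := hf.nz
  obtain ⟨α0, β0, γ0, e0⟩ := key u0 h0
  obtain ⟨α1, β1, γ1, e1⟩ := key u1 h1'
  obtain ⟨α2, β2, γ2, e2⟩ := key u2 h2'
  intro h
  apply hne
  have : D3 f u0 u1 u2 = (α0 * (β1 * γ2 - γ1 * β2) - β0 * (α1 * γ2 - γ1 * α2) +
      γ0 * (α1 * β2 - β1 * α2)) * D3 f (a x) (a x') (a z) := by
    unfold D3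
    simp only [e0, e1, e2]; ring
  rw [this, h, mul_zero]

lemma edge_pos (hf : Crd a S T f) (hS : Face a S) (hr : rk a T = rk a S + 3)
    (hX : Lv a S T (rk a S + 1) X)
    (hX' : Lv a S T (rk a S + 1) X') (hY : Lv a S T (rk a S + 2) Y) (h1 : X ⊆ Y) (h2 : X' ⊆ Y)
    (hne : X' ≠ X) (hx : x ∈ X) (hxS : x ∉ S) (hx' : x' ∈ X') (hxS' : x' ∉ S)
    {z z' : V} (hz : z ∈ T) (hzY : z ∉ Y) (hz' : z' ∈ T) (hzY' : z' ∉ Y)
    (h : 0 < D3 f (a x) (a x') (a z)) : 0 < D3 f (a x) (a x') (a z') := by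
  obtain ⟨l, hl, hl'⟩ := rel1' hY.1 hY.2.2.1 (by rw [hr, hY.2.2.2]) hz hzY hz' hzY'
  have := edge_zero hf hS hX hX' hY h1 h2 hne hx hxS hx' hxS' hl'
  have e : D3 f (a x) (a x') (a z' - l • a z) =
      D3 f (a x) (a x') (a z') - l * D3 f (a x) (a x') (a z) := by
    unfold D3; simp only [map_sub, map_smul, smul_eq_mul]; ring
  rw [e] at this
  nlinarith

end edge

structure Walk (a : V → E) (S T : Finset V) (X Y : ℕ → Finset V) : Prop where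
  fS : Face a S
  fT : Face a T
  r3 : rk a T = rk a S + 3
  hX : ∀ i, Lv a S T (rk a S + 1) (X i)
  hY : ∀ i, Lv a S T (rk a S + 2) (Y i)
  s1 : ∀ i, X i ⊆ Y i
  s2 : ∀ i, X (i + 1) ⊆ Y i
  nX : ∀ i, X (i + 1) ≠ X i
  nY : ∀ i, Y (i + 1) ≠ Y i

lemma Lv.low {S T Y X : Finset V} {k : ℕ} (h : Lv a S T k X) (hY : X ⊆ Y) : Lv a S Y k X :=
  ⟨h.1, h.2.1, hY, h.2.2.2⟩

lemma Lv.up {S T Y X : Finset V} {k : ℕ} (h : Lv a S T k X) (hY : Y ⊆ X) : Lv a Y T k X :=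
  ⟨h.1, hY, h.2.2.1, h.2.2.2⟩

namespace Walk
variable {S T : Finset V} {X Y : ℕ → Finset V}

lemma atoms_in (w : Walk a S T X Y) (i : ℕ) {Z : Finset V} (hZ : Lv a S T (rk a S + 1) Z)
    (h : Z ⊆ Y i) : Z = X i ∨ Z = X (i + 1) :=
  two_only w.fS (w.hY i).1 (w.hY i).2.2.2 ((w.hX i).low (w.s1 i)) ((w.hX (i + 1)).low (w.s2 i))
    (hZ.low h) (w.nX i).symm

lemma coatoms_at (w : Walk a S T X Y) (i : ℕ) {Z : Finset V} (hZ : Lv a S T (rk a S + 2) Z)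
    (h : X (i + 1) ⊆ Z) : Z = Y i ∨ Z = Y (i + 1) := by
  have e : rk a S + 2 = rk a (X (i + 1)) + 1 := by rw [(w.hX _).2.2.2]
  exact two_only (w.hX (i + 1)).1 w.fT (by rw [w.r3, (w.hX _).2.2.2])
    (e ▸ (w.hY i).up (w.s2 i)) (e ▸ (w.hY (i + 1)).up (w.s1 (i + 1))) (e ▸ hZ.up h) (w.nY i).symm

lemma notMem (w : Walk a S T X Y) (i : ℕ) {Z : Finset V} (hZ : Lv a S T (rk a S + 1) Z)
    (h1 : Z ≠ X i) (h2 : Z ≠ X (i + 1)) {z : V} (hz : z ∈ Z) (hz' : z ∉ S) : z ∉ Y i := by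
  intro h
  have := atom_sub w.fS hZ.1 (w.hY i).1 hZ.2.1 (w.hY i).2.1 hZ.2.2.2 hz hz' h
  rcases w.atoms_in i hZ this with e | e
  · exact h1 e
  · exact h2 e

lemma coatom_eq (w : Walk a S T X Y) (i : ℕ) {Z : Finset V} (hZ : Lv a S T (rk a S + 2) Z)
    (h1 : X i ⊆ Z) (h2 : X (i + 1) ⊆ Z) : Z = Y i := by
  have f := hZ.1.inter (w.hY i).1
  have h3 : X i ⊂ Z ∩ Y i := by
    refine lt_of_le_of_ne (Finset.subset_inter h1 (w.s1 i)) fun e => w.nX i ?_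
    have h4 : X (i + 1) ⊆ X i := e ▸ Finset.subset_inter h2 (w.s2 i)
    exact (w.hX _).1.eq_of_rk h4 (by rw [(w.hX _).2.2.2, (w.hX _).2.2.2])
  have h5 := (w.hX i).1.rk_lt h3
  rw [(w.hX i).2.2.2] at h5
  have e1 := f.eq_of_rk Finset.inter_subset_left (by rw [hZ.2.2.2]; omega)
  have e2 := f.eq_of_rk Finset.inter_subset_right (by rw [(w.hY i).2.2.2]; omega)
  exact e1.symm.trans e2

lemma n2 (w : Walk a S T X Y) (i : ℕ) : X (i + 2) ≠ X i := by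
  intro e
  exact w.nY i (w.coatom_eq i (w.hY (i + 1)) (e ▸ w.s2 (i + 1)) (w.s1 (i + 1)))

lemma exists_rep (w : Walk a S T X Y) : ∃ r : ℕ → V, ∀ i, r i ∈ X i ∧ r i ∉ S := by
  have : ∀ i, ∃ x, x ∈ X i ∧ x ∉ S := fun i =>
    exists_notMem (a := a) (by rw [(w.hX i).2.2.2]; omega)
  choose r hr using this
  exact ⟨r, hr⟩

lemma exists_crd (w : Walk a S T X Y) {r : ℕ → V} (hr : ∀ i, r i ∈ X i ∧ r i ∉ S) :
    ∃ f, Crd a S T f ∧ 0 < D3 f (a (r 0)) (a (r 1)) (a (r 2)) := by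
  obtain ⟨f0, h0⟩ := w.fS
  obtain ⟨f1, h1⟩ := (w.hX 0).1
  obtain ⟨f2, h2⟩ := (w.hY 0).1
  have n1 : r 1 ∉ X 0 := notMem_of_ne w.fS (w.hX 0) (w.hX 1) (w.nX 0) (hr 1).1 (hr 1).2
  have n2 : r 2 ∉ Y 0 := w.notMem 0 (w.hX 2) (w.n2 0) (w.nX 1) (hr 2).1 (hr 2).2
  have p0 := h0.pos (hr 0).2
  have p1 := h1.pos n1
  have p2 := h2.pos n2
  have hD : 0 < D3 ![f0, f1, f2] (a (r 0)) (a (r 1)) (a (r 2)) := by
    unfold D3
    simp only [Matrix.cons_val_zero, Matrix.cons_val_one, Matrix.cons_val,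
      h1.zero (hr 0).1, h2.zero (w.s1 0 (hr 0).1), h2.zero (w.s2 0 (hr 1).1)]
    have := mul_pos p0 (mul_pos p1 p2)
    linarith
  refine ⟨![f0, f1, f2], ⟨?_, ?_, ?_⟩, hD⟩
  · intro i y hy
    fin_cases i
    · exact h0.van hy
    · exact h1.van (sp_mono (w.hX 0).2.1 hy)
    · exact h2.van (sp_mono (w.hY 0).2.1 hy)
  · intro y hy hz
    have z0 : f0 y = 0 := hz 0
    have z1 : f1 y = 0 := hz 1
    have z2 : f2 y = 0 := hz 2
    obtain ⟨γ, hγ⟩ := rel1 (w.hY 0).1 (w.hY 0).2.2.1 (by rw [w.r3, (w.hY 0).2.2.2])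
      ((w.hX 2).2.2.1 (hr 2).1) n2 hy
    have c2 : γ = 0 := by
      have := h2.van hγ
      simp only [map_sub, map_smul, smul_eq_mul, z2] at this
      exact (mul_eq_zero.1 (by linarith : γ * f2 (a (r 2)) = 0)).resolve_right p2.ne'
    rw [c2, zero_smul, sub_zero] at hγ
    obtain ⟨β, hβ⟩ := rel1 (w.hX 0).1 (w.s1 0) (by rw [(w.hY 0).2.2.2, (w.hX 0).2.2.2])
      (w.s2 0 (hr 1).1) n1 hγ
    have c1 : β = 0 := by
      have := h1.van hβ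
      simp only [map_sub, map_smul, smul_eq_mul, z1] at this
      exact (mul_eq_zero.1 (by linarith : β * f1 (a (r 1)) = 0)).resolve_right p1.ne'
    rw [c1, zero_smul, sub_zero] at hβ
    obtain ⟨α, hα⟩ := rel1 w.fS (w.hX 0).2.1 (w.hX 0).2.2.2 (hr 0).1 (hr 0).2 hβ
    have c0 : α = 0 := by
      have := h0.van hα
      simp only [map_sub, map_smul, smul_eq_mul, z0] at this
      exact (mul_eq_zero.1 (by linarith : α * f0 (a (r 0)) = 0)).resolve_right p0.ne'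
    rwa [c0, zero_smul, sub_zero] at hα
  · exact ⟨_, mem_sp ((w.hX 0).2.2.1 (hr 0).1), _, mem_sp ((w.hX 1).2.2.1 (hr 1).1), _,
      mem_sp ((w.hX 2).2.2.1 (hr 2).1), hD.ne'⟩

lemma pos_edge (w : Walk a S T X Y) {r : ℕ → V} (hr : ∀ i, r i ∈ X i ∧ r i ∉ S)
    {f : Fin 3 → E →ₗ[ℝ] ℝ} (hf : Crd a S T f) (h0 : 0 < D3 f (a (r 0)) (a (r 1)) (a (r 2))) :
    ∀ i, ∀ z ∈ T, z ∉ Y i → 0 < D3 f (a (r i)) (a (r (i + 1))) (a z) := by
  have hT : ∀ i, r i ∈ T := fun i => (w.hX i).2.2.1 (hr i).1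
  have n2 : ∀ i, r (i + 2) ∉ Y i := fun i =>
    w.notMem i (w.hX (i + 2)) (w.n2 i) (w.nX (i + 1)) (hr _).1 (hr _).2
  have n3 : ∀ i, r i ∉ Y (i + 1) := fun i =>
    w.notMem (i + 1) (w.hX i) (w.nX i).symm (w.n2 i).symm (hr _).1 (hr _).2
  have ep := fun i => @edge_pos E _ _ _ V _ _ a S T (X i) (X (i + 1)) (Y i) f (r i) (r (i + 1)) hf
    w.fS w.r3 (w.hX i) (w.hX (i + 1)) (w.hY i) (w.s1 i) (w.s2 i) (w.nX i) (hr i).1 (hr i).2
    (hr (i + 1)).1 (hr (i + 1)).2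
  intro i
  induction i with
  | zero => intro z hz hz'; exact ep 0 (hT 2) (n2 0) hz hz' h0
  | succ i ih =>
    intro z hz hz'
    refine ep (i + 1) (hT i) (n3 i) hz hz' ?_
    rw [← D3_cyc]
    exact ih _ (hT (i + 2)) (n2 i)

lemma D3_same (w : Walk a S T X Y) {r : ℕ → V} (hr : ∀ i, r i ∈ X i ∧ r i ∉ S)
    {f : Fin 3 → E →ₗ[ℝ] ℝ} (hf : Crd a S T f) {j k : ℕ} (e : X j = X k) :
    ∃ l : ℝ, 0 < l ∧ ∀ i, f i (a (r k)) = l * f i (a (r j)) := by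
  obtain ⟨l, hl, h⟩ := rel1' w.fS (w.hX j).2.1 (w.hX j).2.2.2 (hr j).1 (hr j).2
    (e ▸ (hr k).1) (hr k).2
  refine ⟨l, hl, fun i => ?_⟩
  have := hf.van i _ h
  simp only [map_sub, map_smul, smul_eq_mul] at this
  linarith

lemma fan (w : Walk a S T X Y) {r : ℕ → V} (hr : ∀ i, r i ∈ X i ∧ r i ∉ S)
    {f : Fin 3 → E →ₗ[ℝ] ℝ} (hf : Crd a S T f) (h0 : 0 < D3 f (a (r 0)) (a (r 1)) (a (r 2)))
    (i : ℕ) : ∀ k, (∀ l, i < l → l ≤ k → X l ≠ X i) → ∀ j, i < j → j < k →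
      0 < D3 f (a (r i)) (a (r j)) (a (r k)) := by
  have hT : ∀ i, r i ∈ T := fun i => (w.hX i).2.2.1 (hr i).1
  have pe := w.pos_edge hr hf h0
  intro k
  induction k using Nat.strong_induction_on with
  | _ k ih =>
    intro hne j hij hjk
    obtain ⟨k, rfl⟩ : ∃ k', k = k' + 1 := ⟨k - 1, by omega⟩
    have ih' := ih k (by omega) fun l h1 h2 => hne l h1 (by omega)
    have h1 : 0 < D3 f (a (r i)) (a (r k)) (a (r (k + 1))) := by
      rw [D3_cyc]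
      exact pe k _ (hT i) (w.notMem k (w.hX i) (hne k (by omega) (by omega)).symm
        (hne (k + 1) (by omega) le_rfl).symm (hr i).1 (hr i).2)
    by_cases hjk' : j = k
    · rw [hjk']; exact h1
    have h2 := ih' (i + 1) (by omega) (by omega)
    have h3 : 0 < D3 f (a (r i)) (a (r (i + 1))) (a (r (k + 1))) := by
      refine pe i _ (hT _) (w.notMem i (w.hX _) (hne _ (by omega) le_rfl) ?_ (hr _).1 (hr _).2)
      intro e
      obtain ⟨l, hl, h⟩ := w.D3_same hr hf e.symm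
      have : D3 f (a (r i)) (a (r k)) (a (r (k + 1))) =
          -(l * D3 f (a (r i)) (a (r (i + 1))) (a (r k))) := by
        unfold D3; simp only [h]; ring
      nlinarith [mul_pos hl h2]
    by_cases hj : j = i + 1
    · rw [hj]; exact h3
    have h4 := ih' j hij (by omega)
    have h5 : 0 < D3 f (a (r i)) (a (r (i + 1))) (a (r j)) :=
      ih j (by omega) (fun l h1 h2 => hne l h1 (by omega)) (i + 1) (by omega) (by omega)
    have gp := D3_gp f (a (r i)) (a (r (i + 1))) (a (r j)) (a (r k)) (a (r (k + 1)))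
    by_contra hc
    push Not at hc
    nlinarith [mul_pos h5 h1, mul_pos h3 h4, mul_nonneg h2.le (neg_nonneg.2 hc)]

lemma inj_of (w : Walk a S T X Y) (i k : ℕ) (h : ∀ l, i < l → l ≤ k → X l ≠ X i) (j : ℕ)
    (hij : i < j) (hjk : j < k) : X j ≠ X k := by
  obtain ⟨r, hr⟩ := w.exists_rep
  obtain ⟨f, hf, h0⟩ := w.exists_crd hr
  have := w.fan hr hf h0 i k h j hij hjk
  intro e
  obtain ⟨l, hl, h⟩ := w.D3_same hr hf e
  have e2 : D3 f (a (r i)) (a (r j)) (a (r k)) = 0 := by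
    unfold D3; simp only [h]; ring
  linarith

lemma exists_return (w : Walk a S T X Y) : ∃ l, 0 < l ∧ X l = X 0 := by
  by_contra hc
  push Not at hc
  have : Function.Injective fun n : ℕ => X (n + 1) := by
    intro j k e
    by_contra hne
    rcases lt_or_gt_of_ne hne with h | h
    · exact w.inj_of 0 (k + 1) (fun l h1 _ => hc l h1) (j + 1) (by omega) (by omega) e
    · exact w.inj_of 0 (j + 1) (fun l h1 _ => hc l h1) (k + 1) (by omega) (by omega) e.symm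
  exact not_injective_infinite_finite _ this

end Walk

structure Poly (a : V → E) (S T : Finset V) (m : ℕ) (X Y : ℕ → Finset V) : Prop
    extends Walk a S T X Y where
  m3 : 3 ≤ m
  pX : ∀ i, X (i + m) = X i
  pY : ∀ i, Y (i + m) = Y i
  inj : ∀ i j, i < j → j < i + m → X j ≠ X i
  all : ∀ Z, Lv a S T (rk a S + 1) Z → ∃ i, Z = X i

lemma per_mod {α : Type*} {X : ℕ → α} {m : ℕ} (h : ∀ i, X (i + m) = X i) (i : ℕ) :
    X (i % m) = X i := Function.Periodic.map_mod_nat h i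

lemma Walk.poly {S T : Finset V} {X Y : ℕ → Finset V} (w : Walk a S T X Y) :
    ∃ m, Poly a S T m X Y := by
  classical
  let m := Nat.find w.exists_return
  have hm : 0 < m ∧ X m = X 0 := Nat.find_spec w.exists_return
  have hmin : ∀ l, 0 < l → l < m → X l ≠ X 0 := fun l h1 h2 e =>
    Nat.find_min w.exists_return h2 ⟨h1, e⟩
  have hinj : ∀ j k, j < k → k < m → X j ≠ X k := by
    intro j k h1 h2
    rcases Nat.eq_zero_or_pos j with rfl | hj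
    · exact (hmin k h1 h2).symm
    · exact w.inj_of 0 k (fun l a b => hmin l a (by omega)) j hj h1
  have m3 : 3 ≤ m := by
    by_contra hc
    have : m = 1 ∨ m = 2 := by omega
    rcases this with e | e
    · have := hm.2; rw [e] at this; exact w.nX 0 this
    · have := hm.2; rw [e] at this; exact w.n2 0 this
  have hY0 : Y m = Y 0 := by
    obtain ⟨n, hn⟩ : ∃ n, m = n + 1 := ⟨m - 1, by omega⟩
    have e1 : X (n + 1) = X 0 := hn ▸ hm.2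
    rcases w.coatoms_at n (w.hY 0) (e1 ▸ w.s1 0) with e | e
    · exfalso
      rcases w.atoms_in 0 (w.hX n) (e ▸ w.s1 n) with e2 | e2
      · exact w.nX n (e1.trans e2.symm)
      · exact hinj 1 n (by omega) (by omega) e2.symm
    · rw [hn, ← e]
  have hper : ∀ i, X (i + m) = X i ∧ Y (i + m) = Y i := by
    intro i
    induction i with
    | zero => rw [zero_add]; exact ⟨hm.2, hY0⟩
    | succ i ih =>
      have e : i + 1 + m = i + m + 1 := by ring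
      rw [e]
      have h1 : X (i + m + 1) = X (i + 1) := by
        rcases w.atoms_in i (w.hX (i + m + 1)) (ih.2 ▸ w.s2 (i + m)) with e2 | e2
        · exact absurd (e2.trans ih.1.symm) (w.nX (i + m))
        · exact e2
      refine ⟨h1, ?_⟩
      rcases w.coatoms_at i (w.hY (i + m + 1)) (h1 ▸ w.s1 (i + m + 1)) with e2 | e2
      · exact absurd (e2.trans ih.2.symm) (w.nY (i + m))
      · exact e2
  refine ⟨m, w, m3, fun i => (hper i).1, fun i => (hper i).2, fun i j h1 h2 e => ?_, ?_⟩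
  · rw [← per_mod (fun i => (hper i).1) i, ← per_mod (fun i => (hper i).1) j] at e
    have a1 := Nat.mod_lt i hm.1
    have a2 := Nat.mod_lt j hm.1
    have hne : i % m ≠ j % m := by
      intro e2
      have := (Nat.modEq_iff_dvd' h1.le).1 e2
      have := Nat.le_of_dvd (by omega) this
      omega
    rcases lt_or_gt_of_ne hne with h | h
    · exact hinj _ _ h a2 e.symm
    · exact hinj _ _ h a1 e
  · refine conn w.fS w.fT (fun Z => ∃ i, Z = X i) (w.hX 0) ⟨0, rfl⟩ ?_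
    rintro Z Z' W hZ - hW h1 h2 - ⟨i, rfl⟩
    obtain ⟨n, hn⟩ : ∃ n, i + m = n + 1 := ⟨i + m - 1, by omega⟩
    have e : X (n + 1) = X i := hn ▸ (hper i).1
    rcases w.coatoms_at n hW (e ▸ h2) with e2 | e2
    · rcases w.atoms_in n hZ (e2 ▸ h1) with e3 | e3
      · exact ⟨_, e3⟩
      · exact ⟨_, e3⟩
    · rcases w.atoms_in (n + 1) hZ (e2 ▸ h1) with e3 | e3
      · exact ⟨_, e3⟩
      · exact ⟨_, e3⟩

lemma exists_poly {S T X₀ Y₀ : Finset V} (hS : Face a S) (hT : Face a T)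
    (hr : rk a T = rk a S + 3) (hX : Lv a S T (rk a S + 1) X₀) (hY : Lv a S T (rk a S + 2) Y₀)
    (h : X₀ ⊆ Y₀) : ∃ m X Y, Poly a S T m X Y ∧ X 0 = X₀ ∧ Y 0 = Y₀ := by
  let St := {p : Finset V × Finset V // Lv a S T (rk a S + 1) p.1 ∧ Lv a S T (rk a S + 2) p.2 ∧
    p.1 ⊆ p.2}
  have step : ∀ p : St, ∃ q : St, q.1.1 ⊆ p.1.2 ∧ q.1.1 ≠ p.1.1 ∧ q.1.2 ≠ p.1.2 := by
    rintro ⟨⟨X, Y⟩, h1, h2, h3⟩
    obtain ⟨X', g1, g2⟩ := other hS h2.1 h2.2.2.2 (h1.low h3)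
    have e : rk a S + 2 = rk a X' + 1 := by rw [g2.2.2.2]
    obtain ⟨Y', k1, k2⟩ := other (X := Y) g2.1 hT (by rw [hr, g2.2.2.2]) (e ▸ h2.up g2.2.2.1)
    exact ⟨⟨(X', Y'), ⟨g2.1, g2.2.1, g2.2.2.1.trans h2.2.2.1, g2.2.2.2⟩,
      ⟨k2.1, g2.2.1.trans k2.2.1, k2.2.2.1, by rw [k2.2.2.2, e]⟩, k2.2.1⟩, g2.2.2.1, g1, k1⟩
  choose nx hnx using step
  let s : ℕ → St := fun n => nx^[n] ⟨(X₀, Y₀), hX, hY, h⟩
  have hs : ∀ n, s (n + 1) = nx (s n) := fun n => Function.iterate_succ_apply' _ _ _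
  have w : Walk a S T (fun n => (s n).1.1) (fun n => (s n).1.2) :=
    ⟨hS, hT, hr, fun i => (s i).2.1, fun i => (s i).2.2.1, fun i => (s i).2.2.2,
      fun i => by simp only [hs]; exact (hnx _).1, fun i => by simp only [hs]; exact (hnx _).2.1,
      fun i => by simp only [hs]; exact (hnx _).2.2⟩
  obtain ⟨m, hm⟩ := w.poly
  exact ⟨m, _, _, hm, rfl, rfl⟩

lemma exists_poly' {S T : Finset V} (hS : Face a S) (hT : Face a T) (hST : S ⊆ T)
    (hr : rk a T = rk a S + 3) : ∃ m X Y, Poly a S T m X Y := by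
  obtain ⟨X, h1, h2, h3, h4⟩ := hS.exists_rk hT hST 1 (by omega)
  obtain ⟨Y, g1, g2, g3, g4⟩ := h1.exists_rk hT h3 1 (by omega)
  obtain ⟨m, X, Y, h, -⟩ := exists_poly hS hT hr ⟨h1, h2, h3, h4⟩
    ⟨g1, h2.trans g2, g3, by omega⟩ g2
  exact ⟨m, X, Y, h⟩

namespace Poly
variable {S T : Finset V} {X Y : ℕ → Finset V} {m : ℕ}

lemma pos (w : Poly a S T m X Y) {r : ℕ → V} (hr : ∀ i, r i ∈ X i ∧ r i ∉ S) :
    ∃ f, Crd a S T f ∧ ∀ i j k, i < j → j < k → k < i + m →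
      0 < D3 f (a (r i)) (a (r j)) (a (r k)) := by
  obtain ⟨f, hf, h0⟩ := w.exists_crd hr
  exact ⟨f, hf, fun i j k h1 h2 h3 =>
    w.fan hr hf h0 i k (fun l a b => w.inj i l a (by omega)) j h1 h2⟩

lemma allY (w : Poly a S T m X Y) {Z : Finset V} (hZ : Lv a S T (rk a S + 2) Z) :
    ∃ i, Z = Y i := by
  obtain ⟨U, h1, h2, h3, h4⟩ := w.fS.exists_rk hZ.1 hZ.2.1 1 (by rw [hZ.2.2.2]; omega)
  obtain ⟨i, rfl⟩ := w.all U ⟨h1, h2, h3.trans hZ.2.2.1, h4⟩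
  have := w.m3
  obtain ⟨n, hn⟩ : ∃ n, i + m = n + 1 := ⟨i + m - 1, by omega⟩
  have e : X (n + 1) = X i := hn ▸ w.pX i
  rcases w.coatoms_at n hZ (e ▸ h3) with e2 | e2
  · exact ⟨_, e2⟩
  · exact ⟨_, e2⟩

lemma notMem' (w : Poly a S T m X Y) {i k : ℕ} (h1 : i + 1 < k) (h2 : k < i + m) {z : V}
    (hz : z ∈ X k) (hz' : z ∉ S) : z ∉ Y i :=
  w.notMem i (w.hX k) (w.inj i k (by omega) h2) (w.inj (i + 1) k h1 (by omega)) hz hz'

lemma injY (w : Poly a S T m X Y) {i j : ℕ} (h1 : i < j) (h2 : j < i + m) : Y j ≠ Y i := by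
  intro e
  obtain ⟨r, hr⟩ := w.exists_rep
  by_cases h : j = i + 1
  · exact w.nY i (h ▸ e)
  · exact w.notMem' (by omega) h2 (hr j).1 (hr j).2 (e ▸ w.s1 j (hr j).1)

/-- no alternating sign pattern of a functional vanishing on `S` -/
lemma no_alt (w : Poly a S T m X Y) {r : ℕ → V} (hr : ∀ i, r i ∈ X i ∧ r i ∉ S)
    (χ : E →ₗ[ℝ] ℝ) (hχ : ∀ v ∈ S, χ (a v) = 0) {i j k l : ℕ} (h1 : i < j) (h2 : j < k)
    (h3 : k < l) (h4 : l < i + m) (a1 : 0 < χ (a (r i))) (a2 : χ (a (r j)) < 0)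
    (a3 : 0 < χ (a (r k))) (a4 : χ (a (r l)) < 0) : False := by
  obtain ⟨f, hf, hp⟩ := w.pos hr
  have hT : ∀ i, a (r i) ∈ sp a T := fun i => mem_sp ((w.hX i).2.2.1 (hr i).1)
  have := van hχ (hf.cramer (hT i) (hT j) (hT k) (hT l))
  simp only [map_sub, map_smul, smul_eq_mul] at this
  have p1 := hp j k l h2 h3 (by omega)
  have p2 := hp i k l (by omega) h3 h4
  have p3 := hp i j l h1 (by omega) h4
  have p4 := hp i j k h1 h2 (by omega)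
  have e3 : D3 f (a (r j)) (a (r i)) (a (r l)) = -D3 f (a (r i)) (a (r j)) (a (r l)) := by
    unfold D3; ring
  have e4 : D3 f (a (r j)) (a (r k)) (a (r i)) = D3 f (a (r i)) (a (r j)) (a (r k)) := by
    unfold D3; ring
  rw [e3, e4] at this
  nlinarith [mul_pos p1 a1, mul_pos p2 (neg_pos.2 a2), mul_pos p3 a3, mul_pos p4 (neg_pos.2 a4)]

end Poly

lemma Lv.transfer {E' : Type*} [AddCommGroup E'] [Module ℝ E'] [FiniteDimensional ℝ E']
    {a' : V → E'} (h : ∀ S, Face a S ↔ Face a' S) (h0 : Face a ∅) {S T X : Finset V} {k : ℕ}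
    (hX : Lv a S T k X) : Lv a' S T k X :=
  ⟨(h X).1 hX.1, hX.2.1, hX.2.2.1, by rw [← rk_eq h h0 X hX.1]; exact hX.2.2.2⟩

lemma Poly.transfer {E' : Type*} [AddCommGroup E'] [Module ℝ E'] [FiniteDimensional ℝ E']
    {a' : V → E'} (h : ∀ S, Face a S ↔ Face a' S) (h0 : Face a ∅) {S T : Finset V} {m : ℕ}
    {X Y : ℕ → Finset V} (w : Poly a S T m X Y) : Poly a' S T m X Y := by
  have e1 := rk_eq h h0 S w.fS
  have e2 := rk_eq h h0 T w.fT
  have h' : ∀ S, Face a' S ↔ Face a S := fun S => (h S).symm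
  refine ⟨⟨(h S).1 w.fS, (h T).1 w.fT, by rw [← e1, ← e2, w.r3],
    fun i => e1 ▸ (w.hX i).transfer h h0, fun i => e1 ▸ (w.hY i).transfer h h0, w.s1, w.s2, w.nX,
    w.nY⟩, w.m3, w.pX, w.pY, w.inj, fun Z hZ => w.all Z ?_⟩
  rw [e1]
  exact hZ.transfer h' ((h ∅).1 h0)

end Pool.Agent.H783Z.MU
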