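import Pool.Agent.H783Z.MUArm
import Pool.Agent.H783Z.MUPoly

set_option autoImplicit false
set_option linter.unusedSectionVars false
open Module Finset InnerProductGeometry
open scoped RealInnerProductSpace

namespace Pool.Agent.H783Z.MU

variable {F F' : Type*} [NormedAddCommGroup F] [InnerProductSpace ℝ F]
  [NormedAddCommGroup F'] [InnerProductSpace ℝ F']
  {E : Type*} [AddCommGroup E] [Module ℝ E] [FiniteDimensional ℝ E]

lemma cone_of {w y z : F} {D p q : ℝ} (hD : 0 < D) (hp : 0 ≤ p) (hq : 0 ≤ q)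
    (h : D • w = p • y + q • z) : Cone w y z := by
  refine ⟨D⁻¹ * p, D⁻¹ * q, by positivity, by positivity, ?_⟩
  rw [mul_smul, mul_smul, ← smul_add, ← h, smul_smul, inv_mul_cancel₀ hD.ne', one_smul]

theorem planar_arm (f : Fin 3 → E →ₗ[ℝ] ℝ) (d : ℕ → E) (Ψ : E →ₗ[ℝ] F) (U : Submodule ℝ E)
    (k : ℕ) (hk : 1 ≤ k) (hU : ∀ i j, d i - d j ∈ U)
    (cr : ∀ y ∈ U, ∀ z ∈ U, ∀ w ∈ U,
      D3 f (d 0) y z • Ψ w = D3 f (d 0) w z • Ψ y + D3 f (d 0) y w • Ψ z)
    (inj : ∀ y, Ψ y = 0 → ∀ i, f i y = 0)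
    (pos : ∀ i j l, i < j → j < l → l ≤ k + 1 → 0 < D3 f (d 0) (d j - d i) (d l - d i))
    (P' : ℕ → F') (hn : ∀ i ≤ k, ‖P' (i + 1) - P' i‖ = ‖Ψ (d (i + 1) - d i)‖)
    (hi : ∀ i < k, ⟪Ψ (d (i + 1) - d i), Ψ (d (i + 2) - d (i + 1))⟫ ≤
      ⟪P' (i + 1) - P' i, P' (i + 2) - P' (i + 1)⟫) :
    ‖Ψ (d (k + 1) - d 0)‖ ≤ ‖P' (k + 1) - P' 0‖ ∧
      ((∃ i < k, ⟪Ψ (d (i + 1) - d i), Ψ (d (i + 2) - d (i + 1))⟫ <
        ⟪P' (i + 1) - P' i, P' (i + 2) - P' (i + 1)⟫) →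
        ‖Ψ (d (k + 1) - d 0)‖ < ‖P' (k + 1) - P' 0‖) := by
  classical
  let t : ℕ → E := fun l => d (l + 1) - d l
  let c : E := d (k + 1) - d 0
  let σ : ℕ → ℝ := fun l => D3 f (d 0) c (t l)
  have sw : ∀ y z, D3 f (d 0) y z = -D3 f (d 0) z y := fun y z => D3_swap _ _ _ _
  have ha : ∀ l < k, 0 < D3 f (d 0) (t l) (t (l + 1)) := by
    intro l hl
    convert pos l (l + 1) (l + 2) (by omega) (by omega) (by omega) using 1
    simp only [D3, t, map_sub]; ring
  have hb : σ 0 < 0 := by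
    have := pos 0 1 (k + 1) (by omega) (by omega) le_rfl
    rw [sw] at this
    simp only [σ, c, t, zero_add]; linarith
  have hc : 0 < σ k := by
    convert pos 0 k (k + 1) (by omega) (by omega) le_rfl using 1
    simp only [D3, σ, c, t, map_sub]; ring
  have hd : ∀ l < k, 0 ≤ σ l → 0 < σ (l + 1) := by
    intro l hl h
    have l0 : l ≠ 0 := by rintro rfl; linarith
    have p1 := pos 0 (l + 1) (k + 1) (by omega) (by omega) le_rfl
    have p2 := pos 0 l (l + 1) (by omega) (by omega) (by omega)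
    have p3 := pos 0 (l + 1) (l + 2) (by omega) (by omega) (by omega)
    have p4 := ha l hl
    have e : D3 f (d 0) (t l) (t (l + 1)) * D3 f (d 0) (d (l + 1) - d 0) (d (k + 1) - d 0) =
        -D3 f (d 0) (d (l + 1) - d 0) (d (l + 2) - d 0) * σ l +
        D3 f (d 0) (d l - d 0) (d (l + 1) - d 0) * σ (l + 1) := by
      simp only [D3, σ, c, t, map_sub]; ring
    by_contra hc
    push Not at hc
    nlinarith [mul_pos p4 p1, mul_nonneg p3.le h, mul_nonneg p2.le (neg_nonneg.2 hc)]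
  have ex : ∃ j, 0 ≤ σ (j + 1) := ⟨k - 1, by rw [show k - 1 + 1 = k by omega]; exact hc.le⟩
  set j := Nat.find ex with hj
  have j1 : 0 ≤ σ (j + 1) := Nat.find_spec ex
  have j2 : j < k := by
    have : j ≤ k - 1 := Nat.find_min' ex (by rw [show k - 1 + 1 = k by omega]; exact hc.le)
    omega
  have j3 : ∀ l ≤ j, σ l < 0 := by
    intro l hl
    rcases l with _ | l
    · exact hb
    · exact not_le.1 (Nat.find_min ex (m := l) (by omega))
  have j4 : ∀ l, j < l → l ≤ k → 0 ≤ σ l := by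
    intro l hl
    induction l, hl using Nat.le_induction with
    | base => exact fun _ => j1
    | succ l hl ih => exact fun h => (hd l h (ih (by omega))).le
  have tU : ∀ l, t l ∈ U := fun l => hU _ _
  have cU : c ∈ U := hU _ _
  have z1 : ∀ y z, Ψ y = 0 → D3 f (d 0) y z = 0 := fun y z h => by
    simp only [D3, inj y h]; ring
  have := arm (fun l => Ψ (t l)) (fun l => P' (l + 1) - P' l) k j j2 (Ψ c)
    (by rw [← map_sum, sum_range_sub]) (fun h => hb.ne (z1 _ _ h))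
    (fun l hl h => by
      by_cases e : l = k
      · have := z1 _ c h
        rw [sw, e] at this
        simp only [σ] at hc; linarith
      · exact (ha l (by omega)).ne' (z1 _ _ h)) hn hi
    (fun i h => cone_of (by rw [sw]; exact neg_pos.2 (j3 i h.le))
      (by rw [sw]; exact (neg_pos.2 (j3 (i + 1) h)).le) (ha i (by omega)).le
      (cr _ (tU i) _ cU _ (tU (i + 1))))
    (cone_of (ha j j2) j1 (by rw [sw]; exact (neg_pos.2 (j3 j le_rfl)).le)
      (cr _ (tU j) _ (tU (j + 1)) _ cU))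
    (fun h => by
      obtain ⟨-, r, -, h⟩ := angle_eq_pi_iff.1 h
      have := z1 (t (j + 1) - r • t j) (t j) (by rw [map_sub, map_smul, h, sub_self])
      have e : D3 f (d 0) (t (j + 1) - r • t j) (t j) = -D3 f (d 0) (t j) (t (j + 1)) := by
        simp only [D3, map_sub, map_smul, smul_eq_mul]; ring
      linarith [ha j j2])
    (fun i h1 h2 => cone_of (hd i h2 (j4 i h1 h2.le)) (ha i h2).le (j4 i h1 h2.le)
      (cr _ cU _ (tU (i + 1)) _ (tU i)))
  rwa [sum_range_sub] at this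

lemma alt_pos (m : ℕ) (m3 : 3 ≤ m) (s : ℕ → ℝ) (hs : ∀ i, s (i + m) = s i) (δ : ℕ → ℕ → ℝ)
    (hδ : ∀ i j, δ j (i + m) = δ i j)
    (A : ∀ i j, i < j → j < i + m → (∀ l, i < l → l < j → s l ≤ 0) → δ i j ≤ 0)
    (B : ∀ i j, i < j → j < i + m → (∀ l, i < l → l < j → 0 ≤ s l) →
      (∃ l, i < l ∧ l < j ∧ 0 < s l) → 0 < δ i j) (p : ℕ) (hp : 0 < s p) :
    ∃ i j k l, i < j ∧ j < k ∧ k < l ∧ l < i + m ∧ 0 < s i ∧ s j < 0 ∧ 0 < s k ∧ s l < 0 := by
  classical
  by_contra hc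
  have A1 : ∀ i, δ i (i + 1) ≤ 0 := fun i => A i (i + 1) (by omega) (by omega) fun l _ _ => by omega
  have hpm : 0 < s (p + m) := by rw [hs]; exact hp
  have sub : ∀ l, m ≤ l → s l = s (l - m) := fun l h => by rw [← hs (l - m), Nat.sub_add_cancel h]
  have last : ∀ z, z + 1 = p + m → (∀ l, p < l → l < z → 0 ≤ s l) → False := by
    intro z hz h
    have b := B z (z + m - 1) (by omega) (by omega) (fun l l1 l2 => by
      by_cases e : l = p + m
      · rw [e]; exact hpm.le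
      · rw [sub l (by omega)]; exact h _ (by omega) (by omega)) ⟨p + m, by omega, by omega, hpm⟩
    have a := A1 (z + m - 1)
    rw [show z + m - 1 + 1 = z + m by omega, hδ] at a
    linarith
  let Ng := (Ioo p (p + m)).filter fun l => s l < 0
  have mN : ∀ l, l ∈ Ng ↔ (p < l ∧ l < p + m) ∧ s l < 0 := fun l => by simp [Ng]
  by_cases hN : Ng.Nonempty
  swap
  · refine last (p + m - 1) (by omega) fun l l1 l2 => ?_
    by_contra h
    exact hN ⟨l, (mN l).2 ⟨⟨l1, by omega⟩, not_le.1 h⟩⟩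
  obtain ⟨a, ha, ha'⟩ := Ng.exists_min_image id hN
  obtain ⟨z, hz, hz'⟩ := Ng.exists_max_image id hN
  have az : a ≤ z := ha' z hz
  rw [mN] at ha hz
  have n1 : ∀ l, p < l → l < a → 0 ≤ s l := by
    intro l l1 l2
    by_contra h
    have := ha' l ((mN l).2 ⟨⟨l1, by omega⟩, not_le.1 h⟩)
    simp only [id] at this; omega
  have n2 : ∀ l, z < l → l < a + m → 0 ≤ s l := by
    intro l l1 l2
    rcases lt_trichotomy l (p + m) with h | h | h
    · by_contra h'
      have := hz' l ((mN l).2 ⟨⟨by omega, h⟩, not_le.1 h'⟩)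
      simp only [id] at this; omega
    · rw [h]; exact hpm.le
    · rw [sub l (by omega)]; exact n1 _ (by omega) (by omega)
  rcases lt_or_eq_of_le az with h | h
  · have a1 := A a z h (by omega) fun l l1 l2 => by
      by_contra h'
      exact hc ⟨p, a, l, z, ha.1.1, l1, l2, hz.1.2, hp, ha.2, not_le.1 h', hz.2⟩
    have b1 := B z (a + m) (by omega) (by omega) n2 ⟨p + m, by omega, by omega, hpm⟩
    rw [hδ] at b1
    linarith
  · subst h
    by_cases e : a + 1 = p + m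
    · exact last a e n1
    · have b1 := B (a + 1) (a + m) (by omega) (by omega) (fun l l1 l2 => n2 l (by omega) l2)
        ⟨p + m, by omega, by omega, hpm⟩
      rw [hδ] at b1
      linarith [A1 a]

lemma alt_of (m : ℕ) (m3 : 3 ≤ m) (s : ℕ → ℝ) (hs : ∀ i, s (i + m) = s i) (δ : ℕ → ℕ → ℝ)
    (hδ : ∀ i j, δ j (i + m) = δ i j)
    (A : ∀ i j, i < j → j < i + m → (∀ l, i < l → l < j → s l ≤ 0) → δ i j ≤ 0 ∧
      ((∃ l, i < l ∧ l < j ∧ s l < 0) → δ i j < 0))
    (B : ∀ i j, i < j → j < i + m → (∀ l, i < l → l < j → 0 ≤ s l) → 0 ≤ δ i j ∧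
      ((∃ l, i < l ∧ l < j ∧ 0 < s l) → 0 < δ i j)) (p : ℕ) (hp : s p ≠ 0) :
    ∃ i j k l, i < j ∧ j < k ∧ k < l ∧ l < i + m ∧ 0 < s i ∧ s j < 0 ∧ 0 < s k ∧ s l < 0 := by
  rcases lt_or_gt_of_ne hp with h | h
  · obtain ⟨i, j, k, l, h1, h2, h3, h4, s1, s2, s3, s4⟩ := alt_pos m m3 (fun i => -s i)
      (fun i => by rw [hs]) (fun i j => -δ i j) (fun i j => by rw [hδ])
      (fun i j a b c => neg_nonpos.2 (B i j a b fun l x y => neg_nonpos.1 (c l x y)).1)
      (fun i j a b c ⟨l, x, y, z⟩ => neg_pos.2 ((A i j a b fun l x y =>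
        neg_nonneg.1 (c l x y)).2 ⟨l, x, y, neg_pos.1 z⟩)) p (neg_pos.2 h)
    exact ⟨j, k, l, i + m, h2, h3, h4, by omega, neg_neg_iff_pos.1 s2, neg_pos.1 s3,
      neg_neg_iff_pos.1 s4, by rw [hs]; exact neg_pos.1 s1⟩
  · exact alt_pos m m3 s hs δ hδ (fun i j a b c => (A i j a b c).1)
      (fun i j a b c => (B i j a b c).2) p h

variable {V : Type*} [Fintype V] [DecidableEq V] {a : V → E}

lemma facet_conn {T : Finset V} (hT : Face a T) {r : ℕ} (hr : rk a T = r + 1)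
    (Rel : Finset V → Finset V → Prop) (refl : ∀ X, Rel X X)
    (trans : ∀ X Y Z, Rel X Y → Rel Y Z → Rel X Z)
    (adj : ∀ R X Y, Face a R → rk a R + 1 = r → Lv a R T r X → Lv a R T r Y → X ≠ Y → Rel X Y) :
    ∀ k S, Face a S → rk a S + k = r → ∀ X Y, Lv a S T r X → Lv a S T r Y → Rel X Y := by
  intro k
  induction k with
  | zero =>
    intro S hS e X Y hX hY
    rw [← hS.eq_of_rk hX.2.1 (by rw [hX.2.2.2]; omega), ← hS.eq_of_rk hY.2.1
      (by rw [hY.2.2.2]; omega)]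
    exact refl _
  | succ k ih =>
    intro S hS e X Y hX hY
    rcases k with _ | k
    · by_cases c : X = Y
      · rw [c]; exact refl _
      · exact adj S X Y hS e hX hY c
    obtain ⟨X₀, a1, a2, a3, a4⟩ := hS.exists_rk hX.1 hX.2.1 1 (by rw [hX.2.2.2]; omega)
    obtain ⟨Y₀, b1, b2, b3, b4⟩ := hS.exists_rk hY.1 hY.2.1 1 (by rw [hY.2.2.2]; omega)
    refine conn hS hT (fun Z => ∀ W, Lv a Z T r W → Rel X W) ⟨a1, a2, a3.trans hX.2.2.1, a4⟩
      (fun W hW => ih X₀ a1 (by omega) X W (hX.up a3) hW) ?_ Y₀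
      ⟨b1, b2, b3.trans hY.2.2.1, b4⟩ Y (hY.up b3)
    intro Z Z' U hZ _ hU s1 s2 _ h W hW
    obtain ⟨W', c1, c2, c3, c4⟩ := hU.1.exists_rk hT hU.2.2.1 k (by rw [hU.2.2.2]; omega)
    have c5 : rk a W' = r := by rw [c4, hU.2.2.2]; omega
    exact trans _ _ _ (h W' ⟨c1, s2.trans c2, c3, c5⟩)
      (ih Z hZ.1 (by rw [hZ.2.2.2]; omega) W' W ⟨c1, s1.trans c2, c3, c5⟩ hW)

end Pool.Agent.H783Z.MU
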