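import Pool.Agent.H783Z.MULor

set_option autoImplicit false
set_option linter.unusedSectionVars false
open Module Finset
open scoped RealInnerProductSpace

namespace Pool.Agent.H783Z.MU

lemma quad {N X E s t : ℝ} (h1 : N * (s ^ 2 - 1) / 2 + X + E * s = 0)
    (h2 : N * (t ^ 2 - 1) / 2 + X + E * t = 0) (hne : s ≠ t) :
    E = -(N * (s + t) / 2) ∧ X = N * (1 + s * t) / 2 := by
  have e : E = -(N * (s + t) / 2) := by
    apply mul_right_cancel₀ (sub_ne_zero.2 hne)
    linarith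
  refine ⟨e, ?_⟩
  rw [e] at h1
  linarith

lemma circ_real (m : ℕ) (m3 : 3 ≤ m) (N X E s : ℕ → ℝ)
    (nrm : ∀ i, -(N i * X i) - (X i - N i) * N i + E i * E i = 1)
    (z1 : ∀ i, 0 < i → i < m → N i * (s i ^ 2 - 1) / 2 + X i + E i * s i = 0)
    (z2 : ∀ i, i + 1 < m → N i * (s (i + 1) ^ 2 - 1) / 2 + X i + E i * s (i + 1) = 0)
    (p : ∀ i k, i < m → 0 < k → k < m → (i + 1 < k ∨ k < i) →
      0 < N i * (s k ^ 2 - 1) / 2 + X i + E i * s k)
    (N0 : N 0 = 0) (E0 : E 0 = 1) (Nm : N (m - 1) = 0) (Np : ∀ i, 0 < i → i + 1 < m → 0 < N i) :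
    (∀ k, 1 ≤ k → k + 1 < m → s k < s (k + 1) ∧ X k * (s (k + 1) - s k) = 1 + s k * s (k + 1) ∧
      N k * (s (k + 1) - s k) = 2) ∧ X 0 = -s 1 ∧ X (m - 1) = s (m - 1) := by
  have hne : ∀ k, k + 2 < m → s (k + 1) ≠ s (k + 2) := by
    intro k hk e
    have a := z2 k (by omega)
    have b := p k (k + 2) (by omega) (by omega) hk (by omega)
    rw [e] at a; linarith
  have hq : ∀ k, k + 2 < m → E (k + 1) = -(N (k + 1) * (s (k + 1) + s (k + 2)) / 2) ∧
      X (k + 1) = N (k + 1) * (1 + s (k + 1) * s (k + 2)) / 2 := fun k hk =>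
    quad (z1 (k + 1) (by omega) (by omega)) (z2 (k + 1) hk) (hne k hk)
  have hp : ∀ k j, k + 2 < m → 0 < j → j < m → (k + 2 < j ∨ j < k + 1) →
      0 < (s j - s (k + 1)) * (s j - s (k + 2)) := by
    intro k j hk j1 j2 j3
    have a := p (k + 1) j (by omega) j1 j2 j3
    have b := Np (k + 1) (by omega) hk
    rw [(hq k hk).1, (hq k hk).2] at a
    by_contra hc
    push Not at hc
    nlinarith [mul_nonneg b.le (neg_nonneg.2 hc)]
  have x0 : X 0 = -s 1 := by
    have := z2 0 (by omega)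
    rw [N0, E0] at this; simp at this; linarith
  have lo : ∀ k, 1 < k → k < m → s 1 < s k := by
    intro k h1 h2
    have := p 0 k (by omega) (by omega) h2 (by omega)
    rw [N0, E0, x0] at this; linarith
  have mono : ∀ k, k + 2 < m → s (k + 1) < s (k + 2) := by
    intro k
    induction k with
    | zero => intro h; exact lo 2 (by omega) h
    | succ k ih =>
      intro h
      have a := ih (by omega)
      have b := hp k (k + 3) (by omega) (by omega) h (by omega)
      have c := hp (k + 1) (k + 1) h (by omega) (by omega) (by omega)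
      have d : s (k + 1) < s (k + 3) := by
        by_contra hc
        push Not at hc
        nlinarith [mul_nonneg (sub_pos.2 a).le (sub_nonneg.2 hc)]
      by_contra hc
      push Not at hc
      nlinarith [mul_nonneg (sub_pos.2 d).le (sub_nonneg.2 hc)]
  refine ⟨fun k k1 k2 => ?_, x0, ?_⟩
  · obtain ⟨k, rfl⟩ : ∃ j, k = j + 1 := ⟨k - 1, by omega⟩
    have a := mono k k2
    have b := nrm (k + 1)
    have c := Np (k + 1) (by omega) k2
    obtain ⟨e1, e2⟩ := hq k k2
    rw [e1, e2] at b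
    have d : N (k + 1) * (s (k + 2) - s (k + 1)) = 2 := by
      have h3 : (N (k + 1) * (s (k + 2) - s (k + 1))) ^ 2 = 2 ^ 2 := by linarith
      exact (pow_left_inj₀ (mul_pos c (sub_pos.2 a)).le (by norm_num) two_ne_zero).1 h3
    refine ⟨a, ?_, d⟩
    rw [e2]
    show N (k + 1) * (1 + s (k + 1) * s (k + 2)) / 2 * (s (k + 2) - s (k + 1)) =
      1 + s (k + 1) * s (k + 2)
    linear_combination (1 + s (k + 1) * s (k + 2)) / 2 * d
  · have a := nrm (m - 1)
    have b := z1 (m - 1) (by omega) (by omega)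
    have c := p (m - 1) 1 (by omega) (by omega) (by omega) (by omega)
    have d := lo (m - 1) (by omega) (by omega)
    rw [Nm] at a b c
    have e : E (m - 1) < 0 := by
      by_contra hc
      push Not at hc
      nlinarith [mul_nonneg hc (sub_pos.2 d).le]
    have : E (m - 1) = -1 := by nlinarith
    rw [this] at b; linarith

lemma cmp_step {s t κ s' t' κ' : ℝ} (h1 : s < t) (h2 : κ * (t - s) = 1 + s * t) (h1' : s' < t')
    (h2' : κ' * (t' - s') = 1 + s' * t') (hs : s ≤ s') (hκ : κ' ≤ κ) :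
    t ≤ t' ∧ (s < s' ∨ κ' < κ → t < t') := by
  have p : 0 < κ - s := by
    by_contra hc
    push Not at hc
    nlinarith [mul_nonneg (neg_nonneg.2 hc) (sub_pos.2 h1).le, sq_nonneg s]
  have p' : 0 < κ' - s' := by
    by_contra hc
    push Not at hc
    nlinarith [mul_nonneg (neg_nonneg.2 hc) (sub_pos.2 h1').le, sq_nonneg s']
  have p'' : 0 < κ - s' := by linarith
  have e : t = (1 + κ * s) / (κ - s) := by rw [eq_div_iff p.ne']; linarith
  have e' : t' = (1 + κ' * s') / (κ' - s') := by rw [eq_div_iff p'.ne']; linarith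
  have a : (1 + κ * s') / (κ - s') - t = (s' - s) * (1 + κ ^ 2) / ((κ - s) * (κ - s')) := by
    rw [e]; field_simp; ring
  have b : t' - (1 + κ * s') / (κ - s') = (κ - κ') * (1 + s' ^ 2) / ((κ - s') * (κ' - s')) := by
    rw [e']; field_simp; ring
  have a1 : 0 ≤ (s' - s) * (1 + κ ^ 2) / ((κ - s) * (κ - s')) :=
    div_nonneg (mul_nonneg (sub_nonneg.2 hs) (by positivity)) (mul_pos p p'').le
  have b1 : 0 ≤ (κ - κ') * (1 + s' ^ 2) / ((κ - s') * (κ' - s')) :=
    div_nonneg (mul_nonneg (sub_nonneg.2 hκ) (by positivity)) (mul_pos p'' p').le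
  refine ⟨by linarith, ?_⟩
  rintro (h | h)
  · have : 0 < (s' - s) * (1 + κ ^ 2) / ((κ - s) * (κ - s')) :=
      div_pos (mul_pos (sub_pos.2 h) (by positivity)) (mul_pos p p'')
    linarith
  · have : 0 < (κ - κ') * (1 + s' ^ 2) / ((κ - s') * (κ' - s')) :=
      div_pos (mul_pos (sub_pos.2 h) (by positivity)) (mul_pos p'' p')
    linarith

lemma cmp_real (m : ℕ) (m3 : 3 ≤ m) (κ s κ' s' : ℕ → ℝ)
    (h : ∀ k, 1 ≤ k → k + 1 < m → s k < s (k + 1) ∧ κ k * (s (k + 1) - s k) = 1 + s k * s (k + 1))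
    (h0 : κ 0 = -s 1) (hm : κ (m - 1) = s (m - 1))
    (h' : ∀ k, 1 ≤ k → k + 1 < m → s' k < s' (k + 1) ∧
      κ' k * (s' (k + 1) - s' k) = 1 + s' k * s' (k + 1))
    (h0' : κ' 0 = -s' 1) (hm' : κ' (m - 1) = s' (m - 1)) (hle : ∀ k < m, κ' k ≤ κ k) :
    ∀ k < m, κ' k = κ k := by
  have key : ∀ k, k + 1 < m → s (k + 1) ≤ s' (k + 1) ∧
      ((∃ j ≤ k, κ' j < κ j) → s (k + 1) < s' (k + 1)) := by
    intro k
    induction k with
    | zero =>
      intro _
      have := hle 0 (by omega)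
      refine ⟨by simp only [zero_add]; linarith, ?_⟩
      rintro ⟨j, hj, hlt⟩
      rw [Nat.le_zero.1 hj] at hlt
      simp only [zero_add]; linarith
    | succ k ih =>
      intro hk
      obtain ⟨a, b⟩ := ih (by omega)
      obtain ⟨c, d⟩ := cmp_step (h (k + 1) (by omega) hk).1 (h (k + 1) (by omega) hk).2
        (h' (k + 1) (by omega) hk).1 (h' (k + 1) (by omega) hk).2 a (hle _ (by omega))
      refine ⟨c, ?_⟩
      rintro ⟨j, hj, hlt⟩
      by_cases e : j = k + 1
      · exact d (Or.inr (e ▸ hlt))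
      · exact d (Or.inl (b ⟨j, by omega, hlt⟩))
  obtain ⟨a, b⟩ := key (m - 2) (by omega)
  rw [show m - 2 + 1 = m - 1 by omega] at a b
  have c := hle (m - 1) (by omega)
  intro k hk
  by_cases e : k = m - 1
  · rw [e]; linarith
  · by_contra hc
    have := b ⟨k, by omega, lt_of_le_of_ne (hle k hk) hc⟩
    linarith

variable {F : Type*} [NormedAddCommGroup F] [InnerProductSpace ℝ F] [FiniteDimensional ℝ F]

structure Ring (W : Submodule ℝ (ℝ × F)) (o : ℝ × F) (m : ℕ) (n g : ℕ → ℝ × F) : Prop where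
  hW : finrank ℝ W = 4
  m3 : 3 ≤ m
  ho : o ∈ W
  oo : LB o o = 1
  hn : ∀ i, n i ∈ W
  hg : ∀ i, g i ∈ W
  on : ∀ i, LB o (n i) = 0
  og : ∀ i, LB o (g i) = 0
  nn : ∀ i, LB (n i) (n i) = 0
  gg : ∀ i, LB (g i) (g i) = 1
  g1 : ∀ i, LB (g i) (n i) = 0
  g2 : ∀ i, LB (g i) (n (i + 1)) = 0
  gp : ∀ i k, i + 1 < k → k < i + m → 0 < LB (g i) (n k)
  n0 : ∀ k, 0 < k → k < m → LB (n 0) (n k) < 0
  per : ∀ i, n (i + m) = n i

namespace Ring
variable {W W' : Submodule ℝ (ℝ × F)} {o o' : ℝ × F} {m : ℕ} {n g n' g' : ℕ → ℝ × F}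

lemma circle (r : Ring W o m n g) {x : ℝ × F} (hx : x ∈ W) (xx : LB x x = -1) (ox : LB o x = 0)
    (nx : LB (n 0) x < 0) : ∃ s : ℕ → ℝ, (∀ k, 1 ≤ k → k + 1 < m → s k < s (k + 1) ∧
      LB (g k) x * (s (k + 1) - s k) = 1 + s k * s (k + 1) ∧
      LB (g k) (n 0) * (s (k + 1) - s k) = -2 * LB (n 0) x) ∧ LB (g 0) x = -s 1 ∧
      LB (g (m - 1)) x = s (m - 1) := by
  have m3 := r.m3
  set c := -LB (n 0) x with hc
  have c0 : 0 < c := by linarith
  let u : ℝ × F := c⁻¹ • n 0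
  have hu : ∀ y, LB u y = c⁻¹ * LB (n 0) y := fun y => by simp [u]
  have ux : LB u x = -1 := by rw [hu, hc]; field_simp; rw [div_self nx.ne]
  have uu : LB u u = 0 := by rw [hu, LB_comm, hu, r.nn]; ring
  have ug : LB u (g 0) = 0 := by rw [hu, LB_comm, r.g1]; ring
  have uo : LB u o = 0 := by rw [hu, LB_comm, r.on]; ring
  let e : ℝ × F := g 0 + LB (g 0) x • u
  have he : ∀ y, LB e y = LB (g 0) y + LB (g 0) x * LB u y := fun y => by simp [e]
  have eg : LB e (g 0) = 1 := by rw [he, r.gg, ug]; ring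
  have eu : LB e u = 0 := by rw [he, LB_comm, ug, uu]; ring
  have P := fun y (hy : y ∈ W) (yo : LB o y = 0) z => parseval (x := x) (n := u) (e := e) r.hW hx
    (W.smul_mem _ (r.hn 0)) (add_mem (r.hg 0) (W.smul_mem _ (W.smul_mem _ (r.hn 0)))) r.ho xx
    (by rw [LB_comm, ux]) (by rw [LB_comm, he, ux]; ring) (by rw [LB_comm, ox]) uu
    (by rw [LB_comm, eu]) uo (by rw [he, LB_comm (g 0) e, LB_comm u e, eg, eu]; ring)
    (by rw [he, LB_comm (g 0) o, r.og, uo]; ring) r.oo hy yo z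
  let s : ℕ → ℝ := fun k => LB e (n k) / (-LB u (n k))
  have al : ∀ k, 0 < k → k < m → 0 < -LB u (n k) := fun k h1 h2 => by
    rw [hu]; have := mul_pos (inv_pos.2 c0) (neg_pos.2 (r.n0 k h1 h2)); linarith
  have q : ∀ i k, 0 < k → k < m → LB (g i) (n k) = -LB u (n k) *
      (LB u (g i) * (s k ^ 2 - 1) / 2 + LB x (g i) + LB e (g i) * s k) := by
    intro i k h1 h2
    have a := al k h1 h2
    have b := P _ (r.hn k) (r.on k) (n k)
    rw [r.nn] at b
    have e1 : LB e (n k) = s k * -LB u (n k) := (div_mul_cancel₀ _ a.ne').symm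
    have e2 : LB x (n k) = LB u (n k) * (1 + s k ^ 2) / 2 := by
      apply mul_left_cancel₀ a.ne'
      rw [e1] at b
      linarith
    rw [P _ (r.hg i) (r.og i) (n k), e1, e2]; ring
  obtain ⟨h1, h2, h3⟩ := circ_real m m3 (fun i => LB u (g i)) (fun i => LB x (g i))
    (fun i => LB e (g i)) s (fun i => by rw [← P _ (r.hg i) (r.og i), r.gg])
    (fun i h1 h2 => by
      have := q i i h1 h2
      rw [r.g1] at this
      exact (mul_eq_zero.1 this.symm).resolve_left (al i h1 h2).ne')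
    (fun i h => by
      have := q i (i + 1) (by omega) h
      rw [r.g2] at this
      exact (mul_eq_zero.1 this.symm).resolve_left (al _ (by omega) h).ne')
    (fun i k h1 h2 h3 h4 => by
      have a : 0 < LB (g i) (n k) := by
        rcases h4 with h | h
        · exact r.gp i k h (by omega)
        · rw [← r.per]; exact r.gp i (k + m) (by omega) (by omega)
      rw [q i k h2 h3] at a
      exact (mul_pos_iff_of_pos_left (al k h2 h3)).1 a)
    ug eg (by
      have := r.g2 (m - 1)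
      rw [show m - 1 + 1 = 0 + m by omega, r.per] at this
      rw [hu, LB_comm, this, mul_zero])
    (fun i h1 h2 => by
      have := r.gp i (0 + m) (by omega) (by omega)
      rw [r.per] at this
      rw [hu, LB_comm]; exact mul_pos (inv_pos.2 c0) this)
  refine ⟨s, fun k k1 k2 => ?_, by rw [LB_comm]; exact h2, by rw [LB_comm]; exact h3⟩
  obtain ⟨a, b, d⟩ := h1 k k1 k2
  refine ⟨a, by rw [LB_comm]; exact b, ?_⟩
  simp only [hu] at d
  rw [LB_comm (g k)]
  have : LB (n 0) x = -c := by rw [hc, neg_neg]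
  rw [this]
  field_simp at d
  linarith

lemma base (r : Ring W o m n g) {N : ℝ × F} (hN : N ∈ W) (NN : LB N N = 0) (p : 0 < LB o N)
    (q : LB (n 0) N < 0) : ∃ s : ℕ → ℝ, (∀ k, 1 ≤ k → k + 1 < m → s k < s (k + 1) ∧
      LB (g k) N / LB o N * (s (k + 1) - s k) = 1 + s k * s (k + 1)) ∧
      LB (g 0) N / LB o N = -s 1 ∧ LB (g (m - 1)) N / LB o N = s (m - 1) := by
  have e : ∀ y, LB y ((LB o N)⁻¹ • N - o) = LB y N / LB o N - LB y o := fun y => by
    simp only [map_sub, map_smul, smul_eq_mul]; ring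
  have eg : ∀ i, LB (g i) ((LB o N)⁻¹ • N - o) = LB (g i) N / LB o N := fun i => by
    rw [e, LB_comm (g i) o, r.og, sub_zero]
  obtain ⟨s, h1, h2, h3⟩ := r.circle (x := (LB o N)⁻¹ • N - o) (sub_mem (W.smul_mem _ hN) r.ho)
    (by
      rw [e, LB_comm _ N, LB_comm _ o, e, e, NN, r.oo, LB_comm N o]
      field_simp; ring)
    (by rw [e, r.oo, div_self p.ne', sub_self])
    (by rw [e, LB_comm (n 0) o, r.on, sub_zero]; exact div_neg_of_neg_of_pos q p)
  simp only [eg] at h1 h2 h3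
  exact ⟨s, fun k a b => ⟨(h1 k a b).1, (h1 k a b).2.1⟩, h2, h3⟩

lemma compare (r : Ring W o m n g) (r' : Ring W' o' m n' g') {N N' : ℝ × F} (hN : N ∈ W)
    (NN : LB N N = 0) (p : 0 < LB o N) (q : LB (n 0) N < 0) (hN' : N' ∈ W')
    (NN' : LB N' N' = 0) (p' : 0 < LB o' N') (q' : LB (n' 0) N' < 0) {l : ℝ}
    (h0 : LB o' N' = l * LB o N) (h : ∀ i, LB (g' i) N' ≤ l * LB (g i) N) :
    ∀ i < m, LB (g' i) N' = l * LB (g i) N := by
  obtain ⟨s, a1, a2, a3⟩ := r.base hN NN p q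
  obtain ⟨s', b1, b2, b3⟩ := r'.base hN' NN' p' q'
  have := cmp_real m r.m3 (fun k => LB (g k) N / LB o N) s (fun k => LB (g' k) N' / LB o' N') s'
    a1 a2 a3 b1 b2 b3 (fun k _ => by
      rw [div_le_div_iff₀ p' p, h0]
      nlinarith [mul_le_mul_of_nonneg_right (h k) p.le])
  intro i hi
  have e := this i hi
  rw [div_eq_div_iff p'.ne' p.ne', h0] at e
  apply mul_right_cancel₀ p.ne'
  linarith

lemma chain (r : Ring W o m n g) (h : n 0 = -g 0 - g (m - 1)) :
    ∑ k ∈ range (m - 2), 2 / LB (g (k + 1)) (n 0) = 1 := by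
  have m3 := r.m3
  have a := r.n0 1 (by omega) (by omega)
  set c := √(-2 * LB (n 0) (n 1)) with hc
  have c0 : 0 < c := Real.sqrt_pos.2 (by linarith)
  have c1 : c * c = -2 * LB (n 0) (n 1) := Real.mul_self_sqrt (by linarith)
  have e : ∀ y, LB y (c⁻¹ • (n 0 + n 1)) = c⁻¹ * (LB y (n 0) + LB y (n 1)) := fun y => by
    rw [map_smul, map_add, smul_eq_mul]
  have nx : LB (n 0) (c⁻¹ • (n 0 + n 1)) < 0 := by
    rw [e, r.nn, zero_add]; exact mul_neg_of_pos_of_neg (inv_pos.2 c0) a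
  obtain ⟨s, h1, h2, h3⟩ := r.circle (x := c⁻¹ • (n 0 + n 1))
    (W.smul_mem _ (add_mem (r.hn 0) (r.hn 1)))
    (by
      rw [e, LB_comm _ (n 0), LB_comm _ (n 1), e, e, r.nn, r.nn, LB_comm (n 1)]
      field_simp; linarith)
    (by rw [e, r.on, r.on]; ring) nx
  set x := c⁻¹ • (n 0 + n 1)
  have h4 : LB (n 0) x = s 1 - s (m - 1) := by
    rw [h]; simp only [map_sub, map_neg, LinearMap.sub_apply, LinearMap.neg_apply, h2, h3]; ring
  have h5 : ∀ k ∈ range (m - 2), 2 / LB (g (k + 1)) (n 0) =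
      (s (k + 1 + 1) - s (k + 1)) / -LB (n 0) x := by
    intro k hk
    rw [mem_range] at hk
    obtain ⟨b1, -, b3⟩ := h1 (k + 1) (by omega) (by omega)
    have := r.gp (k + 1) (0 + m) (by omega) (by omega)
    rw [r.per] at this
    rw [div_eq_div_iff this.ne' (neg_pos.2 nx).ne']
    linarith
  rw [sum_congr rfl h5, ← sum_div, sum_range_sub (fun k => s (k + 1)), h4,
    show m - 2 + 1 = m - 1 by omega, zero_add, neg_sub]
  apply div_self
  rw [h4] at nx
  linarith

end Ring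

end Pool.Agent.H783Z.MU
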