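import Pool.Agent.H783Z.MUKat
import Pool.Agent.H783Z.MUPlane
import Pool.Agent.H783Z.MUCauchy

set_option autoImplicit false
set_option linter.unusedSectionVars false
open Module Finset
open scoped RealInnerProductSpace

namespace Pool.Agent.H783Z.MU

variable {F : Type*} [NormedAddCommGroup F] [InnerProductSpace ℝ F] [FiniteDimensional ℝ F]
  {V : Type*} [Fintype V] [DecidableEq V] {b b' : V → ℝ × F}

noncomputable def Dl : ((ℝ × F) × (ℝ × F)) →ₗ[ℝ] ((ℝ × F) × (ℝ × F)) →ₗ[ℝ] ℝ :=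
  LB.compl₁₂ (LinearMap.snd ℝ _ _) (LinearMap.snd ℝ _ _) -
    LB.compl₁₂ (LinearMap.fst ℝ _ _) (LinearMap.fst ℝ _ _)

lemma Dl_apply (p q : (ℝ × F) × (ℝ × F)) : Dl p q = LB p.2 q.2 - LB p.1 q.1 := rfl

lemma Dl_comm (p q : (ℝ × F) × (ℝ × F)) : Dl p q = Dl q p := by
  rw [Dl_apply, Dl_apply, LB_comm p.2, LB_comm p.1]

def bb (b b' : V → ℝ × F) (v : V) : (ℝ × F) × (ℝ × F) := (b v, b' v)

noncomputable def Dv (b b' : V → ℝ × F) (u v : V) : ℝ := LB (b' u) (b' v) - LB (b u) (b v)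

lemma Dl_bb (u v : V) : Dl (bb b b' u) (bb b b' v) = Dv b b' u v := rfl

lemma Dv_comm (u v : V) : Dv b b' u v = Dv b b' v u := Dl_comm (bb b b' u) (bb b b' v)

lemma Dv_swap (u v : V) : Dv b' b u v = -Dv b b' u v := by unfold Dv; ring

def Iso (b b' : V → ℝ × F) (S : Finset V) : Prop := ∀ u ∈ S, ∀ v ∈ S, Dv b b' u v = 0

lemma Iso.swap {S : Finset V} (h : Iso b b' S) : Iso b' b S := fun u hu v hv => by
  rw [Dv_swap, h u hu v hv, neg_zero]

lemma Dl_van {S S' : Finset V} (h : ∀ u ∈ S, ∀ v ∈ S', Dv b b' u v = 0) {p q : (ℝ × F) × (ℝ × F)}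
    (hp : p ∈ sp (bb b b') S) (hq : q ∈ sp (bb b b') S') : Dl p q = 0 :=
  van (ψ := Dl p) (fun v hv => van (ψ := Dl.flip (bb b b' v)) (fun u hu => h u hu v hv) hp) hq

lemma Dl_van1 {S : Finset V} {x : V} (h : ∀ u ∈ S, Dv b b' u x = 0) {p : (ℝ × F) × (ℝ × F)}
    (hp : p ∈ sp (bb b b') S) : Dl p (bb b b' x) = 0 :=
  van (ψ := Dl.flip (bb b b' x)) h hp

lemma fst_mem {S : Finset V} {p : (ℝ × F) × (ℝ × F)} (hp : p ∈ sp (bb b b') S) : p.1 ∈ sp b S :=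
  sp_le (p := (sp b S).comap (LinearMap.fst ℝ (ℝ × F) (ℝ × F))) (fun _ hv => mem_sp (a := b) hv) hp

lemma snd_mem {S : Finset V} {p : (ℝ × F) × (ℝ × F)} (hp : p ∈ sp (bb b b') S) : p.2 ∈ sp b' S :=
  sp_le (p := (sp b' S).comap (LinearMap.snd ℝ (ℝ × F) (ℝ × F))) (fun _ hv => mem_sp (a := b') hv) hp

lemma lift1 (b' : V → ℝ × F) {S : Finset V} {y : ℝ × F} (hy : y ∈ sp b S) :
    ∃ p ∈ sp (bb b b') S, p.1 = y :=
  sp_le (p := (sp (bb b b') S).map (LinearMap.fst ℝ _ _))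
    (fun v hv => ⟨bb b b' v, mem_sp hv, rfl⟩) hy

lemma rel_transfer (h' : ES b') {S : Finset V} (hS : Face b' S) (hr : 3 ≤ rk b' S)
    (iso : Iso b b' S) {p : (ℝ × F) × (ℝ × F)} (hp : p ∈ sp (bb b b') S) (h0 : p.1 = 0) :
    p.2 = 0 := by
  refine h'.nondeg hS hr (snd_mem hp) fun v hv => ?_
  have := Dl_van iso hp (mem_sp hv)
  rw [Dl_apply, h0] at this
  simpa [bb] using this

lemma sign_indep (h : ES b) (h' : ES b') (hF : ∀ S, Face b S ↔ Face b' S) {R X Y : Finset V}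
    (hR : Face b R) (hX : Face b X) (sX : R ⊆ X) (sY : R ⊆ Y) (hr : rk b X = rk b R + 1)
    (h3 : 3 ≤ rk b X) (iX : Iso b b' X) (iY : Iso b b' Y) {x x' s : V} (hx : x ∈ X) (hxR : x ∉ R)
    (hx' : x' ∈ X) (hxR' : x' ∉ R) (hs : s ∈ Y) : ∃ l : ℝ, 0 < l ∧ Dv b b' x' s = l * Dv b b' x s := by
  obtain ⟨l, hl, hl'⟩ := rel1' hR sX hr hx hxR hx' hxR'
  obtain ⟨q, hq, hq'⟩ := lift1 b' hl'
  have hp : bb b b' x' - l • bb b b' x - q ∈ sp (bb b b') X :=
    sub_mem (sub_mem (mem_sp hx') (Submodule.smul_mem _ _ (mem_sp hx))) (sp_mono sX hq)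
  have h1 : (bb b b' x' - l • bb b b' x - q).1 = 0 := by simp [bb, hq']
  have h2 := rel_transfer h' ((hF X).1 hX) (by rw [← rk_eq hF h.f0 X hX]; exact h3) iX hp h1
  have h4 : bb b b' x' - l • bb b b' x - q = 0 := Prod.ext h1 h2
  have h5 := congrArg (fun p => Dl p (bb b b' s)) h4
  simp only [map_sub, map_smul, LinearMap.sub_apply, LinearMap.smul_apply, smul_eq_mul, Dl_bb,
    map_zero, LinearMap.zero_apply, Dl_van1 (fun u hu => iY u (sY hu) s hs) hq] at h5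
  exact ⟨l, hl, by linarith⟩

lemma exists_sign (h : ES b) (h' : ES b') (hF : ∀ S, Face b S ↔ Face b' S) {R T : Finset V}
    (hR : Face b R) (hT : Face b T) (hRT : R ⊆ T) (hr : rk b T = rk b R + 2) (h2 : 2 ≤ rk b R)
    (iso : ∀ X, Lv b R T (rk b R + 1) X → Iso b b' X) :
    ∃ σ : ℝ, ∀ X Y x y, Lv b R T (rk b R + 1) X → Lv b R T (rk b R + 1) Y → X ≠ Y → x ∈ X →
      x ∉ R → y ∈ Y → y ∉ R → ∃ l : ℝ, 0 < l ∧ Dv b b' x y = l * σ := by
  obtain ⟨U₁, U₂, hne, g1, g2, hall⟩ := diamond hR hT hRT hr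
  obtain ⟨x₀, a1, a2⟩ := exists_notMem (a := b) (S := R) (X := U₁) (by rw [g1.2.2.2]; omega)
  obtain ⟨y₀, b1, b2⟩ := exists_notMem (a := b) (S := R) (X := U₂) (by rw [g2.2.2.2]; omega)
  have key : ∀ x y, x ∈ U₁ → x ∉ R → y ∈ U₂ → y ∉ R →
      ∃ l : ℝ, 0 < l ∧ Dv b b' x y = l * Dv b b' x₀ y₀ := by
    intro x y c1 c2 c3 c4
    obtain ⟨l, hl, e⟩ := sign_indep h h' hF hR g1.1 g1.2.1 g2.2.1 g1.2.2.2
      (by rw [g1.2.2.2]; omega) (iso _ g1) (iso _ g2) a1 a2 c1 c2 c3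
    obtain ⟨l', hl', e'⟩ := sign_indep h h' hF hR g2.1 g2.2.1 g1.2.1 g2.2.2.2
      (by rw [g2.2.2.2]; omega) (iso _ g2) (iso _ g1) b1 b2 c3 c4 a1
    refine ⟨l * l', mul_pos hl hl', ?_⟩
    rw [e, Dv_comm x₀ y, e', Dv_comm y₀ x₀]; ring
  refine ⟨Dv b b' x₀ y₀, fun X Y x y hX hY hXY c1 c2 c3 c4 => ?_⟩
  rcases hall X hX with rfl | rfl <;> rcases hall Y hY with rfl | rfl
  · exact absurd rfl hXY
  · exact key x y c1 c2 c3 c4
  · rw [Dv_comm]; exact key y x c3 c4 c1 c2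
  · exact absurd rfl hXY

lemma exists_Q (h : ES b) (b' : V → ℝ × F) {H : Finset V} (hH : Face b H) (hr : 2 ≤ rk b H) :
    ∃ φ, FF b H φ ∧ ∃ g : V → ℝ, ∀ r, ∃ p ∈ sp (bb b b') H,
      ∀ v ∈ H, LB (b r - p.1) (b v) = φ (b r) * g v := by
  by_cases e : rk b H = 2
  · refine ⟨-LB (nn b H), ⟨fun v => neg_nonneg.2 (h.nn_nonpos hH e v), fun v => ⟨fun c => ?_,
      fun c => by simp [h.nn_zero hH e c]⟩⟩, ?_⟩
    · by_contra hc
      have := h.nn_neg e hc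
      simp only [LinearMap.neg_apply] at c
      linarith
    obtain ⟨u, hu, -⟩ := exists_notMem (a := b) (S := ∅) (X := H) (by rw [rk_empty]; omega)
    obtain ⟨w, hw, e1⟩ := edge_eq h.f0 h.vert hH e hu
    refine ⟨fun v => if v = u then 0 else -1, fun r => ⟨LB (b r) (b u) • bb b b' u,
      Submodule.smul_mem _ _ (mem_sp hu), fun v hv => ?_⟩⟩
    have e2 := h.edge u w hw.symm (e1 ▸ hH)
    rw [e1, mem_insert, mem_singleton] at hv
    rcases hv with rfl | rfl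
    · simp [bb, h.unit]
    · rw [e1]
      simp only [bb, nn, sum_pair hw.symm, hw, Prod.smul_fst, map_sub, map_smul, map_add,
        LinearMap.sub_apply, LinearMap.smul_apply, LinearMap.neg_apply, LinearMap.add_apply,
        smul_eq_mul, e2, if_false, LB_comm (b u) (b r), LB_comm (b v) (b r)]
      ring
  · obtain ⟨φ, hφ⟩ := hH
    refine ⟨φ, hφ, 0, fun r => ?_⟩
    obtain ⟨ν, h1, h2⟩ := h.rep ⟨φ, hφ⟩ (by omega) (LB (b r))
    obtain ⟨p, hp, rfl⟩ := lift1 b' h1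
    exact ⟨p, hp, fun v hv => by simp [h2 _ (mem_sp hv)]⟩

noncomputable def Psi (n : ℝ × F) : (ℝ × F) →ₗ[ℝ] F :=
  LinearMap.snd ℝ ℝ F - (LinearMap.fst ℝ ℝ F).smulRight (n.1⁻¹ • n.2)

lemma Psi_apply (n y : ℝ × F) : Psi n y = y.2 - y.1 • n.1⁻¹ • n.2 := rfl

lemma Psi_inner {n y z : ℝ × F} (h0 : n.1 ≠ 0) (hn : LB n n = 0) (hy : LB n y = 0)
    (hz : LB n z = 0) : ⟪Psi n y, Psi n z⟫ = LB y z := by
  rw [LB_apply] at *
  simp only [Psi_apply, inner_sub_left, inner_sub_right, real_inner_smul_left,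
    real_inner_smul_right, real_inner_comm n.2 y.2]
  rw [show ⟪n.2, n.2⟫ = n.1 * n.1 by linarith, show ⟪n.2, y.2⟫ = n.1 * y.1 by linarith,
    show ⟪n.2, z.2⟫ = n.1 * z.1 by linarith]
  field_simp
  ring

lemma Psi_ker {n y : ℝ × F} (h0 : n.1 ≠ 0) (hy : Psi n y = 0) : y = (y.1 * n.1⁻¹) • n := by
  rw [Psi_apply, sub_eq_zero] at hy
  refine Prod.ext ?_ ?_
  · simp [h0]
  · rw [hy, smul_smul]; rfl

lemma arm_geo (h : ES b) (h' : ES b') (hF : ∀ S, Face b S ↔ Face b' S) {H T : Finset V} {m : ℕ}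
    {X Y : ℕ → Finset V} (w : Poly b H T m X Y) (h2 : 2 ≤ rk b H) (iso : ∀ i, Iso b b' (Y i))
    {r : ℕ → V} (hr : ∀ i, r i ∈ X i ∧ r i ∉ H) (i j : ℕ) (hij : i < j) (hj : j < i + m)
    (hle : ∀ l, i ≤ l → l + 1 < j → Dv b b' (r l) (r (l + 2)) ≤ 0) :
    Dv b b' (r i) (r j) ≤ 0 ∧
      ((∃ l, i ≤ l ∧ l + 1 < j ∧ Dv b b' (r l) (r (l + 2)) < 0) → Dv b b' (r i) (r j) < 0) := by
  have adj : ∀ l, Dv b b' (r l) (r (l + 1)) = 0 := fun l =>
    iso l _ (w.s1 l (hr l).1) _ (w.s2 l (hr _).1)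
  have slf : ∀ l, Dv b b' (r l) (r l) = 0 := fun l =>
    iso l _ (w.s1 l (hr l).1) _ (w.s1 l (hr _).1)
  by_cases e : j = i + 1
  · rw [e, adj]
    exact ⟨le_rfl, fun ⟨l, _, _, _⟩ => by omega⟩
  obtain ⟨k, rfl⟩ : ∃ k, j = i + (k + 1) := ⟨j - i - 1, by omega⟩
  obtain ⟨φ, hφ, g, hg⟩ := exists_Q h b' w.fS h2
  choose p hp hp' using hg
  obtain ⟨f, hf, hpos⟩ := w.pos hr
  obtain ⟨e₀, e1, -, e3, e4⟩ := h.f0.exists_rk w.fS (empty_subset _) 2 (by rw [rk_empty]; omega)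
  rw [rk_empty] at e4
  have e4' : rk b' e₀ = 2 := by rw [← rk_eq hF h.f0 e₀ e1, e4]
  let c : ℕ → ℝ := fun l => (φ (b (r l)))⁻¹
  have cp : ∀ l, 0 < c l := fun l => inv_pos.2 (hφ.pos (hr l).2)
  let Q : ℕ → (ℝ × F) × (ℝ × F) := fun l => c l • (bb b b' (r l) - p (r l))
  have HY : ∀ l, H ⊆ Y l := fun l => (w.hY l).2.1
  have isoH : Iso b b' H := fun u hu v hv => iso 0 u (HY 0 hu) v (HY 0 hv)
  have DH : ∀ l q, q ∈ sp (bb b b') H → Dl q (bb b b' (r l)) = 0 := fun l q hq =>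
    Dl_van1 (fun u hu => iso l u (HY l hu) _ (w.s1 l (hr l).1)) hq
  have DQ : ∀ l l', Dl (Q l) (Q l') = c l * c l' * Dv b b' (r l) (r l') := by
    intro l l'
    simp only [Q, map_smul, map_sub, LinearMap.smul_apply, LinearMap.sub_apply, smul_eq_mul, Dl_bb,
      DH _ _ (hp _), Dl_van isoH (hp _) (hp _), Dl_comm (bb b b' (r l)) (p (r l'))]
    ring
  have DHQ : ∀ l q, q ∈ sp (bb b b') H → Dl q (Q l) = 0 := fun l q hq => by
    simp only [Q, map_smul, map_sub, DH _ _ hq, Dl_van isoH hq (hp _), sub_zero, smul_zero]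
  have Q1 : ∀ l, φ (Q l).1 = 1 := fun l => by
    simp only [Q, c, bb, Prod.smul_fst, Prod.fst_sub, map_smul, map_sub, hφ.van (fst_mem (hp _)),
      sub_zero, smul_eq_mul, inv_mul_cancel₀ (hφ.pos (hr l).2).ne']
  have Q2 : ∀ l, ∀ v ∈ H, LB (Q l).1 (b v) = g v := fun l v hv => by
    have := hp' (r l) v hv
    simp only [Q, c, bb, Prod.smul_fst, Prod.fst_sub, map_smul, LinearMap.smul_apply, this,
      smul_eq_mul]
    rw [← mul_assoc, inv_mul_cancel₀ (hφ.pos (hr l).2).ne', one_mul]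
  have Q3 : ∀ l, (Q l).1 ∈ sp b T := fun l => Submodule.smul_mem _ _
    (sub_mem (mem_sp ((w.hX l).2.2.1 (hr l).1)) (sp_mono ((HY 0).trans (w.hY 0).2.2.1)
      (fst_mem (hp _))))
  have Q4 : ∀ l s, f s (Q l).1 = c l * f s (b (r l)) := fun l s => by
    simp only [Q, bb, Prod.smul_fst, Prod.fst_sub, map_smul, map_sub, hf.van s _ (fst_mem (hp _)),
      sub_zero, smul_eq_mul]
  let U : Submodule ℝ (ℝ × F) := sp b T ⊓ LinearMap.ker φ ⊓ ⨅ v ∈ H, LinearMap.ker (LB (b v))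
  have mU : ∀ y, y ∈ U ↔ (y ∈ sp b T ∧ φ y = 0) ∧ ∀ v ∈ H, LB (b v) y = 0 := fun y => by
    simp [U, Submodule.mem_iInf]
  have hU : ∀ l l', (Q l).1 - (Q l').1 ∈ U := fun l l' => (mU _).2
    ⟨⟨sub_mem (Q3 l) (Q3 l'), by rw [map_sub, Q1, Q1, sub_self]⟩, fun v hv => by
      rw [map_sub, LB_comm, Q2 l v hv, LB_comm, Q2 l' v hv, sub_self]⟩
  have perp : ∀ y ∈ U, ∀ z ∈ sp b H, LB y z = 0 := fun y hy z hz =>
    van (fun v hv => by rw [LB_comm]; exact ((mU y).1 hy).2 v hv) hz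
  set n := nn b e₀
  set n' := nn b' e₀
  have nH : n ∈ sp b H := nn_mem b e3
  have n1 : n.1 ≠ 0 := (h.nn_fst e4).ne'
  have n1' : n'.1 ≠ 0 := (h'.nn_fst e4').ne'
  have nn0 : LB n n = 0 := h.nn_nn e1 e4
  have nn0' : LB n' n' = 0 := h'.nn_nn ((hF _).1 e1) e4'
  have inn : ∀ y ∈ U, ∀ z ∈ U, ⟪Psi n y, Psi n z⟫ = LB y z := fun y hy z hz =>
    Psi_inner n1 nn0 (by rw [LB_comm]; exact perp y hy n nH) (by rw [LB_comm]; exact perp z hz n nH)
  have nb : (n, n') ∈ sp (bb b b') H := by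
    have : (n, n') = ∑ v ∈ e₀, bb b b' v :=
      Prod.ext (by rw [Prod.fst_sum]; rfl) (by rw [Prod.snd_sum]; rfl)
    rw [this]
    exact Submodule.sum_mem _ fun v hv => mem_sp (e3 hv)
  have perp' : ∀ l l', LB n' ((Q l).2 - (Q l').2) = 0 := by
    intro l l'
    have a := DHQ l _ nb
    have a' := DHQ l' _ nb
    have a2 := perp _ (hU l l') n nH
    rw [Dl_apply] at a a'
    rw [LB_comm, map_sub] at a2
    rw [map_sub]; linarith
  have diff : ∀ x y z t, ⟪Psi n' (Q x).2 - Psi n' (Q y).2, Psi n' (Q z).2 - Psi n' (Q t).2⟫ =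
      ⟪Psi n ((Q x).1 - (Q y).1), Psi n ((Q z).1 - (Q t).1)⟫ +
        (Dl (Q x) (Q z) - Dl (Q x) (Q t) - Dl (Q y) (Q z) + Dl (Q y) (Q t)) := by
    intro x y z t
    rw [← map_sub, ← map_sub, Psi_inner n1' nn0' (perp' _ _) (perp' _ _),
      inn _ (hU _ _) _ (hU _ _)]
    simp only [Dl_apply, map_sub, LinearMap.sub_apply]; ring
  have turn : ∀ l, ⟪Psi n' (Q (l + 1)).2 - Psi n' (Q l).2, Psi n' (Q (l + 2)).2 -
      Psi n' (Q (l + 1)).2⟫ = ⟪Psi n ((Q (l + 1)).1 - (Q l).1),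
        Psi n ((Q (l + 2)).1 - (Q (l + 1)).1)⟫ - c l * c (l + 2) * Dv b b' (r l) (r (l + 2)) := by
    intro l
    rw [diff, DQ, DQ, DQ, DQ, adj, adj, slf]; ring
  have dist : ∀ x y, ‖Psi n' (Q x).2 - Psi n' (Q y).2‖ ^ 2 = ‖Psi n ((Q x).1 - (Q y).1)‖ ^ 2 -
      2 * (c y * c x * Dv b b' (r y) (r x)) := by
    intro x y
    rw [← real_inner_self_eq_norm_sq, ← real_inner_self_eq_norm_sq, diff, DQ, DQ, DQ, DQ, slf, slf,
      Dv_comm (r x)]
    ring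
  have cr0 : ∀ y ∈ U, ∀ z ∈ U, ∀ t ∈ U, D3 f t y z = 0 ∧
      D3 f (Q i).1 y z • Psi n t = D3 f (Q i).1 t z • Psi n y + D3 f (Q i).1 y t • Psi n z := by
    intro y hy z hz t ht
    have a := hf.cramer ((mU t).1 ht).1.1 (Q3 i) ((mU y).1 hy).1.1 ((mU z).1 hz).1.1
    have a1 := hφ.van a
    simp only [map_sub, map_smul, ((mU t).1 ht).1.2, ((mU y).1 hy).1.2, ((mU z).1 hz).1.2, Q1,
      smul_eq_mul, mul_zero, mul_one, zero_sub, sub_zero, neg_eq_zero] at a1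
    rw [a1, zero_smul, sub_zero] at a
    have a2 : D3 f (Q i).1 y z • t - D3 f (Q i).1 t z • y - D3 f (Q i).1 y t • z ∈ U :=
      sub_mem (sub_mem (U.smul_mem _ ht) (U.smul_mem _ hy)) (U.smul_mem _ hz)
    have a3 := inn _ a2 _ a2
    rw [perp _ a2 _ a, inner_self_eq_zero] at a3
    simp only [map_sub, map_smul] at a3
    exact ⟨a1, by rw [← sub_eq_zero, ← a3]; abel⟩
  have main := planar_arm f (fun l => (Q (i + l)).1) (Psi n) U k (by omega) (fun _ _ => hU _ _)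
    (fun y hy z hz t ht => (cr0 y hy z hz t ht).2)
    (fun y hy s => hf.van s y (by rw [Psi_ker n1 hy]; exact Submodule.smul_mem _ _ nH))
    (fun x y z h1 h2 h3 => by
      have a := (cr0 _ (hU (i + y) (i + x)) _ (hU (i + z) (i + x)) _ (hU i (i + x))).1
      have a1 := hpos (i + x) (i + y) (i + z) (by omega) (by omega) (by omega)
      have a2 : D3 f (Q (i + 0)).1 ((Q (i + y)).1 - (Q (i + x)).1) ((Q (i + z)).1 - (Q (i + x)).1) =
          D3 f ((Q i).1 - (Q (i + x)).1) ((Q (i + y)).1 - (Q (i + x)).1)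
            ((Q (i + z)).1 - (Q (i + x)).1) + c (i + x) * c (i + y) * c (i + z) *
            D3 f (b (r (i + x))) (b (r (i + y))) (b (r (i + z))) := by
        simp only [D3, map_sub, add_zero, Q4]; ring
      rw [a2, a, zero_add]
      exact mul_pos (mul_pos (mul_pos (cp _) (cp _)) (cp _)) a1)
    (fun l => Psi n' (Q (i + l)).2)
    (fun l _ => by
      have := dist (i + l + 1) (i + l)
      rw [adj, mul_zero, mul_zero, sub_zero] at this
      exact (pow_left_inj₀ (norm_nonneg _) (norm_nonneg _) two_ne_zero).1 this)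
    (fun l hl => by
      have := turn (i + l)
      have a := mul_nonneg (mul_pos (cp (i + l)) (cp (i + l + 2))).le
        (neg_nonneg.2 (hle (i + l) (by omega) (by omega)))
      simp only [← add_assoc]
      linarith)
  simp only [add_zero] at main
  have d := dist (i + (k + 1)) i
  have cc := mul_pos (cp i) (cp (i + (k + 1)))
  refine ⟨?_, fun ⟨l, l1, l2, l3⟩ => ?_⟩
  · have := pow_le_pow_left₀ (norm_nonneg _) main.1 2
    by_contra hc
    push Not at hc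
    nlinarith [mul_pos cc hc]
  · obtain ⟨l, rfl⟩ : ∃ l', l = i + l' := ⟨l - i, by omega⟩
    have := pow_lt_pow_left₀ (main.2 ⟨l, by omega, by
      have := turn (i + l)
      have a := mul_pos (mul_pos (cp (i + l)) (cp (i + l + 2))) (neg_pos.2 l3)
      simp only [← add_assoc]
      linarith⟩) (norm_nonneg _) two_ne_zero
    by_contra hc
    push Not at hc
    nlinarith [mul_nonneg cc.le hc]

lemma glue (h : ES b) (h' : ES b') (hF : ∀ S, Face b S ↔ Face b' S) {T X : Finset V}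
    (hT : Face b T) (hX : Face b X) (hs : X ⊆ T) (hr : rk b T = rk b X + 1) (h3 : 3 ≤ rk b X)
    (iso : Iso b b' X) {r s : V} (hr1 : r ∈ T) (hs1 : s ∈ T) (hr2 : ∀ v ∈ X, Dv b b' v r = 0)
    (hs2 : ∀ v ∈ X, Dv b b' v s = 0) : Dv b b' r s = 0 := by
  by_cases c1 : r ∈ X
  · exact hs2 r c1
  by_cases c2 : s ∈ X
  · rw [Dv_comm]; exact hr2 s c2
  have hX' := (hF X).1 hX
  have e1 := rk_eq hF h.f0 X hX
  have e2 := rk_eq hF h.f0 T hT
  have key : ∀ x, (∀ v ∈ X, Dv b b' v x = 0) → ∃ p ∈ sp (bb b b') X,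
      (∀ v ∈ X, LB (b x - p.1) (b v) = 0) ∧ ∀ v ∈ X, LB (b' x - p.2) (b' v) = 0 := by
    intro x hx
    obtain ⟨ν, h1, h2⟩ := h.rep hX h3 (LB (b x))
    obtain ⟨p, hp, rfl⟩ := lift1 b' h1
    refine ⟨p, hp, fun v hv => by simp [h2 _ (mem_sp hv)], fun v hv => ?_⟩
    have a := Dl_van1 (fun u hu => iso u hu v hv) hp
    have a1 := hx v hv
    have a2 := h2 _ (mem_sp hv)
    rw [Dv_comm] at a1
    rw [Dl_apply] at a
    simp only [Dv, bb] at a a1
    simp only [map_sub, LinearMap.sub_apply]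
    linarith
  obtain ⟨p, p1, p2, p3⟩ := key r hr2
  obtain ⟨q, q1, q2, q3⟩ := key s hs2
  have par : ∀ {b : V → ℝ × F}, ES b → Face b X → rk b T = rk b X + 1 → 3 ≤ rk b X →
      ∀ p ∈ sp b X, ∀ q ∈ sp b X, (∀ v ∈ X, LB (b r - p) (b v) = 0) →
      (∀ v ∈ X, LB (b s - q) (b v) = 0) → ∃ l : ℝ, 0 < l ∧ b r - p = l • (b s - q) := by
    intro b h hX hr h3 p hp q hq a1 a2
    obtain ⟨l, hl, hl'⟩ := rel1' hX hs hr hs1 c2 hr1 c1
    refine ⟨l, hl, sub_eq_zero.1 (h.nondeg hX h3 ?_ fun v hv => ?_)⟩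
    · convert add_mem (sub_mem hl' hp) (Submodule.smul_mem _ l hq) using 1
      rw [smul_sub]; abel
    · rw [map_sub, map_smul, LinearMap.sub_apply, LinearMap.smul_apply, a1 v hv, a2 v hv]; simp
  obtain ⟨l, hl, e⟩ := par h hX hr h3 _ (fst_mem p1) _ (fst_mem q1) p2 q2
  obtain ⟨l', hl', e'⟩ := par h' hX' (by omega) (by omega) _ (snd_mem p1) _ (snd_mem q1) p3 q3
  have D : ∀ x y, ∀ p ∈ sp (bb b b') X, ∀ q ∈ sp (bb b b') X, (∀ v ∈ X, Dv b b' v x = 0) →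
      (∀ v ∈ X, Dv b b' v y = 0) →
      LB (b' x - p.2) (b' y - q.2) - LB (b x - p.1) (b y - q.1) = Dv b b' x y := by
    intro x y p hp q hq hx hy
    have : Dl (bb b b' x - p) (bb b b' y - q) = Dv b b' x y := by
      simp only [map_sub, LinearMap.sub_apply, Dl_bb, Dl_van1 hy hp, Dl_van iso hp hq,
        Dl_comm (bb b b' x) q, Dl_van1 hx hq]
      ring
    exact this
  have d1 := D r r p p1 p p1 hr2 hr2
  have d2 := D s s q q1 q q1 hs2 hs2
  have d3 := D r s p p1 q q1 hr2 hs2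
  have u1 : Dv b b' r r = 0 := by simp [Dv, h.unit, h'.unit]
  have u2 : Dv b b' s s = 0 := by simp [Dv, h.unit, h'.unit]
  have N := h.pos_of_perp hX h3 q2 (fun c => c2 (hX.mem_of_sp (by
    rw [sub_eq_zero.1 c]; exact fst_mem q1)))
  rw [e, e'] at d1 d3
  generalize b s - q.1 = y at *
  generalize b' s - q.2 = y' at *
  simp only [map_smul, LinearMap.smul_apply, smul_eq_mul] at d1 d3
  have e3 : LB y' y' = LB y y := by linarith
  rw [e3] at d1 d3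
  have : l' = l := by
    have h4 : l' ^ 2 = l ^ 2 := by
      apply mul_right_cancel₀ N.ne'
      linarith
    exact (pow_left_inj₀ hl'.le hl.le two_ne_zero).1 h4
  rw [this] at d3
  linarith

theorem rigid (h : ES b) (h' : ES b') (hF : ∀ S, Face b S ↔ Face b' S) :
    ∀ k T, Face b T → rk b T = k + 4 → Iso b b' T := by
  intro k
  induction k with
  | zero =>
    intro T hT hr u hu v hv
    rw [Dv, kat h h' hF hT hr u hu v hv, sub_self]
  | succ k ih =>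
    intro T hT hr
    have iso : ∀ S X, Lv b S T (k + 4) X → Iso b b' X := fun S X hX => ih X hX.1 hX.2.2.2
    have : ∀ R : Finset V, ∃ σ : ℝ, Face b R → R ⊆ T → rk b R = k + 3 →
        ∀ X Y x y, Lv b R T (k + 4) X → Lv b R T (k + 4) Y → X ≠ Y → x ∈ X →
          x ∉ R → y ∈ Y → y ∉ R → ∃ l : ℝ, 0 < l ∧ Dv b b' x y = l * σ := by
      intro R
      by_cases c : Face b R ∧ R ⊆ T ∧ rk b R = k + 3
      · obtain ⟨σ, hσ⟩ := exists_sign h h' hF c.1 hT c.2.1 (by omega) (by omega)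
          (fun X hX => iso R X (by rwa [c.2.2] at hX))
        rw [c.2.2] at hσ
        exact ⟨σ, fun _ _ _ => hσ⟩
      · exact ⟨0, fun a1 a2 a3 => absurd ⟨a1, a2, a3⟩ c⟩
    choose σ hσ using this
    have zero : ∀ R, Face b R → R ⊆ T → rk b R = k + 3 → σ R = 0 := by
      intro R hR hRT hrR
      obtain ⟨G, g1, -, g3, g4⟩ := h.f0.exists_rk hR (empty_subset _) (k + 1)
        (by rw [rk_empty]; omega)
      rw [rk_empty, zero_add] at g4
      refine cauchy g1 hT (by omega) σ ?_ R ⟨hR, g3, hRT, by omega⟩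
      rintro H m X Y hH w ⟨p, hp⟩
      have eH : rk b H = k + 2 := by rw [hH.2.2.2, g4]
      have m3 := w.m3
      obtain ⟨r₀, hr₀⟩ := w.exists_rep
      let r : ℕ → V := fun i => r₀ (i % m)
      have hr' : ∀ i, r i ∈ X i ∧ r i ∉ H := fun i => by
        rw [← per_mod w.pX i]; exact hr₀ _
      have hY : ∀ i, Lv b H T (k + 4) (Y i) := fun i => by have := w.hY i; rwa [eH] at this
      have isoY : ∀ i, Iso b b' (Y i) := fun i => iso H _ (hY i)
      have sg : ∀ l, ∃ t : ℝ, 0 < t ∧ Dv b b' (r l) (r (l + 2)) = t * σ (X (l + 1)) := fun l =>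
        hσ _ (w.hX _).1 (w.hX _).2.2.1 (by rw [(w.hX _).2.2.2, eH]) (Y l) (Y (l + 1)) _ _
          ((hY l).up (w.s2 l)) ((hY _).up (w.s1 _)) (w.nY l).symm (w.s1 l (hr' l).1)
          (notMem_of_ne w.fS (w.hX (l + 1)) (w.hX l) (w.nX l).symm (hr' l).1 (hr' l).2)
          (w.s2 _ (hr' _).1)
          (notMem_of_ne w.fS (w.hX (l + 1)) (w.hX (l + 2)) (w.nX _) (hr' _).1 (hr' _).2)
      refine alt_of m m3 (fun i => σ (X i)) (fun i => by rw [w.pX]) (fun i j => Dv b b' (r i) (r j))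
        (fun i j => by simp only [r, Nat.add_mod_right]; exact Dv_comm _ _)
        (fun i j a1 a2 a3 => ?_) (fun i j a1 a2 a3 => ?_) p hp
      · obtain ⟨c1, c2⟩ := arm_geo h h' hF w (by omega) isoY hr' i j a1 a2 (fun l l1 l2 => by
          obtain ⟨t, ht, e⟩ := sg l
          rw [e]; exact mul_nonpos_of_nonneg_of_nonpos ht.le (a3 _ (by omega) l2))
        refine ⟨c1, fun ⟨l, l1, l2, l3⟩ => c2 ?_⟩
        obtain ⟨l, rfl⟩ : ∃ l', l = l' + 1 := ⟨l - 1, by omega⟩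
        obtain ⟨t, ht, e⟩ := sg l
        exact ⟨l, by omega, l2, by rw [e]; exact mul_neg_of_pos_of_neg ht l3⟩
      · obtain ⟨c1, c2⟩ := arm_geo h' h (fun S => (hF S).symm) (w.transfer hF h.f0)
          (by rw [← rk_eq hF h.f0 H hH.1]; omega) (fun i => (isoY i).swap) hr' i j a1 a2
          (fun l l1 l2 => by
            obtain ⟨t, ht, e⟩ := sg l
            rw [Dv_swap, e]; exact neg_nonpos.2 (mul_nonneg ht.le (a3 _ (by omega) l2)))
        rw [Dv_swap] at c1 c2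
        refine ⟨neg_nonpos.1 c1, fun ⟨l, l1, l2, l3⟩ => neg_neg_iff_pos.1 (c2 ?_)⟩
        obtain ⟨l, rfl⟩ : ∃ l', l = l' + 1 := ⟨l - 1, by omega⟩
        obtain ⟨t, ht, e⟩ := sg l
        exact ⟨l, by omega, l2, by rw [Dv_swap, e]; exact neg_neg_of_pos (mul_pos ht l3)⟩
    have cross : ∀ R X Y, Face b R → rk b R = k + 3 → Lv b R T (k + 4) X → Lv b R T (k + 4) Y →
        X ≠ Y → ∀ x ∈ X, ∀ y ∈ Y, Dv b b' x y = 0 := by
      intro R X Y hR hrR hX hY hne x hx y hy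
      by_cases c1 : x ∈ R
      · exact iso R Y hY x (hY.2.1 c1) y hy
      by_cases c2 : y ∈ R
      · exact iso R X hX x hx y (hX.2.1 c2)
      obtain ⟨l, -, e⟩ := hσ R hR (hX.2.1.trans hX.2.2.1) hrR X Y x y hX hY hne hx c1 hy c2
      rw [e, zero R hR (hX.2.1.trans hX.2.2.1) hrR, mul_zero]
    have fc := facet_conn hT (r := k + 4) hr
      (fun X Y => ∀ s ∈ T, (∀ v ∈ X, Dv b b' v s = 0) → ∀ v ∈ Y, Dv b b' v s = 0)
      (fun X s _ a => a) (fun X Y Z a1 a2 s hs a => a2 s hs (a1 s hs a))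
      (fun R X Y hR hrR hX hY hne s hs a v hv => glue h h' hF hT hX.1 hX.2.2.1
        (by rw [hX.2.2.2]; omega) (by rw [hX.2.2.2]; omega) (iso R X hX) (hY.2.2.1 hv) hs
        (fun x hx => cross R X Y hR (by omega) hX hY hne x hx v hv) a)
      (k + 4) ∅ h.f0 (by rw [rk_empty, zero_add])
    have fac : ∀ u ∈ T, ∃ X, Lv b ∅ T (k + 4) X ∧ u ∈ X := by
      intro u hu
      obtain ⟨X, a1, a2, a3, a4⟩ := (h.vert u).exists_rk hT (singleton_subset_iff.2 hu) (k + 3)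
        (by rw [rk_single h.f0]; omega)
      exact ⟨X, ⟨a1, empty_subset _, a3, by rw [a4, rk_single h.f0]; omega⟩,
        singleton_subset_iff.1 a2⟩
    intro u hu v hv
    obtain ⟨X, hX, hu'⟩ := fac u hu
    obtain ⟨Y, hY, hv'⟩ := fac v hv
    exact fc Y X hY hX v hv (fun x hx => iso ∅ Y hY x hx v hv') u hu'

end Pool.Agent.H783Z.MU
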