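import Mathlib

set_option autoImplicit false
open Filter Topology

namespace Pool.Agent.H783Z.SIO

variable {E : Type*} [NormedAddCommGroup E] [InnerProductSpace ℂ E] [CompleteSpace E]

/-- strong ellipticity, in the form of the statement -/
def SE (T : E →L[ℂ] E) : Prop :=
  ∃ D K : E →L[ℂ] E, IsSelfAdjoint D ∧ IsCompactOperator K ∧
    (∃ c : ℝ, 0 < c ∧ ∀ x : E, c * ‖x‖ ^ 2 ≤ (inner ℂ (D x) x).re) ∧
    (1/2 : ℂ) • (T + ContinuousLinearMap.adjoint T) = D + K

/-- Garding inequality form -/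
def Ell (T : E →L[ℂ] E) : Prop :=
  ∃ K : E →L[ℂ] E, IsCompactOperator K ∧ IsCompactOperator (star K : E →L[ℂ] E) ∧
    ∃ γ : ℝ, 0 < γ ∧ ∀ f : E, γ * ‖f‖ ^ 2 ≤ (inner ℂ (T f) f).re - (inner ℂ (K f) f).re

lemma re_inner_star (T : E →L[ℂ] E) (f : E) :
    (inner ℂ ((star T : E →L[ℂ] E) f) f).re = (inner ℂ (T f) f).re := by
  rw [ContinuousLinearMap.star_eq_adjoint, ContinuousLinearMap.adjoint_inner_left,
    ← inner_conj_symm, Complex.conj_re]

lemma re_inner_half (T : E →L[ℂ] E) (f : E) :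
    (inner ℂ (((1/2 : ℂ) • (T + star T) : E →L[ℂ] E) f) f).re = (inner ℂ (T f) f).re := by
  have h := re_inner_star T f
  rw [ContinuousLinearMap.smul_apply, ContinuousLinearMap.add_apply, inner_smul_left,
    inner_add_left]
  have : (starRingEnd ℂ) (1/2 : ℂ) = ((1/2 : ℝ) : ℂ) := by
    rw [← Complex.conj_ofReal]; congr 1; simp
  rw [this, Complex.re_ofReal_mul, Complex.add_re, h]
  ring

lemma sa_half (T : E →L[ℂ] E) : IsSelfAdjoint ((1/2 : ℂ) • (T + star T) : E →L[ℂ] E) := by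
  unfold IsSelfAdjoint
  rw [star_smul, star_add, star_star, add_comm]
  congr 1
  simp

lemma Ell.se {T : E →L[ℂ] E} (h : Ell T) : SE T := by
  obtain ⟨K, hK, hK', γ, hγ, h⟩ := h
  refine ⟨(1/2 : ℂ) • (T + star T) - (1/2 : ℂ) • (K + star K), (1/2 : ℂ) • (K + star K),
    (sa_half T).sub (sa_half K), ?_, ⟨γ, hγ, fun x => ?_⟩, ?_⟩
  · exact (hK.add hK').smul (1/2 : ℂ)
  · rw [ContinuousLinearMap.sub_apply, inner_sub_left, Complex.sub_re, re_inner_half,
      re_inner_half]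
    exact h x
  · rw [sub_add_cancel, ContinuousLinearMap.star_eq_adjoint]

lemma SE.ell {T : E →L[ℂ] E} (h : SE T) : Ell T := by
  obtain ⟨D, K, hD, hK, ⟨γ, hγ, h⟩, he⟩ := h
  rw [← ContinuousLinearMap.star_eq_adjoint] at he
  have hKe : K = (1/2 : ℂ) • (T + star T) - D := by rw [he]; abel
  have hKs : star K = K := by
    rw [hKe]; exact ((sa_half T).sub hD).star_eq
  refine ⟨K, hK, by rw [hKs]; exact hK, γ, hγ, fun f => ?_⟩
  have h1 := re_inner_half T f
  rw [he, ContinuousLinearMap.add_apply, inner_add_left, Complex.add_re] at h1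
  have := h f
  linarith

lemma Ell.star {T : E →L[ℂ] E} (h : Ell T) : Ell (star T) := by
  obtain ⟨K, hK, hK', γ, hγ, h⟩ := h
  exact ⟨K, hK, hK', γ, hγ, fun f => by rw [re_inner_star]; exact h f⟩

lemma inner_sand (T B : E →L[ℂ] E) (f : E) :
    inner ℂ ((Star.star B * T * B : E →L[ℂ] E) f) f = inner ℂ (T (B f)) (B f) := by
  rw [ContinuousLinearMap.mul_apply, ContinuousLinearMap.mul_apply,
    ContinuousLinearMap.star_eq_adjoint, ContinuousLinearMap.adjoint_inner_left]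

lemma compact_sand {K : E →L[ℂ] E} (hK : IsCompactOperator K) (A B : E →L[ℂ] E) :
    IsCompactOperator (A * K * B : E →L[ℂ] E) := by
  exact (hK.comp_clm B).clm_comp A

lemma Ell.sand {T B R : E →L[ℂ] E} (h : Ell T) (hR : R * B = 1) :
    Ell (Star.star B * T * B) := by
  obtain ⟨K, hK, hK', γ, hγ, h⟩ := h
  refine ⟨Star.star B * K * B, compact_sand hK _ _, ?_, γ / (‖R‖ + 1) ^ 2, by positivity,
    fun f => ?_⟩
  · rw [star_mul, star_mul, star_star, ← mul_assoc]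
    exact compact_sand hK' _ _
  · rw [inner_sand, inner_sand]
    refine le_trans ?_ (h (B f))
    have h1 : ‖f‖ ≤ (‖R‖ + 1) * ‖B f‖ := by
      have e : f = R (B f) := by
        rw [← ContinuousLinearMap.mul_apply, hR]; rfl
      calc ‖f‖ = ‖R (B f)‖ := by rw [← e]
        _ ≤ ‖R‖ * ‖B f‖ := R.le_opNorm _
        _ ≤ (‖R‖ + 1) * ‖B f‖ := by gcongr; linarith
    have h2 : ‖f‖ ^ 2 ≤ (‖R‖ + 1) ^ 2 * ‖B f‖ ^ 2 := by
      rw [← mul_pow]; gcongr
    rw [div_mul_eq_mul_div, div_le_iff₀ (by positivity)]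
    nlinarith

omit [CompleteSpace E] in
lemma compact_weak {ι : Type*} {l : Filter ι} {K : E →L[ℂ] E} (hK : IsCompactOperator K)
    {g : ι → E} {M : ℝ} (hM0 : 0 < M) (hM : ∀ᶠ i in l, ‖g i‖ ≤ M)
    (hw : ∀ h : E, Tendsto (fun i => inner ℂ h (g i)) l (𝓝 0)) :
    Tendsto (fun i => inner ℂ (K (g i)) (g i)) l (𝓝 0) := by
  obtain ⟨C, hC, hsub⟩ := IsCompactOperator.image_closedBall_subset_compact
    (f := (K : E →ₗ[ℂ] E)) hK M
  rw [Metric.tendsto_nhds]
  intro ε hε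
  have hδ : 0 < ε / (2 * M) := by positivity
  obtain ⟨t, htf, hcov⟩ := Metric.totallyBounded_iff.1 hC.totallyBounded _ hδ
  have h1 : ∀ᶠ i in l, ∀ y ∈ t, ‖inner ℂ y (g i)‖ < ε / 2 := by
    rw [htf.eventually_all]
    intro y _
    have := Metric.tendsto_nhds.1 (hw y) (ε / 2) (by positivity)
    simpa only [dist_zero_right] using this
  filter_upwards [h1, hM] with i hi hi2
  have hmem : K (g i) ∈ C := hsub ⟨g i, by simpa using hi2, rfl⟩
  obtain ⟨y, hy, hyb⟩ := Set.mem_iUnion₂.1 (hcov hmem)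
  rw [dist_zero_right]
  have e : inner ℂ (K (g i)) (g i) = inner ℂ (K (g i) - y) (g i) + inner ℂ y (g i) := by
    rw [inner_sub_left]; ring
  rw [Metric.mem_ball, dist_eq_norm] at hyb
  have h3 : ‖inner ℂ (K (g i) - y) (g i)‖ ≤ ε / 2 := by
    calc _ ≤ ‖K (g i) - y‖ * ‖g i‖ := norm_inner_le_norm _ _
      _ ≤ ε / (2 * M) * M := by gcongr
      _ = ε / 2 := by field_simp
  calc _ ≤ ‖inner ℂ (K (g i) - y) (g i)‖ + ‖inner ℂ y (g i)‖ := by
        rw [e]; exact norm_add_le _ _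
    _ < ε := by have := hi y hy; linarith

omit [CompleteSpace E] in
lemma weak_of_dense {ι : Type*} {l : Filter ι} {s : Set E}
    (hs : Dense (Submodule.span ℂ s : Set E))
    {g : ι → E} {M : ℝ} (hM0 : 0 < M) (hM : ∀ᶠ i in l, ‖g i‖ ≤ M)
    (hw : ∀ h ∈ s, Tendsto (fun i => inner ℂ h (g i)) l (𝓝 0)) (h : E) :
    Tendsto (fun i => inner ℂ h (g i)) l (𝓝 0) := by
  have h0 : ∀ h ∈ Submodule.span ℂ s, Tendsto (fun i => inner ℂ h (g i)) l (𝓝 0) := by
    intro h hh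
    induction hh using Submodule.span_induction with
    | mem x hx => exact hw x hx
    | zero => simp only [inner_zero_left]; exact tendsto_const_nhds
    | add x y _ _ hx hy =>
      simp only [inner_add_left]
      simpa using hx.add hy
    | smul c x _ hx =>
      simp only [inner_smul_left]
      simpa using hx.const_mul ((starRingEnd ℂ) c)
  rw [Metric.tendsto_nhds]
  intro ε hε
  have hδ : 0 < ε / (2 * M) := by positivity
  obtain ⟨y, hy, hyb⟩ := hs.exists_dist_lt h hδ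
  have h1 := Metric.tendsto_nhds.1 (h0 y hy) (ε / 2) (by positivity)
  filter_upwards [h1, hM] with i hi hi2
  rw [dist_zero_right] at hi ⊢
  have e : inner ℂ h (g i) = inner ℂ (h - y) (g i) + inner ℂ y (g i) := by
    rw [inner_sub_left]; ring
  rw [dist_eq_norm] at hyb
  have h3 : ‖inner ℂ (h - y) (g i)‖ ≤ ε / 2 := by
    calc _ ≤ ‖h - y‖ * ‖g i‖ := norm_inner_le_norm _ _
      _ ≤ ε / (2 * M) * M := by gcongr
      _ = ε / 2 := by field_simp
  calc _ ≤ ‖inner ℂ (h - y) (g i)‖ + ‖inner ℂ y (g i)‖ := by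
        rw [e]; exact norm_add_le _ _
    _ < ε := by linarith

lemma Ell.limit {T : E →L[ℂ] E} (hT : Ell T) {s : Set E}
    (hs : Dense (Submodule.span ℂ s : Set E)) :
    ∃ γ : ℝ, 0 < γ ∧ ∀ (l : Filter ℝ) [l.NeBot] (g : ℝ → E) (L n : ℝ),
      (∀ h ∈ s, Tendsto (fun i => inner ℂ h (g i)) l (𝓝 0)) →
      Tendsto (fun i => ‖g i‖ ^ 2) l (𝓝 n) →
      Tendsto (fun i => (inner ℂ (T (g i)) (g i)).re) l (𝓝 L) → γ * n ≤ L := by
  obtain ⟨K, hK, -, γ, hγ, h⟩ := hT
  refine ⟨γ, hγ, fun l _ g L n hw hn hL => ?_⟩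
  have hM0 : 0 < |n| + 2 := by positivity
  have hM : ∀ᶠ i in l, ‖g i‖ ≤ |n| + 2 := by
    have : ∀ᶠ i in l, ‖g i‖ ^ 2 < |n| + 1 :=
      hn.eventually (gt_mem_nhds (by have := le_abs_self n; linarith))
    filter_upwards [this] with i hi
    by_contra hc
    push Not at hc
    have := abs_nonneg n
    nlinarith
  have hk := compact_weak hK hM0 hM (weak_of_dense hs hM0 hM hw)
  have hk' : Tendsto (fun i => (inner ℂ (K (g i)) (g i)).re) l (𝓝 0) := by
    exact (Complex.continuous_re.tendsto 0).comp hk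
  have := le_of_tendsto_of_tendsto' (hn.const_mul γ) (hL.sub hk') (fun i => h (g i))
  simpa using this

end Pool.Agent.H783Z.SIO
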