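import Mathlib

set_option autoImplicit false
open Filter Topology ComplexConjugate

namespace Pool.Agent.H783Z.SIO

def Cond3 (cp dp cm dm : ℂ) : Prop :=
  ∀ μ ν : ℝ, 0 ≤ μ → μ ≤ 1 → 0 ≤ ν → ν ≤ 1 →
    (cp * dm * (μ : ℂ) + cm * dp * (1 - (μ : ℂ))) * (ν : ℂ) + dp * dm * (1 - (ν : ℂ)) ≠ 0

lemma sep3 {g₁ g₂ : ℂ} (h : Cond3 g₁ 1 g₂ 1) :
    ∃ l : ℂ, 0 < l.re ∧ 0 < (l * g₁).re ∧ 0 < (l * g₂).re := by
  have hfin : ({1, g₁, g₂} : Set ℂ).Finite := by simp
  have h0 : (0:ℂ) ∉ convexHull ℝ ({1, g₁, g₂} : Set ℂ) := by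
    rw [convexHull_insert (by simp), convexHull_pair, mem_convexJoin]
    rintro ⟨a, ha, b, ⟨μ, μ', h1, h2, h3, rfl⟩, ⟨ν', ν, h4, h5, h6, h7⟩⟩
    rw [Set.mem_singleton_iff] at ha
    subst ha
    apply h μ ν h1 (by linarith) h5 (by linarith)
    have e1 : μ' = 1 - μ := by linarith
    have e2 : ν' = 1 - ν := by linarith
    rw [← h7, e1, e2]
    simp only [Complex.real_smul]
    push_cast
    ring
  obtain ⟨f, u, hu, hf⟩ := geometric_hahn_banach_point_closed (convex_convexHull ℝ _)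
    (hfin.isCompact_convexHull ℝ).isClosed h0
  rw [map_zero] at hu
  have key : ∀ z : ℂ, ((f 1 - f Complex.I * Complex.I) * z).re = f z := by
    intro z
    have : z = z.re • (1:ℂ) + z.im • Complex.I := by
      simp only [Complex.real_smul, mul_one]; exact (Complex.re_add_im z).symm
    conv_rhs => rw [this, map_add, map_smul, map_smul]
    simp
    ring
  refine ⟨f 1 - f Complex.I * Complex.I, ?_, ?_, ?_⟩
  · have := key 1
    rw [mul_one] at this
    rw [this]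
    exact hu.trans (hf 1 (subset_convexHull _ _ (by simp)))
  · rw [key]; exact hu.trans (hf _ (subset_convexHull _ _ (by simp)))
  · rw [key]; exact hu.trans (hf _ (subset_convexHull _ _ (by simp)))

lemma Cond3.scale {cp dp cm dm s t : ℂ} (h : Cond3 (s * cp) (s * dp) (t * cm) (t * dm)) :
    Cond3 cp dp cm dm := by
  intro μ ν h1 h2 h3 h4 h0
  apply h μ ν h1 h2 h3 h4
  linear_combination s * t * h0

lemma Cond3.conj {cp dp cm dm : ℂ} (h : Cond3 (conj cp) (conj dp) (conj cm) (conj dm)) :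
    Cond3 cp dp cm dm := by
  intro μ ν h1 h2 h3 h4 h0
  apply h μ ν h1 h2 h3 h4
  have := congrArg (starRingEnd ℂ) h0
  simpa using this

lemma re_div_pos {l c d : ℂ} (hd : d ≠ 0) (h : 0 < (l * (c / d)).re) :
    0 < (l * c * conj d).re := by
  have e : l * c * conj d = (Complex.normSq d : ℂ) * (l * (c / d)) := by
    rw [← Complex.mul_conj]; field_simp
  rw [e, Complex.re_ofReal_mul]
  exact mul_pos (Complex.normSq_pos.2 hd) h

lemma Cond3.lam {cp dp cm dm : ℂ} (h : Cond3 cp dp cm dm) :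
    ∃ l : ℂ, 0 < l.re ∧ 0 < (l * cp * conj dp).re ∧ 0 < (l * cm * conj dm).re := by
  have h0 := h 0 0 le_rfl zero_le_one le_rfl zero_le_one
  simp only [Complex.ofReal_zero, mul_zero, sub_zero, mul_one, zero_add] at h0
  have hp : dp ≠ 0 := left_ne_zero_of_mul h0
  have hm : dm ≠ 0 := right_ne_zero_of_mul h0
  have h1 : Cond3 (cp / dp) 1 (cm / dm) 1 := by
    apply Cond3.scale (s := dp) (t := dm)
    rwa [mul_div_cancel₀ _ hp, mul_div_cancel₀ _ hm, mul_one, mul_one]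
  obtain ⟨l, h2, h3, h4⟩ := sep3 h1
  exact ⟨l, h2, re_div_pos hp h3, re_div_pos hm h4⟩

def Good (γ : ℝ) (C D κ : ℂ) : Prop :=
  γ < C.re ∧ γ < D.re ∧ ‖C + conj D - κ‖ ^ 2 < 4 * (C.re - γ) * (D.re - γ)

lemma W_ne {l c d : ℂ} (hl : 0 < l.re) (h : 0 < (l * c * conj d).re) :
    l * c + conj l * d ≠ 0 := by
  intro h0
  have e : l * c * conj d = -((Complex.normSq d : ℂ) * conj l) := by
    rw [← Complex.mul_conj]; linear_combination conj d * h0
  rw [e, Complex.neg_re, Complex.re_ofReal_mul, Complex.conj_re] at h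
  have := Complex.normSq_nonneg d
  nlinarith

lemma good_aux {κ α : ℂ} (hk : 0 < κ.re) (h : 0 < (α * (1 - conj α) * κ).re) :
    Good 0 (α * κ) ((1 - α) * conj κ) κ := by
  unfold Good
  rw [← Complex.normSq_eq_norm_sq]
  obtain ⟨k₁, k₂⟩ := κ
  obtain ⟨x, y⟩ := α
  simp [Complex.normSq_apply] at hk h ⊢
  have hp : (k₁ ^ 2 + k₂ ^ 2) * y ^ 2 < (x * k₁ - y * k₂) * ((1 - x) * k₁ - y * k₂) := by
    nlinarith [mul_pos hk (sub_pos.2 h)]
  have h1 : 0 < x * k₁ - y * k₂ := by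
    by_contra hc
    push Not at hc
    have h2 : (1 - x) * k₁ - y * k₂ ≤ 0 := by
      by_contra hc2
      push Not at hc2
      nlinarith [mul_nonneg (neg_nonneg.2 hc) hc2.le, sq_nonneg (k₁ * y), sq_nonneg (k₂ * y)]
    nlinarith [sq_nonneg ((x * k₁ - y * k₂) - ((1 - x) * k₁ - y * k₂)), sq_nonneg (k₁ * y),
      mul_nonneg hk.le (neg_nonneg.2 hc), mul_nonneg hk.le (neg_nonneg.2 h2), mul_pos hk hk]
  have h2 : 0 < (1 - x) * k₁ - y * k₂ := by
    by_contra hc2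
    push Not at hc2
    nlinarith [mul_nonneg h1.le (neg_nonneg.2 hc2), sq_nonneg (k₁ * y), sq_nonneg (k₂ * y)]
  refine ⟨by linarith, by linarith, by nlinarith⟩

lemma good_zero {l c d : ℂ} (hl : 0 < l.re) (h : 0 < (l * c * conj d).re) :
    Good 0 ((l * c + conj l * d)⁻¹ * c) ((l * c + conj l * d)⁻¹ * d) l⁻¹ := by
  have hW := W_ne hl h
  have hl0 : l ≠ 0 := by rintro rfl; simp at hl
  have hl1 : conj l ≠ 0 := by simpa using hl0
  have hW1 : conj l * conj c + l * conj d ≠ 0 := by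
    intro h0; apply hW
    have := congrArg (starRingEnd ℂ) h0
    simpa using this
  have hk : 0 < (l⁻¹).re := by
    rw [Complex.inv_re]; exact div_pos hl (Complex.normSq_pos.2 hl0)
  have := good_aux (κ := l⁻¹) (α := l * c / (l * c + conj l * d)) hk (by
    have e : l * c / (l * c + conj l * d) * (1 - conj (l * c / (l * c + conj l * d))) * l⁻¹ =
        ((Complex.normSq (l * c + conj l * d))⁻¹ : ℝ) * (l * c * conj d) := by
      push_cast
      rw [← Complex.mul_conj]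
      simp only [map_div₀, map_mul, map_add, Complex.conj_conj]
      field_simp
      ring
    rw [e, Complex.re_ofReal_mul]
    exact mul_pos (inv_pos.2 (Complex.normSq_pos.2 hW)) h)
  convert this using 1
  · field_simp
  · rw [map_inv₀]; field_simp; ring

lemma Good.ev {ι : Type*} {F : Filter ι} {γ : ι → ℝ} {C D κ : ι → ℂ} {γ₀ : ℝ} {C₀ D₀ κ₀ : ℂ}
    (h : Good γ₀ C₀ D₀ κ₀) (hγ : Tendsto γ F (𝓝 γ₀)) (hC : Tendsto C F (𝓝 C₀))
    (hD : Tendsto D F (𝓝 D₀)) (hκ : Tendsto κ F (𝓝 κ₀)) :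
    ∀ᶠ i in F, Good (γ i) (C i) (D i) (κ i) := by
  have hCr : Tendsto (fun i => (C i).re) F (𝓝 C₀.re) := (Complex.continuous_re.tendsto _).comp hC
  have hDr : Tendsto (fun i => (D i).re) F (𝓝 D₀.re) := (Complex.continuous_re.tendsto _).comp hD
  have hDc : Tendsto (fun i => conj (D i)) F (𝓝 (conj D₀)) :=
    (Complex.continuous_conj.tendsto _).comp hD
  have h3 := (((hC.add hDc).sub hκ).norm.pow 2).eventually_lt
    (((hCr.sub hγ).const_mul 4).mul (hDr.sub hγ)) h.2.2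
  filter_upwards [hγ.eventually_lt hCr h.1, hγ.eventually_lt hDr h.2.1, h3] with i h1 h2 h3
  exact ⟨h1, h2, h3⟩

lemma Good.mono {γ γ' : ℝ} {C D κ : ℂ} (h : Good γ C D κ) (hle : γ' ≤ γ) : Good γ' C D κ := by
  obtain ⟨h1, h2, h3⟩ := h
  refine ⟨by linarith, by linarith, h3.trans_le ?_⟩
  have : 0 ≤ D.re - γ := by linarith
  have : 0 ≤ C.re - γ' := by linarith
  gcongr

lemma Good.pos {C D κ : ℂ} (h : Good 0 C D κ) : ∃ γ, 0 < γ ∧ Good γ C D κ := by
  have := h.ev (F := 𝓝[>] (0:ℝ)) (γ := fun x => x) (C := fun _ => C) (D := fun _ => D)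
    (κ := fun _ => κ) (tendsto_id.mono_left nhdsWithin_le_nhds) tendsto_const_nhds
    tendsto_const_nhds tendsto_const_nhds
  obtain ⟨γ, h1, h2⟩ := (this.and self_mem_nhdsWithin).exists
  exact ⟨γ, h2, h1⟩

lemma Good.conj {γ : ℝ} {C D κ : ℂ} (h : Good γ C D κ) : Good γ (conj C) (conj D) (conj κ) := by
  obtain ⟨h1, h2, h3⟩ := h
  refine ⟨h1, h2, ?_⟩
  rw [← map_add, ← map_sub, Complex.norm_conj]
  exact h3

lemma Good.form0 {γ : ℝ} {C D κ : ℂ} (h : Good γ C D κ) (u v : ℂ) :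
    γ * (‖u‖ ^ 2 + ‖v‖ ^ 2) ≤ (conj (C * u + D * v) * (u + v)).re - (conj (κ * u) * v).re := by
  obtain ⟨h1, h2, h3⟩ := h
  have e : (conj (C * u + D * v) * (u + v)).re - (conj (κ * u) * v).re =
      C.re * ‖u‖ ^ 2 + D.re * ‖v‖ ^ 2 + ((C + conj D - κ) * u * conj v).re := by
    rw [← Complex.normSq_eq_norm_sq, ← Complex.normSq_eq_norm_sq]
    simp [Complex.normSq_apply]
    ring
  have h4 : -(‖C + conj D - κ‖ * ‖u‖ * ‖v‖) ≤ ((C + conj D - κ) * u * conj v).re := by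
    have := Complex.abs_re_le_norm ((C + conj D - κ) * u * conj v)
    rw [norm_mul, norm_mul, Complex.norm_conj] at this
    exact neg_le_of_abs_le this
  rw [e]
  set x := ‖u‖
  set y := ‖v‖
  set E := ‖C + conj D - κ‖
  have ha : 0 < C.re - γ := by linarith
  have h5 : 0 ≤ (C.re - γ) * x ^ 2 + (D.re - γ) * y ^ 2 - E * x * y := by
    have h6 : 0 ≤ 4 * (C.re - γ) * ((C.re - γ) * x ^ 2 + (D.re - γ) * y ^ 2 - E * x * y) := by
      nlinarith [sq_nonneg (2 * (C.re - γ) * x - E * y), mul_nonneg (sub_nonneg.2 h3.le) (sq_nonneg y)]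
    by_contra hc
    push Not at hc
    nlinarith
  nlinarith

lemma Good.form {γ : ℝ} {A B κ : ℂ} (hγ : 0 < γ) (h : Good γ (A + B) (A - B) κ) (f g : ℂ) :
    γ / 2 * ‖f‖ ^ 2 ≤
      (conj (A * f + B * g) * f).re - ((1/4 : ℂ) * (conj (κ * (f + g)) * (f - g))).re := by
  have h1 := h.form0 ((f + g) / 2) ((f - g) / 2)
  have e1 : (A + B) * ((f + g) / 2) + (A - B) * ((f - g) / 2) = A * f + B * g := by ring
  have e2 : (f + g) / 2 + (f - g) / 2 = f := by ring
  have e3 : conj (κ * ((f + g) / 2)) * ((f - g) / 2) =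
      (1/4 : ℂ) * (conj (κ * (f + g)) * (f - g)) := by
    have : conj (2:ℂ) = 2 := Complex.conj_ofNat 2
    simp only [map_mul, map_div₀, this]; ring
  rw [e1, e2, e3] at h1
  refine le_trans ?_ h1
  have h2 : ‖f‖ ≤ ‖(f + g) / 2‖ + ‖(f - g) / 2‖ := by
    conv_lhs => rw [← e2]
    exact norm_add_le _ _
  have h3 : ‖f‖ ^ 2 ≤ 2 * (‖(f + g) / 2‖ ^ 2 + ‖(f - g) / 2‖ ^ 2) := by
    nlinarith [norm_nonneg f, sq_nonneg (‖(f + g) / 2‖ - ‖(f - g) / 2‖)]
  nlinarith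

end Pool.Agent.H783Z.SIO
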