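import Pool.Agent.H783Z.SIOReg
import Pool.Agent.H783Z.SIOAbs

set_option autoImplicit false
open MeasureTheory Filter Topology
open scoped ENNReal

namespace Pool.Agent.H783Z.SIO

noncomputable abbrev H := Lp ℂ 2 mu

abbrev Op := H →L[ℂ] H

def IsMul (g : Cir → ℂ) (M : Op) : Prop :=
  ∀ f : H, (M f : Cir → ℂ) =ᵐ[mu] fun x => g x * f x

noncomputable abbrev ee (n : ℤ) : H := fourierLp (T := (1:ℝ)) 2 n

noncomputable def sg (n : ℤ) : ℂ := if 0 ≤ n then (1:ℂ) else -1

def IsS (S : Op) : Prop := ∀ n : ℤ, S (ee n) = sg n • ee n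

lemma inner_eq (f g : H) : inner ℂ f g = ∫ z, (starRingEnd ℂ) (f z) * g z ∂mu := by
  rw [L2.inner_def]
  refine integral_congr_ae (Eventually.of_forall fun z => ?_)
  simp [mul_comm]

lemma integrable_inner (f g : H) : Integrable (fun z => (starRingEnd ℂ) (f z) * g z) mu := by
  refine (L2.integrable_inner (𝕜 := ℂ) f g).congr (Eventually.of_forall fun z => ?_)
  simp [mul_comm]

noncomputable def mulL : Lp ℂ ∞ mu →L[ℂ] Op := (ContinuousLinearMap.mul ℂ ℂ).holderL mu ∞ 2 2

lemma mulL_isMul (G : Lp ℂ ∞ mu) : IsMul G (mulL G) := fun f =>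
  (ContinuousLinearMap.mul ℂ ℂ).coeFn_holder G f

lemma IsMul.congr {g g' : Cir → ℂ} {M : Op} (h : IsMul g M) (e : g =ᵐ[mu] g') : IsMul g' M := by
  intro f
  filter_upwards [h f, e] with z h1 h2
  rw [h1, h2]

lemma Reg.exists_mul {g : Cir → ℂ} (hg : Reg g) : ∃ M, IsMul g M := by
  obtain ⟨C, -, hC⟩ := hg.bdd
  have hm : MemLp g ∞ mu :=
    memLp_top_of_bound hg.meas.aestronglyMeasurable C (Eventually.of_forall hC)
  exact ⟨mulL hm.toLp, (mulL_isMul _).congr hm.coeFn_toLp⟩

lemma IsMul.unique {g : Cir → ℂ} {M M' : Op} (h : IsMul g M) (h' : IsMul g M') : M = M' := by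
  ext1 f
  exact Lp.ext ((h f).trans (h' f).symm)

lemma isMul_one : IsMul (fun _ => 1) 1 := fun f => Eventually.of_forall fun z => by simp

lemma IsMul.mul {g g' : Cir → ℂ} {M M' : Op} (h : IsMul g M) (h' : IsMul g' M') :
    IsMul (fun z => g z * g' z) (M * M') := by
  intro f
  filter_upwards [h (M' f), h' f] with z h1 h2
  rw [ContinuousLinearMap.mul_apply, h1, h2, mul_assoc]

lemma IsMul.star {g : Cir → ℂ} {M M' : Op} (h : IsMul g M)
    (h' : IsMul (fun z => (starRingEnd ℂ) (g z)) M') : star M = M' := by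
  rw [ContinuousLinearMap.star_eq_adjoint]
  symm
  rw [ContinuousLinearMap.eq_adjoint_iff]
  intro f k
  rw [inner_eq, inner_eq]
  refine integral_congr_ae ?_
  filter_upwards [h k, h' f] with z h1 h2
  rw [h1, h2]
  simp only [map_mul, Complex.conj_conj]
  ring

lemma IsMul.star' {g : Cir → ℂ} {M : Op} (hg : Reg g) (h : IsMul g M) :
    IsMul (fun z => (starRingEnd ℂ) (g z)) (Star.star M) := by
  obtain ⟨M', hM'⟩ := hg.conj.exists_mul
  rw [h.star hM']; exact hM'

lemma dense_ee : Dense (Submodule.span ℂ (Set.range ee) : Set H) := by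
  rw [Submodule.dense_iff_topologicalClosure_eq_top]
  exact span_fourierLp_closure_eq_top (by simp)

lemma clm_ext {F : Type*} [NormedAddCommGroup F] [NormedSpace ℂ F] {A B : H →L[ℂ] F}
    (h : ∀ n, A (ee n) = B (ee n)) : A = B :=
  ContinuousLinearMap.ext_on dense_ee (by rintro _ ⟨n, rfl⟩; exact h n)

lemma vec_ext {f g : H} (h : ∀ n, inner ℂ (ee n) f = inner ℂ (ee n) g) : f = g := by
  have : innerSL ℂ f = innerSL ℂ g := by
    apply clm_ext
    intro n
    rw [innerSL_apply_apply, innerSL_apply_apply, ← inner_conj_symm, h, inner_conj_symm]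
  apply ext_inner_right ℂ
  intro v
  have := congrArg (fun A => A v) this
  simpa using this

lemma inner_ee (m n : ℤ) : inner ℂ (ee m) (ee n) = if m = n then 1 else 0 :=
  orthonormal_iff_ite.1 orthonormal_fourier m n

lemma conj_sg (n : ℤ) : (starRingEnd ℂ) (sg n) = sg n := by
  unfold sg; split_ifs <;> simp

lemma sg_sq (n : ℤ) : sg n * sg n = 1 := by
  unfold sg; split_ifs <;> simp

lemma IsS.star {S : Op} (h : IsS S) : star S = S := by
  apply clm_ext
  intro n
  apply vec_ext
  intro m
  rw [ContinuousLinearMap.star_eq_adjoint, ContinuousLinearMap.adjoint_inner_right, h, h,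
    inner_smul_left, inner_smul_right, conj_sg, inner_ee]
  split_ifs with e
  · rw [e]
  · simp

lemma IsS.sq {S : Op} (h : IsS S) : S * S = 1 := by
  apply clm_ext
  intro n
  rw [ContinuousLinearMap.mul_apply, h, map_smul, h, smul_smul, sg_sq, one_smul]
  rfl

lemma IsS.inner_left {S : Op} (h : IsS S) (f g : H) : inner ℂ (S f) g = inner ℂ f (S g) := by
  conv_lhs => rw [← h.star]
  rw [ContinuousLinearMap.star_eq_adjoint, ContinuousLinearMap.adjoint_inner_left]

lemma IsS.fix {S : Op} (h : IsS S) {f : H} (hf : ∀ n < 0, inner ℂ (ee n) f = 0) : S f = f := by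
  apply vec_ext
  intro n
  rw [← h.inner_left, h, inner_smul_left, conj_sg]
  unfold sg
  split_ifs with e
  · simp
  · rw [hf n (by omega)]; simp

lemma IsS.neg {S : Op} (h : IsS S) {f : H} (hf : ∀ n, 0 ≤ n → inner ℂ (ee n) f = 0) :
    S f = -f := by
  apply vec_ext
  intro n
  rw [← h.inner_left, h, inner_smul_left, conj_sg, inner_neg_right]
  unfold sg
  split_ifs with e
  · rw [hf n e]; simp
  · simp

noncomputable def mulC : C(Cir, ℂ) →L[ℂ] Op := mulL.comp (ContinuousMap.toLp ∞ mu ℂ)

lemma mulC_isMul (κ : C(Cir, ℂ)) : IsMul κ (mulC κ) :=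
  (mulL_isMul _).congr (ContinuousMap.coeFn_toLp mu κ)

lemma mulC_fourier (n k : ℤ) : mulC (fourier n) (ee k) = ee (n + k) := by
  apply Lp.ext
  filter_upwards [mulC_isMul (fourier n) (ee k), coeFn_fourierLp (T := (1:ℝ)) 2 k,
    coeFn_fourierLp (T := (1:ℝ)) 2 (n + k)] with z h1 h2 h3
  rw [h1, h2, h3, fourier_add]

lemma compact_rank_one (u v : H) : IsCompactOperator ((innerSL ℂ u).smulRight v : Op) := by
  have h1 : IsCompactOperator (innerSL ℂ u) := isCompactOperator_of_locallyCompactSpace_dom _
  exact h1.clm_comp (ContinuousLinearMap.toSpanSingleton ℂ v)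

lemma compact_sum {ι : Type*} (F : Finset ι) (A : ι → Op) (h : ∀ i, IsCompactOperator (A i)) :
    IsCompactOperator (∑ i ∈ F, A i : Op) := by
  classical
  induction F using Finset.induction_on with
  | empty => simpa using isCompactOperator_zero
  | insert a s ha ih =>
    rw [Finset.sum_insert ha]
    exact (h a).add ih

lemma IsS.comm_fourier {S : Op} (h : IsS S) (n : ℤ) :
    IsCompactOperator (S * mulC (fourier n) - mulC (fourier n) * S : Op) := by
  have e : (S * mulC (fourier n) - mulC (fourier n) * S : Op) =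
      ∑ k ∈ Finset.Icc (-|n|) |n|,
        ((innerSL ℂ (ee k)).smulRight ((sg (n + k) - sg k) • ee (n + k)) : Op) := by
    apply clm_ext
    intro m
    rw [ContinuousLinearMap.sub_apply, ContinuousLinearMap.mul_apply,
      ContinuousLinearMap.mul_apply, mulC_fourier, h, h, map_smul, mulC_fourier, ← sub_smul,
      ContinuousLinearMap.sum_apply]
    simp only [ContinuousLinearMap.smulRight_apply, innerSL_apply_apply, inner_ee, ite_smul,
      one_smul, zero_smul, Finset.sum_ite_eq']
    split_ifs with hm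
    · rfl
    · have : sg (n + m) = sg m := by
        rw [Finset.mem_Icc] at hm
        have h1 := le_abs_self n
        have h2 := neg_abs_le n
        unfold sg
        split_ifs <;> first | rfl | omega
      rw [this, sub_self, zero_smul]
  rw [e]
  exact compact_sum _ _ fun k => compact_rank_one _ _

lemma IsS.comm {S : Op} (h : IsS S) (κ : C(Cir, ℂ)) :
    IsCompactOperator (S * mulC κ - mulC κ * S : Op) := by
  have hd : Dense (Submodule.span ℂ (Set.range (fourier (T := (1:ℝ)))) : Set C(Cir, ℂ)) := by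
    rw [Submodule.dense_iff_topologicalClosure_eq_top]
    exact span_fourier_closure_eq_top
  have hc : Continuous fun κ : C(Cir, ℂ) => (S * mulC κ - mulC κ * S : Op) := by fun_prop
  have hcl : IsClosed {κ : C(Cir, ℂ) | IsCompactOperator (S * mulC κ - mulC κ * S : Op)} :=
    isClosed_setOfPred_isCompactOperator.preimage hc
  refine hcl.closure_subset_iff.2 ?_ (hd κ)
  clear κ
  intro κ hκ
  induction hκ using Submodule.span_induction with
  | mem x hx => obtain ⟨n, rfl⟩ := hx; exact h.comm_fourier n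
  | zero => simpa using isCompactOperator_zero
  | add x y _ _ hx hy =>
    have e : (S * mulC (x + y) - mulC (x + y) * S : Op) =
        (S * mulC x - mulC x * S) + (S * mulC y - mulC y * S) := by
      rw [map_add]; noncomm_ring
    show IsCompactOperator (S * mulC (x + y) - mulC (x + y) * S : Op)
    rw [e]; exact hx.add hy
  | smul c x _ hx =>
    have e : (S * mulC (c • x) - mulC (c • x) * S : Op) = c • (S * mulC x - mulC x * S) := by
      rw [map_smul, mul_smul_comm, smul_mul_assoc, smul_sub]
    show IsCompactOperator (S * mulC (c • x) - mulC (c • x) * S : Op)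
    rw [e]; exact hx.smul c

end Pool.Agent.H783Z.SIO
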