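import Pool.Agent.H783Z.SIOMul
import Pool.Agent.H783Z.SIOAlg

set_option autoImplicit false
open MeasureTheory Filter Topology ComplexConjugate

namespace Pool.Agent.H783Z.SIO

lemma re_inner (f g : H) : (inner ℂ f g).re = ∫ z, (conj (f z) * g z).re ∂mu := by
  rw [inner_eq]
  exact (integral_re (𝕜 := ℂ) (integrable_inner f g)).symm

lemma integrable_re_inner (f g : H) : Integrable (fun z => (conj (f z) * g z).re) mu :=
  (integrable_inner f g).re

lemma norm_sq_inner (f : H) : ‖f‖ ^ 2 = (inner ℂ f f).re := by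
  rw [inner_self_eq_norm_sq_to_K]; norm_cast

lemma ell_of_good {S MA MB : Op} {A B : Cir → ℂ} (hS : IsS S) (hA : IsMul A MA)
    (hB : IsMul B MB) (κ : C(Cir, ℂ)) {γ : ℝ} (hγ : 0 < γ)
    (h : ∀ᵐ z ∂mu, Good γ (A z + B z) (A z - B z) (κ z)) : Ell (MA + MB * S) := by
  have hst : star (mulC κ) = mulC (star κ) := (mulC_isMul κ).star (mulC_isMul (star κ))
  refine ⟨(1/4 : ℂ) • ((1 - S) * mulC κ * (1 + S)), ?_, ?_, γ / 2, by positivity, fun f => ?_⟩
  · have e : ((1 - S) * mulC κ * (1 + S) : Op) =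
        S * (S * mulC κ - mulC κ * S) * 1 - (S * mulC κ - mulC κ * S) := by
      have : S * (S * mulC κ - mulC κ * S) * 1 = (S * S) * mulC κ - S * mulC κ * S := by
        noncomm_ring
      rw [this, hS.sq]; noncomm_ring
    rw [e]
    exact ((compact_sand (hS.comm κ) S 1).sub (hS.comm κ)).smul (1/4 : ℂ)
  · have e : (star ((1/4 : ℂ) • ((1 - S) * mulC κ * (1 + S))) : Op) = star (1/4 : ℂ) •
        (S * (S * mulC (star κ) - mulC (star κ) * S) * 1 +
          (S * mulC (star κ) - mulC (star κ) * S)) := by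
      rw [star_smul, star_mul, star_mul, star_add, star_sub, star_one, hS.star, hst]
      congr 1
      have : S * (S * mulC (star κ) - mulC (star κ) * S) * 1 =
          (S * S) * mulC (star κ) - S * mulC (star κ) * S := by
        noncomm_ring
      rw [this, hS.sq]; noncomm_ring
    rw [e]
    exact ((compact_sand (hS.comm _) S 1).add (hS.comm _)).smul (star (1/4 : ℂ))
  · have e1 : inner ℂ (((1/4 : ℂ) • ((1 - S) * mulC κ * (1 + S)) : Op) f) f =
        inner ℂ (mulC κ (f + S f)) ((1/4 : ℂ) • (f - S f)) := by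
      have : conj (1/4 : ℂ) = 1/4 := by
        rw [map_div₀, map_one, Complex.conj_ofNat]
      rw [ContinuousLinearMap.smul_apply, inner_smul_left, inner_smul_right, this,
        ContinuousLinearMap.mul_apply, ContinuousLinearMap.mul_apply,
        ContinuousLinearMap.sub_apply, ContinuousLinearMap.add_apply,
        ContinuousLinearMap.one_apply, ContinuousLinearMap.one_apply, inner_sub_left,
        hS.inner_left, inner_sub_right]
    rw [e1, norm_sq_inner, re_inner, re_inner, re_inner, ← integral_const_mul,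
      ← integral_sub (integrable_re_inner _ _) (integrable_re_inner _ _)]
    refine integral_mono_ae ((integrable_re_inner _ _).const_mul _)
      ((integrable_re_inner _ _).sub (integrable_re_inner _ _)) ?_
    filter_upwards [h, hA f, hB (S f), mulC_isMul κ (f + S f), Lp.coeFn_add f (S f),
      Lp.coeFn_sub f (S f), Lp.coeFn_smul (1/4 : ℂ) (f - S f),
      Lp.coeFn_add (MA f) (MB (S f))] with z h0 h1 h2 h3 h4 h5 h6 h7
    have e2 : ((MA + MB * S) f : H) = MA f + MB (S f) := rfl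
    rw [e2, h7, h3, h4, h6]
    simp only [Pi.add_apply, Pi.smul_apply, h5, Pi.sub_apply, h1, h2, smul_eq_mul]
    have := h0.form hγ (f z) (S f z)
    have e3 : (conj (f z) * f z).re = ‖f z‖ ^ 2 := by
      rw [mul_comm, Complex.mul_conj, Complex.ofReal_re, Complex.normSq_eq_norm_sq]
    have e4 : conj (κ z * (f z + S f z)) * (1 / 4 * (f z - S f z)) =
      (1/4 : ℂ) * (conj (κ z * (f z + S f z)) * (f z - S f z)) := by ring
    rw [e3, e4]
    exact this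

lemma exists_lam {c d : Cir → ℂ} (hc : Reg c) (hd : Reg d)
    (h3 : ∀ (x : ℝ) (cp dp cm dm : ℂ), LimR c x cp → LimR d x dp → LimL c x cm → LimL d x dm →
      Cond3 cp dp cm dm) :
    ∃ l : C(Cir, ℂ), ∀ y, 0 < (l y).re ∧
      ∃ ε : ℝ, 0 < ε ∧ ∀ᶠ z in 𝓝[≠] y, ε ≤ (l y * c z * conj (d z)).re := by
  let t : Cir → Set ℂ := fun y => {l | 0 < l.re ∧
      ∃ ε : ℝ, 0 < ε ∧ ∀ᶠ z in 𝓝[≠] y, ε ≤ (l * c z * conj (d z)).re}
  refine exists_continuous_forall_mem_convex_of_local_const (t := t) (fun y => ?_) (fun y => ?_)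
  · rintro l ⟨h1, ε, hε, h2⟩ l' ⟨h1', ε', hε', h2'⟩ a b ha hb hab
    have hpos : ∀ p q m : ℝ, m ≤ p → m ≤ q → m ≤ a * p + b * q := by
      intro p q m hp hq
      have : m = a * m + b * m := by rw [← add_mul, hab, one_mul]
      rw [this]; gcongr
    refine ⟨?_, min ε ε', lt_min hε hε', ?_⟩
    · simp only [Complex.real_smul, Complex.add_re, Complex.re_ofReal_mul]
      exact (lt_min h1 h1').trans_le (hpos _ _ _ (min_le_left _ _) (min_le_right _ _))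
    · filter_upwards [h2, h2'] with z hz hz'
      have e : (a • l + b • l') * c z * conj (d z) =
          (a : ℂ) * (l * c z * conj (d z)) + (b : ℂ) * (l' * c z * conj (d z)) := by
        simp only [Complex.real_smul]; ring
      rw [e, Complex.add_re, Complex.re_ofReal_mul, Complex.re_ofReal_mul]
      exact hpos _ _ _ ((min_le_left _ _).trans hz) ((min_le_right _ _).trans hz')
  · obtain ⟨x, rfl⟩ := QuotientAddGroup.mk_surjective y
    obtain ⟨⟨cm, hcm⟩, ⟨cp, hcp⟩⟩ := hc x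
    obtain ⟨⟨dm, hdm⟩, ⟨dp, hdp⟩⟩ := hd x
    obtain ⟨l, h0, h1, h2⟩ := (h3 x cp dp cm dm hcp hdp hcm hdm).lam
    obtain ⟨ε, hε, hlt⟩ := exists_between (lt_min h1 h2)
    have hev : ∀ᶠ z in 𝓝[≠] (x : Cir), ε ≤ (l * c z * conj (d z)).re := by
      apply ev_circle
      · have := (Complex.continuous_re.tendsto _).comp ((hcm.const_mul l).mul (lim_conj hdm))
        exact (this.eventually (lt_mem_nhds (hlt.trans_le (min_le_right _ _)))).mono
          fun s hs => le_of_lt hs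
      · have := (Complex.continuous_re.tendsto _).comp ((hcp.const_mul l).mul (lim_conj hdp))
        exact (this.eventually (lt_mem_nhds (hlt.trans_le (min_le_left _ _)))).mono
          fun s hs => le_of_lt hs
    refine ⟨l, ?_⟩
    have hev2 := eventually_nhdsWithin_iff.1 hev
    filter_upwards [hev2.eventually_nhds] with y hy
    refine ⟨h0, ε, hε, ?_⟩
    by_cases hyx : y = x
    · rw [hyx]; exact hev
    · have : ∀ᶠ z in 𝓝 y, z ≠ (x : Cir) := isOpen_ne.mem_nhds hyx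
      apply nhdsWithin_le_nhds
      filter_upwards [hy, this] with z h1 h2
      exact h1 h2

open Classical in
lemma suff_pack {c d : Cir → ℂ} (hc : Reg c) (hd : Reg d)
    (h3 : ∀ (x : ℝ) (cp dp cm dm : ℂ), LimR c x cp → LimR d x dp → LimL c x cm → LimL d x dm →
      Cond3 cp dp cm dm) :
    ∃ Θ : Cir → ℂ, Reg Θ ∧ (∀ z, Θ z ≠ 0) ∧ NZ Θ ∧ ∃ κ : C(Cir, ℂ), ∃ γ : ℝ, 0 < γ ∧
      ∀ᵐ z ∂mu, Good γ (Θ z * c z) (Θ z * d z) (κ z) := by
  obtain ⟨l, hl⟩ := exists_lam hc hd h3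
  have hl0 : ∀ y, l y ≠ 0 := fun y h0 => by have := (hl y).1; rw [h0] at this; simp at this
  let W : Cir → ℂ := fun z => l z * c z + conj (l z) * d z
  let Θ : Cir → ℂ := fun z => if W z = 0 then 1 else (W z)⁻¹
  let κ : C(Cir, ℂ) := ⟨fun z => (l z)⁻¹, l.continuous.inv₀ hl0⟩
  have key : ∀ (x : ℝ) (F : Filter ℝ) [F.NeBot] (c0 d0 : ℂ), F ≤ 𝓝[≠] x →
      Tendsto (fun s : ℝ => c s) F (𝓝 c0) → Tendsto (fun s : ℝ => d s) F (𝓝 d0) →
      ∃ θ : ℂ, θ ≠ 0 ∧ Tendsto (fun s : ℝ => Θ s) F (𝓝 θ) ∧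
        ∃ γ : ℝ, 0 < γ ∧ ∀ᶠ s : ℝ in F, Good γ (Θ s * c s) (Θ s * d s) (κ s) := by
    intro x F _ c0 d0 hF h1 h2
    obtain ⟨h0, ε, hε, hev⟩ := hl x
    have hev2 : ∀ᶠ s : ℝ in F, ε ≤ (l x * c s * conj (d s)).re :=
      ((tendsto_coe x).mono_left hF).eventually hev
    have h4 : ε ≤ (l x * c0 * conj d0).re :=
      ge_of_tendsto ((Complex.continuous_re.tendsto _).comp ((h1.const_mul _).mul (lim_conj h2)))
        hev2
    have h5 : 0 < (l x * c0 * conj d0).re := hε.trans_le h4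
    have hW := W_ne h0 h5
    have hlx : Tendsto (fun s : ℝ => l s) F (𝓝 (l x)) :=
      ((l.continuous.comp cont_coe).tendsto x).mono_left (hF.trans nhdsWithin_le_nhds)
    have hWt : Tendsto (fun s : ℝ => W s) F (𝓝 (l x * c0 + conj (l x) * d0)) :=
      (hlx.mul h1).add ((lim_conj hlx).mul h2)
    have hΘ : Tendsto (fun s : ℝ => Θ s) F (𝓝 (l x * c0 + conj (l x) * d0)⁻¹) := by
      refine (hWt.inv₀ hW).congr' ?_
      filter_upwards [hWt.eventually_ne hW] with s hs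
      simp only [Θ, if_neg hs]
    obtain ⟨γ, hγ, hg⟩ := (good_zero h0 h5).pos
    exact ⟨_, inv_ne_zero hW, hΘ, γ, hγ,
      hg.ev tendsto_const_nhds (hΘ.mul h1) (hΘ.mul h2) (hlx.inv₀ (hl0 x))⟩
  have key2 : ∀ x : ℝ, (∃ θ : ℂ, θ ≠ 0 ∧ LimL Θ x θ ∧
        ∃ γ : ℝ, 0 < γ ∧ ∀ᶠ s : ℝ in 𝓝[<] x, Good γ (Θ s * c s) (Θ s * d s) (κ s)) ∧
      (∃ θ : ℂ, θ ≠ 0 ∧ LimR Θ x θ ∧
        ∃ γ : ℝ, 0 < γ ∧ ∀ᶠ s : ℝ in 𝓝[>] x, Good γ (Θ s * c s) (Θ s * d s) (κ s)) := by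
    intro x
    obtain ⟨⟨cm, hcm⟩, ⟨cp, hcp⟩⟩ := hc x
    obtain ⟨⟨dm, hdm⟩, ⟨dp, hdp⟩⟩ := hd x
    exact ⟨key x _ cm dm (nhdsLT_le_nhdsNE x) hcm hdm, key x _ cp dp (nhdsGT_le_nhdsNE x) hcp hdp⟩
  refine ⟨Θ, fun x => ?_, fun z => ?_, fun x => ?_, κ, ?_⟩
  · obtain ⟨⟨θ, -, h1, -⟩, ⟨θ', -, h2, -⟩⟩ := key2 x
    exact ⟨⟨_, h1⟩, ⟨_, h2⟩⟩
  · simp only [Θ]
    split_ifs with h
    · exact one_ne_zero
    · exact inv_ne_zero h
  · obtain ⟨⟨θ, h0, h1, -⟩, ⟨θ', h0', h2, -⟩⟩ := key2 x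
    exact ⟨fun h => h0 (tendsto_nhds_unique h1 h), fun h => h0' (tendsto_nhds_unique h2 h)⟩
  · apply ae_unif (Φ := fun γ z => Good γ (Θ z * c z) (Θ z * d z) (κ z))
    · intro γ γ' z _ h1 h2
      exact h2.mono h1
    · intro x
      obtain ⟨⟨θ, -, -, γ, hγ, h1⟩, ⟨θ', -, -, γ', hγ', h2⟩⟩ := key2 x
      refine ⟨min γ γ', lt_min hγ hγ', ev_circle ?_ ?_⟩
      · exact h1.mono fun s hs => hs.mono (min_le_left _ _)
      · exact h2.mono fun s hs => hs.mono (min_le_right _ _)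

/-- sufficiency, first form -/
lemma suff1 {a b : Cir → ℂ} (ha : Reg a) (hb : Reg b) {S Ma Mb : Op} (hS : IsS S)
    (hMa : IsMul a Ma) (hMb : IsMul b Mb)
    (h3 : ∀ (x : ℝ) (ap am bp bm : ℂ), LimR a x ap → LimL a x am → LimR b x bp → LimL b x bm →
      Cond3 (ap + bp) (ap - bp) (am + bm) (am - bm)) :
    ∃ Θ : Cir → ℂ, Reg Θ ∧ (∀ z, Θ z ≠ 0) ∧ NZ Θ ∧
      ∀ MΘ : Op, IsMul Θ MΘ → Ell (MΘ * Ma + MΘ * Mb * S) ∧
        Ell (star (MΘ * Ma) + star (MΘ * Mb) * S) := by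
  obtain ⟨Θ, h1, h2, h4, κ, γ, hγ, h5⟩ := suff_pack (ha.add hb) (ha.sub hb) (by
    intro x cp dp cm dm e1 e2 e3 e4
    obtain ⟨⟨am, ham⟩, ⟨ap, hap⟩⟩ := ha x
    obtain ⟨⟨bm, hbm⟩, ⟨bp, hbp⟩⟩ := hb x
    rw [tendsto_nhds_unique e1 (hap.add hbp), tendsto_nhds_unique e2 (hap.sub hbp),
      tendsto_nhds_unique e3 (ham.add hbm), tendsto_nhds_unique e4 (ham.sub hbm)]
    exact h3 x ap am bp bm hap ham hbp hbm)
  refine ⟨Θ, h1, h2, h4, fun MΘ hΘ => ⟨?_, ?_⟩⟩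
  · refine ell_of_good hS (hΘ.mul hMa) (hΘ.mul hMb) κ hγ (h5.mono fun z hz => ?_)
    rwa [← mul_add, ← mul_sub]
  · refine ell_of_good hS ((hΘ.mul hMa).star' (h1.mul ha)) ((hΘ.mul hMb).star' (h1.mul hb))
      (star κ) hγ (h5.mono fun z hz => ?_)
    rw [← map_add, ← map_sub, ← mul_add, ← mul_sub]
    exact hz.conj

lemma mul_inv_op {Θ : Cir → ℂ} (h : ∀ z, Θ z ≠ 0) {M N : Op} (hM : IsMul Θ M)
    (hN : IsMul (fun z => (Θ z)⁻¹) N) : M * N = 1 ∧ N * M = 1 :=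
  ⟨((hM.mul hN).congr (Eventually.of_forall fun z => mul_inv_cancel₀ (h z))).unique isMul_one,
   ((hN.mul hM).congr (Eventually.of_forall fun z => inv_mul_cancel₀ (h z))).unique isMul_one⟩

lemma mul_comm_op {g g' : Cir → ℂ} {M N : Op} (hM : IsMul g M) (hN : IsMul g' N) :
    M * N = N * M :=
  ((hM.mul hN).congr (Eventually.of_forall fun _ => mul_comm _ _)).unique (hN.mul hM)

/-- sufficiency, second form -/
lemma suff2 {a b : Cir → ℂ} (ha : Reg a) (hb : Reg b) {S Ma Mb : Op} (hS : IsS S)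
    (hMa : IsMul a Ma) (hMb : IsMul b Mb)
    (h3 : ∀ (x : ℝ) (ap am bp bm : ℂ), LimR a x ap → LimL a x am → LimR b x bp → LimL b x bm →
      Cond3 (ap + bp) (ap - bp) (am + bm) (am - bm)) :
    ∃ Θ : Cir → ℂ, Reg Θ ∧ (∀ z, Θ z ≠ 0) ∧
      ∀ MΘ : Op, IsMul Θ MΘ → Ell (MΘ * (Ma + S * Mb)) := by
  obtain ⟨Θ, h1, h2, h4, h5⟩ := suff1 ha hb hS hMa hMb h3
  refine ⟨fun z => conj (Θ z)⁻¹, (h1.inv h4).conj, fun z => by simpa using h2 z, fun N hN => ?_⟩
  obtain ⟨M, hM⟩ := h1.exists_mul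
  obtain ⟨V, hV⟩ := (h1.inv h4).exists_mul
  have e1 : star V = N := hV.star hN
  obtain ⟨e2, e3⟩ := mul_inv_op h2 hM hV
  have := (h5 M hM).2.star.sand (B := V) (R := M) e2
  rw [star_add, star_mul (star (M * Mb)), star_star, star_star, hS.star, e1] at this
  have e4 : N * (M * Ma + S * (M * Mb)) * V = N * (Ma * (M * V) + S * Mb * (M * V)) := by
    rw [mul_comm_op hM hMa, mul_comm_op hM hMb]; noncomm_ring
  rwa [e4, e2, mul_one, mul_one] at this

end Pool.Agent.H783Z.SIO
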