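import Pool.Agent.H783Z.SIOTest
import Pool.Agent.H783Z.SIOSuff

set_option autoImplicit false
open MeasureTheory Filter Topology ComplexConjugate

namespace Pool.Agent.H783Z.SIO

/-- the limit form -/
noncomputable def JJ (cp dp cm dm ζ a b : ℂ) : ℂ :=
  conj (cp * (a * ζ) + dp * (b * ζ⁻¹)) * (a * ζ + b * ζ⁻¹) +
    conj (cm * (a * ζ⁻¹) + dm * (b * ζ)) * (a * ζ⁻¹ + b * ζ)

lemma re_conj_mul (c z : ℂ) : (conj (c * z) * z).re = c.re * Complex.normSq z := by
  simp [Complex.normSq_apply]; ring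

lemma JJ_diag (c d ζ a b : ℂ) : (JJ c c d d ζ a b).re =
    c.re * Complex.normSq (a * ζ + b * ζ⁻¹) + d.re * Complex.normSq (a * ζ⁻¹ + b * ζ) := by
  unfold JJ
  rw [← mul_add, ← mul_add, Complex.add_re, re_conj_mul, re_conj_mul]

lemma pos_of_all {γ α β : ℝ} (hγ : 0 < γ)
    (h : ∀ m : ℝ, 0 < m → γ * (m + m⁻¹) ≤ α * m + β * m⁻¹) : 0 < α := by
  by_contra hc
  push Not at hc
  have hm : 0 < |β| / γ + 1 := by positivity
  have h1 := h _ hm
  set m := |β| / γ + 1 with hmd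
  have h2 : m⁻¹ ≤ 1 := inv_le_one_of_one_le₀ (by
    have : 0 ≤ |β| / γ := by positivity
    linarith)
  have h3 : 0 < m⁻¹ := inv_pos.2 hm
  have h4 : γ * m = |β| + γ := by rw [hmd]; field_simp
  have h5 : β * m⁻¹ ≤ |β| := by
    calc β * m⁻¹ ≤ |β| * m⁻¹ := by gcongr; exact le_abs_self β
      _ ≤ |β| * 1 := by gcongr
      _ = |β| := mul_one _
  nlinarith [mul_pos hγ h3, mul_nonneg (neg_nonneg.2 hc) hm.le]

lemma pos_of_all' {γ α β : ℝ} (hγ : 0 < γ)
    (h : ∀ m : ℝ, 0 < m → γ * (m + m⁻¹) ≤ α * m + β * m⁻¹) : 0 < β := by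
  apply pos_of_all (β := α) hγ
  intro m hm
  have := h m⁻¹ (inv_pos.2 hm)
  rw [inv_inv] at this
  linarith

lemma nec_alg {cp dp cm dm : ℂ} {γ : ℝ} (hγ : 0 < γ)
    (h : ∀ m : ℝ, 0 < m → ∃ ζ : ℂ, Complex.normSq ζ = m ∧ ζ ^ 4 = -(m : ℂ) ^ 2 ∧
      ∀ a b : ℂ, γ * (JJ 1 1 1 1 ζ a b).re ≤ (JJ cp dp cm dm ζ a b).re) :
    Cond3 cp dp cm dm := by
  have hc : ∀ m : ℝ, 0 < m → γ * (m + m⁻¹) ≤ cp.re * m + cm.re * m⁻¹ := by
    intro m hm
    obtain ⟨ζ, h1, -, h2⟩ := h m hm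
    have := h2 1 0
    unfold JJ at this
    simp only [zero_mul, mul_zero, add_zero, Complex.add_re, re_conj_mul] at this
    simpa [h1] using this
  have hd : ∀ m : ℝ, 0 < m → γ * (m + m⁻¹) ≤ dm.re * m + dp.re * m⁻¹ := by
    intro m hm
    obtain ⟨ζ, h1, -, h2⟩ := h m hm
    have := h2 0 1
    unfold JJ at this
    simp only [zero_mul, mul_zero, zero_add, Complex.add_re, re_conj_mul] at this
    simpa [h1, add_comm] using this
  have h1 := pos_of_all hγ hc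
  have h2 := pos_of_all' hγ hc
  have h3 := pos_of_all hγ hd
  have h4 := pos_of_all' hγ hd
  intro μ ν hμ0 hμ1 hν0 hν1 h0
  have hconv : ∀ p q : ℝ, 0 < p → 0 < q → 0 < ν * p + (1 - ν) * q := by
    intro p q hp hq
    rcases eq_or_lt_of_le hν0 with e | e
    · rw [← e]; simpa using hq
    · have := mul_pos e hp
      have := mul_nonneg (sub_nonneg.2 hν1) hq.le
      linarith
  set Cp : ℂ := ν * cp + (1 - ν) * dp with hCp
  set Cm : ℂ := ν * cm + (1 - ν) * dm with hCm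
  have ne_of_re : ∀ z : ℂ, 0 < z.re → z ≠ 0 := fun z hz e => by rw [e] at hz; simp at hz
  have hCp0 : Cp ≠ 0 := ne_of_re _ (by simpa [hCp] using hconv _ _ h1 h4)
  have hCm0 : Cm ≠ 0 := ne_of_re _ (by simpa [hCm] using hconv _ _ h2 h3)
  have hdp0 := ne_of_re _ h4
  have hdm0 := ne_of_re _ h3
  have h5 : Cp * dm * μ + Cm * dp * (1 - μ) = 0 := by
    rw [hCp, hCm]; linear_combination h0
  have hμ0' : 0 < μ := by
    refine lt_of_le_of_ne hμ0 fun e => ?_
    rw [← e] at h5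
    simp [hCm0, hdp0] at h5
  have hμ1' : 0 < 1 - μ := by
    refine lt_of_le_of_ne (by linarith) fun e => ?_
    have : μ = 1 := by linarith
    rw [this] at h5
    simp [hCp0, hdm0] at h5
  have hm : 0 < Real.sqrt (μ / (1 - μ)) := Real.sqrt_pos.2 (by positivity)
  obtain ⟨ζ, h6, h7, h8⟩ := h _ hm
  have hζ : ζ ≠ 0 := by
    rintro rfl; rw [← h6] at hm; simp at hm
  have h9 : ζ ^ 4 * (1 - μ) = -μ := by
    rw [h7, ← Complex.ofReal_pow, Real.sq_sqrt (by positivity)]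
    have : (1 - (μ : ℂ)) ≠ 0 := by exact_mod_cast hμ1'.ne'
    push_cast
    field_simp
  have hμc : (1 - (μ : ℂ)) ≠ 0 := by exact_mod_cast hμ1'.ne'
  have h10 := h8 dp (-Cp * ζ ^ 2)
  set a := dp with ha
  set b := -Cp * ζ ^ 2 with hb
  have e1 : Cp * (a * ζ) + dp * (b * ζ⁻¹) = 0 := by
    rw [hb]; field_simp; ring
  have e2 : Cm * (a * ζ⁻¹) + dm * (b * ζ) = 0 := by
    rw [hb]
    apply mul_left_cancel₀ (mul_ne_zero hζ hμc)
    have hi := mul_inv_cancel₀ hζ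
    linear_combination h5 - Cp * dm * h9 + Cm * a * (1 - μ) * hi
  have e3 : ν * JJ cp dp cm dm ζ a b + ((1 - ν : ℝ) : ℂ) * JJ dp dp dm dm ζ a b = 0 := by
    have f1 := congrArg (starRingEnd ℂ) e1
    have f2 := congrArg (starRingEnd ℂ) e2
    rw [hCp] at f1
    rw [hCm] at f2
    unfold JJ
    simp only [map_add, map_mul, map_sub, map_one, map_zero, Complex.conj_ofReal] at f1 f2 ⊢
    push_cast
    linear_combination (a * ζ + b * ζ⁻¹) * f1 + (a * ζ⁻¹ + b * ζ) * f2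
  have e4 := congrArg Complex.re e3
  rw [Complex.add_re, Complex.re_ofReal_mul, Complex.re_ofReal_mul, JJ_diag, Complex.zero_re] at e4
  rw [JJ_diag] at h10
  simp only [Complex.one_re, one_mul] at h10
  set X := Complex.normSq (a * ζ + b * ζ⁻¹) with hX
  set Y := Complex.normSq (a * ζ⁻¹ + b * ζ) with hY
  have hX0 : 0 ≤ X := Complex.normSq_nonneg _
  have hY0 : 0 ≤ Y := Complex.normSq_nonneg _
  have e5 : (ν * γ + (1 - ν) * a.re) * X + (ν * γ + (1 - ν) * dm.re) * Y ≤ 0 := by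
    nlinarith [mul_le_mul_of_nonneg_left h10 hν0]
  have g1 := hconv _ _ hγ h4
  have g2 := hconv _ _ hγ h3
  have hX1 : X = 0 := by
    by_contra hne
    have := mul_pos g1 (lt_of_le_of_ne hX0 (Ne.symm hne))
    have := mul_nonneg g2.le hY0
    linarith
  have hY1 : Y = 0 := by
    by_contra hne
    have := mul_pos g2 (lt_of_le_of_ne hY0 (Ne.symm hne))
    have := mul_nonneg g1.le hX0
    linarith
  rw [hX, Complex.normSq_eq_zero] at hX1
  rw [hY, Complex.normSq_eq_zero] at hY1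
  apply hdp0
  have k1 : a * ζ ^ 2 + b = 0 := by
    field_simp at hX1; linear_combination hX1
  have k2 : a + b * ζ ^ 2 = 0 := by
    field_simp at hY1; linear_combination hY1
  linear_combination (1 - μ) * k2 - (1 - μ) * ζ ^ 2 * k1 + a * h9

lemma lim_const (c : ℂ) (F : Filter ℝ) :
    Tendsto (fun s : ℝ => (fun _ : Cir => c) s) F (𝓝 c) := tendsto_const_nhds

lemma re_tendsto {f : ℝ → ℂ} {F : Filter ℝ} {c : ℂ} (h : Tendsto f F (𝓝 c)) :
    Tendsto (fun p => (f p).re) F (𝓝 c.re) := (Complex.continuous_re.tendsto c).comp h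

lemma IsMul.add {g g' : Cir → ℂ} {M M' : Op} (h : IsMul g M) (h' : IsMul g' M') :
    IsMul (fun z => g z + g' z) (M + M') := by
  intro f
  filter_upwards [h f, h' f, Lp.coeFn_add (M f) (M' f)] with z h1 h2 h3
  rw [ContinuousLinearMap.add_apply, h3, Pi.add_apply, h1, h2, add_mul]

lemma IsMul.sub {g g' : Cir → ℂ} {M M' : Op} (h : IsMul g M) (h' : IsMul g' M') :
    IsMul (fun z => g z - g' z) (M - M') := by
  intro f
  filter_upwards [h f, h' f, Lp.coeFn_sub (M f) (M' f)] with z h1 h2 h3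
  rw [ContinuousLinearMap.sub_apply, h3, Pi.sub_apply, h1, h2, sub_mul]

lemma nec_core {A B : Cir → ℂ} (hA : Reg A) (hB : Reg B) {S MA MB : Op} (hS : IsS S)
    (hMA : IsMul A MA) (hMB : IsMul B MB) (h : Ell (MA + MB * S)) (x : ℝ) (ap am bp bm : ℂ)
    (h1 : LimR A x ap) (h2 : LimL A x am) (h3 : LimR B x bp) (h4 : LimL B x bm) :
    Cond3 (ap + bp) (ap - bp) (am + bm) (am - bm) := by
  obtain ⟨γ, hγ, hl⟩ := h.limit dense_ee
  apply nec_alg hγ
  intro m hm
  obtain ⟨ξ, e1, e2⟩ := exists_zeta hm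
  refine ⟨zeta ξ, e1, e2, fun a b => ?_⟩
  obtain ⟨u, v, k1, k2, k3⟩ := key hS x ξ a b
  have r1 : Reg (fun _ => 1) := reg_cont continuous_const
  apply hl (𝓝[<] 1) (fun p => u p + v p)
  · rintro _ ⟨n, rfl⟩; exact k2 n
  · have := re_tendsto (k3 _ _ 1 1 1 1 1 1 r1 r1 isMul_one isMul_one (lim_const _ _)
      (lim_const _ _) (lim_const _ _) (lim_const _ _))
    exact this.congr fun p => (norm_sq_inner _).symm
  · have := re_tendsto (k3 _ _ _ _ _ _ _ _ (hA.add hB) (hA.sub hB) (hMA.add hMB) (hMA.sub hMB)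
      (h1.add h3) (h1.sub h3) (h2.add h4) (h2.sub h4))
    refine this.congr' ?_
    filter_upwards [k1] with p hp
    congr 2
    simp only [ContinuousLinearMap.add_apply, ContinuousLinearMap.sub_apply,
      ContinuousLinearMap.mul_apply, map_add, hp.1, hp.2, map_neg]
    abel

lemma nec1 {a b Θ : Cir → ℂ} (ha : Reg a) (hb : Reg b) (hΘ : Reg Θ) {S Ma Mb M : Op}
    (hS : IsS S) (hMa : IsMul a Ma) (hMb : IsMul b Mb) (hM : IsMul Θ M)
    (h : Ell (M * Ma + M * Mb * S)) (x : ℝ) (ap am bp bm : ℂ)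
    (h1 : LimR a x ap) (h2 : LimL a x am) (h3 : LimR b x bp) (h4 : LimL b x bm) :
    Cond3 (ap + bp) (ap - bp) (am + bm) (am - bm) := by
  obtain ⟨⟨θm, hm⟩, ⟨θp, hp⟩⟩ := hΘ x
  have := nec_core (hΘ.mul ha) (hΘ.mul hb) hS (hM.mul hMa) (hM.mul hMb) h x _ _ _ _
    (hp.mul h1) (hm.mul h2) (hp.mul h3) (hm.mul h4)
  rw [← mul_add, ← mul_add, ← mul_sub, ← mul_sub] at this
  exact this.scale

lemma nz_aux {Θ : Cir → ℂ} (hΘ : Reg Θ) {S M R : Op} (hS : IsS S) (hM : IsMul Θ M)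
    (h : Ell (M * R)) (x : ℝ) (θp θm a b : ℂ) (h1 : LimR Θ x θp) (h2 : LimL Θ x θm)
    (h0 : (JJ (θp * conj θp) (θp * conj θp) (θm * conj θm) (θm * conj θm) (zeta 0) a b).re = 0) :
    (JJ 1 1 1 1 (zeta 0) a b).re ≤ 0 := by
  obtain ⟨γ, hγ, hl⟩ := h.limit dense_ee
  obtain ⟨u, v, -, k2, k3⟩ := key hS x 0 a b
  have r1 : Reg (fun _ => 1) := reg_cont continuous_const
  have n1 : Tendsto (fun p => ‖u p + v p‖ ^ 2) (𝓝[<] 1) (𝓝 (JJ 1 1 1 1 (zeta 0) a b).re) := by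
    have := re_tendsto (k3 _ _ 1 1 1 1 1 1 r1 r1 isMul_one isMul_one (lim_const _ _)
      (lim_const _ _) (lim_const _ _) (lim_const _ _))
    exact this.congr fun p => (norm_sq_inner _).symm
  have n2 : Tendsto (fun p => ‖(star M : Op) (u p + v p)‖ ^ 2) (𝓝[<] 1) (𝓝 0) := by
    have hMM := hM.mul (hM.star' hΘ)
    have := re_tendsto (k3 _ _ _ _ _ _ _ _ (hΘ.mul hΘ.conj) (hΘ.mul hΘ.conj) hMM hMM
      (h1.mul (lim_conj h1)) (h1.mul (lim_conj h1)) (h2.mul (lim_conj h2)) (h2.mul (lim_conj h2)))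
    rw [← h0]
    refine this.congr fun p => ?_
    rw [← map_add, norm_sq_inner, ContinuousLinearMap.mul_apply,
      ContinuousLinearMap.star_eq_adjoint, ContinuousLinearMap.adjoint_inner_right]
  have n3 : Tendsto (fun p => (inner ℂ ((M * R) (u p + v p)) (u p + v p)).re) (𝓝[<] 1) (𝓝 0) := by
    have s1 := (Real.continuous_sqrt.tendsto _).comp (n1.mul n2)
    rw [mul_zero, Real.sqrt_zero] at s1
    have s2 := s1.const_mul ‖R‖
    rw [mul_zero] at s2
    refine squeeze_zero_norm (fun p => ?_) s2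
    rw [ContinuousLinearMap.mul_apply, ← ContinuousLinearMap.adjoint_inner_right,
      ← ContinuousLinearMap.star_eq_adjoint, Function.comp_apply, ← mul_pow,
      Real.sqrt_sq (by positivity), Real.norm_eq_abs]
    refine (Complex.abs_re_le_norm _).trans ((norm_inner_le_norm _ _).trans ?_)
    rw [← mul_assoc]
    gcongr
    exact R.le_opNorm _
  have := hl (𝓝[<] 1) (fun p => u p + v p) _ _ (by rintro _ ⟨n, rfl⟩; exact k2 n) n1 n3
  by_contra hc
  push Not at hc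
  linarith [mul_pos hγ hc]

lemma zeta0 : zeta 0 ≠ 0 ∧ zeta 0 ^ 4 = -1 := by
  refine ⟨Complex.exp_ne_zero _, ?_⟩
  rw [zeta_eq, ← Complex.exp_nat_mul, ← Complex.exp_pi_mul_I]
  congr 1; push_cast; ring

lemma nz_of_ell {Θ : Cir → ℂ} (hΘ : Reg Θ) {S M R : Op} (hS : IsS S) (hM : IsMul Θ M)
    (h : Ell (M * R)) : NZ Θ := by
  intro x
  obtain ⟨⟨θm, hm⟩, ⟨θp, hp⟩⟩ := hΘ x
  obtain ⟨z0, z4⟩ := zeta0
  constructor
  · intro h0
    have e1 : 1 * zeta 0 + (-zeta 0 ^ 2) * (zeta 0)⁻¹ = 0 := by field_simp; ring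
    have := nz_aux hΘ hS hM h x θp 0 1 (-zeta 0 ^ 2) hp h0 (by rw [JJ_diag, e1]; simp)
    rw [JJ_diag, e1, Complex.one_re, one_mul, one_mul, map_zero, zero_add] at this
    have h3 := Complex.normSq_eq_zero.1 (le_antisymm this (Complex.normSq_nonneg _))
    field_simp at h3
    have : (2:ℂ) = 0 := by linear_combination h3 + z4
    norm_num at this
  · intro h0
    have e1 : zeta 0 ^ 2 * (zeta 0)⁻¹ + (-1) * zeta 0 = 0 := by field_simp; ring
    have := nz_aux hΘ hS hM h x 0 θm (zeta 0 ^ 2) (-1) h0 hm (by rw [JJ_diag, e1]; simp)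
    rw [JJ_diag, e1, Complex.one_re, one_mul, one_mul, map_zero, add_zero] at this
    have h3 := Complex.normSq_eq_zero.1 (le_antisymm this (Complex.normSq_nonneg _))
    field_simp at h3
    have : (2:ℂ) = 0 := by linear_combination z4 - h3
    norm_num at this

lemma nec2 {a b Θ : Cir → ℂ} (ha : Reg a) (hb : Reg b) (hΘ : Reg Θ) (hΘ0 : ∀ z, Θ z ≠ 0)
    {S Ma Mb M : Op} (hS : IsS S) (hMa : IsMul a Ma) (hMb : IsMul b Mb) (hM : IsMul Θ M)
    (h : Ell (M * (Ma + S * Mb))) (x : ℝ) (ap am bp bm : ℂ)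
    (h1 : LimR a x ap) (h2 : LimL a x am) (h3 : LimR b x bp) (h4 : LimL b x bm) :
    Cond3 (ap + bp) (ap - bp) (am + bm) (am - bm) := by
  have hnz := nz_of_ell hΘ hS hM h
  have hi := hΘ.inv hnz
  obtain ⟨V, hV⟩ := hi.exists_mul
  obtain ⟨e1, e2⟩ := mul_inv_op hΘ0 hM hV
  have e3 : star M * star V = 1 := by rw [← star_mul, e2, star_one]
  have h5 := h.star.sand (B := star V) (R := star M) e3
  have e4 : star (star V) * star (M * (Ma + S * Mb)) * star V =
      V * star Ma + V * star Mb * S := by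
    rw [star_star, star_mul, star_add, star_mul, hS.star, mul_assoc, mul_assoc, e3]
    noncomm_ring
  rw [e4] at h5
  have := nec1 ha.conj hb.conj hi hS (hMa.star' ha) (hMb.star' hb) hV h5 x _ _ _ _
    (lim_conj h1) (lim_conj h2) (lim_conj h3) (lim_conj h4)
  rw [← map_add, ← map_add, ← map_sub, ← map_sub] at this
  exact this.conj

end Pool.Agent.H783Z.SIO
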