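import Pool.Agent.H783Z.SIOW

set_option autoImplicit false
open MeasureTheory Filter Topology Set Real ComplexConjugate

namespace Pool.Agent.H783Z.SIO

noncomputable def EE (s : ℂ) (t : ℝ) : ℂ := Complex.exp (-s * ell t)

noncomputable def ph (s : ℂ) (t : ℝ) : ℂ := Complex.exp (-s * (Complex.I * π * (t - 1/2)))

noncomputable def ex (k : ℤ) (t : ℝ) : ℂ := Complex.exp (2 * π * Complex.I * k * t)

lemma cont_ph2 : Continuous (fun q : ℂ × ℝ => ph q.1 q.2) := by unfold ph; fun_prop

lemma cont_ph (s : ℂ) : Continuous (ph s) := by unfold ph; fun_prop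

lemma cont_ex (k : ℤ) : Continuous (ex k) := by unfold ex; fun_prop

lemma meas_EE (s : ℂ) : Measurable (EE s) := by
  unfold EE
  exact Complex.measurable_exp.comp ((Complex.measurable_ofReal.comp meas_ell).const_mul _)

lemma norm_EE (s : ℂ) (t : ℝ) : ‖EE s t‖ = w s.re t := by
  unfold EE w
  rw [Complex.norm_exp]
  simp

lemma conj_EE (s : ℂ) (t : ℝ) : conj (EE s t) = EE (conj s) t := by
  unfold EE; rw [← Complex.exp_conj]; simp

lemma conj_ph (s : ℂ) (t : ℝ) : conj (ph s t) = ph (-conj s) t := by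
  unfold ph; rw [← Complex.exp_conj]
  have : conj (2:ℂ) = 2 := Complex.conj_ofNat 2
  simp [this]

lemma conj_ex (k : ℤ) (t : ℝ) : conj (ex k t) = ex (-k) t := by
  unfold ex; rw [← Complex.exp_conj]
  have : conj (2:ℂ) = 2 := Complex.conj_ofNat 2
  simp [this]

lemma ex_add (k m : ℤ) (t : ℝ) : ex (k + m) t = ex k t * ex m t := by
  unfold ex; rw [← Complex.exp_add]; congr 1; push_cast; ring

lemma EE_add (s s' : ℂ) (t : ℝ) : EE (s + s') t = EE s t * EE s' t := by
  unfold EE; rw [← Complex.exp_add]; congr 1; ring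

lemma ph_add (s s' : ℂ) (t : ℝ) : ph (s + s') t = ph s t * ph s' t := by
  unfold ph; rw [← Complex.exp_add]; congr 1; ring

lemma conj_EE_mul (s : ℂ) (t : ℝ) : conj (EE s t) * EE s t = w (2 * s.re) t := by
  rw [conj_EE, ← EE_add]
  unfold EE w
  push_cast
  congr 1
  rw [add_comm, Complex.add_conj]
  push_cast; ring

lemma int_EE {s : ℂ} (hs : s.re < 1) {G : ℝ → ℂ} (hG : Continuous G) :
    IntervalIntegrable (fun t => EE s t * G t) volume 0 1 := by
  apply IntervalIntegrable.mul_continuousOn _ hG.continuousOn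
  refine (w_int hs).mono_fun' (meas_EE s).aestronglyMeasurable ?_
  exact Eventually.of_forall fun t => (norm_EE s t).le

lemma one_sub_ex {t : ℝ} (h0 : 0 < t) (h1 : t < 1) : EE (-1) t * ph (-1) t = 1 - ex 1 t := by
  unfold EE ph ex ell
  simp only [neg_neg, one_mul]
  rw [← Complex.ofReal_exp, Real.exp_log (sin_pos' h0 h1)]
  have e1 : Complex.exp (Complex.I * π * (t - 1/2)) =
      Complex.exp (π * t * Complex.I) * (-Complex.I) := by
    rw [← Complex.exp_neg_pi_div_two_mul_I, ← Complex.exp_add]; congr 1; ring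
  have e2 : Complex.exp (2 * π * Complex.I * (1:ℤ) * t) =
      Complex.exp (π * t * Complex.I) * Complex.exp (π * t * Complex.I) := by
    rw [← Complex.exp_add]; congr 1; push_cast; ring
  have e3 : Complex.exp (-(π * t) * Complex.I) * Complex.exp (π * t * Complex.I) = 1 := by
    rw [← Complex.exp_add]; simp
  rw [e1, e2]
  push_cast
  rw [Complex.sin]
  linear_combination e3 - (Complex.exp (-(π * t) * Complex.I) - Complex.exp (π * t * Complex.I)) *
    Complex.exp (π * t * Complex.I) * Complex.I_mul_I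

lemma deriv_phi {t : ℝ} (h0 : 0 < t) (h1 : t < 1) (s : ℂ) :
    HasDerivAt (fun t => EE (s - 1) t * ph (s - 1) t)
      ((s - 1) * (2 * π * Complex.I) * (EE s t * (ex 1 t * ph s t))) t := by
  let Lg : ℝ → ℂ := fun t => ell t + Complex.I * π * (t - 1/2)
  have hE : ∀ (σ : ℂ) (t : ℝ), EE σ t * ph σ t = Complex.exp (-σ * Lg t) := by
    intro σ t; unfold EE ph; rw [← Complex.exp_add]; congr 1; simp only [Lg]; ring
  have hd : DifferentiableAt ℝ ell t := by
    unfold ell
    exact DifferentiableAt.log (by fun_prop) (sin_pos' h0 h1).ne'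
  have hL : HasDerivAt Lg (deriv ell t + Complex.I * π) t := by
    have h2 := hd.hasDerivAt.ofReal_comp
    have h3 : HasDerivAt (fun t : ℝ => Complex.I * π * ((t:ℂ) - 1/2)) (Complex.I * π) t := by
      simpa using (((hasDerivAt_id t).ofReal_comp).sub_const (1/2 : ℂ)).const_mul (Complex.I * π)
    exact h2.add h3
  set L' : ℂ := deriv ell t + Complex.I * π
  have h4 : HasDerivAt (fun t => Complex.exp (-(-1) * Lg t))
      (Complex.exp (-(-1) * Lg t) * (-(-1) * L')) t := (hL.const_mul _).cexp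
  have h5 : HasDerivAt (fun t => 1 - ex 1 t) (-(ex 1 t * (2 * π * Complex.I))) t := by
    unfold ex
    have := ((((hasDerivAt_id t).ofReal_comp).const_mul (2 * π * Complex.I * (1:ℤ))).cexp).const_sub 1
    simpa using this
  have h6 : (fun t => Complex.exp (-(-1) * Lg t)) =ᶠ[𝓝 t] fun t => 1 - ex 1 t := by
    filter_upwards [Ioo_mem_nhds h0 h1] with y hy
    rw [← hE, one_sub_ex hy.1 hy.2]
  have h7 := h4.unique (h5.congr_of_eventuallyEq h6)
  have h8 : HasDerivAt (fun t => Complex.exp (-(s - 1) * Lg t))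
      (Complex.exp (-(s - 1) * Lg t) * (-(s - 1) * L')) t := (hL.const_mul _).cexp
  simp only [hE]
  convert h8 using 1
  have e : Complex.exp (-(s - 1) * Lg t) = EE s t * ph s t * Complex.exp (-(-1) * Lg t) := by
    rw [hE, ← Complex.exp_add]; congr 1; ring
  rw [e]
  linear_combination (s - 1) * EE s t * ph s t * h7

lemma ell_tendsto : Tendsto ell (𝓝[>] 0) atBot := by
  refine tendsto_atBot_mono' _ ?_ (tendsto_atBot_add_const_left _ (Real.log 8)
    Real.tendsto_log_nhdsGT_zero)
  filter_upwards [Ioo_mem_nhdsGT one_pos] with t ht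
  exact ell_le ht.1 ht.2

lemma tendsto_one_sub : Tendsto (fun t : ℝ => 1 - t) (𝓝[<] 1) (𝓝[>] 0) := by
  refine tendsto_nhdsWithin_iff.2 ⟨?_, ?_⟩
  · have : Continuous (fun t : ℝ => 1 - t) := by fun_prop
    simpa using (this.tendsto 1).mono_left nhdsWithin_le_nhds
  · filter_upwards [self_mem_nhdsWithin] with t ht
    simpa using ht

lemma ell_tendsto' : Tendsto ell (𝓝[<] 1) atBot := by
  have := ell_tendsto.comp tendsto_one_sub
  refine this.congr fun t => ?_
  simp [ell_symm]

lemma phi_tendsto {s : ℂ} (hs : s.re < 0) {F : Filter ℝ} {x : ℝ} (hF : F ≤ 𝓝 x)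
    (h : Tendsto ell F atBot) : Tendsto (fun t => EE s t * ph s t) F (𝓝 0) := by
  have h1 : Tendsto (EE s) F (𝓝 0) := by
    rw [tendsto_zero_iff_norm_tendsto_zero]
    simp only [norm_EE, w]
    exact Real.tendsto_exp_atBot.comp (h.const_mul_atBot (by linarith))
  simpa using h1.mul (((cont_ph s).tendsto x).mono_left hF)

lemma vanish_one {s : ℂ} (hs : s.re < 1) :
    ∫ t in (0:ℝ)..1, EE s t * (ex 1 t * ph s t) = 0 := by
  have hs' : (s - 1).re < 0 := by simp; linarith
  have := intervalIntegral.integral_eq_sub_of_hasDerivAt_of_tendsto one_pos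
    (fun t ht => deriv_phi ht.1 ht.2 s)
    ((int_EE hs ((cont_ex 1).mul (cont_ph s))).const_mul _)
    (phi_tendsto hs' nhdsWithin_le_nhds ell_tendsto)
    (phi_tendsto hs' nhdsWithin_le_nhds ell_tendsto')
  rw [intervalIntegral.integral_const_mul, sub_zero, mul_eq_zero] at this
  refine this.resolve_left ?_
  have h1 : s - 1 ≠ 0 := by intro h; rw [h] at hs'; simp at hs'
  exact mul_ne_zero h1 Complex.two_pi_I_ne_zero

lemma vanish_nat (k : ℕ) : ∀ {s : ℂ}, s.re < 1 →
    ∫ t in (0:ℝ)..1, EE s t * (ex (k + 1) t * ph s t) = 0 := by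
  induction k with
  | zero => intro s hs; simpa using vanish_one hs
  | succ k ih =>
    intro s hs
    have hs' : (s + -1).re < 1 := by simp; linarith
    have h1 := ih hs
    have h2 := ih hs'
    have h3 := intervalIntegral.integral_sub (int_EE hs ((cont_ex (k + 1)).mul (cont_ph s)))
      (int_EE hs' ((cont_ex (k + 1)).mul (cont_ph (s + -1))))
    simp only [Pi.mul_apply] at h3
    rw [h1, h2, sub_zero] at h3
    rw [← h3]
    apply intervalIntegral.integral_congr_ae
    have : ∀ᵐ t : ℝ, t ≠ 1 := by simp [ae_iff]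
    filter_upwards [this] with t ht1 ht
    rw [uIoc_of_le zero_le_one] at ht
    have e := one_sub_ex ht.1 (lt_of_le_of_ne ht.2 ht1)
    rw [EE_add, ph_add]
    push_cast
    rw [ex_add (k + 1) 1]
    linear_combination EE s t * ph s t * ex (k + 1) t * e

lemma vanish {k : ℤ} (hk : 1 ≤ k) {s : ℂ} (hs : s.re < 1) :
    ∫ t in (0:ℝ)..1, EE s t * (ex k t * ph s t) = 0 := by
  obtain ⟨n, hn⟩ := Int.eq_ofNat_of_zero_le (a := k - 1) (by omega)
  have : k = n + 1 := by omega
  rw [this]
  exact vanish_nat n hs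

lemma vanish' {k : ℤ} (hk : 1 ≤ k) {s : ℂ} (hs : s.re < 1) :
    ∫ t in (0:ℝ)..1, EE s t * (ex (-k) t * ph (-s) t) = 0 := by
  have h := vanish hk (s := conj s) (by simpa using hs)
  have := congrArg (starRingEnd ℂ) h
  rw [intervalIntegral.integral_of_le zero_le_one, ← integral_conj, map_zero] at this
  rw [intervalIntegral.integral_of_le zero_le_one, ← this]
  congr 1
  ext t
  simp only [map_mul, conj_EE, conj_ex, conj_ph, Complex.conj_conj]

end Pool.Agent.H783Z.SIO
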