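import Mathlib

set_option autoImplicit false
open MeasureTheory Filter Topology

namespace Pool.Agent.H783Z.SIO

abbrev Cir := AddCircle (1:ℝ)

noncomputable abbrev mu : Measure Cir := AddCircle.haarAddCircle (T := (1:ℝ))

abbrev LimL (g : Cir → ℂ) (x : ℝ) (l : ℂ) : Prop :=
  Tendsto (fun s : ℝ => g (↑s : AddCircle (1:ℝ))) (𝓝[<] x) (𝓝 l)

abbrev LimR (g : Cir → ℂ) (x : ℝ) (l : ℂ) : Prop :=
  Tendsto (fun s : ℝ => g (↑s : AddCircle (1:ℝ))) (𝓝[>] x) (𝓝 l)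

/-- regulated functions -/
def Reg (g : Cir → ℂ) : Prop := ∀ x : ℝ, (∃ l : ℂ, LimL g x l) ∧ (∃ r : ℂ, LimR g x r)

lemma mu_eq : mu = volume := by
  rw [AddCircle.volume_eq_smul_haarAddCircle]; simp

lemma coe_ne {x s : ℝ} (h : |s - x| < 1) (hne : s ≠ x) : (s : Cir) ≠ (x : Cir) := by
  intro he
  have : ((s - x : ℝ) : Cir) = 0 := by rw [AddCircle.coe_sub, he, sub_self]
  obtain ⟨n, hn⟩ := (AddCircle.coe_eq_zero_iff _).1 this
  rw [zsmul_eq_mul, mul_one] at hn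
  rw [← hn] at h
  have h1 : |n| < 1 := by exact_mod_cast h
  have h2 : n = 0 := Int.abs_lt_one_iff.1 h1
  rw [h2] at hn
  apply hne
  simp at hn
  linarith

lemma cont_coe : Continuous (fun s : ℝ => (s : Cir)) := AddCircle.continuous_mk' 1

lemma tendsto_coe (x : ℝ) : Tendsto (fun s : ℝ => (s : Cir)) (𝓝[≠] x) (𝓝[≠] (x : Cir)) := by
  refine tendsto_nhdsWithin_iff.2 ⟨(cont_coe.tendsto x).mono_left nhdsWithin_le_nhds, ?_⟩
  have h1 : ∀ᶠ s in 𝓝 x, |s - x| < 1 := by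
    filter_upwards [Metric.ball_mem_nhds x one_pos] with s hs
    simpa [Real.dist_eq] using hs
  filter_upwards [nhdsWithin_le_nhds h1, self_mem_nhdsWithin] with s hs hs2
  exact coe_ne hs hs2

lemma tendsto_coeL (x : ℝ) : Tendsto (fun s : ℝ => (s : Cir)) (𝓝[<] x) (𝓝[≠] (x : Cir)) :=
  (tendsto_coe x).mono_left (nhdsLT_le_nhdsNE x)

lemma tendsto_coeR (x : ℝ) : Tendsto (fun s : ℝ => (s : Cir)) (𝓝[>] x) (𝓝[≠] (x : Cir)) :=
  (tendsto_coe x).mono_left (nhdsGT_le_nhdsNE x)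

lemma ev_circle {Φ : Cir → Prop} {x : ℝ} (hl : ∀ᶠ s : ℝ in 𝓝[<] x, Φ s)
    (hr : ∀ᶠ s : ℝ in 𝓝[>] x, Φ s) : ∀ᶠ z in 𝓝[≠] (x : Cir), Φ z := by
  have h1 : ∀ᶠ s : ℝ in 𝓝[≠] x, Φ s := by
    rw [← nhdsLT_sup_nhdsGT]; exact eventually_sup.2 ⟨hl, hr⟩
  rw [eventually_nhdsWithin_iff] at h1 ⊢
  have h2 : 𝓝 (x : Cir) = map (fun s : ℝ => (s : Cir)) (𝓝 x) :=
    (QuotientAddGroup.isOpenQuotientMap_mk.map_nhds_eq x).symm
  rw [h2, eventually_map]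
  filter_upwards [h1] with s hs hne
  apply hs
  rintro rfl
  exact hne rfl

lemma ae_ne (y : Cir) : ∀ᵐ z ∂mu, z ≠ y := by
  have : mu {y} = 0 := by
    rw [mu_eq, ← Metric.closedBall_zero, AddCircle.volume_closedBall]; simp
  rw [ae_iff]; simpa using this

lemma ae_unif {Φ : ℝ → Cir → Prop} (hmono : ∀ γ γ' z, 0 < γ' → γ' ≤ γ → Φ γ z → Φ γ' z)
    (h : ∀ x : ℝ, ∃ γ, 0 < γ ∧ ∀ᶠ z in 𝓝[≠] (x : Cir), Φ γ z) :
    ∃ γ, 0 < γ ∧ ∀ᵐ z ∂mu, Φ γ z := by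
  have := isCompact_univ.induction_on
    (p := fun S : Set Cir => ∃ γ, 0 < γ ∧ ∀ᵐ z ∂mu, z ∈ S → Φ γ z)
    ⟨1, one_pos, by simp⟩
    (fun s t hst ⟨γ, hγ, h⟩ => ⟨γ, hγ, h.mono fun z hz hs => hz (hst hs)⟩)
    (fun s t ⟨γ, hγ, h⟩ ⟨γ', hγ', h'⟩ => ⟨min γ γ', lt_min hγ hγ', by
      filter_upwards [h, h'] with z hz hz' hm
      rcases hm with hm | hm
      · exact hmono _ _ _ (lt_min hγ hγ') (min_le_left _ _) (hz hm)
      · exact hmono _ _ _ (lt_min hγ hγ') (min_le_right _ _) (hz' hm)⟩)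
    (fun y _ => by
      obtain ⟨x, rfl⟩ := QuotientAddGroup.mk_surjective y
      obtain ⟨γ, hγ, hx⟩ := h x
      rw [eventually_nhdsWithin_iff] at hx
      refine ⟨_, nhdsWithin_le_nhds hx, γ, hγ, ?_⟩
      filter_upwards [ae_ne (x : Cir)] with z hz hz2
      exact hz2 hz)
  obtain ⟨γ, hγ, h⟩ := this
  exact ⟨γ, hγ, h.mono fun z hz => hz trivial⟩

lemma Reg.bdd {g : Cir → ℂ} (hg : Reg g) : ∃ M : ℝ, 0 < M ∧ ∀ z, ‖g z‖ ≤ M := by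
  have := isCompact_univ.induction_on
    (p := fun S : Set Cir => ∃ M : ℝ, 0 < M ∧ ∀ z, z ∈ S → ‖g z‖ ≤ M)
    ⟨1, one_pos, by simp⟩
    (fun s t hst ⟨γ, hγ, h⟩ => ⟨γ, hγ, fun z hs => h z (hst hs)⟩)
    (fun s t ⟨γ, hγ, h⟩ ⟨γ', _, h'⟩ => ⟨max γ γ', lt_max_of_lt_left hγ, by
      intro z hm
      rcases hm with hm | hm
      · exact (h z hm).trans (le_max_left _ _)
      · exact (h' z hm).trans (le_max_right _ _)⟩)
    (fun y _ => by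
      obtain ⟨x, rfl⟩ := QuotientAddGroup.mk_surjective y
      obtain ⟨⟨l, hl⟩, ⟨r, hr⟩⟩ := hg x
      have hx : ∀ᶠ z in 𝓝[≠] (x : Cir), ‖g z‖ < ‖l‖ + ‖r‖ + ‖g x‖ + 1 := by
        apply ev_circle
        · exact hl.norm.eventually (gt_mem_nhds (by
            have := norm_nonneg r; have := norm_nonneg (g x); linarith))
        · exact hr.norm.eventually (gt_mem_nhds (by
            have := norm_nonneg l; have := norm_nonneg (g x); linarith))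
      rw [eventually_nhdsWithin_iff] at hx
      refine ⟨_, nhdsWithin_le_nhds hx, ‖l‖ + ‖r‖ + ‖g x‖ + 1, by positivity, fun z hz => ?_⟩
      by_cases hzx : z = x
      · rw [hzx]; have := norm_nonneg r; have := norm_nonneg l; linarith
      · exact (hz hzx).le)
  obtain ⟨γ, hγ, h⟩ := this
  exact ⟨γ, hγ, fun z => h z trivial⟩

lemma countable_disc {f : ℝ → ℂ} (hf : ∀ x, ∃ r, Tendsto f (𝓝[>] x) (𝓝 r)) :
    Set.Countable {x | ¬ ContinuousAt f x} := by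
  let S : ℕ → Set ℝ := fun n => {x | ¬ ∀ᶠ y in 𝓝 x, dist (f y) (f x) < 1 / ((n:ℝ) + 1)}
  have h1 : {x | ¬ ContinuousAt f x} ⊆ ⋃ n, S n := by
    intro x hx
    by_contra hc
    apply hx
    rw [ContinuousAt, Metric.tendsto_nhds]
    intro ε hε
    obtain ⟨n, hn⟩ := exists_nat_one_div_lt hε
    have : x ∉ S n := fun h => hc (Set.mem_iUnion.2 ⟨n, h⟩)
    simp only [S, Set.mem_setOf_eq, not_not] at this
    exact this.mono fun y hy => hy.trans hn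
  refine (Set.countable_iUnion fun n => ?_).mono h1
  refine (countable_setOfPred_isolated_right_within (s := S n)).mono ?_
  intro x hx
  refine ⟨hx, ?_⟩
  obtain ⟨r, hr⟩ := hf x
  have hp : (0:ℝ) < 1 / ((n:ℝ) + 1) / 2 := by positivity
  have h2 := Metric.tendsto_nhds.1 hr _ hp
  obtain ⟨u, hu, hsub⟩ := (mem_nhdsGT_iff_exists_Ioo_subset).1 h2
  have h3 : ∀ᶠ y in 𝓝[>] x, y ∉ S n := by
    filter_upwards [Ioo_mem_nhdsGT hu] with y hy hyS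
    apply hyS
    filter_upwards [Ioo_mem_nhds hy.1 hy.2] with z hz
    have a1 : dist (f z) r < _ := hsub hz
    have a2 : dist (f y) r < _ := hsub hy
    have := dist_triangle_right (f z) (f y) r
    linarith
  rw [← empty_mem_iff_bot]
  have h4 : 𝓝[S n ∩ Set.Ioi x] x ≤ 𝓝[>] x := nhdsWithin_mono _ Set.inter_subset_right
  filter_upwards [h4 h3, self_mem_nhdsWithin] with y hy hy2
  exact hy hy2.1

lemma Reg.meas_coe {g : Cir → ℂ} (hg : Reg g) : Measurable (fun s : ℝ => g s) :=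
  measurable_of_countable_not_continuousAt (countable_disc fun x => (hg x).2)

lemma Reg.meas {g : Cir → ℂ} (hg : Reg g) : Measurable g :=
  measurable_from_quotient.2 hg.meas_coe

lemma Reg.add {g h : Cir → ℂ} (hg : Reg g) (hh : Reg h) : Reg (fun z => g z + h z) := by
  intro x
  obtain ⟨⟨l, hl⟩, ⟨r, hr⟩⟩ := hg x
  obtain ⟨⟨l', hl'⟩, ⟨r', hr'⟩⟩ := hh x
  exact ⟨⟨_, hl.add hl'⟩, ⟨_, hr.add hr'⟩⟩

lemma Reg.sub {g h : Cir → ℂ} (hg : Reg g) (hh : Reg h) : Reg (fun z => g z - h z) := by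
  intro x
  obtain ⟨⟨l, hl⟩, ⟨r, hr⟩⟩ := hg x
  obtain ⟨⟨l', hl'⟩, ⟨r', hr'⟩⟩ := hh x
  exact ⟨⟨_, hl.sub hl'⟩, ⟨_, hr.sub hr'⟩⟩

lemma Reg.mul {g h : Cir → ℂ} (hg : Reg g) (hh : Reg h) : Reg (fun z => g z * h z) := by
  intro x
  obtain ⟨⟨l, hl⟩, ⟨r, hr⟩⟩ := hg x
  obtain ⟨⟨l', hl'⟩, ⟨r', hr'⟩⟩ := hh x
  exact ⟨⟨_, hl.mul hl'⟩, ⟨_, hr.mul hr'⟩⟩

lemma lim_conj {f : ℝ → ℂ} {l : Filter ℝ} {c : ℂ} (h : Tendsto f l (𝓝 c)) :
    Tendsto (fun s => (starRingEnd ℂ) (f s)) l (𝓝 ((starRingEnd ℂ) c)) :=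
  (Complex.continuous_conj.tendsto c).comp h

lemma Reg.conj {g : Cir → ℂ} (hg : Reg g) : Reg (fun z => (starRingEnd ℂ) (g z)) := by
  intro x
  obtain ⟨⟨l, hl⟩, ⟨r, hr⟩⟩ := hg x
  exact ⟨⟨_, lim_conj hl⟩, ⟨_, lim_conj hr⟩⟩

/-- non-zero one-sided limits -/
def NZ (g : Cir → ℂ) : Prop := ∀ x : ℝ, ¬ LimL g x 0 ∧ ¬ LimR g x 0

lemma Reg.inv {g : Cir → ℂ} (hg : Reg g) (hn : NZ g) : Reg (fun z => (g z)⁻¹) := by
  intro x
  obtain ⟨⟨l, hl⟩, ⟨r, hr⟩⟩ := hg x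
  refine ⟨⟨_, hl.inv₀ ?_⟩, ⟨_, hr.inv₀ ?_⟩⟩
  · rintro rfl; exact (hn x).1 hl
  · rintro rfl; exact (hn x).2 hr

lemma limL_cont {g : Cir → ℂ} (hg : Continuous g) (x : ℝ) : LimL g x (g x) :=
  ((hg.comp cont_coe).tendsto x).mono_left nhdsWithin_le_nhds

lemma limR_cont {g : Cir → ℂ} (hg : Continuous g) (x : ℝ) : LimR g x (g x) :=
  ((hg.comp cont_coe).tendsto x).mono_left nhdsWithin_le_nhds

lemma reg_cont {g : Cir → ℂ} (hg : Continuous g) : Reg g :=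
  fun x => ⟨⟨_, limL_cont hg x⟩, ⟨_, limR_cont hg x⟩⟩

end Pool.Agent.H783Z.SIO
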