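import Pool.Agent.H783Z.SIOPhi
import Pool.Agent.H783Z.SIOMul

set_option autoImplicit false
open MeasureTheory Filter Topology Set Real ComplexConjugate

namespace Pool.Agent.H783Z.SIO

def Rep (x : ℝ) (f : H) (F : ℝ → ℂ) : Prop :=
  ∀ᵐ t ∂(volume.restrict (Ioc (0:ℝ) 1)), f ((x + t : ℝ) : Cir) = F t

lemma mp_shift (x : ℝ) :
    MeasurePreserving (fun t : ℝ => ((x + t : ℝ) : Cir)) (volume.restrict (Ioc (0:ℝ) 1)) mu := by
  have h1 := AddCircle.measurePreserving_mk (1:ℝ) 0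
  rw [zero_add, ← mu_eq] at h1
  exact (measurePreserving_add_left mu (x : Cir)).comp h1

lemma rep_of_ae {x : ℝ} {f : H} {g : Cir → ℂ} (h : f =ᵐ[mu] g) :
    Rep x f (fun t => g ((x + t : ℝ) : Cir)) :=
  (mp_shift x).quasiMeasurePreserving.ae h

lemma exists_rep (x : ℝ) {F : ℝ → ℂ} (hF : MemLp F 2 (volume.restrict (Ioc (0:ℝ) 1))) :
    ∃ f : H, Rep x f F := by
  have h1 : MemLp (AddCircle.liftIoc (1:ℝ) 0 F) 2 mu := by
    rw [mu_eq]; exact MemLp.memLp_liftIoc (by rwa [zero_add])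
  have h2 := h1.comp_measurePreserving (measurePreserving_sub_right mu (x : Cir))
  refine ⟨h2.toLp, ?_⟩
  filter_upwards [rep_of_ae (x := x) h2.coeFn_toLp, ae_restrict_mem measurableSet_Ioc] with t h3 ht
  rw [h3, Function.comp_apply, AddCircle.coe_add, add_sub_cancel_left,
    AddCircle.liftIoc_coe_apply (by rwa [zero_add])]

lemma Rep.add {x : ℝ} {f g : H} {F G : ℝ → ℂ} (hf : Rep x f F) (hg : Rep x g G) :
    Rep x (f + g) (fun t => F t + G t) := by
  filter_upwards [hf, hg, rep_of_ae (x := x) (Lp.coeFn_add f g)] with t h1 h2 h3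
  rw [h3, Pi.add_apply, h1, h2]

lemma Rep.mul {x : ℝ} {f : H} {F : ℝ → ℂ} {g : Cir → ℂ} {M : Op} (hM : IsMul g M)
    (hf : Rep x f F) : Rep x (M f) (fun t => g ((x + t : ℝ) : Cir) * F t) := by
  filter_upwards [hf, rep_of_ae (x := x) (hM f)] with t h1 h3
  rw [h3, h1]

lemma int_shift (x : ℝ) (h : Cir → ℂ) :
    ∫ z, h z ∂mu = ∫ t in Ioc (0:ℝ) 1, h ((x + t : ℝ) : Cir) := by
  rw [← integral_add_left_eq_self _ (x : Cir), mu_eq,
    ← AddCircle.integral_preimage (1:ℝ) 0, zero_add]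
  rfl

lemma Rep.inner {x : ℝ} {f g : H} {F G : ℝ → ℂ} (hf : Rep x f F) (hg : Rep x g G) :
    inner ℂ f g = ∫ t in (0:ℝ)..1, conj (F t) * G t := by
  rw [inner_eq, int_shift x, intervalIntegral.integral_of_le zero_le_one]
  apply integral_congr_ae
  filter_upwards [hf, hg] with t h1 h2
  rw [← h1, ← h2]

lemma rep_ee (x : ℝ) (n : ℤ) : Rep x (ee n) (fun t => ex n x * ex n t) := by
  filter_upwards [rep_of_ae (x := x) (coeFn_fourierLp (T := (1:ℝ)) 2 n)] with t ht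
  rw [ht, fourier_coe_apply]
  unfold ex
  rw [← Complex.exp_add]; congr 1; push_cast; ring

lemma memLp_EE {s : ℂ} (hs : 2 * s.re < 1) {G : ℝ → ℂ} (hG : Continuous G) :
    MemLp (fun t => EE s t * G t) 2 (volume.restrict (Ioc (0:ℝ) 1)) := by
  refine (memLp_two_iff_integrable_sq_norm
    ((meas_EE s).mul hG.measurable).aestronglyMeasurable).2 ?_
  have := ((w_int hs).mul_continuousOn (g := fun t => ‖G t‖ ^ 2) (by fun_prop)).1
  refine this.congr (Eventually.of_forall fun t => ?_)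
  simp only [Pi.mul_apply, norm_mul, norm_EE, mul_pow, w]
  rw [← Real.exp_nat_mul]; congr 2; push_cast; ring

noncomputable def sp (ξ p : ℝ) : ℂ := ((p / 2 : ℝ) : ℂ) + ξ * Complex.I

lemma sp_re (ξ p : ℝ) : (sp ξ p).re = p / 2 := by simp [sp]

lemma cont_sp (ξ : ℝ) : Continuous (sp ξ) := by unfold sp; fun_prop

noncomputable def cN (p : ℝ) : ℝ := (Real.sqrt (NN p))⁻¹

noncomputable def UU (ξ : ℝ) (a : ℂ) (q : ℝ × ℝ) : ℂ := a * ph (sp ξ q.1) q.2

noncomputable def VV (ξ : ℝ) (b : ℂ) (q : ℝ × ℝ) : ℂ := b * (ex (-1) q.2 * ph (-sp ξ q.1) q.2)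

noncomputable def zeta (ξ : ℝ) : ℂ := ph (sp ξ 1) 0

lemma cont_UU (ξ : ℝ) (a : ℂ) : Continuous (UU ξ a) := by
  unfold UU ph sp; fun_prop

lemma cont_VV (ξ : ℝ) (b : ℂ) : Continuous (VV ξ b) := by
  unfold VV ph sp ex; fun_prop

lemma UU0 (ξ : ℝ) (a : ℂ) : UU ξ a (1, 0) = a * zeta ξ := rfl

lemma UU1 (ξ : ℝ) (a : ℂ) : UU ξ a (1, 1) = a * (zeta ξ)⁻¹ := by
  unfold UU zeta ph; rw [← Complex.exp_neg]; congr 2; push_cast; ring

lemma VV0 (ξ : ℝ) (b : ℂ) : VV ξ b (1, 0) = b * (zeta ξ)⁻¹ := by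
  unfold VV zeta ph ex; rw [← Complex.exp_neg, ← Complex.exp_add]; congr 2; push_cast; ring

lemma VV1 (ξ : ℝ) (b : ℂ) : VV ξ b (1, 1) = b * zeta ξ := by
  unfold VV zeta ph ex
  have : Complex.exp (2 * π * Complex.I * (-1 : ℤ) * (1:ℝ)) = 1 := by
    have := Complex.exp_int_mul_two_pi_mul_I (-1)
    rw [← this]; congr 1; push_cast; ring
  simp only [this, one_mul]
  congr 2; push_cast; ring

lemma zeta_eq (ξ : ℝ) : zeta ξ = Complex.exp (((-(π * ξ / 2) : ℝ) : ℂ) + (π / 4 : ℝ) * Complex.I) := by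
  unfold zeta ph sp; congr 1; push_cast
  linear_combination (π * ξ / 2 : ℂ) * Complex.I_mul_I

lemma exists_zeta {m : ℝ} (hm : 0 < m) :
    ∃ ξ : ℝ, Complex.normSq (zeta ξ) = m ∧ (zeta ξ) ^ 4 = -(m : ℂ) ^ 2 := by
  refine ⟨-Real.log m / π, ?_, ?_⟩
  · rw [zeta_eq, Complex.normSq_eq_norm_sq, Complex.norm_exp, ← Real.exp_nat_mul]
    conv_rhs => rw [← Real.exp_log hm]
    congr 1
    simp
    field_simp
  · rw [zeta_eq, ← Complex.exp_nat_mul]
    conv_rhs => rw [← Real.exp_log hm, Complex.ofReal_exp, ← Complex.exp_nat_mul, ← mul_neg_one,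
      ← Complex.exp_pi_mul_I, ← Complex.exp_add]
    congr 1
    have : (π : ℂ) ≠ 0 := by exact_mod_cast Real.pi_ne_zero
    push_cast
    field_simp
    ring

lemma exists_uv {S : Op} (hS : IsS S) (x ξ : ℝ) (a b : ℂ) (p : ℝ) : ∃ u v : H, p < 1 →
    Rep x u (fun t => EE (sp ξ p) t * (cN p * UU ξ a (p, t))) ∧
    Rep x v (fun t => EE (sp ξ p) t * (cN p * VV ξ b (p, t))) ∧ S u = u ∧ S v = -v := by
  by_cases hp : p < 1
  swap
  · exact ⟨0, 0, fun h => absurd h hp⟩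
  have hs : 2 * (sp ξ p).re < 1 := by rw [sp_re]; linarith
  have hs' : (sp ξ p).re < 1 := by rw [sp_re]; linarith
  obtain ⟨u, hu⟩ := exists_rep x (memLp_EE hs (G := fun t => cN p * UU ξ a (p, t))
    (continuous_const.mul ((cont_UU ξ a).comp (Continuous.prodMk_right p))))
  obtain ⟨v, hv⟩ := exists_rep x (memLp_EE hs (G := fun t => cN p * VV ξ b (p, t))
    (continuous_const.mul ((cont_VV ξ b).comp (Continuous.prodMk_right p))))
  refine ⟨u, v, fun _ => ⟨hu, hv, hS.fix fun n hn => ?_, hS.neg fun n hn => ?_⟩⟩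
  · rw [(rep_ee x n).inner hu]
    have := vanish (k := -n) (by omega) hs'
    rw [← mul_zero (conj (ex n x) * cN p * a), ← this, ← intervalIntegral.integral_const_mul]
    congr 1; ext t
    rw [map_mul, conj_ex n t]; unfold UU; ring
  · rw [(rep_ee x n).inner hv]
    have := vanish' (k := n + 1) (by omega) hs'
    rw [← mul_zero (conj (ex n x) * cN p * b), ← this, ← intervalIntegral.integral_const_mul]
    congr 1; ext t
    rw [map_mul, conj_ex n t, neg_add, ex_add]; unfold VV; ring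

lemma bound_UV (ξ : ℝ) (a b : ℂ) : ∃ B : ℝ, 0 ≤ B ∧ ∀ p ∈ Ioo (0:ℝ) 1, ∀ t ∈ Icc (0:ℝ) 1,
    ‖UU ξ a (p, t)‖ ≤ B ∧ ‖VV ξ b (p, t)‖ ≤ B := by
  have hK : IsCompact (Icc (0:ℝ) 1 ×ˢ Icc (0:ℝ) 1) := isCompact_Icc.prod isCompact_Icc
  obtain ⟨B, hB⟩ := hK.exists_bound_of_continuousOn (cont_UU ξ a).continuousOn
  obtain ⟨B', hB'⟩ := hK.exists_bound_of_continuousOn (cont_VV ξ b).continuousOn
  refine ⟨|B| + |B'|, by positivity, fun p hp t ht => ⟨?_, ?_⟩⟩
  · have := hB (p, t) ⟨Ioo_subset_Icc_self hp, ht⟩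
    linarith [le_abs_self B, abs_nonneg B']
  · have := hB' (p, t) ⟨Ioo_subset_Icc_self hp, ht⟩
    linarith [le_abs_self B', abs_nonneg B]

lemma cN_tendsto : Tendsto cN (𝓝[<] 1) (𝓝 0) := by
  have := (Real.continuous_sqrt.tendsto 0).comp NN_inv_tendsto
  rw [Real.sqrt_zero] at this
  exact this.congr fun p => by simp [cN, Real.sqrt_inv]

lemma w_half_le {p : ℝ} (hp : p ∈ Ioo (0:ℝ) 1) (t : ℝ) : w (p / 2) t ≤ 1 + w (1/2) t := by
  have h1 := w_pos (1/2) t
  rcases le_total 0 (ell t) with h | h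
  · have : w (p / 2) t ≤ 1 := by
      unfold w; rw [Real.exp_le_one_iff]; nlinarith [hp.1]
    linarith
  · have : w (p / 2) t ≤ w (1/2) t := by
      unfold w; apply Real.exp_le_exp.2; nlinarith [hp.2]
    linarith

lemma norm_ex (k : ℤ) (t : ℝ) : ‖ex k t‖ = 1 := by
  unfold ex; rw [Complex.norm_exp]; simp

lemma tendsto_add_R (x : ℝ) : Tendsto (fun t : ℝ => x + t) (𝓝[>] 0) (𝓝[>] x) := by
  refine tendsto_nhdsWithin_iff.2 ⟨?_, ?_⟩
  · have : Continuous (fun t : ℝ => x + t) := by fun_prop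
    simpa using (this.tendsto 0).mono_left nhdsWithin_le_nhds
  · filter_upwards [self_mem_nhdsWithin] with t ht
    simpa using ht

lemma tendsto_sub_L (x : ℝ) : Tendsto (fun t : ℝ => x - t) (𝓝[>] 0) (𝓝[<] x) := by
  refine tendsto_nhdsWithin_iff.2 ⟨?_, ?_⟩
  · have : Continuous (fun t : ℝ => x - t) := by fun_prop
    simpa using (this.tendsto 0).mono_left nhdsWithin_le_nhds
  · filter_upwards [self_mem_nhdsWithin] with t ht
    simpa using ht

lemma lim_at0 {g : Cir → ℂ} {x : ℝ} {c : ℂ} (h : LimR g x c) :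
    Tendsto (fun q : ℝ × ℝ => g ((x + q.2 : ℝ) : Cir)) (𝓝[<] 1 ×ˢ 𝓝[>] 0) (𝓝 c) :=
  (h.comp (tendsto_add_R x)).comp tendsto_snd

lemma lim_at1 {g : Cir → ℂ} {x : ℝ} {c : ℂ} (h : LimL g x c) :
    Tendsto (fun q : ℝ × ℝ => g ((x + (1 - q.2) : ℝ) : Cir)) (𝓝[<] 1 ×ˢ 𝓝[>] 0) (𝓝 c) := by
  refine ((h.comp (tendsto_sub_L x)).comp tendsto_snd).congr fun q => ?_
  have : x + (1 - q.2) = (x - q.2) + 1 := by ring
  rw [this, AddCircle.coe_add_period]; rfl

lemma cont_at0 {U : ℝ × ℝ → ℂ} (hU : Continuous U) :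
    Tendsto (fun q : ℝ × ℝ => U (q.1, q.2)) (𝓝[<] 1 ×ˢ 𝓝[>] 0) (𝓝 (U (1, 0))) := by
  refine (hU.tendsto (1, 0)).mono_left ?_
  rw [nhds_prod_eq]
  exact Filter.prod_mono nhdsWithin_le_nhds nhdsWithin_le_nhds

lemma cont_at1 {U : ℝ × ℝ → ℂ} (hU : Continuous U) :
    Tendsto (fun q : ℝ × ℝ => U (q.1, 1 - q.2)) (𝓝[<] 1 ×ˢ 𝓝[>] 0) (𝓝 (U (1, 1))) := by
  have := cont_at0 (U := fun q => U (q.1, 1 - q.2)) (by fun_prop)
  simpa using this

lemma key {S : Op} (hS : IsS S) (x ξ : ℝ) (a b : ℂ) : ∃ u v : ℝ → H,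
    (∀ᶠ p in 𝓝[<] (1:ℝ), S (u p) = u p ∧ S (v p) = -v p) ∧
    (∀ n : ℤ, Tendsto (fun p => inner ℂ (ee n) (u p + v p)) (𝓝[<] 1) (𝓝 0)) ∧
    ∀ (C D : Cir → ℂ) (MC MD : Op) (cp dp cm dm : ℂ), Reg C → Reg D → IsMul C MC → IsMul D MD →
      LimR C x cp → LimR D x dp → LimL C x cm → LimL D x dm →
      Tendsto (fun p => inner ℂ (MC (u p) + MD (v p)) (u p + v p)) (𝓝[<] 1)
        (𝓝 (conj (cp * (a * zeta ξ) + dp * (b * (zeta ξ)⁻¹)) * (a * zeta ξ + b * (zeta ξ)⁻¹) +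
          conj (cm * (a * (zeta ξ)⁻¹) + dm * (b * zeta ξ)) * (a * (zeta ξ)⁻¹ + b * zeta ξ))) := by
  choose u v huv using exists_uv hS x ξ a b
  obtain ⟨B, hB0, hB⟩ := bound_UV ξ a b
  refine ⟨u, v, ev_Ioo.mono fun p hp => (huv p hp.2).2.2, fun n => ?_, ?_⟩
  · rw [tendsto_zero_iff_norm_tendsto_zero]
    have h1 := cN_tendsto.mul_const (∫ t in (0:ℝ)..1, 2 * B * (1 + w (1/2) t))
    rw [zero_mul] at h1
    refine squeeze_zero' (Eventually.of_forall fun _ => norm_nonneg _) ?_ h1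
    filter_upwards [ev_Ioo] with p hp
    obtain ⟨hu, hv, -⟩ := huv p hp.2
    rw [(rep_ee x n).inner (hu.add hv), ← intervalIntegral.integral_const_mul]
    apply intervalIntegral.norm_integral_le_of_norm_le zero_le_one _
      (((intervalIntegrable_const.add (w_int (by norm_num))).const_mul _).const_mul _)
    refine Eventually.of_forall fun t ht => ?_
    have hc : 0 ≤ cN p := by unfold cN; positivity
    rw [← mul_add, ← mul_add, norm_mul, Complex.norm_conj, norm_mul, norm_ex, norm_ex, norm_mul,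
      norm_mul, norm_EE, sp_re, Complex.norm_real, Real.norm_eq_abs, abs_of_nonneg hc]
    obtain ⟨h2, h3⟩ := hB p hp t ⟨ht.1.le, ht.2⟩
    have h4 : ‖UU ξ a (p, t) + VV ξ b (p, t)‖ ≤ 2 * B := (norm_add_le _ _).trans (by linarith)
    have h5 := w_half_le hp t
    have h6 := w_pos (p / 2) t
    have h7 : 0 ≤ 1 + w (1/2) t := by linarith
    calc _ ≤ 1 * 1 * ((1 + w (1/2) t) * (cN p * (2 * B))) := by gcongr
      _ = _ := by ring
  · intro C D MC MD cp dp cm dm hC hD hMC hMD h1 h2 h3 h4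
    obtain ⟨M, hM0, hM⟩ := hC.bdd
    obtain ⟨M', hM0', hM'⟩ := hD.bdd
    have := conc (G := fun p t => conj (C ((x + t : ℝ) : Cir) * UU ξ a (p, t) +
        D ((x + t : ℝ) : Cir) * VV ξ b (p, t)) * (UU ξ a (p, t) + VV ξ b (p, t)))
      (B := (M * B + M' * B) * (B + B))
      (fun p => by
        have m1 : Measurable fun t : ℝ => C ((x + t : ℝ) : Cir) :=
          hC.meas_coe.comp (measurable_const_add x)
        have m2 : Measurable fun t : ℝ => D ((x + t : ℝ) : Cir) :=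
          hD.meas_coe.comp (measurable_const_add x)
        have m3 : Measurable fun t : ℝ => UU ξ a (p, t) :=
          ((cont_UU ξ a).comp (Continuous.prodMk_right p)).measurable
        have m4 : Measurable fun t : ℝ => VV ξ b (p, t) :=
          ((cont_VV ξ b).comp (Continuous.prodMk_right p)).measurable
        exact (Complex.continuous_conj.measurable.comp ((m1.mul m3).add (m2.mul m4))).mul
          (m3.add m4))
      (fun p hp t ht => by
        obtain ⟨h5, h6⟩ := hB p hp t ht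
        rw [norm_mul, Complex.norm_conj]
        have h7 := hM ((x + t : ℝ) : Cir)
        have h8 := hM' ((x + t : ℝ) : Cir)
        gcongr
        · refine (norm_add_le _ _).trans ?_
          rw [norm_mul, norm_mul]
          gcongr
        · exact (norm_add_le _ _).trans (by gcongr))
      (((Complex.continuous_conj.tendsto _).comp
        (((lim_at0 h1).mul (cont_at0 (cont_UU ξ a))).add
          ((lim_at0 h2).mul (cont_at0 (cont_VV ξ b))))).mul
        ((cont_at0 (cont_UU ξ a)).add (cont_at0 (cont_VV ξ b))))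
      (((Complex.continuous_conj.tendsto _).comp
        (((lim_at1 h3).mul (cont_at1 (cont_UU ξ a))).add
          ((lim_at1 h4).mul (cont_at1 (cont_VV ξ b))))).mul
        ((cont_at1 (cont_UU ξ a)).add (cont_at1 (cont_VV ξ b))))
    rw [UU0, UU1, VV0, VV1] at this
    refine this.congr' ?_
    filter_upwards [ev_Ioo] with p hp
    obtain ⟨hu, hv, -⟩ := huv p hp.2
    rw [((hu.mul hMC).add (hv.mul hMD)).inner (hu.add hv), ← intervalIntegral.integral_const_mul]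
    congr 1; ext t
    have e1 := conj_EE_mul (sp ξ p) t
    rw [sp_re, mul_div_cancel₀ _ two_ne_zero] at e1
    have e2 : (((NN p)⁻¹ : ℝ) : ℂ) = cN p * cN p := by
      rw [← Complex.ofReal_mul]; congr 1
      unfold cN
      rw [← mul_inv, Real.mul_self_sqrt (NN_pos hp).le]
    rw [← e1, e2]
    simp only [map_add, map_mul, Complex.conj_ofReal]
    ring

end Pool.Agent.H783Z.SIO
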