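import Mathlib

set_option autoImplicit false
open MeasureTheory Filter Topology Set Real

namespace Pool.Agent.H783Z.SIO

noncomputable def ell (t : ℝ) : ℝ := Real.log (2 * Real.sin (π * t))

noncomputable def w (p t : ℝ) : ℝ := Real.exp (-p * ell t)

noncomputable def NN (p : ℝ) : ℝ := ∫ t in (0:ℝ)..(1/2), w p t

lemma meas_ell : Measurable ell := by unfold ell; fun_prop

lemma meas_w (p : ℝ) : Measurable (w p) := by
  unfold w; exact Real.measurable_exp.comp (meas_ell.const_mul _)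

lemma w_pos (p t : ℝ) : 0 < w p t := Real.exp_pos _

lemma ell_symm (t : ℝ) : ell (1 - t) = ell t := by
  unfold ell; rw [mul_sub, mul_one, Real.sin_pi_sub]

lemma w_symm (p t : ℝ) : w p (1 - t) = w p t := by unfold w; rw [ell_symm]

lemma sin_pos' {t : ℝ} (h0 : 0 < t) (h1 : t < 1) : 0 < 2 * Real.sin (π * t) := by
  have := Real.sin_pos_of_pos_of_lt_pi (x := π * t) (by positivity) (by nlinarith [Real.pi_pos])
  linarith

lemma ell_ge {t : ℝ} (h0 : 0 < t) (h1 : t ≤ 1/2) : Real.log t ≤ ell t := by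
  unfold ell
  apply Real.log_le_log h0
  have := Real.mul_le_sin (x := π * t) (by positivity) (by nlinarith [Real.pi_pos])
  have e : 2 / π * (π * t) = 2 * t := by field_simp
  linarith

lemma ell_le {t : ℝ} (h0 : 0 < t) (h1 : t < 1) : ell t ≤ Real.log 8 + Real.log t := by
  unfold ell
  rw [← Real.log_mul (by norm_num) h0.ne']
  apply Real.log_le_log (sin_pos' h0 h1)
  have := Real.sin_le (x := π * t) (by positivity)
  nlinarith [Real.pi_le_four]

lemma ell_le_two {t : ℝ} (h0 : 0 < t) (h1 : t < 1) : ell t ≤ Real.log 2 := by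
  unfold ell
  apply Real.log_le_log (sin_pos' h0 h1)
  linarith [Real.sin_le_one (π * t)]

lemma w_le_rpow {p t : ℝ} (hp : 0 ≤ p) (h0 : 0 < t) (h1 : t ≤ 1/2) : w p t ≤ t ^ (-p) := by
  rw [Real.rpow_def_of_pos h0]
  unfold w
  apply Real.exp_le_exp.2
  have := ell_ge h0 h1
  nlinarith

lemma w_int_half {p : ℝ} (hp : p < 1) : IntervalIntegrable (w p) volume 0 (1/2) := by
  rcases le_total 0 p with h | h
  · refine (intervalIntegral.intervalIntegrable_rpow' (r := -p) (by linarith)).mono_fun'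
      (meas_w p).aestronglyMeasurable ?_
    rw [uIoc_of_le (by norm_num)]
    refine (ae_restrict_iff' measurableSet_Ioc).2 (Eventually.of_forall fun t ht => ?_)
    simp only [Real.norm_eq_abs, abs_of_pos (w_pos p t)]
    exact w_le_rpow h ht.1 ht.2
  · refine (intervalIntegrable_const (c := Real.exp (-p * Real.log 2))).mono_fun'
      (meas_w p).aestronglyMeasurable ?_
    rw [uIoc_of_le (by norm_num)]
    refine (ae_restrict_iff' measurableSet_Ioc).2 (Eventually.of_forall fun t ht => ?_)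
    simp only [Real.norm_eq_abs, abs_of_pos (w_pos p t)]
    apply Real.exp_le_exp.2
    have := ell_le_two ht.1 (by linarith [ht.2])
    nlinarith

lemma w_int {p : ℝ} (hp : p < 1) : IntervalIntegrable (w p) volume 0 1 := by
  refine (w_int_half hp).trans ?_
  have := ((w_int_half hp).comp_sub_left 1).symm
  simp only [w_symm] at this
  convert this using 1 <;> norm_num

lemma NN_ge {p : ℝ} (h0 : 0 < p) (hp : p < 1) : 1 / (16 * (1 - p)) ≤ NN p := by
  have h1 : ∫ t in (0:ℝ)..(1/2), (1/8) * t ^ (-p) ≤ NN p := by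
    apply intervalIntegral.integral_mono_on_of_le_Ioo (by norm_num)
      ((intervalIntegral.intervalIntegrable_rpow' (r := -p) (by linarith)).const_mul _)
      (w_int_half hp)
    intro t ht
    rw [Real.rpow_def_of_pos ht.1]
    have e : (1/8 : ℝ) = Real.exp (-Real.log 8) := by
      rw [Real.exp_neg, Real.exp_log (by norm_num)]; norm_num
    rw [e, ← Real.exp_add]
    apply Real.exp_le_exp.2
    have := ell_le ht.1 (by linarith [ht.2])
    have h8 : 0 < Real.log 8 := Real.log_pos (by norm_num)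
    nlinarith
  refine le_trans ?_ h1
  rw [intervalIntegral.integral_const_mul, integral_rpow (Or.inl (by linarith)),
    Real.zero_rpow (by linarith), sub_zero]
  have h2 : (1/2 : ℝ) ≤ (1/2 : ℝ) ^ (-p + 1) := by
    conv_lhs => rw [← Real.rpow_one (1/2 : ℝ)]
    exact Real.rpow_le_rpow_of_exponent_ge (by norm_num) (by norm_num) (by linarith)
  have h3 : 0 < 1 - p := by linarith
  have e : -p + 1 = 1 - p := by ring
  rw [e] at h2 ⊢
  rw [div_le_iff₀ (by positivity)]
  field_simp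
  linarith

lemma ev_Ioo : ∀ᶠ p in 𝓝[<] (1:ℝ), p ∈ Ioo (0:ℝ) 1 := Ioo_mem_nhdsLT one_pos

lemma NN_pos {p : ℝ} (hp : p ∈ Ioo (0:ℝ) 1) : 0 < NN p := by
  have := NN_ge hp.1 hp.2
  have h3 : 0 < 1 - p := by linarith [hp.2]
  exact lt_of_lt_of_le (by positivity) this

lemma NN_inv_tendsto : Tendsto (fun p => (NN p)⁻¹) (𝓝[<] 1) (𝓝 0) := by
  have h1 : Tendsto (fun p : ℝ => 16 * (1 - p)) (𝓝[<] 1) (𝓝 0) := by
    have : Continuous (fun p : ℝ => 16 * (1 - p)) := by fun_prop
    simpa using (this.tendsto 1).mono_left nhdsWithin_le_nhds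
  refine squeeze_zero' (ev_Ioo.mono fun p hp => (inv_pos.2 (NN_pos hp)).le)
    (ev_Ioo.mono fun p hp => ?_) h1
  have h3 : 0 < 1 - p := by linarith [hp.2]
  have := inv_anti₀ (by positivity) (NN_ge hp.1 hp.2)
  simpa using this

lemma w_le_far {p t δ : ℝ} (hp : p ∈ Ioo (0:ℝ) 1) (hδ : 0 < δ) (h0 : δ ≤ t) (h1 : t ≤ 1/2) :
    w p t ≤ δ⁻¹ := by
  have ht : 0 < t := by linarith
  refine (w_le_rpow hp.1.le ht h1).trans ?_
  calc t ^ (-p) ≤ t ^ (-1 : ℝ) :=
        Real.rpow_le_rpow_of_exponent_ge ht (by linarith) (by linarith [hp.2])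
    _ = t⁻¹ := Real.rpow_neg_one t
    _ ≤ δ⁻¹ := inv_anti₀ hδ h0

lemma int_wG {G : ℝ → ℂ} {p B a b : ℝ} (hab : a ≤ b) (hw : IntervalIntegrable (w p) volume a b)
    (hm : Measurable G) (hb : ∀ t ∈ Ioc a b, ‖G t‖ ≤ B) :
    IntervalIntegrable (fun t => (w p t : ℂ) * G t) volume a b := by
  refine (hw.mul_const B).mono_fun'
    (((Complex.measurable_ofReal.comp (meas_w p)).mul hm).aestronglyMeasurable) ?_
  rw [uIoc_of_le hab]
  refine (ae_restrict_iff' measurableSet_Ioc).2 (Eventually.of_forall fun t ht => ?_)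
  simp only [norm_mul, Complex.norm_real, Real.norm_eq_abs, abs_of_pos (w_pos p t)]
  exact mul_le_mul_of_nonneg_left (hb t ht) (w_pos p t).le

lemma conc_half {G : ℝ → ℝ → ℂ} {B : ℝ} {L : ℂ} (hm : ∀ p, Measurable (G p))
    (hb : ∀ p ∈ Ioo (0:ℝ) 1, ∀ t ∈ Ioc (0:ℝ) (1/2), ‖G p t‖ ≤ B)
    (hl : Tendsto (fun q : ℝ × ℝ => G q.1 q.2) (𝓝[<] 1 ×ˢ 𝓝[>] 0) (𝓝 L)) :
    Tendsto (fun p => (((NN p)⁻¹ : ℝ) : ℂ) * ∫ t in (0:ℝ)..(1/2), (w p t : ℂ) * G p t)
      (𝓝[<] 1) (𝓝 L) := by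
  rw [Metric.tendsto_nhds]
  intro ε hε
  have h1 := Metric.tendsto_nhds.1 hl (ε / 2) (by positivity)
  obtain ⟨P, hP, Q, hQ, hPQ⟩ := eventually_prod_iff.1 h1
  obtain ⟨δ, hδ, hsub⟩ := mem_nhdsGT_iff_exists_Ioo_subset.1 hQ
  have hδ0 : 0 < δ := hδ
  set K : ℝ := δ⁻¹ * (|B| + ‖L‖) with hK
  have hK0 : 0 ≤ K := by positivity
  have h2 : ∀ᶠ p in 𝓝[<] (1:ℝ), (NN p)⁻¹ * K < ε / 2 := by
    have := NN_inv_tendsto.mul_const K
    rw [zero_mul] at this
    exact this.eventually (gt_mem_nhds (by positivity))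
  filter_upwards [hP, h2, ev_Ioo] with p hp hp2 hp3
  have hN := NN_pos hp3
  have hi1 := int_wG (by norm_num) (w_int_half hp3.2) (hm p) (hb p hp3)
  have hi2 : IntervalIntegrable (fun t => (w p t : ℂ) * L) volume 0 (1/2) :=
    int_wG (B := ‖L‖) (by norm_num) (w_int_half hp3.2) measurable_const (fun _ _ => le_rfl)
  have e1 : ∫ t in (0:ℝ)..(1/2), (w p t : ℂ) * L = NN p * L := by
    rw [intervalIntegral.integral_mul_const, intervalIntegral.integral_ofReal]; rfl
  have e2 : (((NN p)⁻¹ : ℝ) : ℂ) * (∫ t in (0:ℝ)..(1/2), (w p t : ℂ) * G p t) - L =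
      (((NN p)⁻¹ : ℝ) : ℂ) * ∫ t in (0:ℝ)..(1/2), ((w p t : ℂ) * G p t - (w p t : ℂ) * L) := by
    rw [intervalIntegral.integral_sub hi1 hi2, e1]
    have : (NN p : ℂ) ≠ 0 := by exact_mod_cast hN.ne'
    push_cast
    field_simp
  have h3 : ‖∫ t in (0:ℝ)..(1/2), ((w p t : ℂ) * G p t - (w p t : ℂ) * L)‖ ≤
      ∫ t in (0:ℝ)..(1/2), (ε / 2 * w p t + K) := by
    apply intervalIntegral.norm_integral_le_of_norm_le (by norm_num) _
      (((w_int_half hp3.2).const_mul _).add intervalIntegrable_const)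
    refine Eventually.of_forall fun t ht => ?_
    rw [← mul_sub, norm_mul, Complex.norm_real, Real.norm_eq_abs, abs_of_pos (w_pos p t)]
    have hw := w_pos p t
    by_cases htd : t < δ
    · have := hPQ hp (hsub ⟨ht.1, htd⟩)
      rw [dist_eq_norm] at this
      nlinarith
    · push Not at htd
      have h4 := w_le_far hp3 hδ0 htd ht.2
      have h5 : ‖G p t - L‖ ≤ |B| + ‖L‖ :=
        (norm_sub_le _ _).trans (by gcongr; exact (hb p hp3 t ht).trans (le_abs_self B))
      have : w p t * ‖G p t - L‖ ≤ K := by rw [hK]; gcongr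
      nlinarith
  rw [intervalIntegral.integral_add ((w_int_half hp3.2).const_mul _) intervalIntegrable_const,
    intervalIntegral.integral_const_mul, intervalIntegral.integral_const] at h3
  rw [dist_eq_norm, e2, norm_mul, Complex.norm_real, Real.norm_eq_abs, abs_of_pos (inv_pos.2 hN)]
  have h6 : (NN p)⁻¹ * (ε / 2 * NN p + K) = ε / 2 + (NN p)⁻¹ * K := by field_simp
  calc _ ≤ (NN p)⁻¹ * (ε / 2 * NN p + K) := by
        gcongr
        refine h3.trans ?_
        simp only [smul_eq_mul]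
        unfold NN
        nlinarith
    _ < ε := by rw [h6]; linarith

lemma conc {G : ℝ → ℝ → ℂ} {B : ℝ} {L L' : ℂ} (hm : ∀ p, Measurable (G p))
    (hb : ∀ p ∈ Ioo (0:ℝ) 1, ∀ t ∈ Icc (0:ℝ) 1, ‖G p t‖ ≤ B)
    (hl : Tendsto (fun q : ℝ × ℝ => G q.1 q.2) (𝓝[<] 1 ×ˢ 𝓝[>] 0) (𝓝 L))
    (hl' : Tendsto (fun q : ℝ × ℝ => G q.1 (1 - q.2)) (𝓝[<] 1 ×ˢ 𝓝[>] 0) (𝓝 L')) :
    Tendsto (fun p => (((NN p)⁻¹ : ℝ) : ℂ) * ∫ t in (0:ℝ)..1, (w p t : ℂ) * G p t)
      (𝓝[<] 1) (𝓝 (L + L')) := by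
  have h1 := conc_half hm (B := B)
    (fun p hp t ht => hb p hp t ⟨ht.1.le, by linarith [ht.2]⟩) hl
  have h2 := conc_half (G := fun p t => G p (1 - t)) (B := B)
    (fun p => (hm p).comp (measurable_const.sub measurable_id))
    (fun p hp t ht => hb p hp _ ⟨by linarith [ht.2], by linarith [ht.1]⟩) hl'
  refine (h1.add h2).congr' ?_
  filter_upwards [ev_Ioo] with p hp
  rw [← mul_add]
  congr 1
  have hi : IntervalIntegrable (fun t => (w p t : ℂ) * G p t) volume 0 1 :=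
    int_wG zero_le_one (w_int hp.2) (hm p) (fun t ht => hb p hp t ⟨ht.1.le, ht.2⟩)
  have e : ∫ t in (0:ℝ)..(1/2), (w p t : ℂ) * G p (1 - t) =
      ∫ t in (1/2:ℝ)..1, (w p t : ℂ) * G p t := by
    have := intervalIntegral.integral_comp_sub_left (a := 0) (b := 1/2)
      (fun t => (w p t : ℂ) * G p t) 1
    simp only [w_symm] at this
    rw [this]; norm_num
  rw [e]
  apply intervalIntegral.integral_add_adjacent_intervals
  · exact hi.mono_set (by rw [uIcc_of_le (by norm_num), uIcc_of_le (by norm_num)]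
                          exact Icc_subset_Icc le_rfl (by norm_num))
  · exact hi.mono_set (by rw [uIcc_of_le (by norm_num), uIcc_of_le (by norm_num)]
                          exact Icc_subset_Icc (by norm_num) le_rfl)

end Pool.Agent.H783Z.SIO
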